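import Pool.Agent.Lib.MP_21c19e_al.Defs

set_option autoImplicit false

/-!
Z21-Bounded. A p-bounded nontrivial subgroup has a proper normal subgroup of finite index.
Proof. |.| = padicNorm p. Suppose not PUnb: all entries of all h ∈ H have |h i j| ≤ p^K.
For M : ℕ let N_M = {h ∈ H : |h i j - (1 : matrix) i j| ≤ p^(-M) for all i j}: a subgroup of H (M ≥ 0).
Finite index: if h, h' ∈ H and |h i j - h' i j| ≤ p^(-(M+K)) then h⁻¹h' - 1 = h⁻¹(h'-h) has entries ≤ p^(-M), so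
the same coset; the number of classes of matrices with entries ≤ p^K modulo p^(M+K) is finite (map h to the residues of
p^K h i j in ZMod (p^(M+2K)), e.g. via PadicInt.toZModPow, and use an injection of the quotient H/N_M, Quotient.out).
Its normal core is normal of finite index (Subgroup.normalCore, Subgroup.finiteIndex_normalCore), so by hfin it is ⊤ and
N_M = ⊤. For all M: h = 1 for all h ∈ H.
-/

namespace Pool.Agent.MP_21c19e_al

private noncomputable def bres (p : ℕ) [Fact p.Prime] (n : ℕ) (x : ℚ) : ZMod (p ^ n) :=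
  if hx : ‖(x : ℚ_[p])‖ ≤ 1 then PadicInt.toZModPow n ⟨(x : ℚ_[p]), hx⟩ else 0

private theorem bres_eq (p : ℕ) [Fact p.Prime] (n : ℕ) {x y : ℚ} (hx : padicNorm p x ≤ 1)
    (hy : padicNorm p y ≤ 1) (h : bres p n x = bres p n y) :
    padicNorm p (x - y) ≤ ((p : ℚ) ^ n)⁻¹ := by
  have hx' : ‖(x : ℚ_[p])‖ ≤ 1 := by
    rw [Padic.eq_padicNorm]; exact_mod_cast hx
  have hy' : ‖(y : ℚ_[p])‖ ≤ 1 := by
    rw [Padic.eq_padicNorm]; exact_mod_cast hy
  rw [bres, bres, dif_pos hx', dif_pos hy'] at h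
  have h1 : (⟨(x : ℚ_[p]), hx'⟩ - ⟨(y : ℚ_[p]), hy'⟩ : ℤ_[p]) ∈
      RingHom.ker (PadicInt.toZModPow (p := p) n) := by
    rw [RingHom.mem_ker, map_sub, h, sub_self]
  rw [PadicInt.ker_toZModPow, ← PadicInt.norm_le_pow_iff_mem_span_pow] at h1
  have h2 : ‖(((x - y : ℚ)) : ℚ_[p])‖ ≤ (p : ℝ) ^ (-n : ℤ) := by
    push_cast
    exact h1
  rw [Padic.eq_padicNorm, zpow_neg, zpow_natCast] at h2
  have h3 : ((padicNorm p (x - y) : ℚ) : ℝ) ≤ ((((p : ℚ) ^ n)⁻¹ : ℚ) : ℝ) := by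
    push_cast
    exact h2
  exact Rat.cast_le.1 h3

private theorem bnorm_pow {p : ℕ} (hp : p.Prime) (k : ℕ) :
    padicNorm p ((p : ℚ) ^ k) = ((p : ℚ) ^ k)⁻¹ := by
  haveI : Fact p.Prime := ⟨hp⟩
  induction k with
  | zero => simp
  | succ n ih =>
    rw [pow_succ, padicNorm.mul, ih, padicNorm.padicNorm_p hp.one_lt, mul_inv]

private theorem nadd {p : ℕ} [Fact p.Prime] {a b c : ℚ} (ha : padicNorm p a ≤ c)
    (hb : padicNorm p b ≤ c) : padicNorm p (a + b) ≤ c :=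
  (padicNorm.nonarchimedean).trans (max_le ha hb)

private theorem nsub {p : ℕ} [Fact p.Prime] {a b c : ℚ} (ha : padicNorm p a ≤ c)
    (hb : padicNorm p b ≤ c) : padicNorm p (a - b) ≤ c := by
  rw [sub_eq_add_neg]
  exact nadd ha (by rwa [padicNorm.neg])

private theorem nmul {p : ℕ} [Fact p.Prime] {a b c d : ℚ} (ha : padicNorm p a ≤ c)
    (hb : padicNorm p b ≤ d) : padicNorm p (a * b) ≤ c * d := by
  rw [padicNorm.mul]
  exact mul_le_mul ha hb (padicNorm.nonneg _) ((padicNorm.nonneg _).trans ha)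

private theorem nmul1 {p : ℕ} [Fact p.Prime] {a b q : ℚ} (ha : padicNorm p a ≤ 1)
    (hb : padicNorm p b ≤ q) : padicNorm p (a * b) ≤ q := by
  have := nmul ha hb
  rwa [one_mul] at this

private theorem none1 {p : ℕ} [Fact p.Prime] : padicNorm p 1 ≤ 1 := by simp

/-- matrices congruent to 1 -/
private def cong (p : ℕ) [Fact p.Prime] (q : ℚ) (hq0 : 0 ≤ q) (hq : q ≤ 1) : Subgroup G where
  carrier := {h | padicNorm p (h.1 0 0 - 1) ≤ q ∧ padicNorm p (h.1 0 1) ≤ q ∧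
    padicNorm p (h.1 1 0) ≤ q ∧ padicNorm p (h.1 1 1 - 1) ≤ q}
  one_mem' := by
    refine ⟨?_, ?_, ?_, ?_⟩ <;> simpa using hq0
  mul_mem' := by
    rintro g h ⟨g1, g2, g3, g4⟩ ⟨h1, h2, h3, h4⟩
    have k1 : padicNorm p (g.1 0 0) ≤ 1 := by
      have := nadd (g1.trans hq) (none1 (p := p))
      rwa [sub_add_cancel] at this
    have k4 : padicNorm p (g.1 1 1) ≤ 1 := by
      have := nadd (g4.trans hq) (none1 (p := p))
      rwa [sub_add_cancel] at this
    have k2 := g2.trans hq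
    have k3 := g3.trans hq
    refine ⟨?_, ?_, ?_, ?_⟩
    · rw [mul00, show g.1 0 0 * h.1 0 0 + g.1 0 1 * h.1 1 0 - 1 =
        (g.1 0 0 * (h.1 0 0 - 1) + (g.1 0 0 - 1)) + g.1 0 1 * h.1 1 0 by ring]
      exact nadd (nadd (nmul1 k1 h1) g1) (nmul1 k2 h3)
    · rw [mul01, show g.1 0 0 * h.1 0 1 + g.1 0 1 * h.1 1 1 =
        (g.1 0 0 * h.1 0 1 + g.1 0 1) + g.1 0 1 * (h.1 1 1 - 1) by ring]
      exact nadd (nadd (nmul1 k1 h2) g2) (nmul1 k2 h4)
    · rw [mul10, show g.1 1 0 * h.1 0 0 + g.1 1 1 * h.1 1 0 =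
        (g.1 1 0 * (h.1 0 0 - 1) + g.1 1 0) + g.1 1 1 * h.1 1 0 by ring]
      exact nadd (nadd (nmul1 k3 h1) g3) (nmul1 k4 h3)
    · rw [mul11, show g.1 1 0 * h.1 0 1 + g.1 1 1 * h.1 1 1 - 1 =
        (g.1 1 1 * (h.1 1 1 - 1) + (g.1 1 1 - 1)) + g.1 1 0 * h.1 0 1 by ring]
      exact nadd (nadd (nmul1 k4 h4) g4) (nmul1 k3 h2)
  inv_mem' := by
    rintro g ⟨g1, g2, g3, g4⟩
    refine ⟨?_, ?_, ?_, ?_⟩
    · rw [inv00]; exact g4
    · rw [inv01, padicNorm.neg]; exact g2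
    · rw [inv10, padicNorm.neg]; exact g3
    · rw [inv11]; exact g1

private theorem cong_of_close (p : ℕ) [Fact p.Prime] (q : ℚ) (hq0 : 0 ≤ q) (hq : q ≤ 1) (B r : ℚ)
    (hBr : B * r ≤ q) (g h : G) (hB : ∀ i j, padicNorm p (g.1 i j) ≤ B)
    (hr : ∀ i j, padicNorm p (h.1 i j - g.1 i j) ≤ r) : g⁻¹ * h ∈ cong p q hq0 hq := by
  have hd := det4 g
  have key : ∀ i j k l i' j' k' l' : Fin 2,
      padicNorm p (g.1 i j * (h.1 i' j' - g.1 i' j') - g.1 k l * (h.1 k' l' - g.1 k' l')) ≤ q := by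
    intro i j k l i' j' k' l'
    exact nsub ((nmul (hB _ _) (hr _ _)).trans hBr) ((nmul (hB _ _) (hr _ _)).trans hBr)
  refine ⟨?_, ?_, ?_, ?_⟩
  · have := key 1 1 0 1 0 0 1 0
    convert this using 2
    rw [mul00, inv00, inv01]
    linear_combination hd
  · have := key 1 1 0 1 0 1 1 1
    convert this using 2
    rw [mul01, inv00, inv01]
    ring
  · have := key 0 0 1 0 1 0 0 0
    convert this using 2
    rw [mul10, inv10, inv11]
    ring
  · have := key 0 0 1 0 1 1 0 1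
    convert this using 2
    rw [mul11, inv10, inv11]
    linear_combination hd

theorem punb_of_noquot (p : ℕ) (hp : p.Prime) (H : Subgroup G)
    (hfin : ∀ N : Subgroup ↥H, N.Normal → N.FiniteIndex → N = ⊤)
    (h0 : G) (hh0 : h0 ∈ H) (hne : h0 ≠ 1) : PUnb p H := by
  haveI : Fact p.Prime := ⟨hp⟩
  by_contra hcon
  unfold PUnb at hcon
  push Not at hcon
  obtain ⟨K, hK⟩ := hcon
  have hpQ : (0 : ℚ) < p := by exact_mod_cast hp.pos
  have hp1 : (1 : ℚ) ≤ p := by exact_mod_cast hp.one_lt.le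
  have main : ∀ M : ℕ, ∀ h ∈ H, padicNorm p (h.1 0 0 - 1) ≤ ((p : ℚ) ^ M)⁻¹ ∧
      padicNorm p (h.1 0 1) ≤ ((p : ℚ) ^ M)⁻¹ ∧ padicNorm p (h.1 1 0) ≤ ((p : ℚ) ^ M)⁻¹ ∧
      padicNorm p (h.1 1 1 - 1) ≤ ((p : ℚ) ^ M)⁻¹ := by
    intro M
    have hq0 : (0 : ℚ) ≤ ((p : ℚ) ^ M)⁻¹ := by positivity
    have hq1 : ((p : ℚ) ^ M)⁻¹ ≤ 1 := inv_le_one_of_one_le₀ (one_le_pow₀ hp1)
    set N : Subgroup ↥H := (cong p _ hq0 hq1).comap H.subtype with hN
    set n : ℕ := M + 2 * K with hn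
    let φ : ↥H → (Fin 2 × Fin 2 → ZMod (p ^ n)) :=
      fun h ij => bres p n ((p : ℚ) ^ K * h.1.1 ij.1 ij.2)
    have hφ : ∀ g h : ↥H, φ g = φ h → g⁻¹ * h ∈ N := by
      intro g h hgh
      rw [hN, Subgroup.mem_comap]
      have hb : ∀ (x : ↥H) (i j : Fin 2), padicNorm p ((p : ℚ) ^ K * x.1.1 i j) ≤ 1 := by
        intro x i j
        rw [padicNorm.mul, bnorm_pow hp, inv_mul_le_iff₀ (by positivity), mul_one]
        exact hK x.1 x.2 i j
      refine cong_of_close p _ hq0 hq1 ((p : ℚ) ^ K) (((p : ℚ) ^ (M + K))⁻¹) ?_ g.1 h.1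
        (fun i j => hK g.1 g.2 i j) ?_
      · rw [pow_add, mul_inv, mul_comm ((p : ℚ) ^ M)⁻¹, ← mul_assoc,
          mul_inv_cancel₀ (by positivity), one_mul]
      · intro i j
        have e2 : bres p n ((p : ℚ) ^ K * h.1.1 i j) = bres p n ((p : ℚ) ^ K * g.1.1 i j) :=
          (congrFun hgh (i, j)).symm
        have e3 := bres_eq p n (hb h i j) (hb g i j) e2
        rw [← mul_sub, padicNorm.mul, bnorm_pow hp, inv_mul_le_iff₀ (by positivity)] at e3
        refine e3.trans (le_of_eq ?_)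
        rw [hn, show M + 2 * K = (M + K) + K by ring, pow_add (p : ℚ) (M + K) K, mul_inv,
          mul_comm (((p : ℚ) ^ (M + K))⁻¹), ← mul_assoc, mul_inv_cancel₀ (by positivity), one_mul]
    have hfi : Finite (↥H ⧸ N) := by
      haveI : NeZero (p ^ n) := ⟨(pow_pos hp.pos n).ne'⟩
      refine Finite.of_injective (fun x : ↥H ⧸ N => φ x.out) ?_
      intro x y hxy
      have h1 := hφ _ _ hxy
      rw [← QuotientGroup.eq, QuotientGroup.out_eq', QuotientGroup.out_eq'] at h1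
      exact h1
    haveI : N.FiniteIndex := Subgroup.finiteIndex_of_finite_quotient
    have h1 : N.normalCore = ⊤ := hfin _ inferInstance inferInstance
    have h2 : N = ⊤ := top_le_iff.1 (h1 ▸ Subgroup.normalCore_le N)
    intro h hh
    have h3 : (⟨h, hh⟩ : ↥H) ∈ N := by rw [h2]; trivial
    exact h3
  have hsmall : ∀ x : ℚ, (∀ M : ℕ, padicNorm p x ≤ ((p : ℚ) ^ M)⁻¹) → x = 0 := by
    intro x hx
    by_contra hx0
    have h1 : 0 < padicNorm p x := lt_of_le_of_ne (padicNorm.nonneg _) (Ne.symm (padicNorm.nonzero hx0))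
    obtain ⟨m, hm⟩ := pow_unbounded_of_one_lt (padicNorm p x)⁻¹ (show (1 : ℚ) < p by exact_mod_cast hp.one_lt)
    have h2 := hx m
    have h3 : ((p : ℚ) ^ m)⁻¹ < padicNorm p x := inv_lt_of_inv_lt₀ h1 hm
    linarith
  apply hne
  apply ext4
  · have := hsmall _ (fun M => (main M h0 hh0).1)
    simp only [Matrix.SpecialLinearGroup.coe_one, Matrix.one_apply_eq]
    linarith
  · have := hsmall _ (fun M => (main M h0 hh0).2.1)
    simpa using this
  · have := hsmall _ (fun M => (main M h0 hh0).2.2.1)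
    simpa using this
  · have := hsmall _ (fun M => (main M h0 hh0).2.2.2)
    simp only [Matrix.SpecialLinearGroup.coe_one, Matrix.one_apply_eq]
    linarith

end Pool.Agent.MP_21c19e_al
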