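import Pool.Agent.Lib.MP_21c19e_al.ConfUnb

set_option autoImplicit false

/-!
MP_21c19e_al, confined case: upper triangular matrices over `Z[1/l]` are in `SL2(Z) * H`.
-/

namespace Pool.Agent.MP_21c19e_al.Conf

open Matrix

/-- The matrix `(0 -1; 1 0)`. -/
def wD : D := ⟨!![0, -1; 1, 0], by simp [Matrix.det_fin_two]⟩

theorem tor_mul (u v : ℚ) (hu : u ≠ 0) (hv : v ≠ 0) :
    tor u hu * tor v hv = tor (u * v) (mul_ne_zero hu hv) := by
  apply ext4 <;> simp only [mul00, mul01, mul10, mul11, tor00, tor01, tor10, tor11]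
  · ring
  · ring
  · ring
  · rw [_root_.mul_inv_rev]; ring

theorem In_up (H : Subgroup G) (l : ℕ) (hl : l.Prime) (hS : Strong H l) (g : G)
    (hg : In H l g) (hg0 : ∃ i : Fin 2, 1 < padicNorm l (g.1 i 0)) :
    In H l (up ((l : ℚ)⁻¹)) := by
  classical
  haveI : Fact l.Prime := ⟨hl⟩
  have hlQ : (l : ℚ) ≠ 0 := by exact_mod_cast hl.ne_zero
  have hex : ∃ m : ℕ, ∃ A C : ℤ, (l : ℚ) ^ m * g.1 0 0 = A ∧ (l : ℚ) ^ m * g.1 1 0 = C := by
    obtain ⟨m, hm⟩ := hg.1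
    obtain ⟨A, hA⟩ := hm 0 0
    obtain ⟨C, hC⟩ := hm 1 0
    exact ⟨m, A, C, hA, hC⟩
  set m := Nat.find hex with hm
  obtain ⟨A, C, hA, hC⟩ := Nat.find_spec hex
  rw [← hm] at hA hC
  have hm0 : m ≠ 0 := by
    intro h0
    rw [h0, pow_zero, one_mul] at hA hC
    obtain ⟨i, hi⟩ := hg0
    fin_cases i
    · simp only [Fin.zero_eta] at hi
      rw [hA] at hi
      have := padicNorm.of_int (p := l) A
      linarith
    · simp only [Fin.mk_one] at hi
      rw [hC] at hi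
      have := padicNorm.of_int (p := l) C
      linarith
  have hnot : ¬ ((l : ℤ) ∣ A ∧ (l : ℤ) ∣ C) := by
    rintro ⟨⟨A', hA'⟩, C', hC'⟩
    have hlt : m - 1 < m := by omega
    apply Nat.find_min hex (m := m - 1) (by omega)
    have hpow : (l : ℚ) ^ m = (l : ℚ) ^ (m - 1) * l := by
      rw [← pow_succ]; congr 1; omega
    refine ⟨A', C', ?_, ?_⟩
    · have : (l : ℚ) * ((l : ℚ) ^ (m - 1) * g.1 0 0) = l * A' := by
        have h1 : ((A : ℤ) : ℚ) = l * A' := by rw [hA']; push_cast; ring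
        rw [← h1, ← hA, hpow]; ring
      exact mul_left_cancel₀ hlQ this
    · have : (l : ℚ) * ((l : ℚ) ^ (m - 1) * g.1 1 0) = l * C' := by
        have h1 : ((C : ℤ) : ℚ) = l * C' := by rw [hC']; push_cast; ring
        rw [← h1, ← hC, hpow]; ring
      exact mul_left_cancel₀ hlQ this
  obtain ⟨M, hM⟩ := hg.1
  obtain ⟨B, hB⟩ := hM 0 1
  obtain ⟨E, hE⟩ := hM 1 1
  have hdet := det4 g
  have hZ : A * E - B * C = (l : ℤ) ^ (m + M) := by
    have : ((A * E - B * C : ℤ) : ℚ) = ((l : ℤ) ^ (m + M) : ℤ) := by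
      push_cast
      rw [← hA, ← hB, ← hC, ← hE]
      rw [pow_add]
      linear_combination ((l : ℚ) ^ m * (l : ℚ) ^ M) * hdet
    exact_mod_cast this
  have hcop : IsCoprime A C := by
    rw [Int.isCoprime_iff_gcd_eq_one]
    have h1 : ((Int.gcd A C : ℕ) : ℤ) ∣ (l : ℤ) ^ (m + M) := by
      rw [← hZ]
      exact dvd_sub (dvd_mul_of_dvd_left (Int.gcd_dvd_left A C) _)
        (dvd_mul_of_dvd_right (Int.gcd_dvd_right A C) _)
    have h2 : Int.gcd A C ∣ l ^ (m + M) := by exact_mod_cast h1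
    obtain ⟨s, hs, hsg⟩ := (Nat.dvd_prime_pow hl).1 h2
    rcases Nat.eq_zero_or_pos s with h0 | h0
    · rw [hsg, h0, pow_zero]
    · exfalso
      apply hnot
      have h3 : (l : ℤ) ∣ ((Int.gcd A C : ℕ) : ℤ) := by
        rw [hsg]; push_cast; exact dvd_pow_self _ (by omega)
      exact ⟨h3.trans (Int.gcd_dvd_left A C), h3.trans (Int.gcd_dvd_right A C)⟩
  obtain ⟨σ, hσ0, hσ1⟩ := exists_col A C hcop
  have hB0 : In H l ((io σ)⁻¹ * g) := by
    rw [← map_inv]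
    exact In_mul hl hS (In_io _) hg
  set B0 : G := (io σ)⁻¹ * g with hB0d
  have hdσ := detR σ
  have s00 : (io σ).1 0 0 = (l : ℚ) ^ m * g.1 0 0 := by rw [io_ij, hσ0, hA]
  have s10 : (io σ).1 1 0 = (l : ℚ) ^ m * g.1 1 0 := by rw [io_ij, hσ1, hC]
  have hds := det4 (io σ)
  have b10 : B0.1 1 0 = 0 := by
    rw [hB0d, mul10, inv10, inv11, s00, s10]; ring
  have b00 : B0.1 0 0 = ((l : ℚ) ^ m)⁻¹ := by
    rw [hB0d, mul00, inv00, inv01]
    apply eq_inv_of_mul_eq_one_left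
    rw [s00, s10] at hds
    linear_combination hds
  have hup : In H l (B0 * up ((l : ℚ) ^ (2 * m - 1)) * B0⁻¹) := by
    refine In_mul hl hS (In_mul hl hS hB0 ?_) (In_inv hl hS hB0)
    have : up ((l : ℚ) ^ (2 * m - 1)) = io (TR 1 0 ((l : ℤ) ^ (2 * m - 1))) := by
      rw [io_TR, ← T_e1]; push_cast; rfl
    rw [this]
    exact In_io _
  rw [upper_conj B0 b10, b00] at hup
  have e : (((l : ℚ) ^ m)⁻¹) ^ 2 * (l : ℚ) ^ (2 * m - 1) = (l : ℚ)⁻¹ := by
    have h1 : (l : ℚ) ^ (2 * m) = (l : ℚ) ^ (2 * m - 1) * l := by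
      rw [← pow_succ]; congr 1; omega
    have h2 : ((l : ℚ) ^ m) ^ 2 = (l : ℚ) ^ (2 * m) := by ring
    rw [inv_pow, h2, h1]
    field_simp
  rwa [e] at hup

theorem In_up_inv (H : Subgroup G) (l : ℕ) (hl : l.Prime) (hS : Strong H l)
    (hunb : PUnb l H) : In H l (up ((l : ℚ)⁻¹)) := by
  obtain ⟨h, hh, hs, i, j, hij⟩ := exists_nonint H l hl hS hunb
  have hj : j = 0 ∨ j = 1 := by fin_cases j <;> simp
  rcases hj with rfl | rfl
  · exact In_up H l hl hS h (In_of_mem hh hs) ⟨i, hij⟩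
  · apply In_up H l hl hS (h * io wD) (In_mul hl hS (In_of_mem hh hs) (In_io _))
    refine ⟨i, ?_⟩
    have e : (h * io wD).1 i 0 = h.1 i 1 := by
      have : (h * io wD).1 i 0 = h.1 i 0 * (io wD).1 0 0 + h.1 i 1 * (io wD).1 1 0 := mulR _ _ i 0
      rw [this, io_ij, io_ij]
      simp [wD]
    rw [e]; exact hij

theorem In_tor (H : Subgroup G) (l : ℕ) (hl : l.Prime) (hS : Strong H l)
    (hunb : PUnb l H) (hl0 : (l : ℚ) ≠ 0) (e : ℕ) : In H l (tor ((l : ℚ) ^ e) (pow_ne_zero e hl0)) := by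
  have h1 := In_up_inv H l hl hS hunb
  have h2 : In H l (lo (-(l : ℚ))) := by
    have : lo (-(l : ℚ)) = io (TR 0 1 (l : ℤ)) := by
      rw [io_TR]
      apply ext4 <;> simp
    rw [this]; exact In_io _
  have h3 : In H l (tor ((l : ℚ)⁻¹) (inv_ne_zero hl0)) := by
    have : tor ((l : ℚ)⁻¹) (inv_ne_zero hl0) =
        up ((l : ℚ)⁻¹) * lo (-(l : ℚ)) * up ((l : ℚ)⁻¹) * io wD := by
      have w00 : (io wD).1 0 0 = 0 := by simp [io_ij, wD]
      have w01 : (io wD).1 0 1 = -1 := by simp [io_ij, wD]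
      have w10 : (io wD).1 1 0 = 1 := by simp [io_ij, wD]
      have w11 : (io wD).1 1 1 = 0 := by simp [io_ij, wD]
      apply ext4 <;> simp only [mul00, mul01, mul10, mul11, w00, w01, w10, w11, up00, up01, up10,
        up11, lo00, lo01, lo10, lo11, tor00, tor01, tor10, tor11] <;> field_simp <;> ring
    rw [this]
    exact In_mul hl hS (In_mul hl hS (In_mul hl hS h1 h2) h1) (In_io _)
  have h4 : In H l (tor (l : ℚ) hl0) := by
    have : tor (l : ℚ) hl0 = (tor ((l : ℚ)⁻¹) (inv_ne_zero hl0))⁻¹ := by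
      apply ext4 <;> simp [inv00, inv01, inv10, inv11]
    rw [this]
    exact In_inv hl hS h3
  induction e with
  | zero =>
    have : tor ((l : ℚ) ^ 0) (pow_ne_zero 0 hl0) = io 1 := by
      apply ext4 <;> simp
    rw [this]; exact In_io _
  | succ e ih =>
    have : tor ((l : ℚ) ^ (e + 1)) (pow_ne_zero (e + 1) hl0) =
        tor ((l : ℚ) ^ e) (pow_ne_zero e hl0) * tor (l : ℚ) hl0 := by
      rw [tor_mul]
      apply ext4 <;> simp [pow_succ]
    rw [this]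
    exact In_mul hl hS ih h4

theorem In_box (H : Subgroup G) (l : ℕ) (hl : l.Prime) (hS : Strong H l)
    (hunb : PUnb l H) (hl0 : (l : ℚ) ≠ 0) (e E : ℕ) (j : ℤ) :
    In H l (tor ((l : ℚ) ^ e) (pow_ne_zero e hl0) * up ((j : ℚ) / (l : ℚ) ^ (2 * E))) := by
  refine In_mul hl hS (In_tor H l hl hS hunb hl0 e) ?_
  have : up ((j : ℚ) / (l : ℚ) ^ (2 * E)) = (tor ((l : ℚ) ^ E) (pow_ne_zero E hl0))⁻¹ *
      io (TR 1 0 j) * tor ((l : ℚ) ^ E) (pow_ne_zero E hl0) := by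
    rw [io_TR]
    apply ext4 <;> simp only [mul00, mul01, mul10, mul11, inv00, inv01, inv10, inv11, T00, T01,
      T10, T11, up00, up01, up10, up11, tor00, tor01, tor10, tor11] <;> push_cast <;>
      field_simp <;> ring
  rw [this]
  have h1 := In_tor H l hl hS hunb hl0 E
  exact In_mul hl hS (In_mul hl hS (In_inv hl hS h1) (In_io _)) h1

end Pool.Agent.MP_21c19e_al.Conf
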