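import Pool.Agent.Lib.MP_21c19e_al.Defs

set_option autoImplicit false

/-!
Z21-Gen. `all_of_val`: A additive subgroup of Q with 1 ∈ A and, for every prime p and K, an element of p-adic norm ≥ p^K:
then A = Q. (x with |x|_p ≥ p^K: d*x = n0/p^K' with d integer, p not dividing n0, K' ≥ K; α n0 + β p^K' = 1 gives
1/p^K' = α d x + β ∈ A, hence 1/p^K ∈ A; coprime factorisation: 1/(m1 m2) = α/m1 + β/m2.)
`top_of_up`: up x ∈ H for all x, g ∈ H with g 1 0 ≠ 0 imply H = ⊤: w = up(-a/c) g up(-d/c) = (0,-1/c;c,0) ∈ H,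
w * up x * w⁻¹ = lo(-c^2 x); SL2(Q) is generated by up, lo: (a b; c d) with c ≠ 0 is up((a-1)/c) lo(c) up((d-1)/c).
-/

namespace Pool.Agent.MP_21c19e_al

private theorem gen_int (A : AddSubgroup ℚ) {x : ℚ} (hx : x ∈ A) (n : ℤ) : (n : ℚ) * x ∈ A := by
  have h := A.zsmul_mem hx n
  rwa [zsmul_eq_mul] at h

private theorem gen_norm_pow {p : ℕ} (hp : p.Prime) (k : ℕ) :
    padicNorm p ((p : ℚ) ^ k) = ((p : ℚ) ^ k)⁻¹ := by
  haveI : Fact p.Prime := ⟨hp⟩
  induction k with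
  | zero => simp
  | succ n ih =>
    rw [pow_succ, padicNorm.mul, ih, padicNorm.padicNorm_p hp.one_lt, mul_inv]

private theorem gen_prime (A : AddSubgroup ℚ) (h1 : (1 : ℚ) ∈ A)
    (hA : ∀ p : ℕ, p.Prime → ∀ K : ℕ, ∃ x ∈ A, (p : ℚ) ^ K ≤ padicNorm p x) (p : ℕ)
    (hp : p.Prime) (K : ℕ) : ((p : ℚ) ^ K)⁻¹ ∈ A := by
  haveI : Fact p.Prime := ⟨hp⟩
  obtain ⟨x, hx, hxK⟩ := hA p hp K
  obtain ⟨k, d, hd, hden⟩ := Nat.exists_eq_pow_mul_and_not_dvd x.den_ne_zero p hp.ne_one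
  have hpQ : (p : ℚ) ≠ 0 := by exact_mod_cast hp.ne_zero
  have hdQ : (d : ℚ) ≠ 0 := by
    have : d ≠ 0 := by rintro rfl; exact hd (dvd_zero p)
    exact_mod_cast this
  have hxe : (x.num : ℚ) / ((p : ℚ) ^ k * d) = x := by
    have h2 := Rat.num_div_den x
    rw [hden] at h2
    push_cast at h2
    exact h2
  have hpn : padicNorm p ((p : ℚ) ^ k * d) = ((p : ℚ) ^ k)⁻¹ := by
    rw [padicNorm.mul, gen_norm_pow hp, (padicNorm.nat_eq_one_iff d).2 hd, mul_one]
  have hle : padicNorm p x ≤ (p : ℚ) ^ k := by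
    rw [← hxe, padicNorm.div, hpn, div_inv_eq_mul]
    have h3 := padicNorm.of_int (p := p) x.num
    have h4 : (0 : ℚ) ≤ (p : ℚ) ^ k := by positivity
    nlinarith
  have hKk : K ≤ k := by
    have h5 : (p : ℚ) ^ K ≤ (p : ℚ) ^ k := hxK.trans hle
    have h6 : (1 : ℚ) < p := by exact_mod_cast hp.one_lt
    exact (pow_le_pow_iff_right₀ h6).1 h5
  -- the element 1/p^k
  have hcop : IsCoprime (x.num : ℤ) ((p ^ k : ℕ) : ℤ) := by
    have h7 : Nat.Coprime x.num.natAbs (p ^ k) :=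
      Nat.Coprime.coprime_dvd_right (by rw [hden]; exact Dvd.intro _ rfl) x.reduced
    rw [Int.isCoprime_iff_gcd_eq_one]
    exact h7
  obtain ⟨α, β, hαβ⟩ := hcop
  have hαβ' : (α : ℚ) * x.num + β * (p : ℚ) ^ k = 1 := by exact_mod_cast hαβ
  have hmem : ((p : ℚ) ^ k)⁻¹ ∈ A := by
    have h8 : ((p : ℚ) ^ k)⁻¹ = ((α * d : ℤ) : ℚ) * x + (β : ℚ) * 1 := by
      rw [← hxe]
      push_cast
      field_simp
      linear_combination -hαβ'
    rw [h8]
    exact A.add_mem (gen_int A hx _) (gen_int A h1 _)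
  have h9 : ((p : ℚ) ^ K)⁻¹ = (((p ^ (k - K) : ℕ) : ℤ) : ℚ) * ((p : ℚ) ^ k)⁻¹ := by
    obtain ⟨j, rfl⟩ := Nat.exists_eq_add_of_le hKk
    rw [Nat.add_sub_cancel_left]
    push_cast
    rw [pow_add]
    field_simp
  rw [h9]
  exact gen_int A hmem _

theorem all_of_val (A : AddSubgroup ℚ) (h1 : (1 : ℚ) ∈ A)
    (hA : ∀ p : ℕ, p.Prime → ∀ K : ℕ, ∃ x ∈ A, (p : ℚ) ^ K ≤ padicNorm p x) : A = ⊤ := by
  have key : ∀ m : ℕ, m ≠ 0 → ((m : ℚ))⁻¹ ∈ A := by
    intro m
    induction m using Nat.recOnPrimeCoprime with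
    | zero => intro h; exact absurd rfl h
    | prime_pow p n hp =>
      intro _
      have := gen_prime A h1 hA p hp n
      push_cast
      exact this
    | coprime a b ha hb hab iha ihb =>
      intro _
      have ha0 : a ≠ 0 := by omega
      have hb0 : b ≠ 0 := by omega
      have haQ : (a : ℚ) ≠ 0 := by exact_mod_cast ha0
      have hbQ : (b : ℚ) ≠ 0 := by exact_mod_cast hb0
      have hcop : IsCoprime (a : ℤ) (b : ℤ) := Nat.isCoprime_iff_coprime.2 hab
      obtain ⟨α, β, hαβ⟩ := hcop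
      have hαβ' : (α : ℚ) * a + β * b = 1 := by exact_mod_cast hαβ
      have h2 : (((a * b : ℕ) : ℚ))⁻¹ = (β : ℚ) * (a : ℚ)⁻¹ + (α : ℚ) * (b : ℚ)⁻¹ := by
        push_cast
        field_simp
        linear_combination -hαβ'
      rw [h2]
      exact A.add_mem (gen_int A (iha ha0) _) (gen_int A (ihb hb0) _)
  rw [eq_top_iff]
  intro x _
  have h2 := Rat.num_div_den x
  rw [← h2, div_eq_mul_inv]
  exact gen_int A (key x.den x.den_ne_zero) _

theorem top_of_up (H : Subgroup G) (hU : ∀ x : ℚ, up x ∈ H) (g : G) (hg : g ∈ H)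
    (hgc : g.1 1 0 ≠ 0) : H = ⊤ := by
  have hd := det4 g
  have hw : up (-(g.1 0 0 / g.1 1 0)) * g * up (-(g.1 1 1 / g.1 1 0)) ∈ H :=
    H.mul_mem (H.mul_mem (hU _) hg) (hU _)
  obtain ⟨w, hwdef⟩ : ∃ w, w = up (-(g.1 0 0 / g.1 1 0)) * g * up (-(g.1 1 1 / g.1 1 0)) :=
    ⟨_, rfl⟩
  rw [← hwdef] at hw
  have hw00 : w.1 0 0 = 0 := by
    rw [hwdef]
    simp only [mul00, mul01, mul10, mul11, up00, up01, up10, up11]
    field_simp
    ring
  have hw10 : w.1 1 0 = g.1 1 0 := by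
    rw [hwdef]
    simp only [mul00, mul01, mul10, mul11, up00, up01, up10, up11]
    ring
  have hlo : ∀ y : ℚ, lo y ∈ H := by
    intro y
    have h1 : w * up (-(y / (g.1 1 0) ^ 2)) * w⁻¹ ∈ H :=
      H.mul_mem (H.mul_mem hw (hU _)) (H.inv_mem hw)
    have h2 : w * up (-(y / (g.1 1 0) ^ 2)) * w⁻¹ = lo y := by
      rw [← T_e1, conj_T, hw00, hw10]
      apply ext4
      · rw [T00, lo00]; ring
      · rw [T01, lo01]; ring
      · rw [T10, lo10]
        field_simp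
        ring
      · rw [T11, lo11]; ring
    rwa [h2] at h1
  have hmain : ∀ g' : G, g'.1 1 0 ≠ 0 → g' ∈ H := by
    intro g' hc
    have hd' := det4 g'
    have h1 : g' = up ((g'.1 0 0 - 1) / g'.1 1 0) * lo (g'.1 1 0) *
        up ((g'.1 1 1 - 1) / g'.1 1 0) := by
      apply ext4
      · simp only [mul00, mul01, mul10, mul11, up00, up01, up10, up11, lo00, lo01, lo10, lo11]
        field_simp
        ring
      · simp only [mul00, mul01, mul10, mul11, up00, up01, up10, up11, lo00, lo01, lo10, lo11]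
        field_simp
        linear_combination -hd'
      · simp only [mul00, mul01, mul10, mul11, up00, up01, up10, up11, lo00, lo01, lo10, lo11]
        ring
      · simp only [mul00, mul01, mul10, mul11, up00, up01, up10, up11, lo00, lo01, lo10, lo11]
        field_simp
        ring
    rw [h1]
    exact H.mul_mem (H.mul_mem (hU _) (hlo _)) (hU _)
  rw [eq_top_iff]
  intro g' _
  by_cases hc : g'.1 1 0 = 0
  · have hd' := det4 g'
    rw [hc, mul_zero, sub_zero] at hd'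
    have h11 : g'.1 1 1 ≠ 0 := right_ne_zero_of_mul (by rw [hd']; exact one_ne_zero)
    have h1 : g' * lo 1 ∈ H := by
      apply hmain
      rw [mul10, hc, lo10, lo00]
      simpa using h11
    have h2 : g' = g' * lo 1 * lo (-1) := by
      rw [mul_assoc, lo_mul]
      have : lo (1 + -1) = 1 := by
        apply ext4 <;> simp
      rw [this, mul_one]
    rw [h2]
    exact H.mul_mem h1 (hlo _)
  · exact hmain g' hc

end Pool.Agent.MP_21c19e_al
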