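import Pool.Agent.Lib.MP_21c19e_al.Defs

set_option autoImplicit false

/-!
Z21-Lower. `exists_large_c`. |.| = padicNorm p. Suppose |h 1 0| < 1 for all h ∈ H. c0 = g0 1 0 ≠ 0, g0 = (a0 b0; c0 d0).
h = (a b; c d) ∈ H: |c| ≤ 1. (h*g0) 1 0 = c a0 + d c0, so |d c0| ≤ max(1, |c a0|) ≤ max(1,|a0|): d bounded.
(g0*h) 1 0 = c0 a + d0 c: a bounded. (g0*h*g0) 1 0 = c0 a a0 + d0 c a0 + c0^2 b + d0 d c0: b bounded.
So all entries are bounded by a constant p^K: contradicts PUnb.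
`punb_conj`: conjugation invariance. `punb_comap`.
-/

namespace Pool.Agent.MP_21c19e_al

private theorem lower_mul (p : ℕ) [Fact p.Prime] (A B : Matrix (Fin 2) (Fin 2) ℚ) (s t : ℚ)
    (hs : 0 ≤ s) (ht : 0 ≤ t) (hA : ∀ i j, padicNorm p (A i j) ≤ s)
    (hB : ∀ i j, padicNorm p (B i j) ≤ t) (i j : Fin 2) : padicNorm p ((A * B) i j) ≤ s * t := by
  rw [Matrix.mul_apply]
  refine padicNorm.sum_le' (fun k _ => ?_) (mul_nonneg hs ht)
  rw [padicNorm.mul]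
  exact mul_le_mul (hA i k) (hB k j) (padicNorm.nonneg _) hs

private theorem lower_bdd (p : ℕ) (hp : p.Prime) (A : Matrix (Fin 2) (Fin 2) ℚ) :
    ∃ L : ℕ, ∀ i j, padicNorm p (A i j) ≤ (p : ℚ) ^ L := by
  have : Fact p.Prime := ⟨hp⟩
  have h1 : (1 : ℚ) < p := by exact_mod_cast hp.one_lt
  obtain ⟨L, hL⟩ := pow_unbounded_of_one_lt (∑ i, ∑ j, padicNorm p (A i j)) h1
  refine ⟨L, fun i j => le_trans ?_ hL.le⟩
  refine le_trans ?_ (Finset.single_le_sum (f := fun i => ∑ j, padicNorm p (A i j))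
    (fun i _ => Finset.sum_nonneg fun j _ => padicNorm.nonneg _) (Finset.mem_univ i))
  exact Finset.single_le_sum (f := fun j => padicNorm p (A i j))
    (fun j _ => padicNorm.nonneg _) (Finset.mem_univ j)

theorem exists_large_c (p : ℕ) (hp : p.Prime) (H : Subgroup G) (hunb : PUnb p H)
    (g₀ : G) (hg₀ : g₀ ∈ H) (hc : g₀.1 1 0 ≠ 0) :
    ∃ g ∈ H, 1 ≤ padicNorm p (g.1 1 0) := by
  have : Fact p.Prime := ⟨hp⟩
  by_contra hcon
  push Not at hcon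
  have h1 : (1 : ℚ) < p := by exact_mod_cast hp.one_lt
  have hc0 : 0 < padicNorm p (g₀.1 1 0) :=
    lt_of_le_of_ne (padicNorm.nonneg _) (Ne.symm (padicNorm.nonzero hc))
  -- bound for `d`
  have hd : ∀ h ∈ H, padicNorm p (h.1 1 1) ≤
      (1 + padicNorm p (g₀.1 0 0)) / padicNorm p (g₀.1 1 0) := by
    intro h hh
    rw [le_div_iff₀ hc0, ← padicNorm.mul]
    have e : h.1 1 1 * g₀.1 1 0 = (h * g₀).1 1 0 + -(h.1 1 0 * g₀.1 0 0) := by
      rw [mul10]; ring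
    rw [e]
    refine (padicNorm.triangle_ineq _ _).trans ?_
    rw [padicNorm.neg, padicNorm.mul]
    have h2 := hcon _ (H.mul_mem hh hg₀)
    have h3 := hcon _ hh
    have h4 := padicNorm.nonneg (p := p) (g₀.1 0 0)
    have h5 := padicNorm.nonneg (p := p) (h.1 1 0)
    nlinarith
  have ha : ∀ h ∈ H, padicNorm p (h.1 0 0) ≤
      (1 + padicNorm p (g₀.1 1 1)) / padicNorm p (g₀.1 1 0) := by
    intro h hh
    rw [le_div_iff₀ hc0, ← padicNorm.mul]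
    have e : h.1 0 0 * g₀.1 1 0 = (g₀ * h).1 1 0 + -(g₀.1 1 1 * h.1 1 0) := by
      rw [mul10]; ring
    rw [e]
    refine (padicNorm.triangle_ineq _ _).trans ?_
    rw [padicNorm.neg, padicNorm.mul]
    have h2 := hcon _ (H.mul_mem hg₀ hh)
    have h3 := hcon _ hh
    have h4 := padicNorm.nonneg (p := p) (g₀.1 1 1)
    have h5 := padicNorm.nonneg (p := p) (h.1 1 0)
    nlinarith
  have hb : ∀ h ∈ H, padicNorm p (h.1 0 1) ≤
      ((1 + padicNorm p (g₀.1 0 0)) + padicNorm p (g₀.1 1 1) *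
        ((1 + padicNorm p (g₀.1 0 0)) / padicNorm p (g₀.1 1 0)) * padicNorm p (g₀.1 1 0)) /
        (padicNorm p (g₀.1 1 0) * padicNorm p (g₀.1 1 0)) := by
    intro h hh
    rw [le_div_iff₀ (mul_pos hc0 hc0), ← padicNorm.mul, ← padicNorm.mul]
    have e : h.1 0 1 * (g₀.1 1 0 * g₀.1 1 0) = ((g₀ * h * g₀).1 1 0 + -((g₀ * h).1 1 0 * g₀.1 0 0))
        + -(g₀.1 1 1 * h.1 1 1 * g₀.1 1 0) := by
      rw [mul10 (g₀ * h) g₀, mul11]; ring
    rw [e]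
    refine (padicNorm.triangle_ineq _ _).trans (add_le_add ((padicNorm.triangle_ineq _ _).trans
      (add_le_add ?_ ?_)) ?_)
    · exact (hcon _ (H.mul_mem (H.mul_mem hg₀ hh) hg₀)).le
    · rw [padicNorm.neg, padicNorm.mul]
      have h2 := hcon _ (H.mul_mem hg₀ hh)
      have h4 := padicNorm.nonneg (p := p) (g₀.1 0 0)
      nlinarith
    · rw [padicNorm.neg, padicNorm.mul, padicNorm.mul]
      exact mul_le_mul_of_nonneg_right (mul_le_mul_of_nonneg_left (hd h hh) (padicNorm.nonneg _))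
        (padicNorm.nonneg _)
  obtain ⟨K1, hK1⟩ := pow_unbounded_of_one_lt ((1 + padicNorm p (g₀.1 0 0)) /
    padicNorm p (g₀.1 1 0)) h1
  obtain ⟨K2, hK2⟩ := pow_unbounded_of_one_lt ((1 + padicNorm p (g₀.1 1 1)) /
    padicNorm p (g₀.1 1 0)) h1
  obtain ⟨K3, hK3⟩ := pow_unbounded_of_one_lt (((1 + padicNorm p (g₀.1 0 0)) +
    padicNorm p (g₀.1 1 1) * ((1 + padicNorm p (g₀.1 0 0)) / padicNorm p (g₀.1 1 0)) *
      padicNorm p (g₀.1 1 0)) / (padicNorm p (g₀.1 1 0) * padicNorm p (g₀.1 1 0))) h1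
  obtain ⟨h, hh, i, j, hij⟩ := hunb (K1 + K2 + K3)
  have m1 : (p : ℚ) ^ K1 ≤ (p : ℚ) ^ (K1 + K2 + K3) := pow_le_pow_right₀ h1.le (by omega)
  have m2 : (p : ℚ) ^ K2 ≤ (p : ℚ) ^ (K1 + K2 + K3) := pow_le_pow_right₀ h1.le (by omega)
  have m3 : (p : ℚ) ^ K3 ≤ (p : ℚ) ^ (K1 + K2 + K3) := pow_le_pow_right₀ h1.le (by omega)
  have m4 : (1 : ℚ) ≤ (p : ℚ) ^ (K1 + K2 + K3) := one_le_pow₀ h1.le
  fin_cases i <;> fin_cases j
  · exact absurd hij (not_lt.2 ((ha h hh).trans (hK2.le.trans m2)))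
  · exact absurd hij (not_lt.2 ((hb h hh).trans (hK3.le.trans m3)))
  · exact absurd hij (not_lt.2 ((hcon h hh).le.trans m4))
  · exact absurd hij (not_lt.2 ((hd h hh).trans (hK1.le.trans m1)))

/-- p-unboundedness is invariant under conjugation. -/
theorem punb_comap (p : ℕ) (hp : p.Prime) (H : Subgroup G) (γ : G) (hunb : PUnb p H) :
    PUnb p (H.comap (MulAut.conj γ).toMonoidHom) := by
  have : Fact p.Prime := ⟨hp⟩
  intro K
  obtain ⟨L, hL⟩ := lower_bdd p hp γ.1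
  obtain ⟨L', hL'⟩ := lower_bdd p hp (γ⁻¹).1
  obtain ⟨h, hh, i, j, hij⟩ := hunb (L + K + L')
  refine ⟨γ⁻¹ * h * γ, ?_, ?_⟩
  · change γ * (γ⁻¹ * h * γ) * γ⁻¹ ∈ H
    have e : γ * (γ⁻¹ * h * γ) * γ⁻¹ = h := by group
    rw [e]
    exact hh
  · by_contra hcon
    push Not at hcon
    have hp0 : (0 : ℚ) ≤ p := by positivity
    have h1 := lower_mul p γ.1 (γ⁻¹ * h * γ).1 _ _ (pow_nonneg hp0 L) (pow_nonneg hp0 K) hL hcon
    have h2 := lower_mul p (γ.1 * (γ⁻¹ * h * γ).1) (γ⁻¹).1 _ _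
      (mul_nonneg (pow_nonneg hp0 L) (pow_nonneg hp0 K)) (pow_nonneg hp0 L') h1 hL' i j
    have e : γ.1 * (γ⁻¹ * h * γ).1 * (γ⁻¹).1 = h.1 := by
      rw [← Matrix.SpecialLinearGroup.coe_mul, ← Matrix.SpecialLinearGroup.coe_mul]
      congr 1
      group
    rw [e, ← pow_add, ← pow_add] at h2
    exact absurd hij (not_lt.2 h2)

end Pool.Agent.MP_21c19e_al
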