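import Pool.Agent.Lib.MP_21c19e_al.NonCyclic

set_option autoImplicit false

/-!
Z21-TorusElt. `exists_torus`: c0 := g 1 0. For x ∈ A := Aup H: g * up x * g⁻¹ fixes the vector (g00, c0).
First normalise: replace H by H' = comap of conj by up(g00/c0) (then g 0 0 = 0), the result (g : G with g 1 0 = 0 and
g 0 0 ≠ ±1) is invariant. With g 0 0 = 0: lo(c0^2 x) ∈ H for x ∈ A (conj_T, T_e2, A = -A). c0 = s/n0, q := s^2 > 0
(natural), lo(q*x) ∈ H for x ∈ A (q x = c0^2 (n0^2 x)).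
noncyclic_div: n, d1 < d2 divisors of n, q | d2 - d1, 1/n ∈ A.
Y := q*d1/n, Y' := -q*d2/n, M := (d2-d1)*n/(q*d1*d2)·(sign so that Y + Y' + M*Y*Y' = 0): M = -(Y+Y')/(Y*Y') =
-(q(d1-d2)/n) / (-q^2 d1 d2/n^2) = (d1-d2) n/(q d1 d2) = [(d1-d2)/q] * [n/d1] * [n/d2] * (1/n) ∈ A.
h := lo Y' * up M * lo Y ∈ H has h 1 0 = Y + Y' + M Y Y' = 0, h 0 0 = 1 + M Y = 1 + (d1-d2)/d2 = d1/d2.
`divisible`: h = (t, *; 0, 1/t), t = d1/d2 ∈ (0,1). up x ∈ H implies up(t^2 x) ∈ H (conjugate by h). t = r/s lowest terms,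
s > 1, let m be a prime factor of s. t^(2k)*1 ∈ A and 1 ∈ A: 1/s^(2k) = α t^(2k) + β ∈ A where α r^(2k) + β s^(2k) = 1.
Hence z/m^i ∈ A for all z, i ≤ 2k. (If h 0 0 = t with |t| > 1 use h⁻¹; the statement below has t = d1/d2 with 0<d1<d2.)
-/

namespace Pool.Agent.MP_21c19e_al

theorem exists_torus (H : Subgroup G) (hA : ∀ c : ℚ, ¬ Aup H ≤ AddSubgroup.zmultiples c)
    (h1 : up 1 ∈ H) (g : G) (hg : g ∈ H) (hgc : g.1 1 0 ≠ 0) :
    ∃ h ∈ H, h.1 1 0 = 0 ∧ ∃ d₁ d₂ : ℕ, 0 < d₁ ∧ d₁ < d₂ ∧ h.1 0 0 = (d₁ : ℚ) / d₂ := by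
  obtain ⟨c0, hc0⟩ : ∃ c0 : ℚ, c0 = g.1 1 0 := ⟨_, rfl⟩
  obtain ⟨y, hy⟩ : ∃ y : ℚ, y = g.1 0 0 / g.1 1 0 := ⟨_, rfl⟩
  have hc0' : c0 ≠ 0 := by rw [hc0]; exact hgc
  have hyc : c0 * y = g.1 0 0 := by rw [hc0, hy]; field_simp
  -- the conjugated subgroup
  let H' : Subgroup G := H.comap (MulAut.conj (up y)).toMonoidHom
  have memH' : ∀ k : G, k ∈ H' ↔ up y * k * (up y)⁻¹ ∈ H := fun k => Iff.rfl
  have hup : ∀ x ∈ Aup H, up x ∈ H' := by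
    intro x hx
    rw [memH', up_inv, up_mul, up_mul]
    have : y + x + -y = x := by ring
    rw [this]; exact hx
  have hlo : ∀ x ∈ Aup H, lo (c0 ^ 2 * x) ∈ H' := by
    intro x hx
    rw [memH']
    have e1 : lo (c0 ^ 2 * x) = T 0 1 (-(c0 ^ 2 * x)) := by rw [T_e2, neg_neg]
    rw [e1, conj_T]
    simp only [up00, up01, up10, up11]
    have e2 : g * up (-x) * g⁻¹ ∈ H := H.mul_mem (H.mul_mem hg ((Aup H).neg_mem hx)) (H.inv_mem hg)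
    rw [← T_e1, conj_T] at e2
    have e3 : g.1 0 0 * 1 + g.1 0 1 * 0 = c0 * y := by rw [hyc]; ring
    have e4 : g.1 1 0 * 1 + g.1 1 1 * 0 = c0 * 1 := by rw [hc0]; ring
    rw [e3, e4, T_smul] at e2
    have e5 : T (1 * 0 + y * 1) (0 * 0 + 1 * 1) (-(c0 ^ 2 * x)) = T y 1 (c0 ^ 2 * -x) := by
      congr 1 <;> ring
    rw [e5]; exact e2
  -- numerator and denominator
  have hnum : (c0.num : ℚ) = c0 * c0.den := by
    exact (Rat.mul_den_eq_num c0).symm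
  obtain ⟨q, hq⟩ : ∃ q : ℕ, q = c0.num.natAbs ^ 2 := ⟨_, rfl⟩
  have hqpos : 0 < q := by
    rw [hq]; apply pow_pos
    exact Int.natAbs_pos.mpr (Rat.num_ne_zero.mpr hc0')
  have hqQ : (q : ℚ) = (c0.num : ℚ) ^ 2 := by
    rw [hq]
    have h5 : ((c0.num.natAbs : ℤ)) ^ 2 = c0.num ^ 2 := Int.natAbs_sq c0.num
    have h6 : (((c0.num.natAbs : ℤ) : ℚ)) ^ 2 = (c0.num : ℚ) ^ 2 := by
      rw [← Int.cast_pow, h5, Int.cast_pow]
    rw [← h6, Nat.cast_pow, Int.cast_natCast]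
  have hloq : ∀ x ∈ Aup H, lo ((q : ℚ) * x) ∈ H' := by
    intro x hx
    have hx2 : ((c0.den : ℚ) ^ 2 * x) ∈ Aup H := by
      have := (Aup H).nsmul_mem hx (c0.den ^ 2)
      rw [nsmul_eq_mul] at this
      push_cast at this
      exact this
    have := hlo _ hx2
    have e : c0 ^ 2 * ((c0.den : ℚ) ^ 2 * x) = (q : ℚ) * x := by
      rw [hqQ, hnum]; ring
    rw [e] at this
    exact this
  obtain ⟨n, d₁, d₂, hn, hnA, ⟨e₁, he₁⟩, ⟨e₂, he₂⟩, hd, hd1, ⟨w, hw⟩⟩ :=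
    noncyclic_div (Aup H) hA h1 q hqpos
  have hd2 : 0 < d₂ := by omega
  have hnQ : (n : ℚ) ≠ 0 := by exact_mod_cast hn.ne'
  have hd1Q : (d₁ : ℚ) ≠ 0 := by exact_mod_cast hd1.ne'
  have hd2Q : (d₂ : ℚ) ≠ 0 := by exact_mod_cast hd2.ne'
  have hqQ0 : (q : ℚ) ≠ 0 := by exact_mod_cast hqpos.ne'
  have he₁Q : (n : ℚ) = d₁ * e₁ := by exact_mod_cast he₁
  have he₂Q : (n : ℚ) = d₂ * e₂ := by exact_mod_cast he₂
  have hwQ : (d₂ : ℚ) - d₁ = q * w := by exact_mod_cast hw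
  -- the three elements
  have hY : lo ((q : ℚ) * (d₁ / n)) ∈ H' := by
    apply hloq
    have := (Aup H).nsmul_mem hnA d₁
    rw [nsmul_eq_mul] at this
    have e : (d₁ : ℚ) * (1 / n) = d₁ / n := by ring
    rw [e] at this; exact this
  have hY' : lo ((q : ℚ) * (-(d₂ / n))) ∈ H' := by
    apply hloq
    apply (Aup H).neg_mem
    have := (Aup H).nsmul_mem hnA d₂
    rw [nsmul_eq_mul] at this
    have e : (d₂ : ℚ) * (1 / n) = d₂ / n := by ring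
    rw [e] at this; exact this
  have hM : up (-(w * n / (d₁ * d₂))) ∈ H' := by
    apply hup
    have := (Aup H).zsmul_mem hnA (-(w * e₁ * e₂))
    rw [zsmul_eq_mul] at this
    have e : ((-(w * e₁ * e₂) : ℤ) : ℚ) * (1 / n) = -(w * n / (d₁ * d₂)) := by
      push_cast
      have : (n : ℚ) * n = d₁ * d₂ * (e₁ * e₂) := by
        nth_rewrite 1 [he₁Q]; rw [he₂Q]; ring
      field_simp
      linear_combination (w : ℚ) * this
    rw [e] at this; exact this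
  have hk := H'.mul_mem (H'.mul_mem hY' hM) hY
  obtain ⟨k, hkdef⟩ : ∃ k : G, k = lo ((q : ℚ) * (-(d₂ / n))) * up (-(w * n / (d₁ * d₂))) *
    lo ((q : ℚ) * (d₁ / n)) := ⟨_, rfl⟩
  rw [← hkdef] at hk
  have hwQ' : (w : ℚ) = (d₂ - d₁) / q := by rw [hwQ]; field_simp
  have hk10 : k.1 1 0 = 0 := by
    rw [hkdef]
    simp only [mul00, mul01, mul10, mul11, up00, up01, up10, up11, lo00, lo01, lo10, lo11]
    rw [hwQ']
    field_simp
    ring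
  have hk00 : k.1 0 0 = d₁ / d₂ := by
    rw [hkdef]
    simp only [mul00, mul01, mul10, mul11, up00, up01, up10, up11, lo00, lo01, lo10, lo11]
    rw [hwQ']
    field_simp
    ring
  refine ⟨up y * k * (up y)⁻¹, (memH' k).1 hk, ?_, d₁, d₂, hd1, hd, ?_⟩
  · rw [up_inv]
    simp only [mul00, mul01, mul10, mul11, up00, up01, up10, up11, hk10]
    ring
  · rw [up_inv]
    simp only [mul00, mul01, mul10, mul11, up00, up01, up10, up11, hk10, hk00]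
    ring

theorem divisible (H : Subgroup G) (h1 : up 1 ∈ H) (h : G) (hh : h ∈ H) (h10 : h.1 1 0 = 0)
    (d₁ d₂ : ℕ) (hd1 : 0 < d₁) (hd : d₁ < d₂) (h00 : h.1 0 0 = (d₁ : ℚ) / d₂) :
    ∃ m : ℕ, m.Prime ∧ ∀ (z : ℤ) (i : ℕ), up ((z : ℚ) / (m : ℚ) ^ i) ∈ H := by
  -- lowest terms
  obtain ⟨r, s, hrs, hs1, ht⟩ : ∃ r s : ℕ, Nat.Coprime r s ∧ 1 < s ∧
      (d₁ : ℚ) / d₂ = (r : ℚ) / s := by
    have hg : 0 < Nat.gcd d₁ d₂ := Nat.gcd_pos_of_pos_left _ hd1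
    refine ⟨d₁ / Nat.gcd d₁ d₂, d₂ / Nat.gcd d₁ d₂, Nat.coprime_div_gcd_div_gcd hg, ?_, ?_⟩
    · have h2 : d₁ / Nat.gcd d₁ d₂ < d₂ / Nat.gcd d₁ d₂ := by
        apply Nat.div_lt_div_of_lt_of_dvd (Nat.gcd_dvd_right _ _) hd
      have h3 : 0 < d₁ / Nat.gcd d₁ d₂ :=
        Nat.div_pos (Nat.le_of_dvd hd1 (Nat.gcd_dvd_left _ _)) hg
      omega
    · rw [Nat.cast_div (Nat.gcd_dvd_left _ _) (by exact_mod_cast hg.ne'),
        Nat.cast_div (Nat.gcd_dvd_right _ _) (by exact_mod_cast hg.ne')]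
      have : (Nat.gcd d₁ d₂ : ℚ) ≠ 0 := by exact_mod_cast hg.ne'
      have : (d₂ : ℚ) ≠ 0 := by
        have : 0 < d₂ := by omega
        exact_mod_cast this.ne'
      field_simp
  rw [ht] at h00
  have hsQ : (s : ℚ) ≠ 0 := by
    have : 0 < s := by omega
    exact_mod_cast this.ne'
  have step : ∀ x : ℚ, x ∈ Aup H → ((r : ℚ) / s) ^ 2 * x ∈ Aup H := by
    intro x hx
    have e2 : h * up x * h⁻¹ ∈ H := H.mul_mem (H.mul_mem hh hx) (H.inv_mem hh)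
    rw [← T_e1, conj_T, h10, h00] at e2
    have e3 : (r : ℚ) / s * 1 + h.1 0 1 * 0 = (r : ℚ) / s * 1 := by ring
    have e4 : (0 : ℚ) * 1 + h.1 1 1 * 0 = (r : ℚ) / s * 0 := by ring
    rw [e3, e4, T_smul, T_e1] at e2
    exact e2
  have hpow : ∀ k : ℕ, ((r : ℚ) / s) ^ (2 * k) ∈ Aup H := by
    intro k
    induction k with
    | zero => rw [mul_zero, pow_zero]; exact h1
    | succ k ih =>
      have := step _ ih
      have e : ((r : ℚ) / s) ^ (2 * (k + 1)) = ((r : ℚ) / s) ^ 2 * ((r : ℚ) / s) ^ (2 * k) := by ring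
      rw [e]; exact this
  have hinv : ∀ k : ℕ, (1 : ℚ) / (s : ℚ) ^ (2 * k) ∈ Aup H := by
    intro k
    have hco : IsCoprime ((r : ℤ) ^ (2 * k)) ((s : ℤ) ^ (2 * k)) :=
      (Nat.isCoprime_iff_coprime.mpr hrs).pow
    obtain ⟨α, β, hab⟩ := hco
    have habQ : (α : ℚ) * (r : ℚ) ^ (2 * k) + β * (s : ℚ) ^ (2 * k) = 1 := by exact_mod_cast hab
    have m1 := (Aup H).zsmul_mem (hpow k) α
    have m2 := (Aup H).zsmul_mem (show (1 : ℚ) ∈ Aup H from h1) β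
    have m3 := (Aup H).add_mem m1 m2
    have e : α • ((r : ℚ) / s) ^ (2 * k) + β • (1 : ℚ) = 1 / (s : ℚ) ^ (2 * k) := by
      rw [zsmul_eq_mul, zsmul_eq_mul, div_pow]
      field_simp
      linear_combination habQ
    rw [e] at m3
    exact m3
  obtain ⟨m, hm, u, hu⟩ := Nat.exists_prime_and_dvd hs1.ne'
  refine ⟨m, hm, fun z i => ?_⟩
  have hmQ : (m : ℚ) ≠ 0 := by exact_mod_cast hm.ne_zero
  have hsu : (s : ℚ) = m * u := by exact_mod_cast hu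
  have huQ : (u : ℚ) ≠ 0 := by
    intro h0; rw [h0, mul_zero] at hsu; exact hsQ hsu
  have m1 := (Aup H).zsmul_mem (hinv i) (z * (m : ℤ) ^ i * (u : ℤ) ^ (2 * i))
  have e : (z * (m : ℤ) ^ i * (u : ℤ) ^ (2 * i)) • ((1 : ℚ) / (s : ℚ) ^ (2 * i)) =
      (z : ℚ) / (m : ℚ) ^ i := by
    rw [zsmul_eq_mul, hsu]
    push_cast
    rw [mul_pow, two_mul i, pow_add (m : ℚ) i i]
    field_simp
  rw [e] at m1
  exact m1

end Pool.Agent.MP_21c19e_al
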