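import Pool.Agent.Lib.MP_21c19e_al.Defs

set_option autoImplicit false

/-!
Z21-Unip. `zariski_move`: a Zariski-dense H moves every line: for v = (a,b) ≠ 0 there is g ∈ H with
det(v, g v) ≠ 0, i.e. a*(g10 a + g11 b) - b*(g00 a + g01 b) ≠ 0. (The polynomial is linear in the entries; if it vanished on
H it would vanish on up 1 and lo 1: values b^2·(-1) and a^2.)
`unip_axis`: a subgroup U of G all of whose elements have trace 2 and which is not cyclic: there are γ ∈ G (so that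
γ⁻¹ U γ consists of upper unipotents) with: every u ∈ U is γ * up x * γ⁻¹ for some x. Proof: U ≠ 1, pick u0 ≠ 1 with trace 2,
it is T a b c0 for some (a,b) ≠ 0 (kernel of u0 - 1), γ with γ e1 = (a,b). WLOG (conjugate) u0 = up x0, x0 ≠ 0. Any u ∈ U:
trace(u) = 2 and trace(u0 u) = trace u + x0 * u10 = 2 so u10 = 0, then u00 * u11 = 1 and u00 + u11 = 2 give u00 = u11 = 1.
-/

namespace Pool.Agent.MP_21c19e_al

theorem zariski_move (H : Subgroup G)
    (hZ : ∀ p : MvPolynomial (Fin 2 × Fin 2) ℚ,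
        (∀ g ∈ H, MvPolynomial.eval
            (fun ij : Fin 2 × Fin 2 => (g : Matrix (Fin 2) (Fin 2) ℚ) ij.1 ij.2) p = 0) →
        ∀ g : Matrix.SpecialLinearGroup (Fin 2) ℚ, MvPolynomial.eval
            (fun ij : Fin 2 × Fin 2 => (g : Matrix (Fin 2) (Fin 2) ℚ) ij.1 ij.2) p = 0)
    (a b : ℚ) (hab : a ≠ 0 ∨ b ≠ 0) :
    ∃ g ∈ H, a * (g.1 1 0 * a + g.1 1 1 * b) - b * (g.1 0 0 * a + g.1 0 1 * b) ≠ 0 := by
  by_contra hcon
  push Not at hcon
  have h1 := hZ (MvPolynomial.C a * (MvPolynomial.X (1, 0) * MvPolynomial.C a +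
      MvPolynomial.X (1, 1) * MvPolynomial.C b) -
    MvPolynomial.C b * (MvPolynomial.X (0, 0) * MvPolynomial.C a +
      MvPolynomial.X (0, 1) * MvPolynomial.C b)) (by
    intro g hg
    have h2 := hcon g hg
    simpa using h2)
  have h3 : ∀ g : G, a * (g.1 1 0 * a + g.1 1 1 * b) - b * (g.1 0 0 * a + g.1 0 1 * b) = 0 := by
    intro g
    have h4 := h1 g
    simpa using h4
  have h5 := h3 (up 1)
  have h6 := h3 (lo 1)
  simp only [up00, up01, up10, up11] at h5
  simp only [lo00, lo01, lo10, lo11] at h6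
  have h7 : b ^ 2 = 0 := by linear_combination -h5
  have h8 : a ^ 2 = 0 := by linear_combination h6
  rcases hab with h | h
  · exact h (pow_eq_zero_iff (two_ne_zero) |>.1 h8)
  · exact h (pow_eq_zero_iff (two_ne_zero) |>.1 h7)

private theorem tr_conj (γ u : G) : (γ⁻¹ * u * γ).1 0 0 + (γ⁻¹ * u * γ).1 1 1 =
    u.1 0 0 + u.1 1 1 := by
  have hd := det4 γ
  simp only [mul00, mul01, mul10, mul11, inv00, inv01, inv10, inv11]
  linear_combination (u.1 0 0 + u.1 1 1) * hd

theorem unip_axis (U : Subgroup G) (hU : ∀ u ∈ U, Matrix.trace (u : Matrix (Fin 2) (Fin 2) ℚ) = 2)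
    (hne : U ≠ ⊥) :
    ∃ γ : G, ∀ u ∈ U, ∃ x : ℚ, u = γ * up x * γ⁻¹ := by
  have hU' : ∀ u ∈ U, u.1 0 0 + u.1 1 1 = 2 := by
    intro u hu
    have h := hU u hu
    rw [Matrix.trace_fin_two] at h
    exact h
  obtain ⟨⟨u0, hu0⟩, hu1⟩ := Subgroup.ne_bot_iff_exists_ne_one.1 hne
  have hu1' : (u0 : G) ≠ 1 := fun h => hu1 (Subtype.ext h)
  have htr := hU' u0 hu0
  have hdet := det4 (u0 : G)
  -- the axis
  have hax : ∃ γ : G, ∃ x0 : ℚ, (u0 : G) = γ * up x0 * γ⁻¹ := by
    by_cases hr : (u0 : G).1 1 0 = 0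
    · refine ⟨1, (u0 : G).1 0 1, ?_⟩
      rw [one_mul, inv_one, mul_one]
      have h1 : (u0 : G).1 0 0 = 1 := by
        have h2 : ((u0 : G).1 0 0 - 1) ^ 2 = 0 := by
          rw [hr] at hdet
          have h3 : (u0 : G).1 1 1 = 2 - (u0 : G).1 0 0 := by linarith
          rw [h3] at hdet
          linear_combination -hdet
        have := pow_eq_zero_iff (two_ne_zero) |>.1 h2
        linarith
      apply ext4
      · simpa using h1
      · simp
      · simpa using hr
      · rw [up11]; linarith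
    · refine ⟨⟨!![(u0 : G).1 0 0 - 1, -((u0 : G).1 1 0)⁻¹; (u0 : G).1 1 0, 0], by
        rw [Matrix.det_fin_two]
        simp only [Matrix.of_apply, Matrix.cons_val', Matrix.cons_val_zero, Matrix.cons_val_one,
          Matrix.cons_val_fin_one]
        field_simp
        ring⟩, -((u0 : G).1 1 0)⁻¹, ?_⟩
      rw [← T_e1, conj_T]
      have g0 : ((⟨!![(u0 : G).1 0 0 - 1, -((u0 : G).1 1 0)⁻¹; (u0 : G).1 1 0, 0], by
        rw [Matrix.det_fin_two]
        simp only [Matrix.of_apply, Matrix.cons_val', Matrix.cons_val_zero, Matrix.cons_val_one,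
          Matrix.cons_val_fin_one]
        field_simp
        ring⟩ : G)).1 0 0 = (u0 : G).1 0 0 - 1 := rfl
      have g1 : ((⟨!![(u0 : G).1 0 0 - 1, -((u0 : G).1 1 0)⁻¹; (u0 : G).1 1 0, 0], by
        rw [Matrix.det_fin_two]
        simp only [Matrix.of_apply, Matrix.cons_val', Matrix.cons_val_zero, Matrix.cons_val_one,
          Matrix.cons_val_fin_one]
        field_simp
        ring⟩ : G)).1 1 0 = (u0 : G).1 1 0 := rfl
      rw [g0, g1]
      have hs : (u0 : G).1 1 1 = 2 - (u0 : G).1 0 0 := by linarith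
      rw [hs] at hdet
      apply ext4
      · rw [T00]
        field_simp
        ring
      · rw [T01]
        field_simp
        linear_combination -hdet
      · rw [T10]
        field_simp
        ring
      · rw [T11, hs]
        field_simp
        ring
  obtain ⟨γ, x0, hγ⟩ := hax
  have hx0 : x0 ≠ 0 := by
    rintro rfl
    apply hu1'
    rw [hγ, up_zero, mul_one, mul_inv_cancel]
  refine ⟨γ, fun u hu => ?_⟩
  have h1 := tr_conj γ u
  rw [hU' u hu] at h1
  have h2 := tr_conj γ (u0 * u)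
  rw [hU' _ (U.mul_mem hu0 hu)] at h2
  have h3 : γ⁻¹ * (↑u0 * u) * γ = up x0 * (γ⁻¹ * u * γ) := by
    rw [hγ]
    group
  rw [h3] at h2
  simp only [mul00 (up x0), mul11 (up x0), up00, up01, up10, up11, one_mul, zero_mul, zero_add]
    at h2
  have h4 : x0 * (γ⁻¹ * u * γ).1 1 0 = 0 := by linear_combination h2 - h1
  have h5 : (γ⁻¹ * u * γ).1 1 0 = 0 := (mul_eq_zero.1 h4).resolve_left hx0
  have h6 := det4 (γ⁻¹ * u * γ)
  rw [h5, mul_zero, sub_zero] at h6
  have h7 : (γ⁻¹ * u * γ).1 0 0 = 1 := by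
    have h8 : ((γ⁻¹ * u * γ).1 0 0 - 1) ^ 2 = 0 := by
      linear_combination (γ⁻¹ * u * γ).1 0 0 * h1 - h6
    have := pow_eq_zero_iff (two_ne_zero) |>.1 h8
    linarith
  refine ⟨(γ⁻¹ * u * γ).1 0 1, ?_⟩
  have h9 : γ⁻¹ * u * γ = up ((γ⁻¹ * u * γ).1 0 1) := by
    apply ext4
    · rw [h7, up00]
    · rw [up01]
    · rw [h5, up10]
    · rw [up11]; linarith
  rw [← h9]
  group

end Pool.Agent.MP_21c19e_al
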