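import Pool.Agent.Lib.MP_21c19e_al.Core
import Pool.Agent.Lib.MP_21c19e_al.TorusElt
import Pool.Agent.Lib.MP_21c19e_al.Bounded
import Pool.Agent.Lib.MP_21c19e_al.Lower
import Pool.Agent.Lib.MP_21c19e_al.Gen
import Pool.Agent.Lib.MP_21c19e_al.Unip

set_option autoImplicit false

/-!
Z21-Final: assembly.
-/

namespace Pool.Agent.MP_21c19e_al

/-- Conjugation by `diag(l,1)`. -/
def scf (l : ℚ) (hl : l ≠ 0) (g : G) : G :=
  ⟨!![g.1 0 0, l * g.1 0 1; l⁻¹ * g.1 1 0, g.1 1 1], by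
    have := det4 g
    simp only [Matrix.det_fin_two_of]
    field_simp
    linear_combination this⟩

theorem scf00 (l : ℚ) (hl : l ≠ 0) (g : G) : (scf l hl g).1 0 0 = g.1 0 0 := rfl
theorem scf01 (l : ℚ) (hl : l ≠ 0) (g : G) : (scf l hl g).1 0 1 = l * g.1 0 1 := rfl
theorem scf10 (l : ℚ) (hl : l ≠ 0) (g : G) : (scf l hl g).1 1 0 = l⁻¹ * g.1 1 0 := rfl
theorem scf11 (l : ℚ) (hl : l ≠ 0) (g : G) : (scf l hl g).1 1 1 = g.1 1 1 := rfl

/-- Conjugation by `diag(l,1)` as an automorphism. -/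
def sc (l : ℚ) (hl : l ≠ 0) : G ≃* G where
  toFun := scf l hl
  invFun := scf l⁻¹ (inv_ne_zero hl)
  left_inv g := by
    apply ext4 <;> simp only [scf00, scf01, scf10, scf11] <;> field_simp
  right_inv g := by
    apply ext4 <;> simp only [scf00, scf01, scf10, scf11] <;> field_simp
  map_mul' g h := by
    apply ext4
    · rw [scf00, mul00, mul00, scf00, scf00, scf01, scf10]; field_simp
    · rw [scf01, mul01, mul01, scf00, scf01, scf01, scf11]; ring
    · rw [scf10, mul10, mul10, scf00, scf10, scf10, scf11]; ring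
    · rw [scf11, mul11, mul11, scf10, scf01, scf11, scf11]; field_simp

theorem sc_up (l : ℚ) (hl : l ≠ 0) (x : ℚ) : sc l hl (up x) = up (l * x) := by
  apply ext4
  · show (scf l hl (up x)).1 0 0 = _
    rw [scf00]; simp
  · show (scf l hl (up x)).1 0 1 = _
    rw [scf01]; simp
  · show (scf l hl (up x)).1 1 0 = _
    rw [scf10]; simp
  · show (scf l hl (up x)).1 1 1 = _
    rw [scf11]; simp

/-- The property of having no proper normal subgroup of finite index. -/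
def NoQuot (H : Subgroup G) : Prop := ∀ N : Subgroup ↥H, N.Normal → N.FiniteIndex → N = ⊤

theorem noQuot_comap (e : G ≃* G) (H : Subgroup G) (hH : NoQuot H) :
    NoQuot (H.comap e.toMonoidHom) := by
  intro N hN hfi
  let f : ↥(H.comap e.toMonoidHom) ≃* ↥H :=
    { toFun := fun x => ⟨e x.1, x.2⟩
      invFun := fun y => ⟨e.symm y.1, by
        show e (e.symm y.1) ∈ H
        rw [MulEquiv.apply_symm_apply]; exact y.2⟩
      left_inv := fun x => by simp
      right_inv := fun y => by simp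
      map_mul' := fun x y => by
        apply Subtype.ext
        exact map_mul e x.1 y.1 }
  have h1 : (N.map f.toMonoidHom).Normal := hN.map f.toMonoidHom f.surjective
  have h2 : (N.map f.toMonoidHom).FiniteIndex := by
    constructor
    have := Subgroup.index_map_equiv N f
    intro h0
    apply hfi.index_ne_zero
    rw [← this]
    exact h0
  have h3 := hH _ h1 h2
  rw [eq_top_iff]
  intro x _
  have h4 : f x ∈ N.map f.toMonoidHom := by rw [h3]; exact Subgroup.mem_top _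
  obtain ⟨y, hy, hxy⟩ := h4
  have : y = x := f.injective hxy
  rwa [← this]

/-- Main statement in normalised form. -/
theorem main_norm (H : Subgroup G) (hq : NoQuot H) (h1 : up 1 ∈ H)
    (hA : ∀ c : ℚ, ¬ Aup H ≤ AddSubgroup.zmultiples c) (g : G) (hg : g ∈ H)
    (hgc : g.1 1 0 ≠ 0) : H = ⊤ := by
  have hne : up 1 ≠ 1 := by
    intro h
    have : (up 1).1 0 1 = (1 : G).1 0 1 := by rw [h]
    simp at this
  have hP : ∀ p : ℕ, p.Prime → PUnb p H := fun p hp => punb_of_noquot p hp H hq (up 1) h1 hne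
  obtain ⟨h, hh, h10, d₁, d₂, hd1, hd, h00⟩ := exists_torus H hA h1 g hg hgc
  obtain ⟨m, hm, hU⟩ := divisible H h1 h hh h10 d₁ d₂ hd1 hd h00
  have hm0 : (m : ℚ) ≠ 0 := by exact_mod_cast hm.ne_zero
  have hall : Aup H = ⊤ := by
    apply all_of_val
    · exact h1
    · intro p hp K
      by_cases hpm : p = m
      · subst hpm
        refine ⟨(1 : ℤ) / (p : ℚ) ^ K, hU 1 K, ?_⟩
        have := Fact.mk hp
        rw [padicNorm.div, IsAbsoluteValue.abv_pow (padicNorm p), padicNorm.padicNorm_p hp.one_lt]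
        simp
      · obtain ⟨g', hg', hgc'⟩ := exists_large_c p hp H (hP p hp) g hg hgc
        obtain ⟨x, hx, hxK⟩ := core p m hp hm hpm H hU g' hg' hgc' (hP p hp) K
        exact ⟨x, hx, hxK⟩
  apply top_of_up H _ g hg hgc
  intro x
  have : x ∈ Aup H := by rw [hall]; exact AddSubgroup.mem_top _
  exact this


/-- The additive group of all `x` with `γ * up x * γ⁻¹ ∈ U`. -/
def axisGroup (γ : G) (U : Subgroup G) : AddSubgroup ℚ :=
  Aup (U.comap (MulAut.conj γ).toMonoidHom)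

theorem mem_axisGroup (γ : G) (U : Subgroup G) (x : ℚ) :
    x ∈ axisGroup γ U ↔ γ * up x * γ⁻¹ ∈ U := Iff.rfl

theorem up_zsmul (x : ℚ) (n : ℤ) : up (n • x) = up x ^ n := by
  let f : Multiplicative ℚ →* G :=
    { toFun := fun y => up (Multiplicative.toAdd y)
      map_one' := up_zero
      map_mul' := fun a b => (up_mul _ _).symm }
  have h := map_zpow f (Multiplicative.ofAdd x) n
  have h2 : f (Multiplicative.ofAdd x ^ n) = up (n • x) := by
    rw [← ofAdd_zsmul]; rfl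
  rw [← h2, h]; rfl

theorem exists_gen (A : AddSubgroup ℚ) (c : ℚ) (hc : A ≤ AddSubgroup.zmultiples c) :
    ∃ b : ℚ, A = AddSubgroup.zmultiples b := by
  have h1 : IsAddCyclic (AddSubgroup.zmultiples c) := inferInstance
  have h2 : IsAddCyclic A := by
    exact isAddCyclic_of_injective (AddSubgroup.inclusion hc) (AddSubgroup.inclusion_injective hc)
  obtain ⟨⟨b, hb⟩, hb2⟩ := h2.exists_generator
  refine ⟨b, le_antisymm ?_ ?_⟩
  · intro x hx
    obtain ⟨n, hn⟩ := AddSubgroup.mem_zmultiples_iff.1 (hb2 ⟨x, hx⟩)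
    refine AddSubgroup.mem_zmultiples_iff.2 ⟨n, ?_⟩
    have := congrArg Subtype.val hn
    simpa using this
  · rw [AddSubgroup.zmultiples_le]
    exact hb

/-- If the axis group is contained in a cyclic group then a group of unipotents along that axis is cyclic. -/
theorem cyclic_of_axis (γ : G) (U : Subgroup G) (hγ : ∀ u ∈ U, ∃ x : ℚ, u = γ * up x * γ⁻¹)
    (c : ℚ) (hc : axisGroup γ U ≤ AddSubgroup.zmultiples c) : IsCyclic U := by
  obtain ⟨b, hb⟩ := exists_gen _ c hc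
  have hbm : b ∈ axisGroup γ U := by rw [hb]; exact AddSubgroup.mem_zmultiples b
  refine ⟨⟨γ * up b * γ⁻¹, hbm⟩, ?_⟩
  rintro ⟨u, hu⟩
  obtain ⟨x, hx⟩ := hγ u hu
  have hxm : x ∈ axisGroup γ U := by
    rw [mem_axisGroup, ← hx]; exact hu
  rw [hb] at hxm
  obtain ⟨n, hn⟩ := AddSubgroup.mem_zmultiples_iff.1 hxm
  refine Subgroup.mem_zpowers_iff.2 ⟨n, ?_⟩
  apply Subtype.ext
  show ((⟨γ * up b * γ⁻¹, hbm⟩ : U) ^ n : U).1 = u
  rw [Subgroup.coe_zpow, hx, ← hn, up_zsmul, conj_zpow]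

/-- The Zariski density hypothesis of the problem. -/
def ZDense (H : Subgroup G) : Prop :=
  ∀ p : MvPolynomial (Fin 2 × Fin 2) ℚ,
    (∀ g ∈ H, MvPolynomial.eval
        (fun ij : Fin 2 × Fin 2 => (g : Matrix (Fin 2) (Fin 2) ℚ) ij.1 ij.2) p = 0) →
    ∀ g : Matrix.SpecialLinearGroup (Fin 2) ℚ, MvPolynomial.eval
        (fun ij : Fin 2 × Fin 2 => (g : Matrix (Fin 2) (Fin 2) ℚ) ij.1 ij.2) p = 0

/-- If the axis group along some axis is not contained in a cyclic group then `H = ⊤`. -/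
theorem top_of_axis (H : Subgroup G) (hZ : ZDense H) (hq : NoQuot H) (γ : G)
    (hA : ∀ c : ℚ, ¬ axisGroup γ H ≤ AddSubgroup.zmultiples c) : H = ⊤ := by
  -- a nonzero element of the axis group
  have hx0 : ∃ x0 ∈ axisGroup γ H, x0 ≠ 0 := by
    by_contra hcon
    push Not at hcon
    apply hA 0
    intro x hx
    rw [hcon x hx]; exact AddSubgroup.zero_mem _
  obtain ⟨x0, hx0, hx0ne⟩ := hx0
  -- combined automorphism
  set e : G ≃* G := (sc x0 hx0ne).trans (MulAut.conj γ) with he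
  set H' : Subgroup G := H.comap e.toMonoidHom with hH'
  have hmem : ∀ x : G, x ∈ H' ↔ γ * sc x0 hx0ne x * γ⁻¹ ∈ H := fun x => Iff.rfl
  have hq' : NoQuot H' := noQuot_comap e H hq
  have h1 : up 1 ∈ H' := by
    rw [hmem, sc_up, mul_one]
    exact hx0
  have hA' : ∀ c : ℚ, ¬ Aup H' ≤ AddSubgroup.zmultiples c := by
    intro c hc
    apply hA (x0 * c)
    intro x hx
    have hx' : x0⁻¹ * x ∈ Aup H' := by
      rw [mem_Aup, hmem, sc_up]
      rw [mul_inv_cancel_left₀ hx0ne]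
      exact hx
    obtain ⟨n, hn⟩ := AddSubgroup.mem_zmultiples_iff.1 (hc hx')
    refine AddSubgroup.mem_zmultiples_iff.2 ⟨n, ?_⟩
    rw [zsmul_eq_mul] at hn ⊢
    calc (n : ℚ) * (x0 * c) = x0 * ((n : ℚ) * c) := by ring
      _ = x := by rw [hn]; field_simp
  -- an element moving infinity
  obtain ⟨g, hg, hgne⟩ := zariski_move H hZ (γ.1 0 0) (γ.1 1 0) (by
    by_contra hcon
    push Not at hcon
    have := det4 γ
    rw [hcon.1, hcon.2] at this
    simp at this)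
  set g' : G := (sc x0 hx0ne).symm (γ⁻¹ * g * γ) with hg'
  have hg'm : g' ∈ H' := by
    rw [hmem, hg', MulEquiv.apply_symm_apply]
    have : γ * (γ⁻¹ * g * γ) * γ⁻¹ = g := by group
    rw [this]; exact hg
  have hg'c : g'.1 1 0 ≠ 0 := by
    have h2 : (γ⁻¹ * g * γ).1 1 0 = γ.1 0 0 * (g.1 1 0 * γ.1 0 0 + g.1 1 1 * γ.1 1 0)
        - γ.1 1 0 * (g.1 0 0 * γ.1 0 0 + g.1 0 1 * γ.1 1 0) := by
      rw [mul10, mul10, mul11, inv10, inv11]; ring
    have h3 : (sc x0 hx0ne g').1 1 0 = (γ⁻¹ * g * γ).1 1 0 := by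
      rw [hg', MulEquiv.apply_symm_apply]
    intro h4
    apply hgne
    rw [← h2, ← h3]
    show (scf x0 hx0ne g').1 1 0 = 0
    rw [scf10, h4, mul_zero]
  have htop : H' = ⊤ := main_norm H' hq' h1 hA' g' hg'm hg'c
  rw [eq_top_iff]
  intro y _
  have hy : e.symm y ∈ H' := by rw [htop]; exact Subgroup.mem_top _
  have : e (e.symm y) ∈ H := hy
  rwa [MulEquiv.apply_symm_apply] at this

theorem cyclic_or_top (H : Subgroup G) (hZ : ZDense H) (hq : NoQuot H) (hne : H ≠ ⊤)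
    (U : Subgroup G) (hUH : U ≤ H) (hU : ∀ u ∈ U, Matrix.trace (u : Matrix (Fin 2) (Fin 2) ℚ) = 2) :
    IsCyclic U := by
  by_cases hbot : U = ⊥
  · subst hbot
    infer_instance
  obtain ⟨γ, hγ⟩ := unip_axis U hU hbot
  by_contra hcyc
  apply hne
  apply top_of_axis H hZ hq γ
  intro c hc
  apply hcyc
  apply cyclic_of_axis γ U hγ c
  intro x hx
  apply hc
  rw [mem_axisGroup] at hx ⊢
  exact hUH hx


theorem upper_conj (g : G) (h10 : g.1 1 0 = 0) (x : ℚ) : g * up x * g⁻¹ = up (g.1 0 0 ^ 2 * x) := by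
  rw [← T_e1, conj_T, h10]
  have h : T (g.1 0 0 * 1 + g.1 0 1 * 0) (0 * 1 + g.1 1 1 * 0) x = T (g.1 0 0 * 1) (g.1 0 0 * 0) x := by
    congr 1 <;> ring
  rw [h, T_smul, T_e1]

/-- A cyclic axis group containing a nonzero element forces eigenvalues `±1` on upper triangular elements. -/
theorem sq_eq_one (A : AddSubgroup ℚ) (b : ℚ) (hb : A = AddSubgroup.zmultiples b) (z : ℚ) (hz : z ∈ A)
    (hz0 : z ≠ 0) (t : ℚ) (ht : t ≠ 0) (h1 : ∀ x ∈ A, t ^ 2 * x ∈ A) (h2 : ∀ x ∈ A, t⁻¹ ^ 2 * x ∈ A) :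
    t ^ 2 = 1 := by
  have hb0 : b ≠ 0 := by
    rintro rfl
    rw [hb] at hz
    obtain ⟨n, hn⟩ := AddSubgroup.mem_zmultiples_iff.1 hz
    apply hz0; rw [← hn]; simp
  have hbA : b ∈ A := by rw [hb]; exact AddSubgroup.mem_zmultiples b
  have e1 := h1 b hbA
  have e2 := h2 b hbA
  rw [hb] at e1 e2
  obtain ⟨n, hn⟩ := AddSubgroup.mem_zmultiples_iff.1 e1
  obtain ⟨k, hk⟩ := AddSubgroup.mem_zmultiples_iff.1 e2
  rw [zsmul_eq_mul] at hn hk
  have hn' : (n : ℚ) = t ^ 2 := mul_right_cancel₀ hb0 hn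
  have hk' : (k : ℚ) = t⁻¹ ^ 2 := mul_right_cancel₀ hb0 hk
  have hnk : (n : ℚ) * k = 1 := by rw [hn', hk']; field_simp
  have hnk' : n * k = 1 := by exact_mod_cast hnk
  have hn1 : n = 1 ∨ n = -1 := Int.eq_one_or_neg_one_of_mul_eq_one hnk'
  have hpos : 0 ≤ (n : ℚ) := by rw [hn']; positivity
  rcases hn1 with h | h
  · rw [← hn', h]; norm_num
  · rw [h] at hpos; norm_num at hpos

theorem upper_comm (g h : G) (hg : g.1 1 0 = 0) (hh : h.1 1 0 = 0) (hgs : g.1 0 0 ^ 2 = 1)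
    (hhs : h.1 0 0 ^ 2 = 1) : g * h = h * g := by
  have dg := det4 g
  have dh := det4 h
  rw [hg] at dg
  rw [hh] at dh
  have eg : g.1 1 1 = g.1 0 0 := by
    have : g.1 0 0 * (g.1 1 1 - g.1 0 0) = 0 := by linear_combination dg - hgs
    rcases mul_eq_zero.1 this with h0 | h0
    · rw [h0] at hgs; norm_num at hgs
    · linarith
  have eh : h.1 1 1 = h.1 0 0 := by
    have : h.1 0 0 * (h.1 1 1 - h.1 0 0) = 0 := by linear_combination dh - hhs
    rcases mul_eq_zero.1 this with h0 | h0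
    · rw [h0] at hhs; norm_num at hhs
    · linarith
  apply ext4
  · rw [mul00, mul00, hg, hh]; ring
  · rw [mul01, mul01, eg, eh]; ring
  · rw [mul10, mul10, hg, hh]; ring
  · rw [mul11, mul11, hg, hh]; ring

theorem exists_axis (v : Fin 2 → ℚ) (hv : v ≠ 0) : ∃ γ : G, γ.1 0 0 = v 0 ∧ γ.1 1 0 = v 1 := by
  by_cases h0 : v 0 = 0
  · have h1 : v 1 ≠ 0 := by
      intro h1
      apply hv
      ext i; fin_cases i <;> simpa
    refine ⟨⟨!![v 0, -(v 1)⁻¹; v 1, 0], ?_⟩, rfl, rfl⟩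
    simp only [Matrix.det_fin_two_of]
    rw [h0]; field_simp; ring
  · refine ⟨⟨!![v 0, 0; v 1, (v 0)⁻¹], ?_⟩, rfl, rfl⟩
    simp only [Matrix.det_fin_two_of]
    field_simp; ring

theorem fix_upper (γ g : G) (v : Fin 2 → ℚ) (h0 : γ.1 0 0 = v 0) (h1 : γ.1 1 0 = v 1)
    (hg : ∃ t : ℚ, (g : Matrix (Fin 2) (Fin 2) ℚ).mulVec v = t • v) : (γ⁻¹ * g * γ).1 1 0 = 0 := by
  obtain ⟨t, ht⟩ := hg
  have e0 : g.1 0 0 * v 0 + g.1 0 1 * v 1 = t * v 0 := by
    have := congrFun ht 0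
    simpa [Matrix.mulVec, dotProduct, Fin.sum_univ_two] using this
  have e1 : g.1 1 0 * v 0 + g.1 1 1 * v 1 = t * v 1 := by
    have := congrFun ht 1
    simpa [Matrix.mulVec, dotProduct, Fin.sum_univ_two] using this
  have h2 : (γ⁻¹ * g * γ).1 1 0 = γ.1 0 0 * (g.1 1 0 * γ.1 0 0 + g.1 1 1 * γ.1 1 0)
      - γ.1 1 0 * (g.1 0 0 * γ.1 0 0 + g.1 0 1 * γ.1 1 0) := by
    rw [mul10, mul10, mul11, inv10, inv11]; ring
  rw [h2, h0, h1, e0, e1]; ring

theorem comm_stab (H : Subgroup G) (hZ : ZDense H) (hq : NoQuot H) (hne : H ≠ ⊤)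
    (v : Fin 2 → ℚ) (hv : v ≠ 0) (g h : G) (hg : g ∈ H) (hh : h ∈ H)
    (hgv : ∃ t : ℚ, (g : Matrix (Fin 2) (Fin 2) ℚ).mulVec v = t • v)
    (hhv : ∃ t : ℚ, (h : Matrix (Fin 2) (Fin 2) ℚ).mulVec v = t • v) : g * h = h * g := by
  obtain ⟨γ, hγ0, hγ1⟩ := exists_axis v hv
  have hex : ∃ c : ℚ, axisGroup γ H ≤ AddSubgroup.zmultiples c := by
    by_contra hcon
    push Not at hcon
    exact hne (top_of_axis H hZ hq γ hcon)
  obtain ⟨c, hc⟩ := hex
  obtain ⟨b, hb⟩ := exists_gen _ c hc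
  have hg10 := fix_upper γ g v hγ0 hγ1 hgv
  have hh10 := fix_upper γ h v hγ0 hγ1 hhv
  set g' : G := γ⁻¹ * g * γ with hg'
  set h' : G := γ⁻¹ * h * γ with hh'
  by_contra hcomm
  have hcomm' : g' * h' ≠ h' * g' := by
    intro hE
    apply hcomm
    have e1 : γ * (g' * h') * γ⁻¹ = g * h := by rw [hg', hh']; group
    have e2 : γ * (h' * g') * γ⁻¹ = h * g := by rw [hg', hh']; group
    rw [← e1, ← e2, hE]
  have dg := det4 g'
  have dh := det4 h'
  rw [hg10] at dg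
  rw [hh10] at dh
  have g00 : g'.1 0 0 ≠ 0 := by
    intro h0; rw [h0] at dg; norm_num at dg
  have h00 : h'.1 0 0 ≠ 0 := by
    intro h0; rw [h0] at dh; norm_num at dh
  -- the commutator is upper unipotent
  have hcom : ∃ z : ℚ, g' * h' * g'⁻¹ * h'⁻¹ = up z := by
    refine ⟨(g' * h' * g'⁻¹ * h'⁻¹).1 0 1, ?_⟩
    have hg10i : (g'⁻¹).1 1 0 = 0 := by rw [inv10, hg10, neg_zero]
    have hh10i : (h'⁻¹).1 1 0 = 0 := by rw [inv10, hh10, neg_zero]
    have k1 : (g' * h').1 1 0 = 0 := by rw [mul10, hg10, hh10]; ring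
    have k2 : (g' * h' * g'⁻¹).1 1 0 = 0 := by rw [mul10, k1, hg10i]; ring
    apply ext4
    · rw [up00, mul00, hh10i, mul00, hg10i, mul00, hh10, inv00, inv00]
      have e1 : g'.1 0 0 * g'.1 1 1 = 1 := by linear_combination dg
      have e2 : h'.1 0 0 * h'.1 1 1 = 1 := by linear_combination dh
      linear_combination (h'.1 0 0 * h'.1 1 1) * e1 + e2
    · rw [up01]
    · rw [up10, mul10, k2, hh10i]; ring
    · rw [up11, mul11, k2, mul11, k1, mul11, hg10, inv11, inv11]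
      have e1 : g'.1 0 0 * g'.1 1 1 = 1 := by linear_combination dg
      have e2 : h'.1 0 0 * h'.1 1 1 = 1 := by linear_combination dh
      linear_combination (h'.1 0 0 * h'.1 1 1) * e1 + e2
  obtain ⟨z, hz⟩ := hcom
  have hz0 : z ≠ 0 := by
    rintro rfl
    apply hcomm'
    rw [up_zero] at hz
    have := mul_inv_eq_one.1 hz
    exact mul_inv_eq_iff_eq_mul.1 this
  have hgm : ∀ x : G, γ * (γ⁻¹ * x * γ) * γ⁻¹ = x := fun x => by group
  have hzA : z ∈ axisGroup γ H := by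
    rw [mem_axisGroup, ← hz]
    have : γ * (g' * h' * g'⁻¹ * h'⁻¹) * γ⁻¹ = g * h * g⁻¹ * h⁻¹ := by
      rw [hg', hh']; group
    rw [this]
    exact H.mul_mem (H.mul_mem (H.mul_mem hg hh) (H.inv_mem hg)) (H.inv_mem hh)
  have key : ∀ k ∈ H, (γ⁻¹ * k * γ).1 1 0 = 0 → ∀ x ∈ axisGroup γ H,
      (γ⁻¹ * k * γ).1 0 0 ^ 2 * x ∈ axisGroup γ H := by
    intro k hk hk10 x hx
    rw [mem_axisGroup, ← upper_conj _ hk10]
    rw [mem_axisGroup] at hx
    have : γ * (γ⁻¹ * k * γ * up x * (γ⁻¹ * k * γ)⁻¹) * γ⁻¹ = k * (γ * up x * γ⁻¹) * k⁻¹ := by group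
    rw [this]
    exact H.mul_mem (H.mul_mem hk hx) (H.inv_mem hk)
  have hsq : ∀ k ∈ H, (γ⁻¹ * k * γ).1 1 0 = 0 → (γ⁻¹ * k * γ).1 0 0 ^ 2 = 1 := by
    intro k hk hk10
    have dk := det4 (γ⁻¹ * k * γ)
    rw [hk10] at dk
    have k00 : (γ⁻¹ * k * γ).1 0 0 ≠ 0 := by
      intro h0; rw [h0] at dk; norm_num at dk
    have k11 : (γ⁻¹ * k * γ).1 1 1 = ((γ⁻¹ * k * γ).1 0 0)⁻¹ := by
      field_simp
      linear_combination dk
    have hinv : γ⁻¹ * k⁻¹ * γ = (γ⁻¹ * k * γ)⁻¹ := by group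
    refine sq_eq_one (axisGroup γ H) b hb z hzA hz0 _ k00 (key k hk hk10) ?_
    intro x hx
    have h3 := key k⁻¹ (H.inv_mem hk) (by rw [hinv, inv10, hk10, neg_zero]) x hx
    rw [hinv, inv00, k11] at h3
    exact h3
  exact hcomm' (upper_comm g' h' hg10 hh10 (hsq g hg hg10) (hsq h hh hh10))

end Pool.Agent.MP_21c19e_al
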