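import Pool.Agent.Lib.MP_21c19e_al.ConfDefs
import Pool.Agent.Lib.MP_21c19e_al.Final

set_option autoImplicit false

/-!
MP_21c19e_al, confined case: counting in a box of the upper triangular group, and the algebra of
three elements with the same trace and the same image of infinity.
-/

namespace Pool.Agent.MP_21c19e_al.Conf

open Matrix

/-- Three points of the same colour on a line attached to the colour. -/
theorem box_count {α : Type*} (P : Finset α) (z : α → ℕ → ℤ) :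
    ∀ f : ℕ → ℕ → α, (∀ e j, f e j ∈ P) →
      ∃ x ∈ P, ∃ X : ℤ, ∃ e1 e2 e3 j1 j2 j3 : ℕ, e1 < 2 * P.card + 1 ∧ e2 < 2 * P.card + 1 ∧
        e3 < 2 * P.card + 1 ∧ e1 ≠ e2 ∧ e1 ≠ e3 ∧ e2 ≠ e3 ∧ f e1 j1 = x ∧ f e2 j2 = x ∧ f e3 j3 = x ∧
        (j1 : ℤ) + z x e1 = X ∧ (j2 : ℤ) + z x e2 = X ∧ (j3 : ℤ) + z x e3 = X := by
  classical
  set k := P.card with hk
  set E := 2 * k + 1 with hE
  set A : ℕ := ∑ x ∈ P, ∑ e ∈ Finset.range E, (z x e).natAbs with hA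
  set J := 2 * k * (2 * A + 1) + 1 with hJ
  intro f hf
  have hz : ∀ x ∈ P, ∀ e < E, (z x e).natAbs ≤ A := by
    intro x hx e he
    have h1 : (z x e).natAbs ≤ ∑ e ∈ Finset.range E, (z x e).natAbs :=
      Finset.single_le_sum (f := fun e => (z x e).natAbs) (fun _ _ => Nat.zero_le _)
        (Finset.mem_range.2 he)
    have h2 : ∑ e ∈ Finset.range E, (z x e).natAbs ≤ A :=
      Finset.single_le_sum (f := fun x => ∑ e ∈ Finset.range E, (z x e).natAbs)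
        (fun _ _ => Nat.zero_le _) hx
    exact h1.trans h2
  let g : ℕ × ℕ → α × ℤ := fun t => (f t.1 t.2, (t.2 : ℤ) + z (f t.1 t.2) t.1)
  have hmaps : ∀ t ∈ Finset.range E ×ˢ Finset.range J,
      g t ∈ P ×ˢ Finset.Ico (-(A : ℤ)) ((J : ℤ) + A + 1) := by
    rintro ⟨e, j⟩ ht
    simp only [Finset.mem_product, Finset.mem_range] at ht
    have h1 := hz (f e j) (hf e j) e ht.1
    simp only [g, Finset.mem_product, Finset.mem_Ico]
    refine ⟨hf e j, ?_, ?_⟩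
    · omega
    · omega
  have hcard : (P ×ˢ Finset.Ico (-(A : ℤ)) ((J : ℤ) + A + 1)).card * 2 <
      (Finset.range E ×ˢ Finset.range J).card := by
    rw [Finset.card_product, Finset.card_product, Finset.card_range, Finset.card_range,
      Int.card_Ico, ← hk]
    have h1 : ((J : ℤ) + A + 1 - (-(A : ℤ))).toNat = J + 2 * A + 1 := by omega
    rw [h1]
    have h2 : k * (J + 2 * A + 1) * 2 = 2 * k * J + 2 * k * (2 * A + 1) := by ring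
    have h3 : E * J = 2 * k * J + J := by rw [hE]; ring
    rw [h2, h3]
    omega
  obtain ⟨⟨x, X⟩, hxX, hfib⟩ := Finset.exists_lt_card_fiber_of_mul_lt_card_of_maps_to hmaps hcard
  obtain ⟨⟨e1, j1⟩, ⟨e2, j2⟩, ⟨e3, j3⟩, h1, h2, h3, h12, h13, h23⟩ :=
    Finset.two_lt_card_iff.1 hfib
  simp only [Finset.mem_filter, Finset.mem_product, Finset.mem_range, g, Prod.mk.injEq] at h1 h2 h3
  obtain ⟨⟨he1, hj1⟩, hf1, hX1⟩ := h1
  obtain ⟨⟨he2, hj2⟩, hf2, hX2⟩ := h2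
  obtain ⟨⟨he3, hj3⟩, hf3, hX3⟩ := h3
  rw [hf1] at hX1
  rw [hf2] at hX2
  rw [hf3] at hX3
  have hne : ∀ a b ja jb : ℕ, (a, ja) ≠ (b, jb) → (ja : ℤ) + z x a = X → (jb : ℤ) + z x b = X →
      a ≠ b := by
    rintro a b ja jb hab h1 h2 rfl
    apply hab
    have : (ja : ℤ) = jb := by linarith
    rw [Prod.mk.injEq]
    exact ⟨rfl, by exact_mod_cast this⟩
  refine ⟨x, (Finset.mem_product.1 hxX).1, X, e1, e2, e3, j1, j2, j3, he1, he2, he3,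
    hne _ _ _ _ h12 hX1 hX2, hne _ _ _ _ h13 hX1 hX3, hne _ _ _ _ h23 hX2 hX3,
    hf1, hf2, hf3, hX1, hX2, hX3⟩

theorem conj_entries_aux (x b : G) (u r : ℚ) (hu : u ≠ 0) (b00 : b.1 0 0 = u)
    (b01 : b.1 0 1 = u * r) (b10 : b.1 1 0 = 0) (b11 : b.1 1 1 = u⁻¹) :
    (b⁻¹ * x * b).1 0 0 = x.1 0 0 - r * (x.1 1 0 * u ^ 2) ∧
    (b⁻¹ * x * b).1 1 0 = x.1 1 0 * u ^ 2 ∧
    (b⁻¹ * x * b).1 0 0 + (b⁻¹ * x * b).1 1 1 = x.1 0 0 + x.1 1 1 := by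
  refine ⟨?_, ?_, ?_⟩
  · rw [mul00, mul00, mul01, inv00, inv01, b00, b01, b10, b11]
    field_simp
    ring
  · rw [mul10, mul10, mul11, inv10, inv11, b00, b10]
    ring
  · rw [mul00, mul00, mul01, mul11, mul10, mul11, inv00, inv01, inv10, inv11, b00, b01, b10, b11]
    field_simp
    ring

/-- Entries of a conjugate by an upper triangular matrix. -/
theorem conj_entries (x : G) (u r : ℚ) (hu : u ≠ 0) :
    ((tor u hu * up r)⁻¹ * x * (tor u hu * up r)).1 0 0 = x.1 0 0 - r * (x.1 1 0 * u ^ 2) ∧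
    ((tor u hu * up r)⁻¹ * x * (tor u hu * up r)).1 1 0 = x.1 1 0 * u ^ 2 ∧
    ((tor u hu * up r)⁻¹ * x * (tor u hu * up r)).1 0 0 +
      ((tor u hu * up r)⁻¹ * x * (tor u hu * up r)).1 1 1 = x.1 0 0 + x.1 1 1 := by
  apply conj_entries_aux x _ u r hu
  · rw [mul00]; simp
  · rw [mul01]; simp
  · rw [mul10]; simp
  · rw [mul11]; simp

theorem comm01 (g k : G) (h : g * k = k * g) :
    g.1 0 0 * k.1 0 1 + g.1 0 1 * k.1 1 1 = k.1 0 0 * g.1 0 1 + k.1 0 1 * g.1 1 1 := by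
  rw [← mul01, ← mul01, h]

theorem inv_mul_entries (y1 y2 : G) (ρ τ c1 c2 : ℚ) (hc1 : c1 ≠ 0) (hc2 : c2 ≠ 0)
    (a1 : y1.1 0 0 = ρ * c1) (b1 : y1.1 1 0 = c1) (t1 : y1.1 0 0 + y1.1 1 1 = τ)
    (a2 : y2.1 0 0 = ρ * c2) (b2 : y2.1 1 0 = c2) (t2 : y2.1 0 0 + y2.1 1 1 = τ) :
    (y1⁻¹ * y2).1 0 0 = c2 / c1 ∧ (y1⁻¹ * y2).1 1 1 = c1 / c2 ∧ (y1⁻¹ * y2).1 1 0 = 0 ∧
      (y1⁻¹ * y2).1 0 1 = (c2 - c1) * (τ - ρ * (c1 + c2)) / (c1 * c2) := by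
  have d1 : y1.1 1 1 = τ - ρ * c1 := by rw [← t1, a1]; ring
  have d2 : y2.1 1 1 = τ - ρ * c2 := by rw [← t2, a2]; ring
  have e1 := det4 y1
  have e2 := det4 y2
  rw [a1, b1, d1] at e1
  rw [a2, b2, d2] at e2
  have f1 : y1.1 0 1 = (ρ * c1 * (τ - ρ * c1) - 1) / c1 := by
    rw [eq_div_iff hc1]; linarith
  have f2 : y2.1 0 1 = (ρ * c2 * (τ - ρ * c2) - 1) / c2 := by
    rw [eq_div_iff hc2]; linarith
  refine ⟨?_, ?_, ?_, ?_⟩
  · rw [mul00, inv00, inv01, a2, b2, d1, f1]; field_simp; ring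
  · rw [mul11, inv10, inv11, a1, b1, d2, f2]; field_simp; ring
  · rw [mul10, inv10, inv11, a1, b1, a2, b2]; ring
  · rw [mul01, inv00, inv01, d1, d2, f1, f2]; field_simp; ring

/-- Three elements of `H` with the same trace and the same image of infinity. -/
theorem top_of_three (H : Subgroup G) (hZ : ZDense H) (hq : NoQuot H) (y1 y2 y3 : G)
    (h1 : y1 ∈ H) (h2 : y2 ∈ H) (h3 : y3 ∈ H) (ρ τ c1 c2 c3 : ℚ) (hτ : τ ≠ 0)
    (hc1 : c1 ≠ 0) (hc2 : c2 ≠ 0) (hc3 : c3 ≠ 0) (h12 : c1 ≠ c2) (h13 : c1 ≠ c3) (h23 : c2 ≠ c3)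
    (a1 : y1.1 0 0 = ρ * c1) (b1 : y1.1 1 0 = c1) (t1 : y1.1 0 0 + y1.1 1 1 = τ)
    (a2 : y2.1 0 0 = ρ * c2) (b2 : y2.1 1 0 = c2) (t2 : y2.1 0 0 + y2.1 1 1 = τ)
    (a3 : y3.1 0 0 = ρ * c3) (b3 : y3.1 1 0 = c3) (t3 : y3.1 0 0 + y3.1 1 1 = τ) : H = ⊤ := by
  by_contra hne
  obtain ⟨g00, g11, g10, g01⟩ := inv_mul_entries y1 y2 ρ τ c1 c2 hc1 hc2 a1 b1 t1 a2 b2 t2
  obtain ⟨k00, k11, k10, k01⟩ := inv_mul_entries y1 y3 ρ τ c1 c3 hc1 hc3 a1 b1 t1 a3 b3 t3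
  set g := y1⁻¹ * y2 with hg
  set k := y1⁻¹ * y3 with hk
  have hgH : g ∈ H := H.mul_mem (H.inv_mem h1) h2
  have hkH : k ∈ H := H.mul_mem (H.inv_mem h1) h3
  have hv : (![1, 0] : Fin 2 → ℚ) ≠ 0 := by
    intro h0
    have := congrFun h0 0
    simp at this
  have hfix : ∀ x : G, x.1 1 0 = 0 → ∃ t : ℚ,
      (x : Matrix (Fin 2) (Fin 2) ℚ).mulVec (![1, 0] : Fin 2 → ℚ) = t • (![1, 0] : Fin 2 → ℚ) := by
    intro x hx
    refine ⟨x.1 0 0, ?_⟩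
    ext i
    fin_cases i
    · simp [Matrix.mulVec, dotProduct, Fin.sum_univ_two]
    · simp [Matrix.mulVec, dotProduct, Fin.sum_univ_two, hx]
  have hcomm := comm_stab H hZ hq hne ![1, 0] hv g k hgH hkH (hfix g g10) (hfix k k10)
  have h01 := comm01 g k hcomm
  rw [g00, g01, g11, k00, k01, k11] at h01
  have hfin : (c3 - c1) * (c2 - c1) * τ * (c2 - c3) = 0 := by
    field_simp at h01
    linear_combination h01
  have n1 : c3 - c1 ≠ 0 := sub_ne_zero.2 (Ne.symm h13)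
  have n2 : c2 - c1 ≠ 0 := sub_ne_zero.2 (Ne.symm h12)
  have n3 : c2 - c3 ≠ 0 := sub_ne_zero.2 h23
  exact (mul_ne_zero (mul_ne_zero (mul_ne_zero n1 n2) hτ) n3) hfin

end Pool.Agent.MP_21c19e_al.Conf
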