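import Pool.Agent.Lib.MP_21c19e_al.Defs

set_option autoImplicit false

/-!
MP_21c19e_al, confined case: transvections over a commutative ring, reduction maps.
-/

namespace Pool.Agent.MP_21c19e_al.Conf

open Matrix

/-- `SL2(Z)`. -/
abbrev D := Matrix.SpecialLinearGroup (Fin 2) ℤ

/-- The inclusion of `SL2(Z)` in `SL2(Q)`. -/
noncomputable def io : D →* G := Matrix.SpecialLinearGroup.map (Int.castRingHom ℚ)

theorem io_ij (g : D) (i j : Fin 2) : (io g).1 i j = ((g.1 i j : ℤ) : ℚ) := rfl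

section ring

variable {R : Type*} [CommRing R]

theorem extR {g h : Matrix.SpecialLinearGroup (Fin 2) R} (h00 : g.1 0 0 = h.1 0 0)
    (h01 : g.1 0 1 = h.1 0 1) (h10 : g.1 1 0 = h.1 1 0) (h11 : g.1 1 1 = h.1 1 1) : g = h := by
  apply Subtype.ext
  ext i j
  fin_cases i <;> fin_cases j <;> assumption

theorem detR (g : Matrix.SpecialLinearGroup (Fin 2) R) :
    g.1 0 0 * g.1 1 1 - g.1 0 1 * g.1 1 0 = 1 := by
  have := g.2
  rwa [Matrix.det_fin_two] at this

theorem mulR (g h : Matrix.SpecialLinearGroup (Fin 2) R) (i j : Fin 2) :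
    (g * h).1 i j = g.1 i 0 * h.1 0 j + g.1 i 1 * h.1 1 j := by
  simp [Matrix.SpecialLinearGroup.coe_mul, Matrix.mul_apply, Fin.sum_univ_two]

theorem invR00 (g : Matrix.SpecialLinearGroup (Fin 2) R) : (g⁻¹).1 0 0 = g.1 1 1 := by
  simp [Matrix.SpecialLinearGroup.coe_inv, Matrix.adjugate_fin_two]

theorem invR01 (g : Matrix.SpecialLinearGroup (Fin 2) R) : (g⁻¹).1 0 1 = -g.1 0 1 := by
  simp [Matrix.SpecialLinearGroup.coe_inv, Matrix.adjugate_fin_two]

theorem invR10 (g : Matrix.SpecialLinearGroup (Fin 2) R) : (g⁻¹).1 1 0 = -g.1 1 0 := by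
  simp [Matrix.SpecialLinearGroup.coe_inv, Matrix.adjugate_fin_two]

theorem invR11 (g : Matrix.SpecialLinearGroup (Fin 2) R) : (g⁻¹).1 1 1 = g.1 0 0 := by
  simp [Matrix.SpecialLinearGroup.coe_inv, Matrix.adjugate_fin_two]

/-- The transvection `w ↦ w + c * det(v,w) * v` for `v = (a,b)`, over a commutative ring. -/
def TR (a b c : R) : Matrix.SpecialLinearGroup (Fin 2) R :=
  ⟨!![1 - c * a * b, c * a ^ 2; -(c * b ^ 2), 1 + c * a * b], by
    simp [Matrix.det_fin_two]; ring⟩

@[simp] theorem TR00 (a b c : R) : (TR a b c).1 0 0 = 1 - c * a * b := rfl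
@[simp] theorem TR01 (a b c : R) : (TR a b c).1 0 1 = c * a ^ 2 := rfl
@[simp] theorem TR10 (a b c : R) : (TR a b c).1 1 0 = -(c * b ^ 2) := rfl
@[simp] theorem TR11 (a b c : R) : (TR a b c).1 1 1 = 1 + c * a * b := rfl

theorem TR_mul (a b c d : R) : TR a b c * TR a b d = TR a b (c + d) := by
  apply extR <;> simp only [mulR, TR00, TR01, TR10, TR11] <;> ring

theorem TR_inv (a b c : R) : (TR a b c)⁻¹ = TR a b (-c) := by
  apply extR <;> simp only [invR00, invR01, invR10, invR11, TR00, TR01, TR10, TR11] <;> ring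

theorem TR_zero (a b : R) : TR a b 0 = 1 := by
  apply extR <;> simp

theorem TR_smul (l a b c : R) : TR (l * a) (l * b) c = TR a b (l ^ 2 * c) := by
  apply extR <;> simp only [TR00, TR01, TR10, TR11] <;> ring

theorem conj_TR (g : Matrix.SpecialLinearGroup (Fin 2) R) (a b c : R) :
    g * TR a b c * g⁻¹ = TR (g.1 0 0 * a + g.1 0 1 * b) (g.1 1 0 * a + g.1 1 1 * b) c := by
  have hd := detR g
  rw [mul_inv_eq_iff_eq_mul]
  apply extR <;> simp only [mulR, TR00, TR01, TR10, TR11]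
  · linear_combination (c * (g.1 0 0 * a * b + g.1 0 1 * b ^ 2)) * hd
  · linear_combination (-c * (g.1 0 0 * a ^ 2 + g.1 0 1 * b * a)) * hd
  · linear_combination (c * (g.1 1 0 * a * b + g.1 1 1 * b ^ 2)) * hd
  · linear_combination (-c * (g.1 1 0 * a ^ 2 + g.1 1 1 * b * a)) * hd

theorem map_ij {S : Type*} [CommRing S] (f : R →+* S) (g : Matrix.SpecialLinearGroup (Fin 2) R)
    (i j : Fin 2) : (Matrix.SpecialLinearGroup.map f g).1 i j = f (g.1 i j) := rfl

theorem map_TR {S : Type*} [CommRing S] (f : R →+* S) (a b c : R) :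
    Matrix.SpecialLinearGroup.map f (TR a b c) = TR (f a) (f b) (f c) := by
  apply extR <;> simp [map_ij]

end ring

/-- Reduction modulo `N`. -/
def red (N : ℕ) : D →* Matrix.SpecialLinearGroup (Fin 2) (ZMod N) :=
  Matrix.SpecialLinearGroup.map (Int.castRingHom (ZMod N))

theorem red_ij (N : ℕ) (g : D) (i j : Fin 2) : (red N g).1 i j = ((g.1 i j : ℤ) : ZMod N) := rfl

theorem red_TR (N : ℕ) (a b c : ℤ) : red N (TR a b c) = TR (a : ZMod N) b c := by
  apply extR <;> simp [red_ij]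

theorem io_TR (a b c : ℤ) : io (TR a b c) = T (a : ℚ) b c := by
  apply ext4 <;> simp [io_ij]

theorem io_inj {g h : D} (e : io g = io h) : g = h := by
  have key : ∀ i j : Fin 2, g.1 i j = h.1 i j := by
    intro i j
    have : (io g).1 i j = (io h).1 i j := by rw [e]
    rw [io_ij, io_ij] at this
    exact_mod_cast this
  exact extR (key 0 0) (key 0 1) (key 1 0) (key 1 1)

/-- Every `SL2(Z)`-conjugate of `H` meets the finite set `P` of integral matrices. -/
def Confined (H : Subgroup G) (P : Finset D) : Prop :=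
  ∀ δ : D, ∃ p ∈ P, (io δ)⁻¹ * io p * io δ ∈ H

end Pool.Agent.MP_21c19e_al.Conf
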