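import Pool.Agent.Lib.MP_21c19e_al.ConfDefs

set_option autoImplicit false

/-!
MP_21c19e_al, confined case: pigeonhole in a finite quotient; unipotents close to the identity
outside a prime.
-/

namespace Pool.Agent.MP_21c19e_al.Conf

open Matrix

theorem pigeon {A F : Type*} [Group A] [Group F] [Finite F] (f : A →* F) (Γ : Subgroup A)
    (P : Finset A) (h : ∀ δ : A, ∃ p ∈ P, δ⁻¹ * p * δ ∈ Γ) (ν : A → ℕ → A) :
    ∃ p ∈ P, ∃ i j : ℕ, i ≤ P.card ∧ j ≤ P.card ∧ i ≠ j ∧ ∃ x y : A,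
      x⁻¹ * p * x ∈ Γ ∧ y⁻¹ * p * y ∈ Γ ∧ f (ν p i * x) = f (ν p j * y) := by
  classical
  haveI : Fintype F := Fintype.ofFinite F
  let S : A → Finset F := fun p => Finset.univ.filter (fun y => ∃ x : A, x⁻¹ * p * x ∈ Γ ∧ f x = y)
  let R : Finset F := Finset.univ.filter (fun y => ∃ x : A, f x = y)
  have hR : R ⊆ P.biUnion S := by
    intro y hy
    simp only [R, Finset.mem_filter, Finset.mem_univ, true_and] at hy
    obtain ⟨x, rfl⟩ := hy
    obtain ⟨p, hp, hpx⟩ := h x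
    simp only [Finset.mem_biUnion]
    exact ⟨p, hp, by simp only [S, Finset.mem_filter, Finset.mem_univ, true_and]; exact ⟨x, hpx, rfl⟩⟩
  have hR1 : 0 < R.card := by
    apply Finset.card_pos.2
    exact ⟨1, by simp only [R, Finset.mem_filter, Finset.mem_univ, true_and]; exact ⟨1, map_one f⟩⟩
  have hsum : R.card ≤ ∑ p ∈ P, (S p).card :=
    (Finset.card_le_card hR).trans Finset.card_biUnion_le
  have hex : ∃ p ∈ P, R.card ≤ P.card * (S p).card := by
    by_contra hcon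
    push Not at hcon
    have hPne : P.Nonempty := by
      obtain ⟨p, hp, -⟩ := h 1
      exact ⟨p, hp⟩
    have h1 : ∑ p ∈ P, P.card * (S p).card < ∑ _p ∈ P, R.card :=
      Finset.sum_lt_sum_of_nonempty hPne hcon
    rw [← Finset.mul_sum, Finset.sum_const, smul_eq_mul] at h1
    have h2 := Nat.mul_le_mul_left P.card hsum
    omega
  obtain ⟨p, hp, hle⟩ := hex
  have hS : 0 < (S p).card := by
    rcases Nat.eq_zero_or_pos (S p).card with h0 | h0
    · rw [h0] at hle; omega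
    · exact h0
  -- translates
  let g : ℕ × F → F := fun t => f (ν p t.1) * t.2
  have hmaps : ∀ t ∈ Finset.range (P.card + 1) ×ˢ S p, g t ∈ R := by
    rintro ⟨i, y⟩ ht
    simp only [Finset.mem_product, S, Finset.mem_filter, Finset.mem_univ, true_and] at ht
    obtain ⟨-, x, -, rfl⟩ := ht
    simp only [g, R, Finset.mem_filter, Finset.mem_univ, true_and]
    exact ⟨ν p i * x, map_mul _ _ _⟩
  have hcard : R.card < (Finset.range (P.card + 1) ×ˢ S p).card := by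
    rw [Finset.card_product, Finset.card_range, add_mul, one_mul]
    omega
  obtain ⟨⟨i, y⟩, hi, ⟨j, z⟩, hj, hne, he⟩ :=
    Finset.exists_ne_map_eq_of_card_lt_of_maps_to hcard hmaps
  simp only [Finset.mem_product, Finset.mem_range, S, Finset.mem_filter, Finset.mem_univ,
    true_and] at hi hj
  obtain ⟨hi, x1, hx1, rfl⟩ := hi
  obtain ⟨hj, x2, hx2, rfl⟩ := hj
  refine ⟨p, hp, i, j, by omega, by omega, ?_, x1, x2, hx1, hx2, ?_⟩
  · rintro rfl
    apply hne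
    have : f x1 = f x2 := mul_left_cancel he
    rw [this]
  · rw [map_mul, map_mul]; exact he

instance finSL (N : ℕ) [NeZero N] : Finite (Matrix.SpecialLinearGroup (Fin 2) (ZMod N)) := by
  unfold Matrix.SpecialLinearGroup
  infer_instance

/-- Eigenvectors modulo all powers of `l`. -/
def HasEig (l : ℕ) (x : D) : Prop := ∀ n : ℕ, ∃ v0 v1 m : ℤ, ¬ ((l : ℤ) ∣ v1) ∧
  ¬ ((l : ℤ) ∣ m ^ 2 - 1) ∧
  ((l : ℤ) ^ (n + 1) ∣ x.1 0 0 * v0 + x.1 0 1 * v1 - m * v0) ∧
  ((l : ℤ) ^ (n + 1) ∣ x.1 1 0 * v0 + x.1 1 1 * v1 - m * v1)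

theorem approx_unip (H : Subgroup G) (P : Finset D) (hconf : Confined H P) (l : ℕ) (hl : l.Prime)
    (hk : P.card < l) (heig : ∀ x ∈ P, HasEig l x) (Q : ℕ) (hQ : ¬ (l ∣ Q)) (n : ℕ) :
    ∃ γ : D, io γ ∈ H ∧ red Q γ = 1 ∧ ∃ w0 w1 t : ℤ, ¬ ((l : ℤ) ∣ t) ∧
      ¬ ((l : ℤ) ∣ w0 ∧ (l : ℤ) ∣ w1) ∧ red (l ^ (n + 1)) γ = red (l ^ (n + 1)) (TR w0 w1 t) := by
  classical
  have hp : Prime (l : ℤ) := Nat.prime_iff_prime_int.1 hl
  haveI : NeZero Q := ⟨by rintro rfl; exact hQ (dvd_zero l)⟩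
  haveI : NeZero (l ^ (n + 1)) := ⟨pow_ne_zero _ hl.ne_zero⟩
  -- eigenvector data
  have hch : ∀ x : D, ∃ v0 v1 m : ℤ, x ∈ P → (¬ ((l : ℤ) ∣ v1) ∧
      ¬ ((l : ℤ) ∣ m ^ 2 - 1) ∧
      ((l : ℤ) ^ (n + 1) ∣ x.1 0 0 * v0 + x.1 0 1 * v1 - m * v0) ∧
      ((l : ℤ) ^ (n + 1) ∣ x.1 1 0 * v0 + x.1 1 1 * v1 - m * v1)) := by
    intro x
    by_cases hx : x ∈ P
    · obtain ⟨v0, v1, m, hh⟩ := heig x hx n
      exact ⟨v0, v1, m, fun _ => hh⟩
    · exact ⟨0, 0, 0, fun hh => absurd hh hx⟩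
  choose v0 v1 m hv using hch
  let ν : D → ℕ → D := fun p i => TR (v0 p) (v1 p) ((Q : ℤ) * i)
  obtain ⟨p, hpP, i, j, hi, hj, hij, x, y, hx, hy, he⟩ := pigeon
    ((red Q).prod (red (l ^ (n + 1)))) (H.comap io) P (by
      intro δ
      obtain ⟨p, hp, hpH⟩ := hconf δ
      refine ⟨p, hp, ?_⟩
      rw [Subgroup.mem_comap, map_mul, map_mul, map_inv]
      exact hpH) ν
  obtain ⟨hv1, hm, he0, he1⟩ := hv p hpP
  have heQ : red Q (ν p i * x) = red Q (ν p j * y) := congrArg Prod.fst he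
  have hel : red (l ^ (n + 1)) (ν p i * x) = red (l ^ (n + 1)) (ν p j * y) := congrArg Prod.snd he
  set σ : D := ν p i * x with hσ
  refine ⟨(x⁻¹ * p * x) * (y⁻¹ * p * y)⁻¹, ?_, ?_, ?_⟩
  · exact (H.comap io).mul_mem hx ((H.comap io).inv_mem hy)
  · have hν : ∀ i : ℕ, red Q (ν p i) = 1 := by
      intro i
      simp only [ν]
      rw [red_TR]
      push_cast
      rw [ZMod.natCast_self, zero_mul, TR_zero]
    rw [hσ, map_mul, map_mul, hν, hν, one_mul, one_mul] at heQ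
    simp only [map_mul, map_inv, heQ]
    group
  · refine ⟨(σ⁻¹).1 0 0 * v0 p + (σ⁻¹).1 0 1 * v1 p, (σ⁻¹).1 1 0 * v0 p + (σ⁻¹).1 1 1 * v1 p,
      (Q : ℤ) * ((j : ℤ) - i) * (m p ^ 2 - 1), ?_, ?_, ?_⟩
    · intro hd
      rcases hp.dvd_or_dvd hd with h1 | h1
      · rcases hp.dvd_or_dvd h1 with h2 | h2
        · exact hQ (Int.natCast_dvd_natCast.1 h2)
        · have h3 : ((j : ℤ) - i) ≠ 0 := by
            intro h0
            apply hij
            have : (j : ℤ) = i := by linarith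
            exact_mod_cast this.symm
          have h4 := Int.le_of_dvd (Int.natAbs_pos.2 h3 |> fun h => by exact_mod_cast h)
            ((Int.dvd_natAbs).2 h2)
          omega
      · exact hm h1
    · rintro ⟨h0, h1⟩
      apply hv1
      have hdet := detR σ
      have : v1 p = σ.1 1 0 * ((σ⁻¹).1 0 0 * v0 p + (σ⁻¹).1 0 1 * v1 p) +
          σ.1 1 1 * ((σ⁻¹).1 1 0 * v0 p + (σ⁻¹).1 1 1 * v1 p) := by
        rw [invR00, invR01, invR10, invR11]
        linear_combination -(v1 p) * hdet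
      rw [this]
      exact dvd_add (dvd_mul_of_dvd_right h0 _) (dvd_mul_of_dvd_right h1 _)
    · -- computation modulo `l ^ (n+1)`
      rw [← conj_TR, inv_inv]
      simp only [map_mul, map_inv]
      have ex : red (l ^ (n + 1)) x = (red (l ^ (n + 1)) (ν p i))⁻¹ * red (l ^ (n + 1)) σ := by
        rw [hσ, map_mul]; group
      have ey : red (l ^ (n + 1)) y = (red (l ^ (n + 1)) (ν p j))⁻¹ * red (l ^ (n + 1)) σ := by
        rw [hel, map_mul]; group
      rw [ex, ey]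
      set s := red (l ^ (n + 1)) σ with hs
      set q := red (l ^ (n + 1)) p with hq
      have hcast : ∀ z : ℤ, (l : ℤ) ^ (n + 1) ∣ z → ((z : ℤ) : ZMod (l ^ (n + 1))) = 0 := by
        intro z hz
        rw [ZMod.intCast_zmod_eq_zero_iff_dvd]
        exact_mod_cast hz
      have c0 := hcast _ he0
      have c1 := hcast _ he1
      push_cast at c0 c1
      have hconj : ∀ c : ZMod (l ^ (n + 1)), q * TR (v0 p : ZMod (l ^ (n + 1))) (v1 p) c * q⁻¹ =
          TR (v0 p : ZMod (l ^ (n + 1))) (v1 p) ((m p : ZMod (l ^ (n + 1))) ^ 2 * c) := by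
        intro c
        rw [conj_TR, ← TR_smul]
        congr 1
        · rw [hq, red_ij, red_ij]; linear_combination c0
        · rw [hq, red_ij, red_ij]; linear_combination c1
      simp only [ν, red_TR]
      push_cast
      set V0 : ZMod (l ^ (n + 1)) := (v0 p : ZMod (l ^ (n + 1))) with hV0
      set V1 : ZMod (l ^ (n + 1)) := (v1 p : ZMod (l ^ (n + 1))) with hV1
      have key : TR V0 V1 ((Q : ZMod (l ^ (n + 1))) * i) * q *
          (TR V0 V1 ((Q : ZMod (l ^ (n + 1))) * i))⁻¹ *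
          (TR V0 V1 ((Q : ZMod (l ^ (n + 1))) * j) * q *
          (TR V0 V1 ((Q : ZMod (l ^ (n + 1))) * j))⁻¹)⁻¹ =
          TR V0 V1 ((Q : ZMod (l ^ (n + 1))) * ((j : ZMod (l ^ (n + 1))) - i) *
            ((m p : ZMod (l ^ (n + 1))) ^ 2 - 1)) := by
        have h1 : TR V0 V1 ((Q : ZMod (l ^ (n + 1))) * i) * q *
          (TR V0 V1 ((Q : ZMod (l ^ (n + 1))) * i))⁻¹ *
          (TR V0 V1 ((Q : ZMod (l ^ (n + 1))) * j) * q *
          (TR V0 V1 ((Q : ZMod (l ^ (n + 1))) * j))⁻¹)⁻¹ =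
          TR V0 V1 ((Q : ZMod (l ^ (n + 1))) * i) *
          (q * ((TR V0 V1 ((Q : ZMod (l ^ (n + 1))) * i))⁻¹ *
            TR V0 V1 ((Q : ZMod (l ^ (n + 1))) * j)) * q⁻¹) *
            (TR V0 V1 ((Q : ZMod (l ^ (n + 1))) * j))⁻¹ := by group
        rw [h1, TR_inv, TR_inv, TR_mul, hconj, TR_mul, TR_mul]
        congr 1
        ring
      rw [← key]
      group

end Pool.Agent.MP_21c19e_al.Conf
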