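import Pool.Agent.Lib.MP_21c19e_al.ConfPigeon

set_option autoImplicit false

/-!
MP_21c19e_al, confined case: strong approximation at one prime.
-/

namespace Pool.Agent.MP_21c19e_al.Conf

open Matrix

/-- The elements of `H ∩ SL2(Z)` do not fix a line modulo `l`. -/
theorem move_line (H : Subgroup G) (P : Finset D) (hconf : Confined H P) (l : ℕ) (hl : l.Prime)
    (hk : 2 * P.card < l) (hc : ∀ x ∈ P, ¬ ((l : ℤ) ∣ x.1 1 0)) (w0 w1 : ℤ)
    (hw : ¬ ((l : ℤ) ∣ w0 ∧ (l : ℤ) ∣ w1)) :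
    ∃ γ : D, io γ ∈ H ∧ ¬ ((l : ℤ) ∣ w0 * (γ.1 1 0 * w0 + γ.1 1 1 * w1) -
      w1 * (γ.1 0 0 * w0 + γ.1 0 1 * w1)) := by
  classical
  have hp : Prime (l : ℤ) := Nat.prime_iff_prime_int.1 hl
  haveI : Fact l.Prime := ⟨hl⟩
  -- a first move making the second coordinate nonzero
  have hδ0 : ∃ δ0 : D, ¬ ((l : ℤ) ∣ δ0.1 1 0 * w0 + δ0.1 1 1 * w1) := by
    by_cases h1 : (l : ℤ) ∣ w1
    · refine ⟨TR 0 1 (-1), ?_⟩
      simp only [TR10, TR11]
      intro h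
      apply hw
      refine ⟨?_, h1⟩
      have := dvd_sub h h1
      have e : -((-1 : ℤ) * 1 ^ 2) * w0 + (1 + -1 * 0 * 1) * w1 - w1 = w0 := by ring
      rwa [e] at this
    · refine ⟨1, ?_⟩
      simpa using h1
  obtain ⟨δ0, hδ0⟩ := hδ0
  set u0 : ℤ := δ0.1 0 0 * w0 + δ0.1 0 1 * w1 with hu0
  set u1 : ℤ := δ0.1 1 0 * w0 + δ0.1 1 1 * w1 with hu1
  by_contra hcon
  push Not at hcon
  -- for each y choose p
  have hch : ∀ y : ℕ, ∃ p ∈ P, (io (TR 1 0 (y : ℤ) * δ0))⁻¹ * io p * io (TR 1 0 (y : ℤ) * δ0) ∈ H :=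
    fun y => hconf _
  choose f hf using hch
  have hdvd : ∀ y : ℕ, (l : ℤ) ∣ (f y).1 1 0 * (u0 + y * u1) ^ 2 +
      ((f y).1 1 1 - (f y).1 0 0) * (u0 + y * u1) * u1 - (f y).1 0 1 * u1 ^ 2 := by
    intro y
    set δ : D := TR 1 0 (y : ℤ) * δ0 with hδ
    have h1 : io (δ⁻¹ * f y * δ) ∈ H := by
      rw [map_mul, map_mul, map_inv]; exact (hf y).2
    have h2 := hcon _ h1
    have hdet := detR δ
    have hd0 : δ.1 0 0 * w0 + δ.1 0 1 * w1 = u0 + y * u1 := by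
      rw [hδ, mulR, mulR, TR00, TR01, hu0, hu1]; ring
    have hd1 : δ.1 1 0 * w0 + δ.1 1 1 * w1 = u1 := by
      rw [hδ, mulR, mulR, TR10, TR11, hu1]; ring
    have e : w0 * ((δ⁻¹ * f y * δ).1 1 0 * w0 + (δ⁻¹ * f y * δ).1 1 1 * w1) -
        w1 * ((δ⁻¹ * f y * δ).1 0 0 * w0 + (δ⁻¹ * f y * δ).1 0 1 * w1) =
        (δ.1 0 0 * w0 + δ.1 0 1 * w1) * ((f y).1 1 0 * (δ.1 0 0 * w0 + δ.1 0 1 * w1) +
          (f y).1 1 1 * (δ.1 1 0 * w0 + δ.1 1 1 * w1)) -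
        (δ.1 1 0 * w0 + δ.1 1 1 * w1) * ((f y).1 0 0 * (δ.1 0 0 * w0 + δ.1 0 1 * w1) +
          (f y).1 0 1 * (δ.1 1 0 * w0 + δ.1 1 1 * w1)) := by
      simp only [mulR, invR00, invR01, invR10, invR11]
      ring
    rw [e, hd0, hd1] at h2
    have e2 : (u0 + y * u1) * ((f y).1 1 0 * (u0 + y * u1) + (f y).1 1 1 * u1) -
        u1 * ((f y).1 0 0 * (u0 + y * u1) + (f y).1 0 1 * u1) =
        (f y).1 1 0 * (u0 + y * u1) ^ 2 +
      ((f y).1 1 1 - (f y).1 0 0) * (u0 + y * u1) * u1 - (f y).1 0 1 * u1 ^ 2 := by ring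
    rwa [e2] at h2
  -- three y's with the same p
  obtain ⟨p, hpP, hfib⟩ := Finset.exists_lt_card_fiber_of_mul_lt_card_of_maps_to
    (s := Finset.range l) (t := P) (f := f) (n := 2) (fun y _ => (hf y).1)
    (by rw [Finset.card_range]; omega)
  obtain ⟨y1, y2, y3, h1, h2, h3, h12, h13, h23⟩ := Finset.two_lt_card_iff.1 hfib
  simp only [Finset.mem_filter, Finset.mem_range] at h1 h2 h3
  have hu1' : ((u1 : ℤ) : ZMod l) ≠ 0 := by
    intro h0
    exact hδ0 ((ZMod.intCast_zmod_eq_zero_iff_dvd _ _).1 h0)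
  have hc' : ((p.1 1 0 : ℤ) : ZMod l) ≠ 0 := by
    intro h0
    exact hc p hpP ((ZMod.intCast_zmod_eq_zero_iff_dvd _ _).1 h0)
  have hne : ∀ a b : ℕ, a < l → b < l → a ≠ b → ((a : ZMod l) - b) ≠ 0 := by
    intro a b ha hb hab h0
    apply hab
    have h4 : (a : ZMod l) = b := sub_eq_zero.1 h0
    rw [ZMod.natCast_eq_natCast_iff] at h4
    exact Nat.ModEq.eq_of_lt_of_lt h4 ha hb
  have hq : ∀ y : ℕ, f y = p → ((p.1 1 0 : ℤ) : ZMod l) * ((u0 : ZMod l) + y * u1) ^ 2 +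
      (((p.1 1 1 : ℤ) : ZMod l) - ((p.1 0 0 : ℤ) : ZMod l)) * ((u0 : ZMod l) + y * u1) * u1 -
      ((p.1 0 1 : ℤ) : ZMod l) * (u1 : ZMod l) ^ 2 = 0 := by
    intro y hy
    have h4 := hdvd y
    rw [hy] at h4
    have h5 := (ZMod.intCast_zmod_eq_zero_iff_dvd _ _).2 h4
    push_cast at h5
    exact h5
  have q1 := hq y1 h1.2
  have q2 := hq y2 h2.2
  have q3 := hq y3 h3.2
  have n12 := hne y1 y2 h1.1 h2.1 h12
  have n13 := hne y1 y3 h1.1 h3.1 h13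
  have n23 := hne y2 y3 h2.1 h3.1 h23
  set c : ZMod l := ((p.1 1 0 : ℤ) : ZMod l)
  set e : ZMod l := (((p.1 1 1 : ℤ) : ZMod l) - ((p.1 0 0 : ℤ) : ZMod l))
  set b : ZMod l := ((p.1 0 1 : ℤ) : ZMod l)
  set U0 : ZMod l := (u0 : ZMod l)
  set U1 : ZMod l := (u1 : ZMod l)
  have r12 : c * (2 * U0 + (y1 + y2) * U1) + e * U1 = 0 := by
    have : ((y1 : ZMod l) - y2) * U1 * (c * (2 * U0 + (y1 + y2) * U1) + e * U1) = 0 := by
      linear_combination q1 - q2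
    exact (mul_eq_zero.1 this).resolve_left (mul_ne_zero n12 hu1')
  have r13 : c * (2 * U0 + (y1 + y3) * U1) + e * U1 = 0 := by
    have : ((y1 : ZMod l) - y3) * U1 * (c * (2 * U0 + (y1 + y3) * U1) + e * U1) = 0 := by
      linear_combination q1 - q3
    exact (mul_eq_zero.1 this).resolve_left (mul_ne_zero n13 hu1')
  have r : c * (((y2 : ZMod l) - y3) * U1) = 0 := by linear_combination r12 - r13
  exact (mul_ne_zero hc' (mul_ne_zero n23 hu1')) r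

theorem TR_pow {R : Type*} [CommRing R] (a b c : R) (k : ℕ) : TR a b c ^ k = TR a b (c * k) := by
  induction k with
  | zero => simp [TR_zero]
  | succ k ih => rw [pow_succ, ih, TR_mul]; congr 1; push_cast; ring

theorem unit_of_not_dvd (l : ℕ) (hl : l.Prime) (n : ℕ) (z : ℤ) (hz : ¬ ((l : ℤ) ∣ z)) :
    ∃ z' : ZMod (l ^ (n + 1)), (z : ZMod (l ^ (n + 1))) * z' = 1 := by
  have hp : Prime (l : ℤ) := Nat.prime_iff_prime_int.1 hl
  have hco : IsCoprime z ((l : ℤ) ^ (n + 1)) := by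
    apply IsCoprime.pow_right
    exact ((Prime.coprime_iff_not_dvd hp).2 hz).symm
  obtain ⟨a, b, hab⟩ := hco
  refine ⟨(a : ZMod (l ^ (n + 1))), ?_⟩
  have h1 : (((a * z + b * (l : ℤ) ^ (n + 1) : ℤ)) : ZMod (l ^ (n + 1))) = 1 := by
    rw [hab]; simp
  push_cast at h1
  have h2 : ((l : ZMod (l ^ (n + 1))) ^ (n + 1)) = 0 := by
    have := ZMod.natCast_self (l ^ (n + 1))
    push_cast at this
    exact this
  rw [h2, mul_zero, add_zero] at h1
  linear_combination h1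

/-- Elementary matrices generate `SL2(Z/l^(n+1))`. -/
theorem top_of_elem (l : ℕ) (hl : l.Prime) (n : ℕ)
    (K : Subgroup (Matrix.SpecialLinearGroup (Fin 2) (ZMod (l ^ (n + 1)))))
    (hu : ∀ r : ZMod (l ^ (n + 1)), TR 1 0 r ∈ K) (hlo : ∀ r : ZMod (l ^ (n + 1)), TR 0 1 r ∈ K) :
    K = ⊤ := by
  haveI : NeZero (l ^ (n + 1)) := ⟨pow_ne_zero _ hl.ne_zero⟩
  haveI : Fact l.Prime := ⟨hl⟩
  -- lower left entry a unit
  have key : ∀ g : Matrix.SpecialLinearGroup (Fin 2) (ZMod (l ^ (n + 1))),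
      (∃ c' : ZMod (l ^ (n + 1)), g.1 1 0 * c' = 1) → g ∈ K := by
    rintro g ⟨c', hc'⟩
    have hd := detR g
    have : g = TR 1 0 ((g.1 0 0 - 1) * c') * TR 0 1 (-(g.1 1 0)) * TR 1 0 ((g.1 1 1 - 1) * c') := by
      apply extR <;> simp only [mulR, TR00, TR01, TR10, TR11]
      · linear_combination -(g.1 0 0 - 1) * hc'
      · have e : g.1 0 1 = g.1 0 1 * (g.1 1 0 * c') := by rw [hc', mul_one]
        linear_combination e - c' * hd + (-(g.1 0 0 - 1) * c' * (g.1 1 1 - 1)) * hc'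
      · ring
      · linear_combination -(g.1 1 1 - 1) * hc'
    rw [this]
    exact K.mul_mem (K.mul_mem (hu _) (hlo _)) (hu _)
  rw [Subgroup.eq_top_iff']
  intro g
  by_cases hc : (l : ℤ) ∣ ((g.1 1 0).val : ℤ)
  · -- then the upper left entry is a unit
    have ha : ¬ ((l : ℤ) ∣ ((g.1 0 0).val : ℤ)) := by
      intro ha
      have hd := detR g
      have h1 := congrArg (ZMod.castHom (dvd_pow_self l (Nat.succ_ne_zero n)) (ZMod l)) hd
      rw [map_sub, map_mul, map_mul, map_one] at h1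
      have hz : ∀ r : ZMod (l ^ (n + 1)), (l : ℤ) ∣ (r.val : ℤ) →
          ZMod.castHom (dvd_pow_self l (Nat.succ_ne_zero n)) (ZMod l) r = 0 := by
        intro r hr
        have e : r = ((r.val : ℤ) : ZMod (l ^ (n + 1))) := by
          rw [Int.cast_natCast, ZMod.natCast_zmod_val]
        rw [e, map_intCast]
        exact (ZMod.intCast_zmod_eq_zero_iff_dvd _ _).2 hr
      rw [hz _ ha, hz _ hc] at h1
      simp at h1
    have hsum : ¬ ((l : ℤ) ∣ ((g.1 1 0).val : ℤ) + ((g.1 0 0).val : ℤ)) := by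
      intro h
      apply ha
      have := dvd_sub h hc
      simpa using this
    obtain ⟨c', hc'⟩ := unit_of_not_dvd l hl n _ hsum
    have e : (((g.1 1 0).val + (g.1 0 0).val : ℤ) : ZMod (l ^ (n + 1))) = g.1 1 0 + g.1 0 0 := by
      push_cast
      rw [ZMod.natCast_zmod_val, ZMod.natCast_zmod_val]
    rw [e] at hc'
    have h1 : TR 0 1 (-1) * g ∈ K := by
      apply key
      refine ⟨c', ?_⟩
      rw [mulR, TR10, TR11]
      linear_combination hc'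
    have h2 : g = (TR 0 1 (-1))⁻¹ * (TR 0 1 (-1) * g) := by group
    rw [h2]
    exact K.mul_mem (K.inv_mem (hlo _)) h1
  · obtain ⟨c', hc'⟩ := unit_of_not_dvd l hl n _ hc
    apply key
    refine ⟨c', ?_⟩
    rw [Int.cast_natCast, ZMod.natCast_zmod_val] at hc'
    exact hc'

/-- Strong approximation at `l`, uniformly away from `l`. -/
theorem strong (H : Subgroup G) (P : Finset D) (hconf : Confined H P) (l : ℕ) (hl : l.Prime)
    (hk : 2 * P.card < l) (hc : ∀ x ∈ P, ¬ ((l : ℤ) ∣ x.1 1 0))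
    (heig : ∀ x ∈ P, HasEig l x) (Q : ℕ) (hQ : ¬ (l ∣ Q)) (n : ℕ)
    (g : Matrix.SpecialLinearGroup (Fin 2) (ZMod (l ^ (n + 1)))) :
    ∃ γ : D, io γ ∈ H ∧ red Q γ = 1 ∧ red (l ^ (n + 1)) γ = g := by
  haveI : NeZero (l ^ (n + 1)) := ⟨pow_ne_zero _ hl.ne_zero⟩
  obtain ⟨γ0, h0, hQ0, w0, w1, t, ht, hw, hγ0⟩ := approx_unip H P hconf l hl (by omega) heig Q hQ n
  obtain ⟨γ1, h1, hγ1⟩ := move_line H P hconf l hl hk hc w0 w1 hw
  let K0 : Subgroup D := (H.comap io) ⊓ (red Q).ker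
  let K : Subgroup (Matrix.SpecialLinearGroup (Fin 2) (ZMod (l ^ (n + 1)))) :=
    K0.map (red (l ^ (n + 1)))
  obtain ⟨t', ht'⟩ := unit_of_not_dvd l hl n t ht
  set W0 : ZMod (l ^ (n + 1)) := (w0 : ZMod (l ^ (n + 1))) with hW0
  set W1 : ZMod (l ^ (n + 1)) := (w1 : ZMod (l ^ (n + 1))) with hW1
  set X0 : ZMod (l ^ (n + 1)) := ((γ1.1 0 0 * w0 + γ1.1 0 1 * w1 : ℤ) : ZMod (l ^ (n + 1))) with hX0
  set X1 : ZMod (l ^ (n + 1)) := ((γ1.1 1 0 * w0 + γ1.1 1 1 * w1 : ℤ) : ZMod (l ^ (n + 1))) with hX1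
  have hall : ∀ (a b : ZMod (l ^ (n + 1))), TR a b (t : ZMod (l ^ (n + 1))) ∈ K →
      ∀ r, TR a b r ∈ K := by
    intro a b hab r
    have h2 := K.pow_mem hab ((t' * r).val)
    rw [TR_pow, ZMod.natCast_zmod_val, ← mul_assoc, ht', one_mul] at h2
    exact h2
  have hA : TR W0 W1 (t : ZMod (l ^ (n + 1))) ∈ K := by
    refine ⟨γ0, ⟨h0, hQ0⟩, ?_⟩
    rw [hγ0, red_TR]
  have hB : TR X0 X1 (t : ZMod (l ^ (n + 1))) ∈ K := by
    refine ⟨γ1 * γ0 * γ1⁻¹, ⟨?_, ?_⟩, ?_⟩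
    · exact (H.comap io).mul_mem ((H.comap io).mul_mem h1 h0) ((H.comap io).inv_mem h1)
    · show red Q (γ1 * γ0 * γ1⁻¹) = 1
      rw [map_mul, map_mul, hQ0, map_inv]; group
    · rw [map_mul, map_mul, hγ0, map_inv, red_TR, conj_TR]
      simp only [red_ij, hX0, hX1]
      push_cast
      rfl
  obtain ⟨d', hd'⟩ := unit_of_not_dvd l hl n _ hγ1
  have hd'' : (W0 * X1 - W1 * X0) * d' = 1 := by
    rw [← hd', hW0, hW1, hX0, hX1]; push_cast; ring
  -- change of basis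
  let g0 : Matrix.SpecialLinearGroup (Fin 2) (ZMod (l ^ (n + 1))) :=
    ⟨!![W0, X0 * d'; W1, X1 * d'], by
      rw [Matrix.det_fin_two_of]; linear_combination hd''⟩
  have hg00 : g0.1 0 0 = W0 := rfl
  have hg01 : g0.1 0 1 = X0 * d' := rfl
  have hg10 : g0.1 1 0 = W1 := rfl
  have hg11 : g0.1 1 1 = X1 * d' := rfl
  have htop : K.comap (MulAut.conj g0).toMonoidHom = ⊤ := by
    apply top_of_elem l hl n
    · intro r
      rw [Subgroup.mem_comap]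
      have e : (MulAut.conj g0).toMonoidHom (TR 1 0 r) = TR W0 W1 r := by
        show g0 * TR 1 0 r * g0⁻¹ = _
        rw [conj_TR, hg00, hg01, hg10, hg11]
        congr 1 <;> ring
      rw [e]
      exact hall _ _ hA _
    · intro r
      rw [Subgroup.mem_comap]
      have e : (MulAut.conj g0).toMonoidHom (TR 0 1 r) = TR X0 X1 (d' ^ 2 * r) := by
        show g0 * TR 0 1 r * g0⁻¹ = _
        rw [conj_TR, hg00, hg01, hg10, hg11, ← TR_smul]
        congr 1 <;> ring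
      rw [e]
      exact hall _ _ hB _
  have hKtop : ∀ g, g ∈ K := by
    intro g
    have h2 : g0⁻¹ * g * g0 ∈ K.comap (MulAut.conj g0).toMonoidHom := by
      rw [htop]; exact Subgroup.mem_top _
    rw [Subgroup.mem_comap] at h2
    have e : (MulAut.conj g0).toMonoidHom (g0⁻¹ * g * g0) = g := by
      show g0 * (g0⁻¹ * g * g0) * g0⁻¹ = g
      group
    rwa [e] at h2
  obtain ⟨γ, ⟨hγH, hγQ⟩, hγg⟩ := hKtop g
  exact ⟨γ, hγH, hγQ, hγg⟩

end Pool.Agent.MP_21c19e_al.Conf
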