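import Pool.Agent.Lib.MP_21c19e_al.Final3

set_option autoImplicit false

/-!
MP_21c19e_al: bounded cusp widths.
-/

namespace Pool.Agent.MP_21c19e_al

theorem exists_col (a b : ℤ) (hab : IsCoprime a b) :
    ∃ γ : Matrix.SpecialLinearGroup (Fin 2) ℤ, γ.1 0 0 = a ∧ γ.1 1 0 = b := by
  obtain ⟨r, s, hrs⟩ := hab
  refine ⟨⟨!![a, -s; b, r], ?_⟩, rfl, rfl⟩
  simp only [Matrix.det_fin_two_of]
  linear_combination hrs

theorem top_of_conj (H : Subgroup G) (hZ : ZDense H) (hq : NoQuot H) (N : ℕ) (hN : 0 < N)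
    (hT : ∀ γ : Matrix.SpecialLinearGroup (Fin 2) ℤ,
      Matrix.SpecialLinearGroup.map (Int.castRingHom ℚ) γ * up N *
        (Matrix.SpecialLinearGroup.map (Int.castRingHom ℚ) γ)⁻¹ ∈ H) : H = ⊤ := by
  apply top_of_width H hZ hq N hN
  intro a b hab
  obtain ⟨γ, h0, h1⟩ := exists_col a b hab
  have h := hT γ
  rw [← T_e1, conj_T] at h
  have e0 : (Matrix.SpecialLinearGroup.map (Int.castRingHom ℚ) γ).1 0 0 = a := by
    simp [h0]
  have e1 : (Matrix.SpecialLinearGroup.map (Int.castRingHom ℚ) γ).1 1 0 = b := by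
    simp [h1]
  rw [e0, e1] at h
  simpa using h

end Pool.Agent.MP_21c19e_al
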