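import Pool.Agent.Lib.MP_21c19e_al.ConfDefs
import Pool.Agent.Lib.MP_21c19e_al.Final
import Pool.Agent.Lib.MP_21c19e_al.Widths

set_option autoImplicit false

/-!
MP_21c19e_al, confined case: `SL2(Z[1/l])` is contained in `SL2(Z) * H`.
-/

namespace Pool.Agent.MP_21c19e_al.Conf

open Matrix

/-- The matrix has entries in `Z[1/l]`. -/
def SZ (l : ℕ) (g : G) : Prop := ∃ m : ℕ, ∀ i j : Fin 2, ∃ z : ℤ, (l : ℚ) ^ m * g.1 i j = z

theorem SZ_mul {l : ℕ} {g h : G} (hg : SZ l g) (hh : SZ l h) : SZ l (g * h) := by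
  obtain ⟨m, hm⟩ := hg
  obtain ⟨n, hn⟩ := hh
  refine ⟨m + n, ?_⟩
  intro i j
  obtain ⟨a, ha⟩ := hm i 0
  obtain ⟨b, hb⟩ := hm i 1
  obtain ⟨c, hc⟩ := hn 0 j
  obtain ⟨d, hd⟩ := hn 1 j
  refine ⟨a * c + b * d, ?_⟩
  have e : (g * h).1 i j = g.1 i 0 * h.1 0 j + g.1 i 1 * h.1 1 j := mulR g h i j
  rw [e]
  push_cast
  rw [← ha, ← hb, ← hc, ← hd]
  ring

theorem SZ_inv {l : ℕ} {g : G} (hg : SZ l g) : SZ l g⁻¹ := by
  obtain ⟨m, hm⟩ := hg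
  refine ⟨m, ?_⟩
  have h00 : ∃ z : ℤ, (l : ℚ) ^ m * (g⁻¹).1 0 0 = z := by rw [inv00]; exact hm 1 1
  have h11 : ∃ z : ℤ, (l : ℚ) ^ m * (g⁻¹).1 1 1 = z := by rw [inv11]; exact hm 0 0
  have h01 : ∃ z : ℤ, (l : ℚ) ^ m * (g⁻¹).1 0 1 = z := by
    obtain ⟨z, hz⟩ := hm 0 1
    exact ⟨-z, by rw [inv01]; push_cast; rw [← hz]; ring⟩
  have h10 : ∃ z : ℤ, (l : ℚ) ^ m * (g⁻¹).1 1 0 = z := by
    obtain ⟨z, hz⟩ := hm 1 0
    exact ⟨-z, by rw [inv10]; push_cast; rw [← hz]; ring⟩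
  intro i j
  fin_cases i <;> fin_cases j <;> assumption

theorem SZ_io (l : ℕ) (δ : D) : SZ l (io δ) := ⟨0, fun i j => ⟨δ.1 i j, by rw [io_ij]; simp⟩⟩

theorem of_integral (g : G) (h : ∀ i j : Fin 2, ∃ z : ℤ, g.1 i j = z) : ∃ δ : D, io δ = g := by
  obtain ⟨a, ha⟩ := h 0 0
  obtain ⟨b, hb⟩ := h 0 1
  obtain ⟨c, hc⟩ := h 1 0
  obtain ⟨d, hd⟩ := h 1 1
  have hdet := det4 g
  rw [ha, hb, hc, hd] at hdet
  refine ⟨⟨!![a, b; c, d], ?_⟩, ?_⟩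
  · rw [Matrix.det_fin_two_of]; exact_mod_cast hdet
  · apply ext4
    · rw [io_ij, ha]; rfl
    · rw [io_ij, hb]; rfl
    · rw [io_ij, hc]; rfl
    · rw [io_ij, hd]; rfl

theorem red_eq {N : ℕ} {x y : D} (h : red N x = red N y) (i j : Fin 2) :
    ∃ e : ℤ, x.1 i j = y.1 i j + N * e := by
  have h1 : (red N x).1 i j = (red N y).1 i j := by rw [h]
  rw [red_ij, red_ij] at h1
  have h2 : (((x.1 i j - y.1 i j : ℤ)) : ZMod N) = 0 := by push_cast; rw [h1]; ring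
  obtain ⟨e, he⟩ := (ZMod.intCast_zmod_eq_zero_iff_dvd _ _).1 h2
  exact ⟨e, by linarith⟩

/-- Conjugating a matrix close to the identity keeps it integral. -/
theorem conj_int (l m : ℕ) (h : G) (hm : ∀ i j : Fin 2, ∃ z : ℤ, (l : ℚ) ^ m * h.1 i j = z)
    (ε : D) (hε : red (l ^ (2 * m + 1)) ε = 1) : ∃ δ : D, io δ = h * io ε * h⁻¹ := by
  have hε' : red (l ^ (2 * m + 1)) ε = red (l ^ (2 * m + 1)) 1 := by rw [hε, map_one]
  obtain ⟨e00, h00⟩ := red_eq hε' 0 0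
  obtain ⟨e01, h01⟩ := red_eq hε' 0 1
  obtain ⟨e10, h10⟩ := red_eq hε' 1 0
  obtain ⟨e11, h11⟩ := red_eq hε' 1 1
  obtain ⟨A, hA⟩ := hm 0 0
  obtain ⟨B, hB⟩ := hm 0 1
  obtain ⟨C, hC⟩ := hm 1 0
  obtain ⟨E, hE⟩ := hm 1 1
  have hdet := det4 h
  have o00 : (1 : D).1 0 0 = 1 := by simp
  have o01 : (1 : D).1 0 1 = 0 := by simp
  have o10 : (1 : D).1 1 0 = 0 := by simp
  have o11 : (1 : D).1 1 1 = 1 := by simp
  rw [o00] at h00
  rw [o01] at h01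
  rw [o10] at h10
  rw [o11] at h11
  have hN : ((l ^ (2 * m + 1) : ℕ) : ℚ) = (l : ℚ) * ((l : ℚ) ^ m) ^ 2 := by
    push_cast; ring
  have g00 : (io ε).1 0 0 = 1 + (l : ℚ) * ((l : ℚ) ^ m) ^ 2 * e00 := by
    rw [io_ij, h00, ← hN]; push_cast; ring
  have g01 : (io ε).1 0 1 = (l : ℚ) * ((l : ℚ) ^ m) ^ 2 * e01 := by
    rw [io_ij, h01, ← hN]; push_cast; ring
  have g10 : (io ε).1 1 0 = (l : ℚ) * ((l : ℚ) ^ m) ^ 2 * e10 := by
    rw [io_ij, h10, ← hN]; push_cast; ring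
  have g11 : (io ε).1 1 1 = 1 + (l : ℚ) * ((l : ℚ) ^ m) ^ 2 * e11 := by
    rw [io_ij, h11, ← hN]; push_cast; ring
  apply of_integral
  have k00 : ∃ z : ℤ, (h * io ε * h⁻¹).1 0 0 = z := by
    refine ⟨1 + l * (e00 * A * E + e10 * B * E - e01 * A * C - e11 * B * C), ?_⟩
    rw [mul00, mul00, mul01, inv00, inv10, g00, g01, g10, g11]
    push_cast
    rw [← hA, ← hB, ← hC, ← hE]
    linear_combination hdet
  have k01 : ∃ z : ℤ, (h * io ε * h⁻¹).1 0 1 = z := by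
    refine ⟨l * (-(e00 * A * B) - e10 * B * B + e01 * A * A + e11 * B * A), ?_⟩
    rw [mul01, mul00, mul01, inv01, inv11, g00, g01, g10, g11]
    push_cast
    rw [← hA, ← hB]
    ring
  have k10 : ∃ z : ℤ, (h * io ε * h⁻¹).1 1 0 = z := by
    refine ⟨l * (e00 * C * E + e10 * E * E - e01 * C * C - e11 * E * C), ?_⟩
    rw [mul10, mul10, mul11, inv00, inv10, g00, g01, g10, g11]
    push_cast
    rw [← hC, ← hE]
    ring
  have k11 : ∃ z : ℤ, (h * io ε * h⁻¹).1 1 1 = z := by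
    refine ⟨1 + l * (-(e00 * C * B) - e10 * E * B + e01 * C * A + e11 * E * A), ?_⟩
    rw [mul11, mul10, mul11, inv01, inv11, g00, g01, g10, g11]
    push_cast
    rw [← hA, ← hB, ← hC, ← hE]
    linear_combination hdet
  intro i j
  fin_cases i <;> fin_cases j <;> assumption

/-- Strong approximation hypothesis (only the part at `l`). -/
def Strong (H : Subgroup G) (l : ℕ) : Prop := ∀ Q : ℕ, ¬ (l ∣ Q) → ∀ (n : ℕ)
    (g : D), ∃ γ : D, io γ ∈ H ∧ red Q γ = 1 ∧ red (l ^ (n + 1)) γ = red (l ^ (n + 1)) g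

/-- Membership in `SL2(Z[1/l]) ∩ SL2(Z) * H`. -/
def In (H : Subgroup G) (l : ℕ) (g : G) : Prop := SZ l g ∧ ∃ δ : D, ∃ h ∈ H, g = io δ * h

theorem In_of_mem {H : Subgroup G} {l : ℕ} {h : G} (hh : h ∈ H) (hs : SZ l h) : In H l h :=
  ⟨hs, 1, h, hh, by simp⟩

theorem In_io {H : Subgroup G} {l : ℕ} (δ : D) : In H l (io δ) :=
  ⟨SZ_io l δ, δ, 1, H.one_mem, by simp⟩

theorem In_mul_io {H : Subgroup G} {l : ℕ} (hl : l.Prime) (hS : Strong H l) {g : G}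
    (hg : In H l g) (δ' : D) : In H l (g * io δ') := by
  obtain ⟨hs, δ, h, hh, rfl⟩ := hg
  refine ⟨SZ_mul hs (SZ_io l δ'), ?_⟩
  have hsh : SZ l h := by
    have : h = (io δ)⁻¹ * (io δ * h) := by group
    rw [this]
    exact SZ_mul (SZ_inv (SZ_io l δ)) hs
  obtain ⟨m, hm⟩ := hsh
  have h1 : ¬ (l ∣ 1) := by
    intro h; exact hl.one_lt.ne' (Nat.dvd_one.1 h)
  obtain ⟨γ, hγ, -, hγ2⟩ := hS 1 h1 (2 * m) δ'
  obtain ⟨δ'', hδ''⟩ := conj_int l m h hm (δ' * γ⁻¹) (by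
    rw [map_mul, map_inv, hγ2]; group)
  refine ⟨δ * δ'', h * io γ, H.mul_mem hh hγ, ?_⟩
  rw [map_mul, hδ'', map_mul, map_inv]
  group

theorem In_mul {H : Subgroup G} {l : ℕ} (hl : l.Prime) (hS : Strong H l) {g g' : G}
    (hg : In H l g) (hg' : In H l g') : In H l (g * g') := by
  obtain ⟨hs', δ', h', hh', rfl⟩ := hg'
  have h1 := In_mul_io hl hS hg δ'
  obtain ⟨hs, δ, h, hh, he⟩ := h1
  refine ⟨SZ_mul hg.1 hs', δ, h * h', H.mul_mem hh hh', ?_⟩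
  rw [← mul_assoc, he]
  group

theorem In_inv {H : Subgroup G} {l : ℕ} (hl : l.Prime) (hS : Strong H l) {g : G}
    (hg : In H l g) : In H l g⁻¹ := by
  obtain ⟨hs, δ, h, hh, rfl⟩ := hg
  have hsh : SZ l h := by
    have : h = (io δ)⁻¹ * (io δ * h) := by group
    rw [this]
    exact SZ_mul (SZ_inv (SZ_io l δ)) hs
  have h1 : In H l h⁻¹ := In_of_mem (H.inv_mem hh) (SZ_inv hsh)
  have h2 := In_mul_io hl hS h1 δ⁻¹
  rw [map_inv] at h2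
  rwa [_root_.mul_inv_rev]

end Pool.Agent.MP_21c19e_al.Conf
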