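import Pool.Agent.Lib.MP_21c19e_al.ConfTree

set_option autoImplicit false

/-!
MP_21c19e_al, confined case: an element of `H` with entries in `Z[1/l]`, not integral.
-/

namespace Pool.Agent.MP_21c19e_al.Conf

open Matrix

theorem common_den4 (g : G) : ∃ N : ℕ, 0 < N ∧ ∀ i j : Fin 2, ∃ z : ℤ, (N : ℚ) * g.1 i j = z := by
  refine ⟨(g.1 0 0).den * (g.1 0 1).den * ((g.1 1 0).den * (g.1 1 1).den), ?_, ?_⟩
  · exact Nat.mul_pos (Nat.mul_pos (Rat.den_pos _) (Rat.den_pos _))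
      (Nat.mul_pos (Rat.den_pos _) (Rat.den_pos _))
  · have key : ∀ (q : ℚ) (N : ℕ), q.den ∣ N → ∃ z : ℤ, (N : ℚ) * q = z := by
      intro q N hq
      obtain ⟨t, ht⟩ := hq
      refine ⟨t * q.num, ?_⟩
      rw [ht]
      push_cast
      have : (q.den : ℚ) * q = q.num := by
        rw [mul_comm]; exact Rat.mul_den_eq_num q
      linear_combination (t : ℚ) * this
    have k00 := key (g.1 0 0) ((g.1 0 0).den * (g.1 0 1).den * ((g.1 1 0).den * (g.1 1 1).den))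
      ((dvd_mul_right _ _).mul_right _)
    have k01 := key (g.1 0 1) ((g.1 0 0).den * (g.1 0 1).den * ((g.1 1 0).den * (g.1 1 1).den))
      ((dvd_mul_left _ _).mul_right _)
    have k10 := key (g.1 1 0) ((g.1 0 0).den * (g.1 0 1).den * ((g.1 1 0).den * (g.1 1 1).den))
      ((dvd_mul_right _ _).mul_left _)
    have k11 := key (g.1 1 1) ((g.1 0 0).den * (g.1 0 1).den * ((g.1 1 0).den * (g.1 1 1).den))
      ((dvd_mul_left _ _).mul_left _)
    intro i j
    fin_cases i <;> fin_cases j <;> assumption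

theorem norm_int_div (l : ℕ) (hl : l.Prime) (z : ℤ) (Q : ℕ) (hQ : ¬ (l ∣ Q)) :
    padicNorm l ((z : ℚ) / Q) ≤ 1 := by
  haveI : Fact l.Prime := ⟨hl⟩
  have h1 : padicNorm l (Q : ℚ) = 1 := (padicNorm.nat_eq_one_iff (p := l) Q).2 hQ
  have h2 : padicNorm l (z : ℚ) ≤ 1 := padicNorm.of_int z
  have hQ0 : (Q : ℚ) ≠ 0 := by
    intro h0
    apply hQ
    have : Q = 0 := by exact_mod_cast h0
    rw [this]; exact dvd_zero _
  rw [padicNorm.div, h1, div_one]
  exact h2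

theorem nonint_aux (H : Subgroup G) (l : ℕ) (hl : l.Prime) (hS : Strong H l) (h : G)
    (hh : h ∈ H) (v0 v1 : ℤ)
    (hv : 1 < padicNorm l (h.1 0 0 * v0 + h.1 0 1 * v1) ∨
      1 < padicNorm l (h.1 1 0 * v0 + h.1 1 1 * v1)) :
    ∃ g ∈ H, SZ l g ∧ ∃ i j : Fin 2, 1 < padicNorm l (g.1 i j) := by
  haveI : Fact l.Prime := ⟨hl⟩
  obtain ⟨N, hN, hNh⟩ := common_den4 h
  obtain ⟨f, Q, hQ, hfQ⟩ := Nat.exists_eq_pow_mul_and_not_dvd hN.ne' l hl.ne_one
  have hQ2 : ¬ (l ∣ Q ^ 2) := fun hd => hQ (hl.dvd_of_dvd_pow hd)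
  obtain ⟨γ, hγH, hγ1, hγ2⟩ := hS (Q ^ 2) hQ2 (2 * f) (TR v0 v1 1)
  have hγ1' : red (Q ^ 2) γ = red (Q ^ 2) 1 := by rw [hγ1, map_one]
  obtain ⟨A, hA⟩ := hNh 0 0
  obtain ⟨B, hB⟩ := hNh 0 1
  obtain ⟨C, hC⟩ := hNh 1 0
  obtain ⟨E, hE⟩ := hNh 1 1
  have hNQ : (N : ℚ) = (l : ℚ) ^ f * Q := by rw [hfQ]; push_cast; ring
  have hlQ : (l : ℚ) ≠ 0 := by exact_mod_cast hl.ne_zero
  have hQ0 : (Q : ℚ) ≠ 0 := by
    intro h0
    apply hQ
    have : Q = 0 := by exact_mod_cast h0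
    rw [this]; exact dvd_zero _
  have hdet := det4 h
  refine ⟨h * io γ * h⁻¹, H.mul_mem (H.mul_mem hh hγH) (H.inv_mem hh), ?_, ?_⟩
  · -- integrality away from `l`
    obtain ⟨e00, h00⟩ := red_eq hγ1' 0 0
    obtain ⟨e01, h01⟩ := red_eq hγ1' 0 1
    obtain ⟨e10, h10⟩ := red_eq hγ1' 1 0
    obtain ⟨e11, h11⟩ := red_eq hγ1' 1 1
    have o00 : (1 : D).1 0 0 = 1 := by simp
    have o01 : (1 : D).1 0 1 = 0 := by simp
    have o10 : (1 : D).1 1 0 = 0 := by simp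
    have o11 : (1 : D).1 1 1 = 1 := by simp
    rw [o00] at h00
    rw [o01] at h01
    rw [o10] at h10
    rw [o11] at h11
    have g00 : (io γ).1 0 0 = 1 + (Q : ℚ) ^ 2 * e00 := by
      rw [io_ij, h00]; push_cast; ring
    have g01 : (io γ).1 0 1 = (Q : ℚ) ^ 2 * e01 := by
      rw [io_ij, h01]; push_cast; ring
    have g10 : (io γ).1 1 0 = (Q : ℚ) ^ 2 * e10 := by
      rw [io_ij, h10]; push_cast; ring
    have g11 : (io γ).1 1 1 = 1 + (Q : ℚ) ^ 2 * e11 := by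
      rw [io_ij, h11]; push_cast; ring
    refine ⟨2 * f, ?_⟩
    have k00 : ∃ z : ℤ, (l : ℚ) ^ (2 * f) * (h * io γ * h⁻¹).1 0 0 = z := by
      refine ⟨(l : ℤ) ^ (2 * f) + (e00 * A * E + e10 * B * E - e01 * A * C - e11 * B * C), ?_⟩
      rw [mul00, mul00, mul01, inv00, inv10, g00, g01, g10, g11]
      push_cast
      rw [← hA, ← hB, ← hC, ← hE, hNQ]
      linear_combination ((l : ℚ) ^ (2 * f)) * hdet
    have k01 : ∃ z : ℤ, (l : ℚ) ^ (2 * f) * (h * io γ * h⁻¹).1 0 1 = z := by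
      refine ⟨(-(e00 * A * B) - e10 * B * B + e01 * A * A + e11 * B * A), ?_⟩
      rw [mul01, mul00, mul01, inv01, inv11, g00, g01, g10, g11]
      push_cast
      rw [← hA, ← hB, hNQ]
      ring
    have k10 : ∃ z : ℤ, (l : ℚ) ^ (2 * f) * (h * io γ * h⁻¹).1 1 0 = z := by
      refine ⟨(e00 * C * E + e10 * E * E - e01 * C * C - e11 * E * C), ?_⟩
      rw [mul10, mul10, mul11, inv00, inv10, g00, g01, g10, g11]
      push_cast
      rw [← hC, ← hE, hNQ]
      ring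
    have k11 : ∃ z : ℤ, (l : ℚ) ^ (2 * f) * (h * io γ * h⁻¹).1 1 1 = z := by
      refine ⟨(l : ℤ) ^ (2 * f) + (-(e00 * C * B) - e10 * E * B + e01 * C * A + e11 * E * A), ?_⟩
      rw [mul11, mul10, mul11, inv01, inv11, g00, g01, g10, g11]
      push_cast
      rw [← hA, ← hB, ← hC, ← hE, hNQ]
      linear_combination ((l : ℚ) ^ (2 * f)) * hdet
    intro i j
    fin_cases i <;> fin_cases j <;> assumption
  · -- not integral at `l`
    obtain ⟨e00, h00⟩ := red_eq hγ2 0 0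
    obtain ⟨e01, h01⟩ := red_eq hγ2 0 1
    obtain ⟨e10, h10⟩ := red_eq hγ2 1 0
    obtain ⟨e11, h11⟩ := red_eq hγ2 1 1
    have g00 : (io γ).1 0 0 = 1 - v0 * v1 + (l : ℚ) ^ (2 * f + 1) * e00 := by
      rw [io_ij, h00, TR00]; push_cast; ring
    have g01 : (io γ).1 0 1 = (v0 : ℚ) ^ 2 + (l : ℚ) ^ (2 * f + 1) * e01 := by
      rw [io_ij, h01, TR01]; push_cast; ring
    have g10 : (io γ).1 1 0 = -(v1 : ℚ) ^ 2 + (l : ℚ) ^ (2 * f + 1) * e10 := by
      rw [io_ij, h10, TR10]; push_cast; ring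
    have g11 : (io γ).1 1 1 = 1 + v0 * v1 + (l : ℚ) ^ (2 * f + 1) * e11 := by
      rw [io_ij, h11, TR11]; push_cast; ring
    set x : ℚ := h.1 0 0 * v0 + h.1 0 1 * v1 with hx
    set y : ℚ := h.1 1 0 * v0 + h.1 1 1 * v1 with hy
    have k01 : (h * io γ * h⁻¹).1 0 1 = x ^ 2 +
        ((l * (-(e00 * A * B) - e10 * B * B + e01 * A * A + e11 * B * A) : ℤ) : ℚ) / (Q ^ 2 : ℕ) := by
      rw [mul01, mul00, mul01, inv01, inv11, g00, g01, g10, g11, hx]
      push_cast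
      rw [← hA, ← hB, hNQ]
      field_simp
      ring
    have k10 : (h * io γ * h⁻¹).1 1 0 = -(y ^ 2) +
        ((l * (e00 * C * E + e10 * E * E - e01 * C * C - e11 * E * C) : ℤ) : ℚ) / (Q ^ 2 : ℕ) := by
      rw [mul10, mul10, mul11, inv00, inv10, g00, g01, g10, g11, hy]
      push_cast
      rw [← hC, ← hE, hNQ]
      field_simp
      ring
    have big : ∀ (u w : ℚ), padicNorm l w ≤ 1 → 1 < padicNorm l u → 1 < padicNorm l (u + w) := by
      intro u w hw hu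
      by_contra hcon
      push Not at hcon
      have : padicNorm l u ≤ 1 := by
        have e : u = (u + w) - w := by ring
        rw [e]
        exact (padicNorm.sub).trans (max_le hcon hw)
      linarith
    rcases hv with hv | hv
    · refine ⟨0, 1, ?_⟩
      rw [k01]
      apply big _ _ (norm_int_div l hl _ _ hQ2)
      rw [pow_two, padicNorm.mul]
      nlinarith
    · refine ⟨1, 0, ?_⟩
      rw [k10]
      apply big _ _ (norm_int_div l hl _ _ hQ2)
      rw [padicNorm.neg, pow_two, padicNorm.mul]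
      nlinarith

theorem exists_nonint (H : Subgroup G) (l : ℕ) (hl : l.Prime) (hS : Strong H l)
    (hunb : PUnb l H) : ∃ g ∈ H, SZ l g ∧ ∃ i j : Fin 2, 1 < padicNorm l (g.1 i j) := by
  obtain ⟨h, hh, i, j, hij⟩ := hunb 0
  rw [pow_zero] at hij
  have h1 : j = 0 ∨ j = 1 := by fin_cases j <;> simp
  have h2 : i = 0 ∨ i = 1 := by fin_cases i <;> simp
  rcases h1 with rfl | rfl
  · apply nonint_aux H l hl hS h hh 1 0
    rcases h2 with rfl | rfl
    · left; simpa using hij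
    · right; simpa using hij
  · apply nonint_aux H l hl hS h hh 0 1
    rcases h2 with rfl | rfl
    · left; simpa using hij
    · right; simpa using hij

end Pool.Agent.MP_21c19e_al.Conf
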