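import Pool.Agent.Lib.MP_21c19e_al.Defs

set_option autoImplicit false

/-!
Z21-SmallVec. H contains h with first column p-adically small. |.| = padicNorm p below.
Proof. Fix K' large (p^K' ≥ p^K * |c|, c = g 1 0, |c| ≥ 1). By hunb there is h ∈ H with an entry > p^K'.
If it is in column 0 let h1 = h; if in column 1 let h1 = h*g: (h*g) column 0 = c * (column 1 of h) (since g 0 0 = 0).
So h1 ∈ H, column 0 of h1 is (x,y), max(|x|,|y|) > p^K'.
If |x| > |y| replace h1 by lo(q)*h1: y becomes y + q x, |y + q x| = |x| (|q| = 1). So |x| ≤ |y|, |y| > p^K'.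
h1 = (x z; y t), x t - y z = 1. For any M there is an integer n with |x + n y| ≤ p^(-M) (|x/y| ≤ 1: approximate
-x/y in Z_(p) by an integer modulo a high power of p). Take M with p^(-M)*|t| ≤ 1 and p^(-M)*|c| ≤ p^(-K).
h2 = up(n)*h1 = (x+ny, z+nt; y, t): (x+ny) t - y (z+nt) = 1, so |z+nt| ≤ 1/|y| < p^(-K').
h3 = g⁻¹*h2 ∈ H, and h3⁻¹ has first column (h3 1 1, - h3 1 0) with
h3 1 1 = -c*(z+nt), h3 1 0 = -c*(x+ny)   (g⁻¹ = (g11, -g01; -c, g00=0)).
So h := h3⁻¹ works.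
-/

namespace Pool.Agent.MP_21c19e_al

private theorem sv_approx (p : ℕ) (hp : p.Prime) (r : ℚ) (hr : padicNorm p r ≤ 1) (M : ℕ) :
    ∃ n : ℤ, (p : ℚ) ^ M * padicNorm p (r + n) ≤ 1 := by
  have : Fact p.Prime := ⟨hp⟩
  have hden : ¬ p ∣ r.den := by
    intro h
    have h1 : padicNorm p (r.den : ℚ) < 1 := (padicNorm.nat_lt_one_iff r.den).2 h
    have h2 : ¬ (p : ℤ) ∣ r.num := by
      intro h3
      have h4 : p ∣ r.num.natAbs := Int.natCast_dvd.1 h3
      have h5 := Nat.dvd_gcd h4 h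
      rw [r.reduced] at h5
      exact hp.one_lt.ne' (Nat.dvd_one.1 h5)
    have h3 : padicNorm p (r.num : ℚ) = 1 := (padicNorm.int_eq_one_iff r.num).2 h2
    have h4 : padicNorm p r * padicNorm p (r.den : ℚ) = 1 := by
      rw [← padicNorm.mul, Rat.mul_den_eq_num, h3]
    have h5 : 0 ≤ padicNorm p (r.den : ℚ) := padicNorm.nonneg _
    nlinarith
  have hd1 : padicNorm p (r.den : ℚ) = 1 := (padicNorm.nat_eq_one_iff r.den).2 hden
  have hcop : IsCoprime (r.den : ℤ) ((p : ℤ) ^ M) := by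
    apply IsCoprime.pow_right
    rw [Nat.isCoprime_iff_coprime]
    exact ((Nat.Prime.coprime_iff_not_dvd hp).2 hden).symm
  obtain ⟨u, v, huv⟩ := hcop
  refine ⟨-r.num * u, ?_⟩
  have h1 : (r + ((-r.num * u : ℤ) : ℚ)) * (r.den : ℚ) = ((r.num * v : ℤ) : ℚ) * (p : ℚ) ^ M := by
    have h2 : (u : ℚ) * (r.den : ℚ) + (v : ℚ) * (p : ℚ) ^ M = 1 := by exact_mod_cast huv
    rw [add_mul, Rat.mul_den_eq_num]
    push_cast
    linear_combination (r.num : ℚ) * -h2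
  have h2 : padicNorm p (r + ((-r.num * u : ℤ) : ℚ)) =
      padicNorm p ((r.num * v : ℤ) : ℚ) * padicNorm p ((p : ℚ) ^ M) := by
    rw [← padicNorm.mul, ← h1, padicNorm.mul, hd1, mul_one]
  have h3 : padicNorm p ((p : ℚ) ^ M) = ((p : ℚ) ^ M)⁻¹ := by
    induction M with
    | zero => simp
    | succ m ih =>
      have e : padicNorm p ((p : ℚ) ^ m) = ((p : ℚ) ^ m)⁻¹ := by
        clear ih h1 h2 huv
        induction m with
        | zero => simp
        | succ k ih2 => rw [pow_succ, padicNorm.mul, ih2, padicNorm.padicNorm_p_of_prime, mul_inv]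
      rw [pow_succ, padicNorm.mul, e, padicNorm.padicNorm_p_of_prime, mul_inv]
  have hpp : (0 : ℚ) < (p : ℚ) ^ M := by
    have := hp.pos
    positivity
  rw [h2, h3]
  have h4 : padicNorm p ((r.num * v : ℤ) : ℚ) ≤ 1 := padicNorm.of_int _
  calc (p : ℚ) ^ M * (padicNorm p ((r.num * v : ℤ) : ℚ) * ((p : ℚ) ^ M)⁻¹)
      = padicNorm p ((r.num * v : ℤ) : ℚ) * ((p : ℚ) ^ M * ((p : ℚ) ^ M)⁻¹) := by ring
    _ = padicNorm p ((r.num * v : ℤ) : ℚ) := by rw [mul_inv_cancel₀ hpp.ne', mul_one]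
    _ ≤ 1 := h4

theorem small_vec (p q : ℕ) (hp : p.Prime) (hqp : Nat.Coprime q p) (H : Subgroup G)
    (hU : ∀ z : ℤ, up (z : ℚ) ∈ H) (hL : ∀ z : ℤ, lo ((q : ℚ) * z) ∈ H)
    (g : G) (hg : g ∈ H) (hg0 : g.1 0 0 = 0) (hgc : 1 ≤ padicNorm p (g.1 1 0))
    (hunb : PUnb p H) (K : ℕ) :
    ∃ h ∈ H, (p : ℚ) ^ K * padicNorm p (h.1 0 0) ≤ 1 ∧
      (p : ℚ) ^ K * padicNorm p (h.1 1 0) ≤ 1 := by
  have : Fact p.Prime := ⟨hp⟩
  have hp1 : (1 : ℚ) < (p : ℚ) := by exact_mod_cast hp.one_lt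
  have hp0 : (0 : ℚ) < (p : ℚ) := by linarith
  set C := padicNorm p (g.1 1 0) with hC
  have hq : padicNorm p (q : ℚ) = 1 := by
    rw [padicNorm.nat_eq_one_iff]
    exact (Nat.Prime.coprime_iff_not_dvd hp).1 hqp.symm
  obtain ⟨K', hK'⟩ := pow_unbounded_of_one_lt ((p : ℚ) ^ K * C) hp1
  -- step 1
  have step1 : ∃ h1 ∈ H, (p : ℚ) ^ K' < padicNorm p (h1.1 0 0) ∨
      (p : ℚ) ^ K' < padicNorm p (h1.1 1 0) := by
    obtain ⟨h, hh, i, j, hij⟩ := hunb K'
    have hcol : ∀ i : Fin 2, padicNorm p ((h * g).1 i 0) = padicNorm p (h.1 i 1) * C := by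
      intro i
      fin_cases i
      · change padicNorm p ((h * g).1 0 0) = padicNorm p (h.1 0 1) * C
        rw [mul00, hg0, mul_zero, zero_add, padicNorm.mul]
      · change padicNorm p ((h * g).1 1 0) = padicNorm p (h.1 1 1) * C
        rw [mul10, hg0, mul_zero, zero_add, padicNorm.mul]
    have hge : ∀ i : Fin 2, padicNorm p (h.1 i 1) ≤ padicNorm p ((h * g).1 i 0) := by
      intro i
      rw [hcol i]
      exact le_mul_of_one_le_right (padicNorm.nonneg _) hgc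
    fin_cases j
    · refine ⟨h, hh, ?_⟩
      fin_cases i
      · exact Or.inl hij
      · exact Or.inr hij
    · refine ⟨h * g, H.mul_mem hh hg, ?_⟩
      fin_cases i
      · exact Or.inl (lt_of_lt_of_le hij (hge 0))
      · exact Or.inr (lt_of_lt_of_le hij (hge 1))
  -- step 2
  have step2 : ∃ h1 ∈ H, padicNorm p (h1.1 0 0) ≤ padicNorm p (h1.1 1 0) ∧
      (p : ℚ) ^ K' < padicNorm p (h1.1 1 0) := by
    obtain ⟨h1, hh1, hor⟩ := step1
    by_cases hxy : padicNorm p (h1.1 0 0) ≤ padicNorm p (h1.1 1 0)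
    · refine ⟨h1, hh1, hxy, ?_⟩
      rcases hor with h | h
      · exact lt_of_lt_of_le h hxy
      · exact h
    · have hlt : padicNorm p (h1.1 1 0) < padicNorm p (h1.1 0 0) := not_le.1 hxy
      have hbig : (p : ℚ) ^ K' < padicNorm p (h1.1 0 0) := by
        rcases hor with h | h
        · exact h
        · exact h.trans hlt
      have hqx : padicNorm p ((q : ℚ) * h1.1 0 0) = padicNorm p (h1.1 0 0) := by
        rw [padicNorm.mul, hq, one_mul]
      have hmem : lo (q : ℚ) ∈ H := by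
        have := hL 1
        rwa [Int.cast_one, mul_one] at this
      have e0 : (lo (q : ℚ) * h1).1 0 0 = h1.1 0 0 := by
        rw [mul00, lo00, lo01]
        ring
      have e1 : (lo (q : ℚ) * h1).1 1 0 = (q : ℚ) * h1.1 0 0 + h1.1 1 0 := by
        rw [mul10, lo10, lo11]
        ring
      have e2 : padicNorm p ((q : ℚ) * h1.1 0 0 + h1.1 1 0) = padicNorm p (h1.1 0 0) := by
        rw [padicNorm.add_eq_max_of_ne (by rw [hqx]; exact hlt.ne'), hqx, max_eq_left hlt.le]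
      refine ⟨lo (q : ℚ) * h1, H.mul_mem hmem hh1, ?_, ?_⟩
      · rw [e0, e1, e2]
      · rw [e1, e2]
        exact hbig
  obtain ⟨h1, hh1, hxy, hy⟩ := step2
  have hypos : 0 < padicNorm p (h1.1 1 0) := lt_trans (by positivity) hy
  have hy0 : h1.1 1 0 ≠ 0 := by
    intro h
    rw [h, padicNorm.zero] at hypos
    exact lt_irrefl _ hypos
  -- step 3
  obtain ⟨M₁, hM₁⟩ := pow_unbounded_of_one_lt (max ((p : ℚ) ^ K * C) (padicNorm p (h1.1 1 1))) hp1
  obtain ⟨M₂, hM₂⟩ := pow_unbounded_of_one_lt (padicNorm p (h1.1 1 0) * (p : ℚ) ^ M₁) hp1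
  have hr : padicNorm p (h1.1 0 0 / h1.1 1 0) ≤ 1 := by
    rw [padicNorm.div]
    exact (div_le_one hypos).2 hxy
  obtain ⟨n, hn⟩ := sv_approx p hp _ hr M₂
  have hx2 : h1.1 0 0 + n * h1.1 1 0 = (h1.1 0 0 / h1.1 1 0 + n) * h1.1 1 0 := by
    field_simp
  have hx2n : (p : ℚ) ^ M₁ * padicNorm p (h1.1 0 0 + n * h1.1 1 0) ≤ 1 := by
    rw [hx2, padicNorm.mul]
    have h0 : 0 ≤ padicNorm p (h1.1 0 0 / h1.1 1 0 + n) := padicNorm.nonneg _
    calc (p : ℚ) ^ M₁ * (padicNorm p (h1.1 0 0 / h1.1 1 0 + n) * padicNorm p (h1.1 1 0))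
        = (padicNorm p (h1.1 1 0) * (p : ℚ) ^ M₁) * padicNorm p (h1.1 0 0 / h1.1 1 0 + n) := by ring
      _ ≤ (p : ℚ) ^ M₂ * padicNorm p (h1.1 0 0 / h1.1 1 0 + n) :=
          mul_le_mul_of_nonneg_right hM₂.le h0
      _ ≤ 1 := hn
  set x2 := h1.1 0 0 + n * h1.1 1 0 with hx2def
  set z2 := h1.1 0 1 + n * h1.1 1 1 with hz2def
  have hx0 : 0 ≤ padicNorm p x2 := padicNorm.nonneg _
  have hz0 : 0 ≤ padicNorm p z2 := padicNorm.nonneg _
  have hdet : z2 * h1.1 1 0 = x2 * h1.1 1 1 - 1 := by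
    have := det4 h1
    rw [hx2def, hz2def]
    linear_combination -this
  have hz2n : padicNorm p z2 * padicNorm p (h1.1 1 0) ≤ 1 := by
    rw [← padicNorm.mul, hdet]
    refine (padicNorm.sub (p := p)).trans (max_le ?_ (by rw [padicNorm.one]))
    rw [padicNorm.mul]
    calc padicNorm p x2 * padicNorm p (h1.1 1 1) ≤ padicNorm p x2 * (p : ℚ) ^ M₁ :=
          mul_le_mul_of_nonneg_left ((le_max_right _ _).trans hM₁.le) hx0
      _ = (p : ℚ) ^ M₁ * padicNorm p x2 := mul_comm _ _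
      _ ≤ 1 := hx2n
  have hmem : (g⁻¹ * (up (n : ℚ) * h1))⁻¹ ∈ H :=
    H.inv_mem (H.mul_mem (H.inv_mem hg) (H.mul_mem (hU n) hh1))
  have f0 : ((g⁻¹ * (up (n : ℚ) * h1))⁻¹).1 0 0 = -(g.1 1 0 * z2) := by
    rw [inv00, mul11, inv10, inv11, hg0, mul01, up00, up01, hz2def]
    ring
  have f1 : ((g⁻¹ * (up (n : ℚ) * h1))⁻¹).1 1 0 = g.1 1 0 * x2 := by
    rw [inv10, mul10, inv10, inv11, hg0, mul00, up00, up01, hx2def]
    ring
  refine ⟨_, hmem, ?_, ?_⟩
  · rw [f0, padicNorm.neg, padicNorm.mul]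
    calc (p : ℚ) ^ K * (padicNorm p (g.1 1 0) * padicNorm p z2)
        = ((p : ℚ) ^ K * C) * padicNorm p z2 := by rw [hC]; ring
      _ ≤ padicNorm p (h1.1 1 0) * padicNorm p z2 :=
          mul_le_mul_of_nonneg_right (hK'.le.trans hy.le) hz0
      _ = padicNorm p z2 * padicNorm p (h1.1 1 0) := mul_comm _ _
      _ ≤ 1 := hz2n
  · rw [f1, padicNorm.mul]
    calc (p : ℚ) ^ K * (padicNorm p (g.1 1 0) * padicNorm p x2)
        = ((p : ℚ) ^ K * C) * padicNorm p x2 := by rw [hC]; ring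
      _ ≤ (p : ℚ) ^ M₁ * padicNorm p x2 :=
          mul_le_mul_of_nonneg_right ((le_max_left _ _).trans hM₁.le) hx0
      _ ≤ 1 := hx2n

end Pool.Agent.MP_21c19e_al
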