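import Pool.Agent.Lib.MP_21c19e_al.KeyProp
import Pool.Agent.Lib.MP_21c19e_al.SmallVec

set_option autoImplicit false

/-!
Z21-Core. Proof. c := g 1 0 ≠ 0. Write c = s/n in lowest terms; |c|_p ≥ 1 means p does not divide s.
s^2 = q * m^j with q coprime to m (q > 0), q coprime to p.
For x = z/m^i: g * up x * g⁻¹ = g * T 1 0 x * g⁻¹ = T 0 c x = T 0 1 (c^2 x) = lo(-c^2 x) ∈ H (conj_T, T_smul, T_e1, T_e2).
With z replaced by -n^2 z: lo(s^2 z/m^i) ∈ H, hence lo(q z/m^i) = lo(s^2 z/m^(i+j)) ∈ H. So keyprop applies: constant C.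
small_vec with K' (2K' ≥ C + K): h ∈ H with first column (x,y) small. Write (x,y) = l*(a,b) with a,b coprime
integers and l rational (l ≠ 0 as det h = 1): |l| ≤ p^(-K') (since |a| = 1 or |b| = 1).
keyprop: T a b c1 ∈ H, |c1| ≥ p^(-C). h⁻¹ * T a b c1 * h = T of h⁻¹(a,b) = T (1/l) 0 c1 = up(l^(-2) c1) ∈ H and
|l^(-2) c1| ≥ p^(2K'-C) ≥ p^K.
-/

namespace Pool.Agent.MP_21c19e_al

private lemma core_prim (x y : ℚ) (h : x ≠ 0 ∨ y ≠ 0) :
    ∃ (a b : ℤ) (l : ℚ), IsCoprime a b ∧ l ≠ 0 ∧ x = l * a ∧ y = l * b := by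
  have hxd : (x.den : ℚ) ≠ 0 := by exact_mod_cast x.den_nz
  have hyd : (y.den : ℚ) ≠ 0 := by exact_mod_cast y.den_nz
  have hx : x * x.den = x.num := Rat.mul_den_eq_num x
  have hy : y * y.den = y.num := Rat.mul_den_eq_num y
  have hpos : 0 < Int.gcd (x.num * y.den) (y.num * x.den) := by
    rw [Int.gcd_pos_iff]
    rcases h with h | h
    · left
      exact mul_ne_zero (Rat.num_ne_zero.2 h) (by exact_mod_cast y.den_nz)
    · right
      exact mul_ne_zero (Rat.num_ne_zero.2 h) (by exact_mod_cast x.den_nz)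
  obtain ⟨a, b, h1, h2, h3⟩ := Int.exists_gcd_one hpos
  have hg : ((Int.gcd (x.num * y.den) (y.num * x.den) : ℕ) : ℚ) ≠ 0 := by
    exact_mod_cast hpos.ne'
  refine ⟨a, b, (Int.gcd (x.num * y.den) (y.num * x.den) : ℚ) / (x.den * y.den),
    Int.isCoprime_iff_gcd_eq_one.2 h1, div_ne_zero hg (mul_ne_zero hxd hyd), ?_, ?_⟩
  · have h2' : (x.num : ℚ) * y.den = a * (Int.gcd (x.num * y.den) (y.num * x.den) : ℚ) := by
      exact_mod_cast h2
    rw [div_mul_eq_mul_div, eq_div_iff (mul_ne_zero hxd hyd)]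
    linear_combination (y.den : ℚ) * hx + h2'
  · have h3' : (y.num : ℚ) * x.den = b * (Int.gcd (x.num * y.den) (y.num * x.den) : ℚ) := by
      exact_mod_cast h3
    rw [div_mul_eq_mul_div, eq_div_iff (mul_ne_zero hxd hyd)]
    linear_combination (x.den : ℚ) * hy + h3'

private lemma core_norm_one (p : ℕ) (hp : p.Prime) (a b : ℤ) (h : IsCoprime a b) :
    padicNorm p (a : ℚ) = 1 ∨ padicNorm p (b : ℚ) = 1 := by
  have : Fact p.Prime := ⟨hp⟩
  by_contra hc
  push Not at hc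
  have ha : padicNorm p (a : ℚ) < 1 := lt_of_le_of_ne (padicNorm.of_int a) hc.1
  have hb : padicNorm p (b : ℚ) < 1 := lt_of_le_of_ne (padicNorm.of_int b) hc.2
  rw [padicNorm.int_lt_one_iff] at ha hb
  obtain ⟨u, v, huv⟩ := h
  have h1 : (p : ℤ) ∣ 1 := by
    rw [← huv]
    exact dvd_add (Dvd.dvd.mul_left ha u) (Dvd.dvd.mul_left hb v)
  have h2 : p ∣ 1 := by exact_mod_cast h1
  exact hp.one_lt.ne' (Nat.dvd_one.1 h2)

theorem core0 (p m : ℕ) (hp : p.Prime) (hm : m.Prime) (hpm : p ≠ m) (H : Subgroup G)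
    (hU : ∀ (z : ℤ) (i : ℕ), up ((z : ℚ) / (m : ℚ) ^ i) ∈ H)
    (g : G) (hg : g ∈ H) (hg0 : g.1 0 0 = 0) (hgc : 1 ≤ padicNorm p (g.1 1 0))
    (hunb : PUnb p H) (K : ℕ) :
    ∃ x : ℚ, up x ∈ H ∧ (p : ℚ) ^ K ≤ padicNorm p x := by
  have : Fact p.Prime := ⟨hp⟩
  have hp0 : (0 : ℚ) < p := by exact_mod_cast hp.pos
  have hp1 : (1 : ℚ) ≤ p := by exact_mod_cast hp.one_lt.le
  have hm0 : (m : ℚ) ≠ 0 := by exact_mod_cast hm.ne_zero
  have hc0 : g.1 1 0 ≠ 0 := by
    intro h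
    rw [h] at hgc
    simp at hgc
    linarith
  -- the lower unipotents
  have hlo : ∀ x : ℚ, up x ∈ H → lo (-(g.1 1 0 ^ 2 * x)) ∈ H := by
    intro x hx
    have h1 : g * T 1 0 x * g⁻¹ ∈ H := by
      rw [T_e1]
      exact H.mul_mem (H.mul_mem hg hx) (H.inv_mem hg)
    rw [conj_T, hg0] at h1
    have e : T (0 * 1 + g.1 0 1 * 0) (g.1 1 0 * 1 + g.1 1 1 * 0) x =
        lo (-(g.1 1 0 ^ 2 * x)) := by
      rw [← T_e2, ← T_smul]
      congr 1 <;> ring
    rw [e] at h1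
    exact h1
  obtain ⟨s, n, hn0, hsn, hps⟩ : ∃ (s n : ℤ), (n : ℚ) ≠ 0 ∧ g.1 1 0 = s / n ∧ ¬ (p : ℤ) ∣ s := by
    refine ⟨(g.1 1 0).num, (g.1 1 0).den, ?_, ?_, ?_⟩
    · exact_mod_cast (g.1 1 0).den_nz
    · exact_mod_cast (Rat.num_div_den (g.1 1 0)).symm
    · intro hd
      have hcop : Nat.Coprime (g.1 1 0).num.natAbs (g.1 1 0).den := (g.1 1 0).reduced
      have h1 : padicNorm p ((g.1 1 0).num : ℚ) < 1 := by
        rw [padicNorm.int_lt_one_iff]; exact hd
      have h2 : padicNorm p (((g.1 1 0).den : ℕ) : ℚ) = 1 := by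
        rw [padicNorm.nat_eq_one_iff]
        intro h3
        have h4 : p ∣ (g.1 1 0).num.natAbs := Int.natCast_dvd.1 hd
        have := Nat.dvd_gcd h4 h3
        rw [hcop] at this
        exact hp.one_lt.ne' (Nat.dvd_one.1 this)
      have h3 : padicNorm p (g.1 1 0) = padicNorm p ((g.1 1 0).num : ℚ) := by
        conv_lhs => rw [← Rat.num_div_den (g.1 1 0)]
        rw [padicNorm.div, h2, div_one]
      rw [h3] at hgc
      linarith
  have hs0 : s ≠ 0 := by
    rintro rfl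
    exact hps (dvd_zero _)
  obtain ⟨j, q, hmq, hq⟩ := Nat.exists_eq_pow_mul_and_not_dvd
    (n := s.natAbs ^ 2) (pow_ne_zero 2 (Int.natAbs_ne_zero.2 hs0)) m hm.ne_one
  have hq0 : 0 < q := by
    rcases Nat.eq_zero_or_pos q with h | h
    · exact absurd (h ▸ dvd_zero m) hmq
    · exact h
  have hqm : Nat.Coprime q m := ((Nat.Prime.coprime_iff_not_dvd hm).2 hmq).symm
  have hqp : Nat.Coprime q p := by
    refine ((Nat.Prime.coprime_iff_not_dvd hp).2 ?_).symm
    intro h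
    have h1 : p ∣ s.natAbs ^ 2 := by rw [hq]; exact Dvd.dvd.mul_left h _
    exact hps (Int.natCast_dvd.2 (hp.dvd_of_dvd_pow h1))
  have hsq : (s : ℚ) ^ 2 = (m : ℚ) ^ j * q := by
    have h2 : (s : ℚ) ^ 2 = ((s.natAbs ^ 2 : ℕ) : ℚ) := by
      rw [Nat.cast_pow, Nat.cast_natAbs]
      push_cast
      exact (sq_abs _).symm
    rw [h2, hq]
    push_cast
    ring
  have hL : ∀ (z : ℤ) (i : ℕ), lo ((q : ℚ) * z / (m : ℚ) ^ i) ∈ H := by
    intro z i
    have h1 := hlo _ (hU (-(n ^ 2 * z)) (i + j))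
    have e : -(g.1 1 0 ^ 2 * (((-(n ^ 2 * z) : ℤ) : ℚ) / (m : ℚ) ^ (i + j))) =
        (q : ℚ) * z / (m : ℚ) ^ i := by
      rw [hsn, div_pow, hsq, pow_add]
      push_cast
      field_simp
    rw [e] at h1
    exact h1
  obtain ⟨C, hC⟩ := keyprop p m q hp hm hpm hq0 hqp hqm
  obtain ⟨h, hh, hx, hy⟩ := small_vec p q hp hqp H (fun z => by simpa using hU z 0)
    (fun z => by simpa using hL z 0) g hg hg0 hgc hunb (C + K)
  have hdet := det4 h
  have hne : h.1 0 0 ≠ 0 ∨ h.1 1 0 ≠ 0 := by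
    by_contra hcon
    push Not at hcon
    rw [hcon.1, hcon.2] at hdet
    norm_num at hdet
  obtain ⟨a, b, l, hab, hl, hxa, hyb⟩ := core_prim _ _ hne
  have hln : (p : ℚ) ^ (C + K) * padicNorm p l ≤ 1 := by
    rcases core_norm_one p hp a b hab with h1 | h1
    · rw [hxa, padicNorm.mul, h1, mul_one] at hx
      exact hx
    · rw [hyb, padicNorm.mul, h1, mul_one] at hy
      exact hy
  obtain ⟨c1, hT, hc1⟩ := hC H hU hL a b hab
  refine ⟨(1 / l) ^ 2 * c1, ?_, ?_⟩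
  · have h1 : h⁻¹ * T a b c1 * (h⁻¹)⁻¹ ∈ H :=
      H.mul_mem (H.mul_mem (H.inv_mem hh) hT) (H.inv_mem (H.inv_mem hh))
    rw [conj_T, inv00, inv01, inv10, inv11] at h1
    have ea : (a : ℚ) = h.1 0 0 / l := by rw [hxa]; field_simp
    have eb : (b : ℚ) = h.1 1 0 / l := by rw [hyb]; field_simp
    have e : T (h.1 1 1 * (a : ℚ) + -h.1 0 1 * b) (-h.1 1 0 * (a : ℚ) + h.1 0 0 * b) c1 =
        up ((1 / l) ^ 2 * c1) := by
      rw [← T_e1, ← T_smul]
      congr 1
      · rw [ea, eb]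
        field_simp
        linarith
      · rw [ea, eb]
        ring
    rw [e] at h1
    exact h1
  · have hlp : 0 < padicNorm p l := by
      have := padicNorm.nonneg (p := p) l
      exact lt_of_le_of_ne this (Ne.symm (padicNorm.nonzero hl))
    rw [padicNorm.mul, sq, padicNorm.mul, padicNorm.div, padicNorm.one]
    have h1 : (p : ℚ) ^ (C + K) ≤ 1 / padicNorm p l := by
      rw [le_div_iff₀ hlp]; exact hln
    have h2 : (0 : ℚ) < (p : ℚ) ^ (C + K) := by positivity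
    have h3 : (p : ℚ) ^ (C + K) * (p : ℚ) ^ (C + K) ≤
        1 / padicNorm p l * (1 / padicNorm p l) := mul_le_mul h1 h1 h2.le (h2.le.trans h1)
    have h4 : (1 : ℚ) ≤ (p : ℚ) ^ K := one_le_pow₀ hp1
    have h5 : 0 ≤ padicNorm p c1 := padicNorm.nonneg _
    calc (p : ℚ) ^ K = (p : ℚ) ^ K * 1 := (mul_one _).symm
      _ ≤ (p : ℚ) ^ K * ((p : ℚ) ^ C * padicNorm p c1) :=
          mul_le_mul_of_nonneg_left hc1 (by positivity)
      _ ≤ ((p : ℚ) ^ (C + K) * (p : ℚ) ^ (C + K)) * padicNorm p c1 := by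
          rw [← mul_assoc]
          refine mul_le_mul_of_nonneg_right ?_ h5
          have h6 : (1 : ℚ) ≤ (p : ℚ) ^ (C + K) := one_le_pow₀ hp1
          calc (p : ℚ) ^ K * (p : ℚ) ^ C = (p : ℚ) ^ (C + K) := by rw [← pow_add, add_comm]
            _ = (p : ℚ) ^ (C + K) * 1 := (mul_one _).symm
            _ ≤ _ := mul_le_mul_of_nonneg_left h6 h2.le
      _ ≤ _ := mul_le_mul_of_nonneg_right h3 h5

/-- Same without the normalisation `g 0 0 = 0`: apply `core0` to the conjugate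
`H.comap (MulAut.conj (up (g 0 0 / g 1 0))).toMonoidHom`. -/
theorem core (p m : ℕ) (hp : p.Prime) (hm : m.Prime) (hpm : p ≠ m) (H : Subgroup G)
    (hU : ∀ (z : ℤ) (i : ℕ), up ((z : ℚ) / (m : ℚ) ^ i) ∈ H)
    (g : G) (hg : g ∈ H) (hgc : 1 ≤ padicNorm p (g.1 1 0))
    (hunb : PUnb p H) (K : ℕ) :
    ∃ x : ℚ, up x ∈ H ∧ (p : ℚ) ^ K ≤ padicNorm p x := by
  have : Fact p.Prime := ⟨hp⟩
  have hp0 : (0 : ℚ) < p := by exact_mod_cast hp.pos
  have hp1 : (1 : ℚ) ≤ p := by exact_mod_cast hp.one_lt.le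
  have hc0 : g.1 1 0 ≠ 0 := by
    intro h
    rw [h] at hgc
    simp at hgc
    linarith
  obtain ⟨t, ht⟩ : ∃ t : ℚ, t = g.1 0 0 / g.1 1 0 := ⟨_, rfl⟩
  have hmem : ∀ x : G, x ∈ H.comap (MulAut.conj (up t)).toMonoidHom ↔
      up t * x * (up t)⁻¹ ∈ H := by
    intro x
    rw [Subgroup.mem_comap]
    simp
  have hup : ∀ x : ℚ, up t * up x * (up t)⁻¹ = up x := by
    intro x
    rw [up_inv, up_mul, up_mul]
    congr 1
    ring
  have key := core0 p m hp hm hpm (H.comap (MulAut.conj (up t)).toMonoidHom)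
    (fun z i => by rw [hmem, hup]; exact hU z i)
    ((up t)⁻¹ * g * up t) (by
      rw [hmem]
      have e : up t * ((up t)⁻¹ * g * up t) * (up t)⁻¹ = g := by group
      rw [e]; exact hg)
    (by
      rw [up_inv]
      simp only [mul00, mul01, mul10, mul11, up00, up01, up10, up11]
      rw [ht]
      field_simp
      ring)
    (by
      rw [up_inv]
      simp only [mul00, mul01, mul10, mul11, up00, up01, up10, up11]
      have e : (0 * g.1 0 0 + 1 * g.1 1 0) * 1 + (0 * g.1 0 1 + 1 * g.1 1 1) * 0 = g.1 1 0 := by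
        ring
      rw [e]; exact hgc)
    (by
      intro K1
      obtain ⟨e, he⟩ : ∃ e : ℕ, padicNorm p t ≤ (p : ℚ) ^ e := by
        obtain ⟨e, he⟩ := pow_unbounded_of_one_lt (padicNorm p t)
          (show (1 : ℚ) < p by exact_mod_cast hp.one_lt)
        exact ⟨e, he.le⟩
      obtain ⟨h, hh, i, j, hij⟩ := hunb (K1 + 2 * e)
      refine ⟨(up t)⁻¹ * h * up t, ?_, ?_⟩
      · rw [hmem]
        have e : up t * ((up t)⁻¹ * h * up t) * (up t)⁻¹ = h := by group
        rw [e]; exact hh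
      · by_contra hcon
        push Not at hcon
        obtain ⟨h', hh'⟩ : ∃ h' : G, h' = (up t)⁻¹ * h * up t := ⟨_, rfl⟩
        rw [← hh'] at hcon
        have eh : h = up t * h' * up (-t) := by
          rw [hh', ← up_inv]; group
        have hE1 : (1 : ℚ) ≤ (p : ℚ) ^ e := one_le_pow₀ hp1
        have hK1 : (0 : ℚ) < (p : ℚ) ^ K1 := by positivity
        have hte : padicNorm p (-t) ≤ (p : ℚ) ^ e := by rw [padicNorm.neg]; exact he
        -- bound of sums
        have hadd : ∀ (x y : ℚ) (B : ℚ), padicNorm p x ≤ B → padicNorm p y ≤ B →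
            padicNorm p (x + y) ≤ B := fun x y B h1 h2 =>
          padicNorm.nonarchimedean.trans (max_le h1 h2)
        have hmulE : ∀ (x y : ℚ) (B : ℚ), 0 ≤ B → padicNorm p x ≤ (p : ℚ) ^ e →
            padicNorm p y ≤ B → padicNorm p (x * y) ≤ (p : ℚ) ^ e * B := fun x y B hB h1 h2 => by
          rw [padicNorm.mul]
          exact mul_le_mul h1 h2 (padicNorm.nonneg _) (by positivity)
        have hstep : ∀ (x y : ℚ) (s B : ℚ), 0 ≤ B → padicNorm p s ≤ (p : ℚ) ^ e →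
            padicNorm p x ≤ B → padicNorm p y ≤ B →
            padicNorm p (x + s * y) ≤ (p : ℚ) ^ e * B := fun x y s B hB hs h1 h2 => by
          refine hadd _ _ _ (h1.trans ?_) (hmulE _ _ _ hB hs h2)
          calc B = 1 * B := (one_mul _).symm
            _ ≤ _ := mul_le_mul_of_nonneg_right hE1 hB
        have b00 : padicNorm p (h'.1 0 0 + t * h'.1 1 0) ≤ (p : ℚ) ^ e * (p : ℚ) ^ K1 :=
          hstep _ _ _ _ hK1.le he (hcon 0 0) (hcon 1 0)
        have b01 : padicNorm p (h'.1 0 1 + t * h'.1 1 1) ≤ (p : ℚ) ^ e * (p : ℚ) ^ K1 :=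
          hstep _ _ _ _ hK1.le he (hcon 0 1) (hcon 1 1)
        have hB : (0 : ℚ) ≤ (p : ℚ) ^ e * (p : ℚ) ^ K1 := by positivity
        have hup1 : ∀ x : ℚ, padicNorm p x ≤ (p : ℚ) ^ K1 →
            padicNorm p x ≤ (p : ℚ) ^ e * (p : ℚ) ^ K1 := fun x hx => hx.trans (by
          calc (p : ℚ) ^ K1 = 1 * (p : ℚ) ^ K1 := (one_mul _).symm
            _ ≤ _ := mul_le_mul_of_nonneg_right hE1 hK1.le)
        have hup2 : ∀ x : ℚ, padicNorm p x ≤ (p : ℚ) ^ e * (p : ℚ) ^ K1 →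
            padicNorm p x ≤ (p : ℚ) ^ (K1 + 2 * e) := fun x hx => hx.trans (by
          have e1 : (p : ℚ) ^ (K1 + 2 * e) = (p : ℚ) ^ e * ((p : ℚ) ^ e * (p : ℚ) ^ K1) := by
            rw [pow_add, two_mul, pow_add]; ring
          rw [e1]
          calc (p : ℚ) ^ e * (p : ℚ) ^ K1 = 1 * ((p : ℚ) ^ e * (p : ℚ) ^ K1) := (one_mul _).symm
            _ ≤ _ := mul_le_mul_of_nonneg_right hE1 hB)
        have hup3 : ∀ x : ℚ, padicNorm p x ≤ (p : ℚ) ^ e * ((p : ℚ) ^ e * (p : ℚ) ^ K1) →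
            padicNorm p x ≤ (p : ℚ) ^ (K1 + 2 * e) := fun x hx => hx.trans (by
          have e1 : (p : ℚ) ^ (K1 + 2 * e) = (p : ℚ) ^ e * ((p : ℚ) ^ e * (p : ℚ) ^ K1) := by
            rw [pow_add, two_mul, pow_add]; ring
          rw [e1])
        have c00 : padicNorm p (h.1 0 0) ≤ (p : ℚ) ^ (K1 + 2 * e) := by
          have e1 : h.1 0 0 = h'.1 0 0 + t * h'.1 1 0 := by
            rw [eh]
            simp only [mul00, mul01, mul10, mul11, up00, up01, up10, up11]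
            ring
          rw [e1]; exact hup2 _ b00
        have c01 : padicNorm p (h.1 0 1) ≤ (p : ℚ) ^ (K1 + 2 * e) := by
          have e1 : h.1 0 1 = (h'.1 0 1 + t * h'.1 1 1) + (-t) * (h'.1 0 0 + t * h'.1 1 0) := by
            rw [eh]
            simp only [mul00, mul01, mul10, mul11, up00, up01, up10, up11]
            ring
          rw [e1]; exact hup3 _ (hstep _ _ _ _ hB hte b01 b00)
        have c10 : padicNorm p (h.1 1 0) ≤ (p : ℚ) ^ (K1 + 2 * e) := by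
          have e1 : h.1 1 0 = h'.1 1 0 := by
            rw [eh]
            simp only [mul00, mul01, mul10, mul11, up00, up01, up10, up11]
            ring
          rw [e1]; exact hup2 _ (hup1 _ (hcon 1 0))
        have c11 : padicNorm p (h.1 1 1) ≤ (p : ℚ) ^ (K1 + 2 * e) := by
          have e1 : h.1 1 1 = h'.1 1 1 + (-t) * h'.1 1 0 := by
            rw [eh]
            simp only [mul00, mul01, mul10, mul11, up00, up01, up10, up11]
            ring
          rw [e1]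
          exact hup2 _ (hstep _ _ _ _ hK1.le hte (hcon 1 1) (hcon 1 0))
        fin_cases i <;> fin_cases j
        · exact absurd hij (not_lt.2 c00)
        · exact absurd hij (not_lt.2 c01)
        · exact absurd hij (not_lt.2 c10)
        · exact absurd hij (not_lt.2 c11)) K
  obtain ⟨x, hx, hxK⟩ := key
  rw [hmem, hup] at hx
  exact ⟨x, hx, hxK⟩

end Pool.Agent.MP_21c19e_al
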