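import Mathlib

set_option autoImplicit false

/-!
MP_21c19e_al: Zariski-dense subgroups of SL2(Q) without finite quotients.
Definitions: elementary matrices, torus elements, transvections, p-unboundedness.
-/

namespace Pool.Agent.MP_21c19e_al

open Matrix

abbrev G := Matrix.SpecialLinearGroup (Fin 2) ℚ

/-- `up x` is the upper unipotent matrix with entry `x`. -/
def up (x : ℚ) : G := ⟨!![1, x; 0, 1], by simp [Matrix.det_fin_two]⟩

/-- `lo y` is the lower unipotent matrix with entry `y`. -/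
def lo (y : ℚ) : G := ⟨!![1, 0; y, 1], by simp [Matrix.det_fin_two]⟩

/-- `tor u` is the diagonal matrix with entries `u`, `1/u`. -/
def tor (u : ℚ) (hu : u ≠ 0) : G := ⟨!![u, 0; 0, u⁻¹], by simp [Matrix.det_fin_two, hu]⟩

/-- The transvection `w ↦ w + c * det(v,w) * v` for `v = (a,b)`. -/
def T (a b c : ℚ) : G :=
  ⟨!![1 - c * a * b, c * a ^ 2; -(c * b ^ 2), 1 + c * a * b], by
    simp [Matrix.det_fin_two]; ring⟩

/-- `H` is not bounded at `p`. -/
def PUnb (p : ℕ) (H : Subgroup G) : Prop :=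
  ∀ K : ℕ, ∃ h ∈ H, ∃ i j : Fin 2, (p : ℚ) ^ K < padicNorm p (h.1 i j)

theorem ext4 {g h : G} (h00 : g.1 0 0 = h.1 0 0) (h01 : g.1 0 1 = h.1 0 1)
    (h10 : g.1 1 0 = h.1 1 0) (h11 : g.1 1 1 = h.1 1 1) : g = h := by
  apply Subtype.ext
  ext i j
  fin_cases i <;> fin_cases j <;> assumption

theorem det4 (g : G) : g.1 0 0 * g.1 1 1 - g.1 0 1 * g.1 1 0 = 1 := by
  have := g.2
  rwa [Matrix.det_fin_two] at this

theorem mul00 (g h : G) : (g * h).1 0 0 = g.1 0 0 * h.1 0 0 + g.1 0 1 * h.1 1 0 := by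
  simp [Matrix.SpecialLinearGroup.coe_mul, Matrix.mul_apply, Fin.sum_univ_two]

theorem mul01 (g h : G) : (g * h).1 0 1 = g.1 0 0 * h.1 0 1 + g.1 0 1 * h.1 1 1 := by
  simp [Matrix.SpecialLinearGroup.coe_mul, Matrix.mul_apply, Fin.sum_univ_two]

theorem mul10 (g h : G) : (g * h).1 1 0 = g.1 1 0 * h.1 0 0 + g.1 1 1 * h.1 1 0 := by
  simp [Matrix.SpecialLinearGroup.coe_mul, Matrix.mul_apply, Fin.sum_univ_two]

theorem mul11 (g h : G) : (g * h).1 1 1 = g.1 1 0 * h.1 0 1 + g.1 1 1 * h.1 1 1 := by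
  simp [Matrix.SpecialLinearGroup.coe_mul, Matrix.mul_apply, Fin.sum_univ_two]

theorem inv00 (g : G) : (g⁻¹).1 0 0 = g.1 1 1 := by
  simp [Matrix.SpecialLinearGroup.coe_inv, Matrix.adjugate_fin_two]

theorem inv01 (g : G) : (g⁻¹).1 0 1 = -g.1 0 1 := by
  simp [Matrix.SpecialLinearGroup.coe_inv, Matrix.adjugate_fin_two]

theorem inv10 (g : G) : (g⁻¹).1 1 0 = -g.1 1 0 := by
  simp [Matrix.SpecialLinearGroup.coe_inv, Matrix.adjugate_fin_two]

theorem inv11 (g : G) : (g⁻¹).1 1 1 = g.1 0 0 := by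
  simp [Matrix.SpecialLinearGroup.coe_inv, Matrix.adjugate_fin_two]

@[simp] theorem up00 (x : ℚ) : (up x).1 0 0 = 1 := rfl
@[simp] theorem up01 (x : ℚ) : (up x).1 0 1 = x := rfl
@[simp] theorem up10 (x : ℚ) : (up x).1 1 0 = 0 := rfl
@[simp] theorem up11 (x : ℚ) : (up x).1 1 1 = 1 := rfl
@[simp] theorem lo00 (x : ℚ) : (lo x).1 0 0 = 1 := rfl
@[simp] theorem lo01 (x : ℚ) : (lo x).1 0 1 = 0 := rfl
@[simp] theorem lo10 (x : ℚ) : (lo x).1 1 0 = x := rfl
@[simp] theorem lo11 (x : ℚ) : (lo x).1 1 1 = 1 := rfl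
@[simp] theorem tor00 (u : ℚ) (hu : u ≠ 0) : (tor u hu).1 0 0 = u := rfl
@[simp] theorem tor01 (u : ℚ) (hu : u ≠ 0) : (tor u hu).1 0 1 = 0 := rfl
@[simp] theorem tor10 (u : ℚ) (hu : u ≠ 0) : (tor u hu).1 1 0 = 0 := rfl
@[simp] theorem tor11 (u : ℚ) (hu : u ≠ 0) : (tor u hu).1 1 1 = u⁻¹ := rfl
@[simp] theorem T00 (a b c : ℚ) : (T a b c).1 0 0 = 1 - c * a * b := rfl
@[simp] theorem T01 (a b c : ℚ) : (T a b c).1 0 1 = c * a ^ 2 := rfl
@[simp] theorem T10 (a b c : ℚ) : (T a b c).1 1 0 = -(c * b ^ 2) := rfl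
@[simp] theorem T11 (a b c : ℚ) : (T a b c).1 1 1 = 1 + c * a * b := rfl

theorem up_mul (x y : ℚ) : up x * up y = up (x + y) := by
  apply ext4 <;> simp [mul00, mul01, mul10, mul11]; ring

theorem up_inv (x : ℚ) : (up x)⁻¹ = up (-x) := by
  apply ext4 <;> simp [inv00, inv01, inv10, inv11]

theorem up_zero : up 0 = 1 := by
  apply ext4 <;> simp

theorem lo_mul (x y : ℚ) : lo x * lo y = lo (x + y) := by
  apply ext4 <;> simp [mul00, mul01, mul10, mul11]

theorem lo_inv (x : ℚ) : (lo x)⁻¹ = lo (-x) := by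
  apply ext4 <;> simp [inv00, inv01, inv10, inv11]

theorem T_mul (a b c d : ℚ) : T a b c * T a b d = T a b (c + d) := by
  apply ext4 <;> simp only [mul00, mul01, mul10, mul11, T00, T01, T10, T11] <;> ring

theorem T_inv (a b c : ℚ) : (T a b c)⁻¹ = T a b (-c) := by
  apply ext4 <;> simp only [inv00, inv01, inv10, inv11, T00, T01, T10, T11] <;> ring

theorem T_e1 (c : ℚ) : T 1 0 c = up c := by
  apply ext4 <;> simp

theorem T_e2 (c : ℚ) : T 0 1 c = lo (-c) := by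
  apply ext4 <;> simp

theorem T_smul (l a b c : ℚ) : T (l * a) (l * b) c = T a b (l ^ 2 * c) := by
  apply ext4 <;> simp only [T00, T01, T10, T11] <;> ring

/-- Conjugation moves the axis of a transvection. -/
theorem conj_T (g : G) (a b c : ℚ) :
    g * T a b c * g⁻¹ = T (g.1 0 0 * a + g.1 0 1 * b) (g.1 1 0 * a + g.1 1 1 * b) c := by
  have hd := det4 g
  rw [mul_inv_eq_iff_eq_mul]
  apply ext4 <;> simp only [mul00, mul01, mul10, mul11, T00, T01, T10, T11]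
  · linear_combination (c * (g.1 0 0 * a * b + g.1 0 1 * b ^ 2)) * hd
  · linear_combination (-c * (g.1 0 0 * a ^ 2 + g.1 0 1 * b * a)) * hd
  · linear_combination (c * (g.1 1 0 * a * b + g.1 1 1 * b ^ 2)) * hd
  · linear_combination (-c * (g.1 1 0 * a ^ 2 + g.1 1 1 * b * a)) * hd

/-- The additive group of all `x` with `up x ∈ H`. -/
def Aup (H : Subgroup G) : AddSubgroup ℚ where
  carrier := {x | up x ∈ H}
  zero_mem' := by
    show up 0 ∈ H
    rw [up_zero]; exact H.one_mem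
  add_mem' := by
    intro x y hx hy
    show up (x + y) ∈ H
    rw [← up_mul]; exact H.mul_mem hx hy
  neg_mem' := by
    intro x hx
    show up (-x) ∈ H
    rw [← up_inv]; exact H.inv_mem hx

theorem mem_Aup (H : Subgroup G) (x : ℚ) : x ∈ Aup H ↔ up x ∈ H := Iff.rfl

end Pool.Agent.MP_21c19e_al
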