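import Pool.Agent.Lib.MP_21c19e_al.Final

set_option autoImplicit false

/-!
Z21-Final3: a Zariski-dense subgroup without finite quotients that contains a subgroup of finite index of SL2(Z) is SL2(Q).
-/

namespace Pool.Agent.MP_21c19e_al

/-- Primitive integral direction of a nonzero rational vector. -/
theorem prim_dir (x y : ℚ) (h : x ≠ 0 ∨ y ≠ 0) :
    ∃ (l : ℚ) (a b : ℤ), IsCoprime a b ∧ l ≠ 0 ∧ x = l * a ∧ y = l * b := by
  have hdx : (x.den : ℚ) ≠ 0 := by exact_mod_cast x.den_nz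
  have hdy : (y.den : ℚ) ≠ 0 := by exact_mod_cast y.den_nz
  set X : ℤ := x.num * y.den with hX
  set Y : ℤ := y.num * x.den with hY
  have hpos : 0 < Int.gcd X Y := by
    rcases h with h | h
    · exact Int.gcd_pos_of_ne_zero_left _
        (mul_ne_zero (Rat.num_ne_zero.2 h) (by exact_mod_cast y.den_nz))
    · exact Int.gcd_pos_of_ne_zero_right _
        (mul_ne_zero (Rat.num_ne_zero.2 h) (by exact_mod_cast x.den_nz))
  obtain ⟨a, b, hab, ha, hb⟩ := Int.exists_gcd_one hpos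
  have hg : (Int.gcd X Y : ℚ) ≠ 0 := by exact_mod_cast hpos.ne'
  refine ⟨(Int.gcd X Y : ℚ) / (x.den * y.den), a, b, ?_, ?_, ?_, ?_⟩
  · exact Int.isCoprime_iff_gcd_eq_one.2 hab
  · exact div_ne_zero hg (mul_ne_zero hdx hdy)
  · have h1 : (X : ℚ) = a * (Int.gcd X Y : ℚ) := by exact_mod_cast ha
    have h2 : (X : ℚ) = x.num * y.den := by rw [hX]; push_cast; ring
    have h3 : x * x.den = x.num := Rat.mul_den_eq_num x
    have h4 : (Int.gcd X Y : ℚ) / (x.den * y.den) * a = (x.num * y.den) / (x.den * y.den) := by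
      rw [← h2, h1]; ring
    rw [h4, ← h3]
    field_simp
  · have h1 : (Y : ℚ) = b * (Int.gcd X Y : ℚ) := by exact_mod_cast hb
    have h2 : (Y : ℚ) = y.num * x.den := by rw [hY]; push_cast; ring
    have h3 : y * y.den = y.num := Rat.mul_den_eq_num y
    have h4 : (Int.gcd X Y : ℚ) / (x.den * y.den) * b = (y.num * x.den) / (x.den * y.den) := by
      rw [← h2, h1]; ring
    rw [h4, ← h3]
    field_simp

theorem conj_T' (g : G) (a b c : ℚ) :
    g⁻¹ * T a b c * g = T (g.1 1 1 * a - g.1 0 1 * b) (-(g.1 1 0) * a + g.1 0 0 * b) c := by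
  have h := conj_T g⁻¹ a b c
  rw [inv_inv] at h
  rw [h, inv00, inv01, inv10, inv11]
  congr 1
  ring

/-- If `H` contains all integral transvections of width `N` then it is everything. -/
theorem top_of_width (H : Subgroup G) (hZ : ZDense H) (hq : NoQuot H) (N : ℕ) (hN : 0 < N)
    (hT : ∀ a b : ℤ, IsCoprime a b → T a b N ∈ H) : H = ⊤ := by
  have hNq : (N : ℚ) ≠ 0 := by exact_mod_cast hN.ne'
  -- a prime not dividing N
  obtain ⟨p, hpN, hp⟩ := Nat.exists_infinite_primes (N + 1)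
  have hpd : ¬ p ∣ N := fun h => by
    have := Nat.le_of_dvd hN h
    omega
  have := Fact.mk hp
  have hupN : up N ∈ H := by
    have := hT 1 0 isCoprime_one_left
    simpa [T_e1] using this
  have hne : up (N : ℚ) ≠ 1 := by
    intro h
    have h2 : (up (N : ℚ)).1 0 1 = (1 : G).1 0 1 := by rw [h]
    rw [up01] at h2
    apply hNq
    rw [h2]; simp
  have hunb : PUnb p H := punb_of_noquot p hp H hq (up N) hupN hne
  have hloN : lo (-(N : ℚ)) ∈ H := by
    have := hT 0 1 isCoprime_one_right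
    simpa [T_e2] using this
  obtain ⟨g, hg, hgc⟩ := exists_large_c p hp H hunb (lo (-(N : ℚ))) hloN (by
    rw [lo10]; exact neg_ne_zero.2 hNq)
  set c : ℚ := g.1 1 0 with hcdef
  have hc0 : c ≠ 0 := by
    intro h
    rw [h] at hgc
    simp at hgc
    norm_num at hgc
  set τ : ℚ := g.1 0 0 / c with hτ
  set e : G ≃* G := (sc N hNq).trans (MulAut.conj (up τ)) with he
  set H' : Subgroup G := H.comap e.toMonoidHom with hH'
  have hmem : ∀ x : G, x ∈ H' ↔ up τ * sc N hNq x * (up τ)⁻¹ ∈ H := fun x => Iff.rfl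
  have hupk : ∀ k : ℤ, up ((k : ℚ) * N) ∈ H := by
    intro k
    have h := up_zsmul (N : ℚ) k
    rw [zsmul_eq_mul] at h
    rw [h]
    exact H.zpow_mem hupN k
  have hU : ∀ z : ℤ, up (z : ℚ) ∈ H' := by
    intro z
    rw [hmem, sc_up, up_inv, up_mul, up_mul]
    have : τ + N * (z : ℚ) + -τ = z * N := by ring
    rw [this]; exact hupk z
  have hq' : NoQuot H' := noQuot_comap e H hq
  have hne1 : up 1 ≠ 1 := by
    intro h
    have h2 : (up 1).1 0 1 = (1 : G).1 0 1 := by rw [h]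
    rw [up01] at h2
    simp at h2
  have h1 : up 1 ∈ H' := by
    have := hU 1
    simpa using this
  have hunb' : PUnb p H' := punb_of_noquot p hp H' hq' (up 1) h1 hne1
  -- the number q
  set q : ℕ := N ^ 2 * c.num.natAbs ^ 2 with hqdef
  have hqc : ((q : ℕ) : ℚ) = (N : ℚ) ^ 2 * c ^ 2 * c.den ^ 2 := by
    have h3 : (c.num : ℚ) = c * c.den := (Rat.mul_den_eq_num c).symm
    have h4 : ((c.num.natAbs : ℚ)) ^ 2 = (c.num : ℚ) ^ 2 := by
      rw [Nat.cast_natAbs]
      push_cast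
      exact sq_abs _
    rw [hqdef]
    push_cast
    rw [h4, h3]; ring
  have hpc : ¬ p ∣ c.num.natAbs := by
    intro hd
    have hden : ¬ p ∣ c.den := by
      intro hd2
      have := Nat.dvd_gcd hd hd2
      rw [c.reduced] at this
      exact hp.one_lt.ne' (Nat.dvd_one.1 this)
    have hnum : padicNorm p c.num < 1 := by
      rw [padicNorm.int_lt_one_iff]
      exact Int.natCast_dvd.2 hd
    have hde : padicNorm p (c.den : ℚ) = 1 := (padicNorm.nat_eq_one_iff c.den).2 hden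
    have hc' : c * c.den = c.num := Rat.mul_den_eq_num c
    rw [← hc', padicNorm.mul, hde, mul_one] at hnum
    exact absurd hgc (not_le.2 hnum)
  have hqp : Nat.Coprime q p := by
    rw [Nat.coprime_comm, Nat.Prime.coprime_iff_not_dvd hp, hqdef]
    intro hd
    rcases (Nat.Prime.dvd_mul hp).1 hd with h | h
    · exact hpd (hp.dvd_of_dvd_pow h)
    · exact hpc (hp.dvd_of_dvd_pow h)
  have hL : ∀ z : ℤ, lo ((q : ℚ) * z) ∈ H' := by
    intro z
    rw [hmem]
    have e1 : sc N hNq (lo ((q : ℚ) * z)) = T 0 1 (-((N : ℚ)⁻¹ * (q * z))) := by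
      apply ext4
      · show (scf N hNq (lo ((q : ℚ) * z))).1 0 0 = _
        rw [scf00]; simp
      · show (scf N hNq (lo ((q : ℚ) * z))).1 0 1 = _
        rw [scf01]; simp
      · show (scf N hNq (lo ((q : ℚ) * z))).1 1 0 = _
        rw [scf10]; simp
      · show (scf N hNq (lo ((q : ℚ) * z))).1 1 1 = _
        rw [scf11]; simp
    rw [e1, conj_T]
    have e2 : g * up (((-(z * (c.den : ℤ) ^ 2) : ℤ) : ℚ) * N) * g⁻¹ ∈ H :=
      H.mul_mem (H.mul_mem hg (hupk _)) (H.inv_mem hg)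
    rw [← T_e1, conj_T] at e2
    have e3 : T (g.1 0 0 * 1 + g.1 0 1 * 0) (g.1 1 0 * 1 + g.1 1 1 * 0)
        (((-(z * (c.den : ℤ) ^ 2) : ℤ) : ℚ) * N) = T (c * τ) (c * 1)
        (((-(z * (c.den : ℤ) ^ 2) : ℤ) : ℚ) * N) := by
      congr 1
      · rw [hτ]; field_simp; ring
      · rw [hcdef]; ring
    rw [e3, T_smul] at e2
    have e4 : T ((up τ).1 0 0 * 0 + (up τ).1 0 1 * 1) ((up τ).1 1 0 * 0 + (up τ).1 1 1 * 1)
        (-((N : ℚ)⁻¹ * (q * z))) = T τ 1 (c ^ 2 * (((-(z * (c.den : ℤ) ^ 2) : ℤ) : ℚ) * N)) := by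
      congr 1
      · rw [up00, up01]; ring
      · rw [up10, up11]; ring
      · rw [hqc]; push_cast; field_simp
    rw [e4]
    exact e2
  -- the element g'
  set g' : G := e.symm g with hg'
  have hg'e : up τ * sc N hNq g' * (up τ)⁻¹ = g := by
    have : e g' = g := by rw [hg']; exact MulEquiv.apply_symm_apply e g
    exact this
  have hg'm : g' ∈ H' := by
    rw [hmem, hg'e]; exact hg
  have hsc : sc N hNq g' = (up τ)⁻¹ * g * up τ := by
    rw [← hg'e]; group
  have hg'0 : g'.1 0 0 = 0 := by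
    have : (scf N hNq g').1 0 0 = ((up τ)⁻¹ * g * up τ).1 0 0 := by rw [← hsc]; rfl
    rw [scf00, mul00, mul00, inv00, inv01, up11, up01, up00, up10] at this
    rw [this, hτ, ← hcdef]; field_simp; ring
  have hg'1 : g'.1 1 0 = N * c := by
    have : (scf N hNq g').1 1 0 = ((up τ)⁻¹ * g * up τ).1 1 0 := by rw [← hsc]; rfl
    rw [scf10, mul10, mul10, inv10, inv11, up10, up00] at this
    have h5 : g'.1 1 0 = N * ((N : ℚ)⁻¹ * g'.1 1 0) := by field_simp
    rw [h5, this, ← hcdef]; ring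
  have hpN1 : padicNorm p (N : ℚ) = 1 := (padicNorm.nat_eq_one_iff N).2 hpd
  have hg'c : 1 ≤ padicNorm p (g'.1 1 0) := by
    rw [hg'1, padicNorm.mul, hpN1, one_mul]; exact hgc
  -- large elements of the axis group
  have hlarge : ∀ K : ℕ, ∃ x : ℚ, up x ∈ H ∧ (p : ℚ) ^ K ≤ padicNorm p x := by
    intro K
    have hp1 : (1 : ℚ) < p := by exact_mod_cast hp.one_lt
    have hp0 : (0 : ℚ) < p := by linarith
    obtain ⟨t, ht⟩ := pow_unbounded_of_one_lt (padicNorm p τ) hp1
    obtain ⟨h', hh', hx', hy'⟩ := small_vec p q hp hqp H' hU hL g' hg'm hg'0 hg'c hunb' (K + t)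
    set h : G := up τ * sc N hNq h' * (up τ)⁻¹ with hh
    have hhm : h ∈ H := hh'
    have h10 : h.1 1 0 = (N : ℚ)⁻¹ * h'.1 1 0 := by
      rw [hh, mul10, mul10, inv00, inv10, up10, up11]
      have : (sc N hNq h').1 1 0 = (N : ℚ)⁻¹ * h'.1 1 0 := scf10 _ hNq _
      rw [this]; ring
    have h00 : h.1 0 0 = h'.1 0 0 + τ * ((N : ℚ)⁻¹ * h'.1 1 0) := by
      rw [hh, mul00, mul00, inv00, inv10, up00, up01, up11, up10]
      have e1 : (sc N hNq h').1 1 0 = (N : ℚ)⁻¹ * h'.1 1 0 := scf10 _ hNq _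
      have e2 : (sc N hNq h').1 0 0 = h'.1 0 0 := scf00 _ hNq _
      rw [e1, e2]; ring
    have hNi : padicNorm p ((N : ℚ)⁻¹) = 1 := by
      rw [inv_eq_one_div, padicNorm.div, hpN1]; simp
    have n10 : (p : ℚ) ^ K * padicNorm p (h.1 1 0) ≤ 1 := by
      rw [h10, padicNorm.mul, hNi, one_mul]
      refine le_trans ?_ hy'
      apply mul_le_mul_of_nonneg_right _ (padicNorm.nonneg _)
      exact pow_le_pow_right₀ hp1.le (Nat.le_add_right _ _)
    have n00 : (p : ℚ) ^ K * padicNorm p (h.1 0 0) ≤ 1 := by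
      have hm := padicNorm.nonarchimedean (p := p) (q := h'.1 0 0)
        (r := τ * ((N : ℚ)⁻¹ * h'.1 1 0))
      rw [← h00] at hm
      have hK : (0 : ℚ) < (p : ℚ) ^ K := by positivity
      refine le_trans (mul_le_mul_of_nonneg_left hm hK.le) ?_
      rw [mul_max_of_nonneg _ _ hK.le]
      apply max_le
      · refine le_trans ?_ hx'
        apply mul_le_mul_of_nonneg_right _ (padicNorm.nonneg _)
        exact pow_le_pow_right₀ hp1.le (Nat.le_add_right _ _)
      · rw [padicNorm.mul, padicNorm.mul, hNi, one_mul]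
        refine le_trans ?_ hy'
        rw [pow_add, mul_assoc]
        apply mul_le_mul_of_nonneg_left _ hK.le
        exact mul_le_mul_of_nonneg_right ht.le (padicNorm.nonneg _)
    have hd := det4 h
    have hne0 : h.1 0 0 ≠ 0 ∨ h.1 1 0 ≠ 0 := by
      by_contra hcon
      push Not at hcon
      rw [hcon.1, hcon.2] at hd
      norm_num at hd
    obtain ⟨l, a, b, hab, hl, hxl, hyl⟩ := prim_dir (h.1 0 0) (h.1 1 0) hne0
    have hmemT : h⁻¹ * T a b N * h ∈ H :=
      H.mul_mem (H.mul_mem (H.inv_mem hhm) (hT a b hab)) hhm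
    have hTe : h⁻¹ * T a b N * h = up (l⁻¹ ^ 2 * N) := by
      rw [conj_T', ← T_e1, ← T_smul]
      congr 1
      · rw [hxl, hyl] at hd
        field_simp
        linear_combination hd
      · rw [hxl, hyl]; ring
    rw [hTe] at hmemT
    refine ⟨_, hmemT, ?_⟩
    have hpl : (p : ℚ) ^ K * padicNorm p l ≤ 1 := by
      have hor : ¬ ((p : ℤ) ∣ a ∧ (p : ℤ) ∣ b) := by
        rintro ⟨ha, hb⟩
        have hu := hab.isUnit_of_dvd' ha hb
        have h2 := Int.isUnit_iff_natAbs_eq.1 hu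
        rw [Int.natAbs_natCast] at h2
        exact hp.one_lt.ne' h2
      by_cases ha : (p : ℤ) ∣ a
      · have hb : ¬ (p : ℤ) ∣ b := fun hb => hor ⟨ha, hb⟩
        have hbn : padicNorm p (b : ℚ) = 1 := (padicNorm.int_eq_one_iff b).2 hb
        rw [hyl, padicNorm.mul, hbn, mul_one] at n10
        exact n10
      · have han : padicNorm p (a : ℚ) = 1 := (padicNorm.int_eq_one_iff a).2 ha
        rw [hxl, padicNorm.mul, han, mul_one] at n00
        exact n00
    have hlpos : 0 < padicNorm p l :=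
      lt_of_le_of_ne (padicNorm.nonneg _) (Ne.symm (padicNorm.nonzero hl))
    have hK1 : (1 : ℚ) ≤ (p : ℚ) ^ K := one_le_pow₀ hp1.le
    have hinv : (p : ℚ) ^ K ≤ (padicNorm p l)⁻¹ := by
      rw [le_inv_comm₀ (by positivity) hlpos]
      rw [← one_div, le_div_iff₀ (by positivity)]
      linarith
    rw [padicNorm.mul, hpN1, mul_one, pow_two, padicNorm.mul]
    have hli : padicNorm p l⁻¹ = (padicNorm p l)⁻¹ := by
      rw [inv_eq_one_div, padicNorm.div]; simp
    rw [hli]
    calc (p : ℚ) ^ K = (p : ℚ) ^ K * 1 := by ring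
      _ ≤ (padicNorm p l)⁻¹ * (padicNorm p l)⁻¹ := by
        apply mul_le_mul hinv (le_trans hK1 hinv) zero_le_one
        positivity
  apply top_of_axis H hZ hq 1
  intro c0 hc0'
  have hp1 : (1 : ℚ) < p := by exact_mod_cast hp.one_lt
  obtain ⟨K, hK⟩ := pow_unbounded_of_one_lt (padicNorm p c0) hp1
  obtain ⟨x, hx, hxK⟩ := hlarge K
  have hxm : x ∈ axisGroup 1 H := by
    rw [mem_axisGroup, one_mul, inv_one, mul_one]; exact hx
  obtain ⟨n, hn⟩ := AddSubgroup.mem_zmultiples_iff.1 (hc0' hxm)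
  rw [zsmul_eq_mul] at hn
  rw [← hn, padicNorm.mul] at hxK
  have hni : padicNorm p (n : ℚ) ≤ 1 := padicNorm.of_int n
  have : padicNorm p (n : ℚ) * padicNorm p c0 ≤ 1 * padicNorm p c0 :=
    mul_le_mul_of_nonneg_right hni (padicNorm.nonneg _)
  linarith

theorem no_arith (H : Subgroup G) (hZ : ZDense H) (hq : NoQuot H) (hne : H ≠ ⊤)
    (L : Subgroup (Matrix.SpecialLinearGroup (Fin 2) ℤ)) (hL : L.FiniteIndex) :
    ¬ L.map (Matrix.SpecialLinearGroup.map (Int.castRingHom ℚ)) ≤ H := by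
  intro hLH
  apply hne
  set N : ℕ := L.index.factorial with hN
  apply top_of_width H hZ hq N (Nat.factorial_pos _)
  intro a b hab
  -- integral transvection
  let S : Matrix.SpecialLinearGroup (Fin 2) ℤ :=
    ⟨!![1 - a * b, a ^ 2; -(b ^ 2), 1 + a * b], by
      simp only [Matrix.det_fin_two_of]; ring⟩
  obtain ⟨n, hn0, hn, hnS⟩ := Subgroup.exists_pow_mem_of_index_ne_zero hL.index_ne_zero S
  have hdvd : n ∣ N := Nat.dvd_factorial hn0 hn
  obtain ⟨k, hk⟩ := hdvd
  have hSN : S ^ N ∈ L := by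
    rw [hk, pow_mul]; exact L.pow_mem hnS k
  have hmap : Matrix.SpecialLinearGroup.map (Int.castRingHom ℚ) S = T a b 1 := by
    apply ext4 <;> simp [S, T]
  have hTp : ∀ j : ℕ, T (a : ℚ) b 1 ^ j = T a b j := by
    intro j
    induction j with
    | zero =>
      rw [pow_zero]
      apply ext4 <;> simp
    | succ j ih =>
      rw [pow_succ, ih, T_mul]; push_cast; rfl
  have h1 : Matrix.SpecialLinearGroup.map (Int.castRingHom ℚ) (S ^ N) ∈ H :=
    hLH ⟨_, hSN, rfl⟩
  rw [map_pow, hmap, hTp] at h1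
  exact h1

end Pool.Agent.MP_21c19e_al
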