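import Pool.Agent.Lib.MP_21c19e_al.Defs

set_option autoImplicit false

/-!
Z21-GroupPart. Torus elements and the commutator unipotent.
Proof of `tor_mem`: with u = m^k and x1 = (u-1)/q (an integer),
  tor u = up x1 * lo q * up (-x1/u) * lo (-u*q).
Proof of `T_mem`: u = m^k, u' = m^k', tau = a/b, tau' = b/a.
  g1 = tor u * up ((u^(-2) - 1) * tau)      (u^(-2)-1)*a/b = -((u^2-1)/b) * a / u^2 is in Z[1/m]
  g2 = tor u' * lo (-(u'^2 - 1) * tau')     (u'^2-1)*b/a is in q*Z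
  (g1 = up tau * tor u * up (-tau) fixes e1 and (a,b); g2 = lo tau' * tor u' * lo (-tau') fixes e2 and (a,b))
  T a b c = g1 * g2 * g1⁻¹ * g2⁻¹ with c = (u^2-1)(u'^2-1)/(u^2 a b)
(if the sign of c or the formula is off tell helper27 at once; it suffices to check 4 entries by field_simp; ring).
-/

namespace Pool.Agent.MP_21c19e_al

theorem tor_mem (H : Subgroup G) (m q : ℕ) (hm : m.Prime) (hq : 0 < q)
    (hU : ∀ (z : ℤ) (i : ℕ), up ((z : ℚ) / (m : ℚ) ^ i) ∈ H)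
    (hL : ∀ (z : ℤ) (i : ℕ), lo ((q : ℚ) * z / (m : ℚ) ^ i) ∈ H)
    (k : ℕ) (hk : (q : ℤ) ∣ (m : ℤ) ^ k - 1) (hne : ((m : ℚ) ^ k) ≠ 0) :
    tor ((m : ℚ) ^ k) hne ∈ H := by
  obtain ⟨x1, hx1⟩ := hk
  have hqne : (q : ℚ) ≠ 0 := by positivity
  have hx : ((m : ℚ) ^ k) = 1 + q * x1 := by
    have h : (((m : ℤ) ^ k - 1 : ℤ) : ℚ) = ((q * x1 : ℤ) : ℚ) := by rw [hx1]
    push_cast at h
    linarith
  have h1 : up (x1 : ℚ) ∈ H := by simpa using hU x1 0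
  have h2 : lo (q : ℚ) ∈ H := by simpa using hL 1 0
  have h3 : up (-(x1 : ℚ) / (m : ℚ) ^ k) ∈ H := by simpa using hU (-x1) k
  have h4 : lo (-((m : ℚ) ^ k * q)) ∈ H := by
    have h := hL (-((m : ℤ) ^ k)) 0
    have e : (q : ℚ) * ((-((m : ℤ) ^ k) : ℤ) : ℚ) / (m : ℚ) ^ 0 = -((m : ℚ) ^ k * q) := by
      push_cast
      ring
    rwa [e] at h
  have e : tor ((m : ℚ) ^ k) hne =
      up (x1 : ℚ) * lo (q : ℚ) * up (-(x1 : ℚ) / (m : ℚ) ^ k) * lo (-((m : ℚ) ^ k * q)) := by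
    generalize (m : ℚ) ^ k = u at *
    apply ext4 <;> simp only [mul00, mul01, mul10, mul11, tor00, tor01, tor10, tor11, up00, up01,
      up10, up11, lo00, lo01, lo10, lo11]
    · field_simp
      rw [hx]
      ring
    · field_simp
      rw [hx]
      ring
    · field_simp
      rw [hx]
      ring
    · field_simp
      rw [hx]
      ring
  rw [e]
  exact H.mul_mem (H.mul_mem (H.mul_mem h1 h2) h3) h4

theorem T_mem (H : Subgroup G) (m q : ℕ) (hm : m.Prime) (hq : 0 < q)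
    (hU : ∀ (z : ℤ) (i : ℕ), up ((z : ℚ) / (m : ℚ) ^ i) ∈ H)
    (hL : ∀ (z : ℤ) (i : ℕ), lo ((q : ℚ) * z / (m : ℚ) ^ i) ∈ H)
    (a b : ℤ) (ha : a ≠ 0) (hb : b ≠ 0) (k k' : ℕ)
    (hk : (q : ℤ) ∣ (m : ℤ) ^ k - 1) (hkb : b ∣ (m : ℤ) ^ k - 1)
    (hk' : (q : ℤ) * a ∣ (m : ℤ) ^ k' - 1) :
    T a b (((m : ℚ) ^ (2 * k) - 1) * ((m : ℚ) ^ (2 * k') - 1) /
      ((m : ℚ) ^ (2 * k) * a * b)) ∈ H := by
  have hm0 : (m : ℚ) ≠ 0 := by
    have := hm.pos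
    positivity
  have hne : ((m : ℚ) ^ k) ≠ 0 := pow_ne_zero _ hm0
  have hne' : ((m : ℚ) ^ k') ≠ 0 := pow_ne_zero _ hm0
  have haq : (a : ℚ) ≠ 0 := by exact_mod_cast ha
  have hbq : (b : ℚ) ≠ 0 := by exact_mod_cast hb
  have t1 := tor_mem H m q hm hq hU hL k hk hne
  have t2 := tor_mem H m q hm hq hU hL k' (dvd_trans ⟨a, rfl⟩ hk') hne'
  obtain ⟨w, hw⟩ := hkb
  obtain ⟨w', hw'⟩ := hk'
  have hwq : ((m : ℚ) ^ k) = 1 + b * w := by
    have h : (((m : ℤ) ^ k - 1 : ℤ) : ℚ) = ((b * w : ℤ) : ℚ) := by rw [hw]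
    push_cast at h
    linarith
  have hwq' : ((m : ℚ) ^ k') = 1 + q * a * w' := by
    have h : (((m : ℤ) ^ k' - 1 : ℤ) : ℚ) = ((q * a * w' : ℤ) : ℚ) := by rw [hw']
    push_cast at h
    linarith
  have h1 : up (-(w * ((m : ℚ) ^ k + 1) * a) / ((m : ℚ) ^ k) ^ 2) ∈ H := by
    have h := hU (-(w * ((m : ℤ) ^ k + 1) * a)) (2 * k)
    have e : ((-(w * ((m : ℤ) ^ k + 1) * a) : ℤ) : ℚ) / (m : ℚ) ^ (2 * k) =
        -(w * ((m : ℚ) ^ k + 1) * a) / ((m : ℚ) ^ k) ^ 2 := by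
      rw [← pow_mul, mul_comm k 2]
      push_cast
      rfl
    rwa [e] at h
  have h2 : lo (q * (w' * ((m : ℚ) ^ k' + 1) * b)) ∈ H := by
    have h := hL (w' * ((m : ℤ) ^ k' + 1) * b) 0
    have e : (q : ℚ) * ((w' * ((m : ℤ) ^ k' + 1) * b : ℤ) : ℚ) / (m : ℚ) ^ 0 =
        q * (w' * ((m : ℚ) ^ k' + 1) * b) := by
      push_cast
      ring
    rwa [e] at h
  have g1 := H.mul_mem t1 h1
  have g2 := H.mul_mem t2 h2
  have hmem := H.mul_mem (H.mul_mem g1 g2) (H.mul_mem (H.inv_mem g1) (H.inv_mem g2))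
  have e : T a b (((m : ℚ) ^ (2 * k) - 1) * ((m : ℚ) ^ (2 * k') - 1) /
      ((m : ℚ) ^ (2 * k) * a * b)) =
      (tor ((m : ℚ) ^ k) hne * up (-(w * ((m : ℚ) ^ k + 1) * a) / ((m : ℚ) ^ k) ^ 2)) *
      (tor ((m : ℚ) ^ k') hne' * lo (q * (w' * ((m : ℚ) ^ k' + 1) * b))) *
      ((tor ((m : ℚ) ^ k) hne * up (-(w * ((m : ℚ) ^ k + 1) * a) / ((m : ℚ) ^ k) ^ 2))⁻¹ *
      (tor ((m : ℚ) ^ k') hne' * lo (q * (w' * ((m : ℚ) ^ k' + 1) * b)))⁻¹) := by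
    rw [mul_comm 2 k, mul_comm 2 k', pow_mul, pow_mul]
    generalize (m : ℚ) ^ k = u at *
    generalize (m : ℚ) ^ k' = v at *
    have ew : (w : ℚ) = (u - 1) / b := by
      rw [hwq]
      field_simp
      ring
    have ew' : (w' : ℚ) * q = (v - 1) / a := by
      rw [hwq']
      field_simp
      ring
    have e1 : -(w * (u + 1) * a) / u ^ 2 = -((u ^ 2 - 1) * a) / (b * u ^ 2) := by
      rw [ew]
      field_simp
      ring
    have e2 : q * (w' * (v + 1) * b) = (v ^ 2 - 1) * b / a := by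
      have : (q : ℚ) * (w' * (v + 1) * b) = (w' * q) * (v + 1) * b := by ring
      rw [this, ew']
      field_simp
      ring
    rw [e1, e2]
    apply ext4 <;> simp only [mul00, mul01, mul10, mul11, inv00, inv01, inv10, inv11, tor00, tor01,
      tor10, tor11, up00, up01, up10, up11, lo00, lo01, lo10, lo11, T00, T01, T10, T11]
    · field_simp
      ring
    · field_simp
      ring
    · field_simp
      ring
    · field_simp
      ring
  rw [e]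
  exact hmem

end Pool.Agent.MP_21c19e_al
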