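import Pool.Agent.Lib.MP_21c19e_al.RadDefs

set_option autoImplicit false

/-!
MP_21c19e_al, growth gap: stabilisers of infinity, counting lemmas.
-/

namespace Pool.Agent.MP_21c19e_al.Conf

open Matrix

theorem e1_ne : (![1, 0] : Fin 2 → ℚ) ≠ 0 := by
  intro h0
  have := congrFun h0 0
  simp at this

theorem fix_e1 (x : G) (hx : x.1 1 0 = 0) : ∃ t : ℚ,
    (x : Matrix (Fin 2) (Fin 2) ℚ).mulVec (![1, 0] : Fin 2 → ℚ) =
      t • (![1, 0] : Fin 2 → ℚ) := by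
  refine ⟨x.1 0 0, ?_⟩
  ext i
  fin_cases i
  · simp [Matrix.mulVec, dotProduct, Fin.sum_univ_two]
  · simp [Matrix.mulVec, dotProduct, Fin.sum_univ_two, hx]

theorem ez_ne (z : ℚ) : (![z, 1] : Fin 2 → ℚ) ≠ 0 := by
  intro h0
  have := congrFun h0 1
  simp at this

theorem fix_ez (x : G) (z : ℚ) (hx : x.1 0 0 * z + x.1 0 1 = (x.1 1 0 * z + x.1 1 1) * z) :
    ∃ t : ℚ, (x : Matrix (Fin 2) (Fin 2) ℚ).mulVec (![z, 1] : Fin 2 → ℚ) =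
      t • (![z, 1] : Fin 2 → ℚ) := by
  refine ⟨x.1 1 0 * z + x.1 1 1, ?_⟩
  ext i
  fin_cases i
  · simp [Matrix.mulVec, dotProduct, Fin.sum_univ_two, hx]
  · simp [Matrix.mulVec, dotProduct, Fin.sum_univ_two]

theorem comm10 (g k : G) (h : g * k = k * g) :
    g.1 1 0 * k.1 0 0 + g.1 1 1 * k.1 1 0 = k.1 1 0 * g.1 0 0 + k.1 1 1 * g.1 1 0 := by
  rw [← mul10, ← mul10, h]

/-- In the presence of a hyperbolic upper triangular element, the stabiliser of infinity also fixes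
`z0`, and the stabiliser of `z0` also fixes infinity. -/
theorem hyp_case (H : Subgroup G) (hZ : ZDense H) (hq : NoQuot H) (hne : H ≠ ⊤)
    (hex : ∃ g ∈ H, g.1 1 0 = 0 ∧ g.1 0 0 ≠ g.1 1 1) :
    ∃ z0 : ℚ, (∀ s ∈ H, s.1 1 0 = 0 → s.1 0 0 * z0 + s.1 0 1 = s.1 1 1 * z0) ∧
      (∀ s ∈ H, s.1 0 0 * z0 + s.1 0 1 = (s.1 1 0 * z0 + s.1 1 1) * z0 → s.1 1 0 = 0) := by
  obtain ⟨g, hg, g10, gne⟩ := hex
  have hsub : g.1 1 1 - g.1 0 0 ≠ 0 := sub_ne_zero.2 (Ne.symm gne)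
  refine ⟨g.1 0 1 / (g.1 1 1 - g.1 0 0), ?_, ?_⟩
  · intro s hs s10
    have hcomm := comm_stab H hZ hq hne ![1, 0] e1_ne g s hg hs (fix_e1 g g10) (fix_e1 s s10)
    have h01 := comm01 g s hcomm
    field_simp
    linear_combination -h01
  · intro s hs hfix
    have hgf : g.1 0 0 * (g.1 0 1 / (g.1 1 1 - g.1 0 0)) + g.1 0 1 =
        (g.1 1 0 * (g.1 0 1 / (g.1 1 1 - g.1 0 0)) + g.1 1 1) *
          (g.1 0 1 / (g.1 1 1 - g.1 0 0)) := by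
      rw [g10]; field_simp; ring
    have hcomm := comm_stab H hZ hq hne _ (ez_ne _) g s hg hs (fix_ez g _ hgf) (fix_ez s _ hfix)
    have h10 := comm10 g s hcomm
    rw [g10] at h10
    have : (g.1 1 1 - g.1 0 0) * s.1 1 0 = 0 := by linear_combination h10
    exact (mul_eq_zero.1 this).resolve_left hsub

/-- Otherwise the stabiliser of infinity consists of `± up x`. -/
theorem par_case (H : Subgroup G)
    (hex : ¬ ∃ g ∈ H, g.1 1 0 = 0 ∧ g.1 0 0 ≠ g.1 1 1) (s : G) (hs : s ∈ H) (s10 : s.1 1 0 = 0)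
    (hpos : 0 < s.1 0 0) : s = up (s.1 0 1) := by
  push Not at hex
  have h := hex s hs s10
  have hd := det4 s
  rw [s10, ← h] at hd
  have h1 : s.1 0 0 = 1 := by nlinarith
  apply ext4
  · rw [h1, up00]
  · rw [up01]
  · rw [s10, up10]
  · rw [← h, h1, up11]

/-- Boxes in the plane. -/
noncomputable def bxZ (t : ℕ) : Finset (ℤ × ℤ) :=
  Finset.Icc (-(t : ℤ)) t ×ˢ Finset.Icc (-(t : ℤ)) t

theorem card_bxZ (t : ℕ) : (bxZ t).card = (2 * t + 1) ^ 2 := by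
  rw [bxZ, Finset.card_product, Int.card_Icc]
  have h1 : ((t : ℤ) + 1 - (-(t : ℤ))).toNat = 2 * t + 1 := by omega
  rw [h1]; ring

theorem mem_bxZ (t : ℕ) (v : ℤ × ℤ) : v ∈ bxZ t ↔ |v.1| ≤ (t : ℤ) ∧ |v.2| ≤ (t : ℤ) := by
  rw [bxZ, Finset.mem_product, Finset.mem_Icc, Finset.mem_Icc, abs_le, abs_le]

theorem card_bxZ_le (Y g : ℕ) (hg : 1 ≤ g) (hgY : g ≤ Y) :
    (((bxZ (Y / g)).card : ℕ) : ℝ) ≤ 9 * (Y : ℝ) ^ 2 / (g : ℝ) ^ 2 := by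
  rw [card_bxZ]
  have h1 : 1 ≤ Y / g := (Nat.one_le_div_iff hg).2 hgY
  have h2 : ((Y / g : ℕ) : ℝ) ≤ (Y : ℝ) / g := Nat.cast_div_le
  have h3 : (1 : ℝ) ≤ ((Y / g : ℕ) : ℝ) := by exact_mod_cast h1
  push_cast
  calc (2 * ((Y / g : ℕ) : ℝ) + 1) ^ 2 ≤ (3 * ((Y / g : ℕ) : ℝ)) ^ 2 := by
        apply pow_le_pow_left₀ <;> linarith
    _ ≤ (3 * ((Y : ℝ) / g)) ^ 2 := by
        apply pow_le_pow_left₀ <;> linarith
    _ = 9 * (Y : ℝ) ^ 2 / (g : ℝ) ^ 2 := by ring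

theorem sum_inv_le (Y : ℕ) :
    ∑ g ∈ Finset.Icc 1 Y, (1 : ℝ) / g ≤ 1 + Real.log Y := by
  have h := harmonic_le_one_add_log Y
  rw [harmonic_eq_sum_Icc] at h
  push_cast at h
  refine le_trans (le_of_eq ?_) h
  exact Finset.sum_congr rfl (fun i _ => by rw [one_div])

/-- The sum of `1 / max (g1, g2) ^ 2`. -/
theorem sum_max_le (Y : ℕ) :
    ∑ p ∈ Finset.Icc 1 Y ×ˢ Finset.Icc 1 Y, (1 : ℝ) / ((max p.1 p.2 : ℕ) : ℝ) ^ 2 ≤
      2 * (1 + Real.log Y) := by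
  have h1 : ∀ p ∈ Finset.Icc 1 Y ×ˢ Finset.Icc 1 Y, (1 : ℝ) / ((max p.1 p.2 : ℕ) : ℝ) ^ 2 ≤
      (if p.2 ≤ p.1 then (1 : ℝ) / (p.1 : ℝ) ^ 2 else 0) +
        (if p.1 ≤ p.2 then (1 : ℝ) / (p.2 : ℝ) ^ 2 else 0) := by
    rintro ⟨a, b⟩ _
    dsimp only
    rcases le_total a b with h | h
    · rw [max_eq_right h, if_pos h]
      have : (0 : ℝ) ≤ (if b ≤ a then (1 : ℝ) / (a : ℝ) ^ 2 else 0) := by
        split_ifs <;> positivity
      linarith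
    · rw [max_eq_left h, if_pos h]
      have : (0 : ℝ) ≤ (if a ≤ b then (1 : ℝ) / (b : ℝ) ^ 2 else 0) := by
        split_ifs <;> positivity
      linarith
  have h2 : ∀ g ∈ Finset.Icc 1 Y, ∑ b ∈ Finset.Icc 1 Y,
      (if b ≤ g then (1 : ℝ) / (g : ℝ) ^ 2 else 0) ≤ 1 / g := by
    intro g hg
    rw [Finset.mem_Icc] at hg
    rw [← Finset.sum_filter, Finset.sum_const, nsmul_eq_mul]
    have h3 : ((Finset.Icc 1 Y).filter (fun b => b ≤ g)).card ≤ g := by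
      calc ((Finset.Icc 1 Y).filter (fun b => b ≤ g)).card ≤ (Finset.Icc 1 g).card := by
            apply Finset.card_le_card
            intro b hb
            rw [Finset.mem_filter, Finset.mem_Icc] at hb
            rw [Finset.mem_Icc]
            exact ⟨hb.1.1, hb.2⟩
        _ = g := by rw [Nat.card_Icc]; omega
    have h4 : (0 : ℝ) < g := by exact_mod_cast hg.1
    have h5 : ((((Finset.Icc 1 Y).filter (fun b => b ≤ g)).card : ℕ) : ℝ) ≤ g := by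
      exact_mod_cast h3
    calc ((((Finset.Icc 1 Y).filter (fun b => b ≤ g)).card : ℕ) : ℝ) * (1 / (g : ℝ) ^ 2) ≤
        g * (1 / (g : ℝ) ^ 2) := mul_le_mul_of_nonneg_right h5 (by positivity)
      _ = 1 / g := by field_simp
  calc ∑ p ∈ Finset.Icc 1 Y ×ˢ Finset.Icc 1 Y, (1 : ℝ) / ((max p.1 p.2 : ℕ) : ℝ) ^ 2 ≤
      ∑ p ∈ Finset.Icc 1 Y ×ˢ Finset.Icc 1 Y,
        ((if p.2 ≤ p.1 then (1 : ℝ) / (p.1 : ℝ) ^ 2 else 0) +
        (if p.1 ≤ p.2 then (1 : ℝ) / (p.2 : ℝ) ^ 2 else 0)) := Finset.sum_le_sum h1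
    _ = (∑ a ∈ Finset.Icc 1 Y, ∑ b ∈ Finset.Icc 1 Y,
          (if b ≤ a then (1 : ℝ) / (a : ℝ) ^ 2 else 0)) +
        (∑ b ∈ Finset.Icc 1 Y, ∑ a ∈ Finset.Icc 1 Y,
          (if a ≤ b then (1 : ℝ) / (b : ℝ) ^ 2 else 0)) := by
        rw [Finset.sum_add_distrib, Finset.sum_product, Finset.sum_product_right]
    _ ≤ (∑ a ∈ Finset.Icc 1 Y, (1 : ℝ) / a) + ∑ b ∈ Finset.Icc 1 Y, (1 : ℝ) / b :=
        add_le_add (Finset.sum_le_sum h2) (Finset.sum_le_sum h2)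
    _ ≤ 2 * (1 + Real.log Y) := by
        have := sum_inv_le Y
        linarith

end Pool.Agent.MP_21c19e_al.Conf
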