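import Pool.Agent.Lib.MP_21c19e_al.GrowDefs

set_option autoImplicit false

/-!
MP_21c19e_al, growth gap: the case of a hyperbolic element fixing infinity.
-/

namespace Pool.Agent.MP_21c19e_al.Conf

open Matrix

/-- The elements of `H` of height at most `X`. -/
def HX (H : Subgroup G) (X : ℕ) : Set G :=
  {h | h ∈ H ∧ ∃ n : ℕ, 1 ≤ n ∧ n ≤ X ∧ ∀ i j : Fin 2, ∃ a : ℤ, |a| ≤ (X : ℤ) ∧
    (n : ℚ) * h.1 i j = a}

theorem HX_data (H : Subgroup G) (X : ℕ) (h : G) : ∃ n : ℕ, ∃ a : Fin 2 → Fin 2 → ℤ,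
    h ∈ HX H X → (1 ≤ n ∧ n ≤ X ∧ (∀ i j, |a i j| ≤ (X : ℤ)) ∧
      ∀ i j, (n : ℚ) * h.1 i j = a i j) := by
  by_cases hh : h ∈ HX H X
  · obtain ⟨-, n, h1, h2, h3⟩ := hh
    choose a ha hb using h3
    exact ⟨n, a, fun _ => ⟨h1, h2, ha, hb⟩⟩
  · exact ⟨0, fun _ _ => 0, fun h => absurd h hh⟩

theorem det_data (h : G) (n : ℕ) (a : Fin 2 → Fin 2 → ℤ)
    (ha : ∀ i j, (n : ℚ) * h.1 i j = a i j) : a 0 0 * a 1 1 - a 0 1 * a 1 0 = (n : ℤ) ^ 2 := by
  have hd := det4 h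
  have h1 : ((a 0 0 * a 1 1 - a 0 1 * a 1 0 : ℤ) : ℚ) = ((n : ℤ) ^ 2 : ℤ) := by
    push_cast
    rw [← ha 0 0, ← ha 0 1, ← ha 1 0, ← ha 1 1]
    linear_combination ((n : ℚ) ^ 2) * hd
  exact_mod_cast h1

theorem ratio_pm (x y x' y' : ℤ) (l : ℚ) (h1 : (x' : ℚ) = l * x) (h2 : (y' : ℚ) = l * y)
    (hg : Int.gcd x y = Int.gcd x' y') (h0 : Int.gcd x y ≠ 0) : l = 1 ∨ l = -1 := by
  have e1 : (l.den : ℤ) * x' = l.num * x := by
    have : (l.den : ℚ) * x' = l.num * x := by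
      rw [h1, ← mul_assoc, mul_comm (l.den : ℚ) l, Rat.mul_den_eq_num]
    exact_mod_cast this
  have e2 : (l.den : ℤ) * y' = l.num * y := by
    have : (l.den : ℚ) * y' = l.num * y := by
      rw [h2, ← mul_assoc, mul_comm (l.den : ℚ) l, Rat.mul_den_eq_num]
    exact_mod_cast this
  have e3 : Int.gcd ((l.den : ℤ) * x') ((l.den : ℤ) * y') = Int.gcd (l.num * x) (l.num * y) := by
    rw [e1, e2]
  rw [Int.gcd_mul_left, Int.gcd_mul_left, ← hg, Int.natAbs_natCast] at e3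
  have e4 : l.den = l.num.natAbs := Nat.eq_of_mul_eq_mul_right (Nat.pos_of_ne_zero h0) e3
  have hden : (l.den : ℚ) ≠ 0 := by exact_mod_cast l.den_pos.ne'
  have e5 : l * l.den = l.num := Rat.mul_den_eq_num l
  rcases Int.natAbs_eq l.num with h | h
  · left
    rw [← e4] at h
    have : (l.num : ℚ) = l.den := by exact_mod_cast h
    rw [this] at e5
    exact mul_right_cancel₀ hden (by rw [e5, one_mul])
  · right
    rw [← e4] at h
    have : (l.num : ℚ) = -l.den := by exact_mod_cast h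
    rw [this] at e5
    exact mul_right_cancel₀ hden (by rw [e5]; ring)

/-- Reconstruction of an element. -/
theorem eq_of_data (h h' : G) (n : ℕ) (hn : 1 ≤ n) (a a' : Fin 2 → Fin 2 → ℤ)
    (ha : ∀ i j, (n : ℚ) * h.1 i j = a i j) (ha' : ∀ i j, (n : ℚ) * h'.1 i j = a' i j)
    (u w : ℤ) (hw : w ≠ 0) (e00 : a 0 0 = a' 0 0) (e10 : a 1 0 = a' 1 0)
    (e1 : a 0 0 * u + a 0 1 * w = a' 0 0 * u + a' 0 1 * w)
    (e2 : a 1 0 * u + a 1 1 * w = a' 1 0 * u + a' 1 1 * w) : h = h' := by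
  have hnq : (n : ℚ) ≠ 0 := by exact_mod_cast (by omega : n ≠ 0)
  have e01 : a 0 1 = a' 0 1 := by
    rw [e00] at e1
    exact mul_right_cancel₀ hw (by linarith)
  have e11 : a 1 1 = a' 1 1 := by
    rw [e10] at e2
    exact mul_right_cancel₀ hw (by linarith)
  apply ext4
  · exact mul_left_cancel₀ hnq (by rw [ha, ha', e00])
  · exact mul_left_cancel₀ hnq (by rw [ha, ha', e01])
  · exact mul_left_cancel₀ hnq (by rw [ha, ha', e10])
  · exact mul_left_cancel₀ hnq (by rw [ha, ha', e11])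

theorem scale_one (n n' : ℕ) (hn : 1 ≤ n) (hn' : 1 ≤ n') (l : ℚ) (hl : l = 1 ∨ l = -1)
    (h : l * (n : ℚ) ^ 2 = (n' : ℚ) ^ 2) : l = 1 ∧ n = n' := by
  have h1 : (0 : ℚ) < (n : ℚ) ^ 2 := by positivity
  have h2 : (0 : ℚ) < (n' : ℚ) ^ 2 := by positivity
  have hl1 : l = 1 := by
    rcases hl with h3 | h3
    · exact h3
    · exfalso; rw [h3] at h; linarith
  refine ⟨hl1, ?_⟩
  rw [hl1, one_mul] at h
  have h3 := (sq_eq_sq₀ (by positivity) (by positivity)).1 h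
  exact_mod_cast h3

/-- Norms of a vector and of its primitive multiple. -/
theorem prim_norm (x y : ℤ) (h : (x, y) ≠ (0, 0)) : 0 < Int.gcd x y ∧
    (Int.gcd x y : ℤ) * (x / Int.gcd x y) = x ∧ (Int.gcd x y : ℤ) * (y / Int.gcd x y) = y ∧
    1 ≤ max (x / (Int.gcd x y : ℤ)).natAbs (y / (Int.gcd x y : ℤ)).natAbs ∧
    Int.gcd x y * max (x / (Int.gcd x y : ℤ)).natAbs (y / (Int.gcd x y : ℤ)).natAbs =
      max x.natAbs y.natAbs := by
  have hpos : 0 < Int.gcd x y := by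
    apply Nat.pos_of_ne_zero
    intro h0
    rw [Int.gcd_eq_zero_iff] at h0
    exact h (by rw [h0.1, h0.2])
  have e1 : (Int.gcd x y : ℤ) * (x / Int.gcd x y) = x := Int.mul_ediv_cancel' (Int.gcd_dvd_left _ _)
  have e2 : (Int.gcd x y : ℤ) * (y / Int.gcd x y) = y := Int.mul_ediv_cancel' (Int.gcd_dvd_right _ _)
  have e3 : Int.gcd x y * max (x / (Int.gcd x y : ℤ)).natAbs (y / (Int.gcd x y : ℤ)).natAbs =
      max x.natAbs y.natAbs := by
    rw [← Nat.mul_max_mul_left]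
    congr 1
    · conv_rhs => rw [← e1]
      rw [Int.natAbs_mul, Int.natAbs_natCast]
    · conv_rhs => rw [← e2]
      rw [Int.natAbs_mul, Int.natAbs_natCast]
  refine ⟨hpos, e1, e2, ?_, e3⟩
  by_contra hcon
  have h0 : max (x / (Int.gcd x y : ℤ)).natAbs (y / (Int.gcd x y : ℤ)).natAbs = 0 := by omega
  rw [h0, mul_zero] at e3
  apply h
  have hx : x.natAbs = 0 := by omega
  have hy : y.natAbs = 0 := by omega
  rw [Int.natAbs_eq_zero] at hx hy
  rw [hx, hy]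

end Pool.Agent.MP_21c19e_al.Conf
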