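import Pool.Agent.Lib.MP_21c19e_al.GrowHyp

set_option autoImplicit false

/-!
MP_21c19e_al, uniform growth gap: counting pairs of vectors whose directions correspond to each other.
-/

namespace Pool.Agent.MP_21c19e_al.Conf

open Matrix

/-- The target of the injections. -/
noncomputable def TH (Y : ℕ) : Finset (Bool × (Σ _ : ℕ × ℕ, ℤ × ℤ)) :=
  (Finset.univ : Finset Bool) ×ˢ
    ((Finset.Icc 1 Y ×ˢ Finset.Icc 1 Y).sigma (fun p => bxZ (Y / max p.1 p.2)))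

theorem card_TH (Y : ℕ) : (((TH Y).card : ℕ) : ℝ) ≤ 36 * (Y : ℝ) ^ 2 * (1 + Real.log Y) := by
  rw [TH, Finset.card_product, Finset.card_sigma]
  push_cast
  have h1 : ∀ p ∈ Finset.Icc 1 Y ×ˢ Finset.Icc 1 Y,
      (((bxZ (Y / max p.1 p.2)).card : ℕ) : ℝ) ≤
        9 * (Y : ℝ) ^ 2 * (1 / ((max p.1 p.2 : ℕ) : ℝ) ^ 2) := by
    rintro ⟨a, b⟩ hp
    rw [Finset.mem_product, Finset.mem_Icc, Finset.mem_Icc] at hp
    dsimp only at hp ⊢
    have := card_bxZ_le Y (max a b) (by omega) (by omega)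
    calc (((bxZ (Y / max a b)).card : ℕ) : ℝ) ≤ 9 * (Y : ℝ) ^ 2 / ((max a b : ℕ) : ℝ) ^ 2 := this
      _ = 9 * (Y : ℝ) ^ 2 * (1 / ((max a b : ℕ) : ℝ) ^ 2) := by ring
  have h2 := Finset.sum_le_sum h1
  rw [← Finset.mul_sum] at h2
  have h3 := sum_max_le Y
  have h4 : (0 : ℝ) ≤ 9 * (Y : ℝ) ^ 2 := by positivity
  have h5 := mul_le_mul_of_nonneg_left h3 h4
  have h6 : ((Finset.univ : Finset Bool).card : ℝ) = 2 := by simp
  rw [h6]
  linarith

theorem log_scale (K X : ℕ) (hK : 1 ≤ K) (hX : 1 ≤ X) :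
    1 + Real.log ((K * X : ℕ) : ℝ) ≤ (1 + Real.log K) * (1 + Real.log X) := by
  have h1 : (0 : ℝ) ≤ Real.log K := Real.log_natCast_nonneg K
  have h2 : (0 : ℝ) ≤ Real.log X := Real.log_natCast_nonneg X
  have hK' : (K : ℝ) ≠ 0 := by exact_mod_cast (by omega : K ≠ 0)
  have hX' : (X : ℝ) ≠ 0 := by exact_mod_cast (by omega : X ≠ 0)
  push_cast
  rw [Real.log_mul hK' hX']
  nlinarith [mul_nonneg h1 h2]

/-- Parallel integer vectors with the same content are equal up to sign. -/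
theorem par_pm (V V' : ℤ × ℤ) (h0 : V ≠ (0, 0)) (hp : V.1 * V'.2 = V.2 * V'.1)
    (hg : Int.gcd V.1 V.2 = Int.gcd V'.1 V'.2) : V' = V ∨ V' = -V := by
  obtain ⟨x, y⟩ := V
  obtain ⟨x', y'⟩ := V'
  dsimp only at hp hg
  have hxy : x ≠ 0 ∨ y ≠ 0 := by
    by_contra hcon
    push Not at hcon
    exact h0 (by rw [hcon.1, hcon.2])
  have hpq : (x : ℚ) * y' = y * x' := by exact_mod_cast hp
  have hl : ∃ l : ℚ, (x' : ℚ) = l * x ∧ (y' : ℚ) = l * y := by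
    rcases hxy with hx | hy
    · have hxq : (x : ℚ) ≠ 0 := by exact_mod_cast hx
      refine ⟨x' / x, by field_simp, ?_⟩
      field_simp
      linear_combination hpq
    · have hyq : (y : ℚ) ≠ 0 := by exact_mod_cast hy
      refine ⟨y' / y, ?_, by field_simp⟩
      field_simp
      linear_combination -hpq
  obtain ⟨l, hl1, hl2⟩ := hl
  have hg0 : Int.gcd x y ≠ 0 := by
    intro h
    rw [Int.gcd_eq_zero_iff] at h
    rcases hxy with hx | hy
    · exact hx h.1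
    · exact hy h.2
  rcases ratio_pm x y x' y' l hl1 hl2 hg hg0 with h | h
  · left
    rw [h, one_mul] at hl1 hl2
    rw [Prod.mk.injEq]
    exact ⟨by exact_mod_cast hl1, by exact_mod_cast hl2⟩
  · right
    rw [h] at hl1 hl2
    have e1 : x' = -x := by
      have : (x' : ℚ) = ((-x : ℤ) : ℚ) := by rw [hl1]; push_cast; ring
      exact_mod_cast this
    have e2 : y' = -y := by
      have : (y' : ℚ) = ((-y : ℤ) : ℚ) := by rw [hl2]; push_cast; ring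
      exact_mod_cast this
    rw [e1, e2]; rfl

/-- The sign of a vector. -/
def vs (V : ℤ × ℤ) : Bool := decide (0 < V.1 ∨ (V.1 = 0 ∧ 0 < V.2))

theorem vs_neg (V : ℤ × ℤ) (h0 : V ≠ (0, 0)) : vs (-V) ≠ vs V := by
  obtain ⟨x, y⟩ := V
  have hxy : x ≠ 0 ∨ y ≠ 0 := by
    by_contra hcon
    push Not at hcon
    exact h0 (by rw [hcon.1, hcon.2])
  unfold vs
  intro h
  rw [decide_eq_decide] at h
  simp only [Prod.fst_neg, Prod.snd_neg] at h
  omega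

theorem par_vs (V V' : ℤ × ℤ) (h0 : V ≠ (0, 0)) (hp : V.1 * V'.2 = V.2 * V'.1)
    (hg : Int.gcd V.1 V.2 = Int.gcd V'.1 V'.2) (hs : vs V = vs V') : V = V' := by
  rcases par_pm V V' h0 hp hg with h | h
  · exact h.symm
  · exfalso
    rw [h] at hs
    exact vs_neg V h0 hs.symm

/-- Pairs of nonzero vectors of norm at most `Y` such that the directions of the two vectors
determine each other. -/
theorem card_R (Y : ℕ) (R : Finset ((ℤ × ℤ) × (ℤ × ℤ)))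
    (h0 : ∀ r ∈ R, r.1 ≠ (0, 0) ∧ r.2 ≠ (0, 0))
    (hY : ∀ r ∈ R, max r.1.1.natAbs r.1.2.natAbs ≤ Y ∧ max r.2.1.natAbs r.2.2.natAbs ≤ Y)
    (hpar : ∀ r ∈ R, ∀ r' ∈ R, r.1.1 * r'.1.2 = r.1.2 * r'.1.1 ↔ r.2.1 * r'.2.2 = r.2.2 * r'.2.1) :
    R.card ≤ 2 * (TH Y).card := by
  classical
  let g1 : (ℤ × ℤ) × (ℤ × ℤ) → ℕ := fun r => Int.gcd r.1.1 r.1.2
  let g2 : (ℤ × ℤ) × (ℤ × ℤ) → ℕ := fun r => Int.gcd r.2.1 r.2.2
  let v1 : (ℤ × ℤ) × (ℤ × ℤ) → ℤ × ℤ := fun r => (r.1.1 / (g1 r : ℤ), r.1.2 / (g1 r : ℤ))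
  let v2 : (ℤ × ℤ) × (ℤ × ℤ) → ℤ × ℤ := fun r => (r.2.1 / (g2 r : ℤ), r.2.2 / (g2 r : ℤ))
  let m1 : (ℤ × ℤ) × (ℤ × ℤ) → ℕ := fun r => max (v1 r).1.natAbs (v1 r).2.natAbs
  let m2 : (ℤ × ℤ) × (ℤ × ℤ) → ℕ := fun r => max (v2 r).1.natAbs (v2 r).2.natAbs
  let f : (ℤ × ℤ) × (ℤ × ℤ) → Bool × (Bool × (Σ _ : ℕ × ℕ, ℤ × ℤ)) := fun r =>
    if m1 r ≤ m2 r then (vs r.2, (true, ⟨(g1 r, g2 r), v1 r⟩))
      else (vs r.1, (false, ⟨(g1 r, g2 r), v2 r⟩))
  have hmap : ∀ r ∈ R, f r ∈ (Finset.univ : Finset Bool) ×ˢ TH Y := by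
    intro r hr
    obtain ⟨p1, q1, r1, s1, t1⟩ := prim_norm r.1.1 r.1.2 (h0 r hr).1
    obtain ⟨p2, q2, r2, s2, t2⟩ := prim_norm r.2.1 r.2.2 (h0 r hr).2
    have w1 : g1 r * m1 r ≤ Y := by
      have := (hY r hr).1
      rw [← t1] at this
      exact this
    have w2 : g2 r * m2 r ≤ Y := by
      have := (hY r hr).2
      rw [← t2] at this
      exact this
    have p1' : 0 < g1 r := p1
    have p2' : 0 < g2 r := p2
    have s1' : 1 ≤ m1 r := s1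
    have s2' : 1 ≤ m2 r := s2
    have y1 : g1 r ≤ Y := le_trans (Nat.le_mul_of_pos_right _ s1') w1
    have y2 : g2 r ≤ Y := le_trans (Nat.le_mul_of_pos_right _ s2') w2
    have key : ∀ m : ℕ, g1 r * m ≤ Y → g2 r * m ≤ Y → m ≤ Y / max (g1 r) (g2 r) := by
      intro m e1 e2
      rw [Nat.le_div_iff_mul_le (lt_of_lt_of_le p1' (le_max_left _ _))]
      rcases le_total (g1 r) (g2 r) with hle | hle
      · rw [max_eq_right hle, mul_comm]; exact e2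
      · rw [max_eq_left hle, mul_comm]; exact e1
    simp only [f]
    split_ifs with hm
    · simp only [TH, Finset.mem_product, Finset.mem_univ, true_and, Finset.mem_sigma,
        Finset.mem_Icc]
      refine ⟨⟨⟨p1', y1⟩, p2', y2⟩, ?_⟩
      have hk := key (m1 r) w1 (le_trans (Nat.mul_le_mul_left _ hm) w2)
      have k1 : (v1 r).1.natAbs ≤ m1 r := le_max_left _ _
      have k2 : (v1 r).2.natAbs ≤ m1 r := le_max_right _ _
      rw [mem_bxZ]
      constructor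
      · have : ((v1 r).1.natAbs : ℤ) ≤ ((Y / max (g1 r) (g2 r) : ℕ) : ℤ) := by
          exact_mod_cast k1.trans hk
        rwa [Int.natCast_natAbs] at this
      · have : ((v1 r).2.natAbs : ℤ) ≤ ((Y / max (g1 r) (g2 r) : ℕ) : ℤ) := by
          exact_mod_cast k2.trans hk
        rwa [Int.natCast_natAbs] at this
    · simp only [TH, Finset.mem_product, Finset.mem_univ, true_and, Finset.mem_sigma,
        Finset.mem_Icc]
      refine ⟨⟨⟨p1', y1⟩, p2', y2⟩, ?_⟩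
      have hk := key (m2 r) (le_trans (Nat.mul_le_mul_left _ (by omega)) w1) w2
      have k1 : (v2 r).1.natAbs ≤ m2 r := le_max_left _ _
      have k2 : (v2 r).2.natAbs ≤ m2 r := le_max_right _ _
      rw [mem_bxZ]
      constructor
      · have : ((v2 r).1.natAbs : ℤ) ≤ ((Y / max (g1 r) (g2 r) : ℕ) : ℤ) := by
          exact_mod_cast k1.trans hk
        rwa [Int.natCast_natAbs] at this
      · have : ((v2 r).2.natAbs : ℤ) ≤ ((Y / max (g1 r) (g2 r) : ℕ) : ℤ) := by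
          exact_mod_cast k2.trans hk
        rwa [Int.natCast_natAbs] at this
  have hinj : Set.InjOn f (R : Set ((ℤ × ℤ) × (ℤ × ℤ))) := by
    intro r hr r' hr' he
    rw [Finset.mem_coe] at hr hr'
    obtain ⟨p1, q1, r1, -, -⟩ := prim_norm r.1.1 r.1.2 (h0 r hr).1
    obtain ⟨p2, q2, r2, -, -⟩ := prim_norm r.2.1 r.2.2 (h0 r hr).2
    obtain ⟨p1', q1', r1', -, -⟩ := prim_norm r'.1.1 r'.1.2 (h0 r' hr').1
    obtain ⟨p2', q2', r2', -, -⟩ := prim_norm r'.2.1 r'.2.2 (h0 r' hr').2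
    simp only [f] at he
    split_ifs at he with c1 c2 c2
    · simp only [Prod.mk.injEq, true_and, Sigma.mk.injEq, heq_eq_eq] at he
      obtain ⟨es, ⟨eg1, eg2⟩, ev⟩ := he
      have e1 : r.1 = r'.1 := by
        have ev1 : r.1.1 / (g1 r : ℤ) = r'.1.1 / (g1 r' : ℤ) := (Prod.ext_iff.1 ev).1
        have ev2 : r.1.2 / (g1 r : ℤ) = r'.1.2 / (g1 r' : ℤ) := (Prod.ext_iff.1 ev).2
        apply Prod.ext
        · rw [← q1, ← q1']
          show (g1 r : ℤ) * (r.1.1 / (g1 r : ℤ)) = (g1 r' : ℤ) * (r'.1.1 / (g1 r' : ℤ))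
          rw [ev1, eg1]
        · rw [← r1, ← r1']
          show (g1 r : ℤ) * (r.1.2 / (g1 r : ℤ)) = (g1 r' : ℤ) * (r'.1.2 / (g1 r' : ℤ))
          rw [ev2, eg1]
      have hp := (hpar r hr r' hr').1 (by rw [e1]; ring)
      exact Prod.ext e1 (par_vs _ _ (h0 r hr).2 hp eg2 es)
    · simp at he
    · simp at he
    · simp only [Prod.mk.injEq, true_and, Sigma.mk.injEq, heq_eq_eq] at he
      obtain ⟨es, ⟨eg1, eg2⟩, ev⟩ := he
      have e1 : r.2 = r'.2 := by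
        have ev1 : r.2.1 / (g2 r : ℤ) = r'.2.1 / (g2 r' : ℤ) := (Prod.ext_iff.1 ev).1
        have ev2 : r.2.2 / (g2 r : ℤ) = r'.2.2 / (g2 r' : ℤ) := (Prod.ext_iff.1 ev).2
        apply Prod.ext
        · rw [← q2, ← q2']
          show (g2 r : ℤ) * (r.2.1 / (g2 r : ℤ)) = (g2 r' : ℤ) * (r'.2.1 / (g2 r' : ℤ))
          rw [ev1, eg2]
        · rw [← r2, ← r2']
          show (g2 r : ℤ) * (r.2.2 / (g2 r : ℤ)) = (g2 r' : ℤ) * (r'.2.2 / (g2 r' : ℤ))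
          rw [ev2, eg2]
      have hp := (hpar r hr r' hr').2 (by rw [e1]; ring)
      exact Prod.ext (par_vs _ _ (h0 r hr).1 hp eg1 es) e1
  have hcard := Finset.card_le_card_of_injOn f hmap hinj
  rw [Finset.card_product] at hcard
  simpa using hcard

theorem card_R' (X K : ℕ) (hX : 1 ≤ X) (hK : 1 ≤ K) (R : Finset ((ℤ × ℤ) × (ℤ × ℤ)))
    (h0 : ∀ r ∈ R, r.1 ≠ (0, 0) ∧ r.2 ≠ (0, 0))
    (hY : ∀ r ∈ R, max r.1.1.natAbs r.1.2.natAbs ≤ K * X ∧ max r.2.1.natAbs r.2.2.natAbs ≤ K * X)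
    (hpar : ∀ r ∈ R, ∀ r' ∈ R, r.1.1 * r'.1.2 = r.1.2 * r'.1.1 ↔ r.2.1 * r'.2.2 = r.2.2 * r'.2.1) :
    (R.card : ℝ) ≤ 72 * (K : ℝ) ^ 2 * (1 + Real.log K) * (X : ℝ) ^ 2 * (1 + Real.log X) := by
  have h1 := card_R (K * X) R h0 hY hpar
  have h2 := card_TH (K * X)
  have h3 : (R.card : ℝ) ≤ 2 * (((TH (K * X)).card : ℕ) : ℝ) := by exact_mod_cast h1
  have h4 := log_scale K X hK hX
  calc (R.card : ℝ) ≤ 2 * (36 * ((K * X : ℕ) : ℝ) ^ 2 * (1 + Real.log ((K * X : ℕ) : ℝ))) := by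
        linarith
    _ ≤ 2 * (36 * ((K * X : ℕ) : ℝ) ^ 2 * ((1 + Real.log K) * (1 + Real.log X))) := by
        apply mul_le_mul_of_nonneg_left _ (by norm_num)
        exact mul_le_mul_of_nonneg_left h4 (by positivity)
    _ = 72 * (K : ℝ) ^ 2 * (1 + Real.log K) * (X : ℝ) ^ 2 * (1 + Real.log X) := by
        push_cast; ring

end Pool.Agent.MP_21c19e_al.Conf
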