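import Pool.Agent.Lib.MP_21c19e_al.GrowU1

set_option autoImplicit false

/-!
MP_21c19e_al, uniform growth gap: sets of elements of bounded height in a coset.
-/

namespace Pool.Agent.MP_21c19e_al.Conf

open Matrix

/-- The elements of height at most `X`. -/
def BX (X : ℕ) : Set G :=
  {g | ∃ n : ℕ, 1 ≤ n ∧ n ≤ X ∧ ∀ i j : Fin 2, ∃ a : ℤ, |a| ≤ (X : ℤ) ∧ (n : ℚ) * g.1 i j = a}

/-- Common denominators and numerators. -/
structure Dat (X : ℕ) (S : Finset G) (n : G → ℕ) (a : G → Fin 2 → Fin 2 → ℤ) : Prop where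
  one : ∀ g ∈ S, 1 ≤ n g
  le : ∀ g ∈ S, n g ≤ X
  abs : ∀ g ∈ S, ∀ i j, |a g i j| ≤ (X : ℤ)
  eq : ∀ g ∈ S, ∀ i j, (n g : ℚ) * g.1 i j = a g i j

theorem BX_data (X : ℕ) : ∃ n : G → ℕ, ∃ a : G → Fin 2 → Fin 2 → ℤ,
    ∀ g ∈ BX X, (1 ≤ n g ∧ n g ≤ X ∧ (∀ i j, |a g i j| ≤ (X : ℤ)) ∧
      ∀ i j, (n g : ℚ) * g.1 i j = a g i j) := by
  have h : ∀ g : G, ∃ n : ℕ, ∃ a : Fin 2 → Fin 2 → ℤ, g ∈ BX X → (1 ≤ n ∧ n ≤ X ∧
      (∀ i j, |a i j| ≤ (X : ℤ)) ∧ ∀ i j, (n : ℚ) * g.1 i j = a i j) := by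
    intro g
    by_cases hh : g ∈ BX X
    · obtain ⟨n, h1, h2, h3⟩ := hh
      choose a ha hb using h3
      exact ⟨n, a, fun _ => ⟨h1, h2, ha, hb⟩⟩
    · exact ⟨0, fun _ _ => 0, fun h => absurd h hh⟩
  choose n a hna using h
  exact ⟨n, a, hna⟩

theorem eq_of_same (g g' : G) (n : G → ℕ) (a : G → Fin 2 → Fin 2 → ℤ) (hn : 1 ≤ n g)
    (ha : ∀ i j, (n g : ℚ) * g.1 i j = a g i j) (ha' : ∀ i j, (n g' : ℚ) * g'.1 i j = a g' i j)
    (hnn : n g = n g') (haa : ∀ i j, a g i j = a g' i j) : g = g' := by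
  have hnq : (n g : ℚ) ≠ 0 := by exact_mod_cast (by omega : n g ≠ 0)
  have key : ∀ i j, g.1 i j = g'.1 i j := by
    intro i j
    apply mul_left_cancel₀ hnq
    rw [ha, haa, ← ha', hnn]
  exact ext4 (key 0 0) (key 0 1) (key 1 0) (key 1 1)

theorem BX_finite (X : ℕ) : (BX X).Finite := by
  obtain ⟨n, a, hna⟩ := BX_data X
  let f : G → ℕ × ((ℤ × ℤ) × (ℤ × ℤ)) := fun g =>
    (n g, ((a g 0 0, a g 0 1), (a g 1 0, a g 1 1)))
  refine Set.Finite.of_injOn (f := f)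
    (t := ((Finset.Icc 1 X ×ˢ (bxZ X ×ˢ bxZ X) : Finset (ℕ × ((ℤ × ℤ) × (ℤ × ℤ)))) :
      Set (ℕ × ((ℤ × ℤ) × (ℤ × ℤ))))) ?_ ?_ (Finset.finite_toSet _)
  · intro g hg
    obtain ⟨h1, h2, h3, h4⟩ := hna g hg
    simp only [f, Finset.mem_coe, Finset.mem_product, Finset.mem_Icc, mem_bxZ]
    exact ⟨⟨h1, h2⟩, ⟨h3 0 0, h3 0 1⟩, ⟨h3 1 0, h3 1 1⟩⟩
  · intro g hg g' hg' he
    simp only [f, Prod.mk.injEq] at he
    obtain ⟨e0, ⟨e1, e2⟩, e3, e4⟩ := he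
    obtain ⟨h1, h2, h3, h4⟩ := hna g hg
    obtain ⟨h1', h2', h3', h4'⟩ := hna g' hg'
    apply eq_of_same g g' n a h1 h4 h4' e0
    intro i j
    fin_cases i <;> fin_cases j
    · exact e1
    · exact e2
    · exact e3
    · exact e4

theorem cross_inv (g g' : G) :
    (g⁻¹ * g').1 1 0 = g.1 0 0 * g'.1 1 0 - g.1 1 0 * g'.1 0 0 := by
  rw [mul10, inv10, inv11]; ring

theorem cross_e (g g' : G) (z : ℚ) :
    ((g⁻¹ * g').1 1 0 * z + (g⁻¹ * g').1 1 1) * z - ((g⁻¹ * g').1 0 0 * z + (g⁻¹ * g').1 0 1) =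
      (g.1 0 0 * z + g.1 0 1) * (g'.1 1 0 * z + g'.1 1 1) -
        (g.1 1 0 * z + g.1 1 1) * (g'.1 0 0 * z + g'.1 0 1) := by
  have h1 := mul00 g⁻¹ g'
  have h2 := mul01 g⁻¹ g'
  have h3 := mul10 g⁻¹ g'
  have h4 := mul11 g⁻¹ g'
  rw [inv00, inv01] at h1 h2
  rw [inv10, inv11] at h3 h4
  have hd := det4 g
  rw [h1, h2, h3, h4]
  ring

section

variable {X : ℕ} {S : Finset G} {n : G → ℕ} {a : G → Fin 2 → Fin 2 → ℤ}

theorem Dat.det (D : Dat X S n a) {g : G} (hg : g ∈ S) :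
    a g 0 0 * a g 1 1 - a g 0 1 * a g 1 0 = (n g : ℤ) ^ 2 :=
  det_data g (n g) (a g) (D.eq g hg)

theorem Dat.nq (D : Dat X S n a) {g : G} (hg : g ∈ S) : (0 : ℚ) < n g := by
  have := D.one g hg
  exact_mod_cast (by omega : 0 < n g)

theorem Dat.V_ne (D : Dat X S n a) {g : G} (hg : g ∈ S) : (a g 0 0, a g 1 0) ≠ (0, 0) := by
  intro h0
  rw [Prod.mk.injEq] at h0
  have e1 := D.det hg
  rw [h0.1, h0.2] at e1
  have h1 := D.one g hg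
  have : (0 : ℤ) < (n g : ℤ) ^ 2 := by positivity
  rw [← e1] at this
  simp at this

theorem Dat.natAbs (D : Dat X S n a) {g : G} (hg : g ∈ S) (i j : Fin 2) :
    (a g i j).natAbs ≤ X := by
  have := D.abs g hg i j
  rw [Int.abs_eq_natAbs] at this
  exact_mod_cast this

/-- Parallel first columns. -/
theorem Dat.cross (D : Dat X S n a) {g g' : G} (hg : g ∈ S) (hg' : g' ∈ S) :
    ((a g 0 0 * a g' 1 0 - a g 1 0 * a g' 0 0 : ℤ) : ℚ) =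
      (n g : ℚ) * n g' * (g⁻¹ * g').1 1 0 := by
  rw [cross_inv]
  push_cast
  rw [← D.eq g hg 0 0, ← D.eq g hg 1 0, ← D.eq g' hg' 0 0, ← D.eq g' hg' 1 0]
  ring

/-- Equal first columns. -/
theorem Dat.sameV (D : Dat X S n a) {g g' : G} (hg : g ∈ S) (hg' : g' ∈ S)
    (h0 : a g 0 0 = a g' 0 0) (h1 : a g 1 0 = a g' 1 0) :
    (g⁻¹ * g').1 1 0 = 0 ∧ (n g : ℚ) = n g' * (g⁻¹ * g').1 0 0 := by
  have hc := D.cross hg hg'
  rw [h0, h1] at hc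
  have hz : (n g : ℚ) * n g' * (g⁻¹ * g').1 1 0 = 0 := by
    rw [← hc]; push_cast; ring
  have hng := D.nq hg
  have hng' := D.nq hg'
  have s10 : (g⁻¹ * g').1 1 0 = 0 := by
    rcases mul_eq_zero.1 hz with h | h
    · exfalso
      have : (0 : ℚ) < (n g : ℚ) * n g' := by positivity
      rw [h] at this
      exact lt_irrefl _ this
    · exact h
  refine ⟨s10, ?_⟩
  have e00 := D.eq g hg 0 0
  have e10 := D.eq g hg 1 0
  have e00' := D.eq g' hg' 0 0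
  have e10' := D.eq g' hg' 1 0
  rw [h0] at e00
  rw [h1] at e10
  have hs : (g⁻¹ * g').1 0 0 = g.1 1 1 * g'.1 0 0 - g.1 0 1 * g'.1 1 0 := by
    rw [mul00, inv00, inv01]; ring
  have hd := det4 g
  rw [hs]
  have k0 : (n g : ℚ) * g.1 0 0 = n g' * g'.1 0 0 := by rw [e00, e00']
  have k1 : (n g : ℚ) * g.1 1 0 = n g' * g'.1 1 0 := by rw [e10, e10']
  linear_combination (-(n g : ℚ)) * hd + g.1 1 1 * k0 - g.1 0 1 * k1

end

end Pool.Agent.MP_21c19e_al.Conf
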