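import Pool.Agent.Lib.MP_21c19e_al.GrowU2

set_option autoImplicit false

/-!
MP_21c19e_al, uniform growth gap: the count when the stabiliser of infinity has eigenvalues `±1`.
-/

namespace Pool.Agent.MP_21c19e_al.Conf

open Matrix

/-- An integer vector parallel to a primitive one is an integer multiple of it. -/
theorem exists_mul (v W : ℤ × ℤ) (hv : Int.gcd v.1 v.2 = 1) (hp : v.1 * W.2 = v.2 * W.1) :
    ∃ t : ℤ, W.1 = t * v.1 ∧ W.2 = t * v.2 := by
  have hc : IsCoprime v.1 v.2 := Int.isCoprime_iff_gcd_eq_one.2 hv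
  obtain ⟨u, w, huw⟩ := hc
  refine ⟨u * W.1 + w * W.2, ?_, ?_⟩
  · linear_combination (-W.1) * huw - w * hp
  · linear_combination (-W.2) * huw + u * hp

theorem gcd_prim (x y : ℤ) (h : (x, y) ≠ (0, 0)) :
    Int.gcd (x / (Int.gcd x y : ℤ)) (y / (Int.gcd x y : ℤ)) = 1 := by
  apply Int.gcd_ediv_gcd_ediv_gcd
  apply Nat.pos_of_ne_zero
  intro h0
  rw [Int.gcd_eq_zero_iff] at h0
  exact h (by rw [h0.1, h0.2])

/-- Moving an integer away from zero. -/
def aw (t : ℤ) : ℤ := if 0 ≤ t then t + 1 else t - 1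

theorem aw_ne (t : ℤ) : aw t ≠ 0 := by unfold aw; split_ifs <;> omega

theorem aw_abs (t : ℤ) : (aw t).natAbs = t.natAbs + 1 := by unfold aw; split_ifs <;> omega

theorem aw_inj {s t : ℤ} (h : aw s = aw t) : s = t := by
  unfold aw at h
  split_ifs at h <;> omega

theorem par_count (H : Subgroup G)
    (h1 : ∀ s ∈ H, s.1 1 0 = 0 → s.1 0 0 = s.1 1 1 ∧ (s.1 0 0 = 1 ∨ s.1 0 0 = -1))
    (X : ℕ) (hX : 1 ≤ X) (S : Finset G) (n : G → ℕ) (a : G → Fin 2 → Fin 2 → ℤ)
    (D : Dat X S n a) (hS : ∀ g ∈ S, ∀ g' ∈ S, g⁻¹ * g' ∈ H) :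
    (S.card : ℝ) ≤ 72 * ((3 : ℕ) : ℝ) ^ 2 * (1 + Real.log ((3 : ℕ) : ℝ)) * (X : ℝ) ^ 2 *
      (1 + Real.log X) := by
  classical
  -- equal first columns
  have hV : ∀ g ∈ S, ∀ g' ∈ S, a g 0 0 = a g' 0 0 → a g 1 0 = a g' 1 0 →
      n g = n g' ∧ ∃ x : ℚ, (a g' 0 1 : ℚ) - a g 0 1 = x * a g 0 0 ∧
        (a g' 1 1 : ℚ) - a g 1 1 = x * a g 1 0 := by
    intro g hg g' hg' e0 e1
    obtain ⟨s10, hn⟩ := D.sameV hg hg' e0 e1
    obtain ⟨hs, hs1⟩ := h1 _ (hS g hg g' hg') s10
    have p1 := D.nq hg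
    have p2 := D.nq hg'
    have hs1' : (g⁻¹ * g').1 0 0 = 1 := by
      rcases hs1 with h | h
      · exact h
      · exfalso; rw [h] at hn; linarith
    rw [hs1', mul_one] at hn
    have hnn : n g = n g' := by exact_mod_cast hn
    refine ⟨hnn, (g⁻¹ * g').1 0 1, ?_, ?_⟩
    · have hgg : g' = g * (g⁻¹ * g') := by group
      have e : g'.1 0 1 = g.1 0 0 * (g⁻¹ * g').1 0 1 + g.1 0 1 * (g⁻¹ * g').1 1 1 := by
        conv_lhs => rw [hgg]
        rw [mul01]
      rw [← hs, hs1'] at e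
      rw [← D.eq g' hg' 0 1, ← D.eq g hg 0 1, ← D.eq g hg 0 0, ← hnn, e]
      ring
    · have hgg : g' = g * (g⁻¹ * g') := by group
      have e : g'.1 1 1 = g.1 1 0 * (g⁻¹ * g').1 0 1 + g.1 1 1 * (g⁻¹ * g').1 1 1 := by
        conv_lhs => rw [hgg]
        rw [mul11]
      rw [← hs, hs1'] at e
      rw [← D.eq g' hg' 1 1, ← D.eq g hg 1 1, ← D.eq g hg 1 0, ← hnn, e]
      ring
  -- base points
  have hb : ∀ v : ℤ × ℤ, ∃ b : G, ∀ g ∈ S, (a g 0 0, a g 1 0) = v →
      b ∈ S ∧ a b 0 0 = v.1 ∧ a b 1 0 = v.2 := by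
    intro v
    by_cases hex : ∃ g ∈ S, (a g 0 0, a g 1 0) = v
    · obtain ⟨b, hb, hv⟩ := hex
      exact ⟨b, fun _ _ _ => ⟨hb, by rw [← hv], by rw [← hv]⟩⟩
    · push Not at hex
      exact ⟨1, fun g hg hv => absurd hv (hex g hg)⟩
  choose b hb using hb
  let V : G → ℤ × ℤ := fun g => (a g 0 0, a g 1 0)
  let gv : G → ℕ := fun g => Int.gcd (a g 0 0) (a g 1 0)
  let v : G → ℤ × ℤ := fun g => (a g 0 0 / (gv g : ℤ), a g 1 0 / (gv g : ℤ))
  have hbase : ∀ g ∈ S, b (V g) ∈ S ∧ a g 0 0 = a (b (V g)) 0 0 ∧ a g 1 0 = a (b (V g)) 1 0 := by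
    intro g hg
    obtain ⟨c1, c2, c3⟩ := hb (V g) g hg rfl
    exact ⟨c1, c2.symm, c3.symm⟩
  have hprim : ∀ g ∈ S, 0 < gv g ∧ (gv g : ℤ) * (v g).1 = a g 0 0 ∧
      (gv g : ℤ) * (v g).2 = a g 1 0 ∧ Int.gcd (v g).1 (v g).2 = 1 ∧
      1 ≤ max (v g).1.natAbs (v g).2.natAbs ∧
      gv g * max (v g).1.natAbs (v g).2.natAbs = max (a g 0 0).natAbs (a g 1 0).natAbs := by
    intro g hg
    obtain ⟨p1, q1, r1, s1, t1⟩ := prim_norm (a g 0 0) (a g 1 0) (D.V_ne hg)
    exact ⟨p1, q1, r1, gcd_prim _ _ (D.V_ne hg), s1, t1⟩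
  have hexT : ∀ g : G, ∃ t : ℤ, g ∈ S → a g 0 1 - a (b (V g)) 0 1 = t * (v g).1 ∧
      a g 1 1 - a (b (V g)) 1 1 = t * (v g).2 := by
    intro g
    by_cases hg : g ∈ S
    · obtain ⟨c1, c2, c3⟩ := hbase g hg
      obtain ⟨p1, q1, r1, s1, t1, u1⟩ := hprim g hg
      obtain ⟨hnn, x, hx1, hx2⟩ := hV _ c1 g hg c2.symm c3.symm
      have hpar : (v g).1 * (a g 1 1 - a (b (V g)) 1 1) = (v g).2 * (a g 0 1 - a (b (V g)) 0 1) := by
        have hgq : (gv g : ℚ) ≠ 0 := by exact_mod_cast p1.ne'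
        have q1q : (gv g : ℚ) * (v g).1 = a g 0 0 := by exact_mod_cast q1
        have r1q : (gv g : ℚ) * (v g).2 = a g 1 0 := by exact_mod_cast r1
        rw [← c2] at hx1
        rw [← c3] at hx2
        have : ((v g).1 : ℚ) * (a g 1 1 - a (b (V g)) 1 1) =
            (v g).2 * (a g 0 1 - a (b (V g)) 0 1) := by
          apply mul_left_cancel₀ hgq
          rw [hx1, hx2, ← q1q, ← r1q]
          ring
        exact_mod_cast this
      obtain ⟨t, ht1, ht2⟩ := exists_mul (v g)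
        (a g 0 1 - a (b (V g)) 0 1, a g 1 1 - a (b (V g)) 1 1) s1 hpar
      exact ⟨t, fun _ => ⟨ht1, ht2⟩⟩
    · exact ⟨0, fun h => absurd h hg⟩
  choose t ht using hexT
  let f : G → (ℤ × ℤ) × (ℤ × ℤ) := fun g => (V g, (aw (t g) * (v g).1, aw (t g) * (v g).2))
  have hinj : Set.InjOn f (S : Set G) := by
    intro g hg g' hg' he
    rw [Finset.mem_coe] at hg hg'
    simp only [f, Prod.mk.injEq] at he
    obtain ⟨eV, e1, e2⟩ := he
    have eV0 : a g 0 0 = a g' 0 0 := (Prod.ext_iff.1 eV).1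
    have eV1 : a g 1 0 = a g' 1 0 := (Prod.ext_iff.1 eV).2
    have ev : v g = v g' := by simp only [v, gv, eV0, eV1]
    obtain ⟨p1, q1, r1, s1, t1, u1⟩ := hprim g hg
    have et : t g = t g' := by
      rw [← ev] at e1 e2
      apply aw_inj
      by_cases hv : (v g).1 = 0
      · have hv2 : (v g).2 ≠ 0 := by
          intro h
          rw [hv, h] at s1
          simp at s1
        exact mul_right_cancel₀ hv2 e2
      · exact mul_right_cancel₀ hv e1
    obtain ⟨f1, f2⟩ := ht g hg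
    obtain ⟨f1', f2'⟩ := ht g' hg'
    rw [← eV, ← ev, ← et] at f1' f2'
    have hnn := (hV g hg g' hg' eV0 eV1).1
    apply eq_of_same g g' n a (D.one g hg) (D.eq g hg) (D.eq g' hg') hnn
    intro i j
    fin_cases i <;> fin_cases j
    · exact eV0
    · show a g 0 1 = a g' 0 1
      linarith
    · exact eV1
    · show a g 1 1 = a g' 1 1
      linarith
  have hR := card_R' X 3 hX (by norm_num) (S.image f)
    (by
      intro r hr
      rw [Finset.mem_image] at hr
      obtain ⟨g, hg, rfl⟩ := hr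
      refine ⟨D.V_ne hg, ?_⟩
      obtain ⟨p1, q1, r1, s1, t1, u1⟩ := hprim g hg
      intro h0
      rw [Prod.mk.injEq] at h0
      have hv1 : (v g).1 = 0 := (mul_eq_zero.1 h0.1).resolve_left (aw_ne _)
      have hv2 : (v g).2 = 0 := (mul_eq_zero.1 h0.2).resolve_left (aw_ne _)
      rw [hv1, hv2] at s1
      simp at s1)
    (by
      intro r hr
      rw [Finset.mem_image] at hr
      obtain ⟨g, hg, rfl⟩ := hr
      obtain ⟨p1, q1, r1, s1, t1, u1⟩ := hprim g hg
      obtain ⟨c1, c2, c3⟩ := hbase g hg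
      obtain ⟨f1, f2⟩ := ht g hg
      have a00 := D.natAbs hg 0 0
      have a10 := D.natAbs hg 1 0
      have a01 := D.natAbs hg 0 1
      have a11 := D.natAbs hg 1 1
      have b01 := D.natAbs c1 0 1
      have b11 := D.natAbs c1 1 1
      constructor
      · show max (a g 0 0).natAbs (a g 1 0).natAbs ≤ 3 * X
        omega
      · show max (aw (t g) * (v g).1).natAbs (aw (t g) * (v g).2).natAbs ≤ 3 * X
        have k1 : (v g).1.natAbs ≤ X := by
          have h3 : (v g).1.natAbs ≤ max (v g).1.natAbs (v g).2.natAbs := le_max_left _ _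
          have h4 : max (v g).1.natAbs (v g).2.natAbs ≤
              gv g * max (v g).1.natAbs (v g).2.natAbs := Nat.le_mul_of_pos_left _ p1
          rw [u1] at h4
          omega
        have k2 : (v g).2.natAbs ≤ X := by
          have h3 : (v g).2.natAbs ≤ max (v g).1.natAbs (v g).2.natAbs := le_max_right _ _
          have h4 : max (v g).1.natAbs (v g).2.natAbs ≤
              gv g * max (v g).1.natAbs (v g).2.natAbs := Nat.le_mul_of_pos_left _ p1
          rw [u1] at h4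
          omega
        have l1 : (t g).natAbs * (v g).1.natAbs ≤ 2 * X := by
          rw [← Int.natAbs_mul, ← f1]
          omega
        have l2 : (t g).natAbs * (v g).2.natAbs ≤ 2 * X := by
          rw [← Int.natAbs_mul, ← f2]
          omega
        rw [Int.natAbs_mul, Int.natAbs_mul, aw_abs]
        apply max_le
        · rw [add_mul, one_mul]; omega
        · rw [add_mul, one_mul]; omega)
    (by
      intro r hr r' hr'
      rw [Finset.mem_image] at hr hr'
      obtain ⟨g, hg, rfl⟩ := hr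
      obtain ⟨g', hg', rfl⟩ := hr'
      obtain ⟨p1, q1, r1, s1, t1, u1⟩ := hprim g hg
      obtain ⟨p1', q1', r1', s1', t1', u1'⟩ := hprim g' hg'
      show a g 0 0 * a g' 1 0 = a g 1 0 * a g' 0 0 ↔
        aw (t g) * (v g).1 * (aw (t g') * (v g').2) = aw (t g) * (v g).2 * (aw (t g') * (v g').1)
      have z1 : (gv g : ℤ) * gv g' ≠ 0 := by
        apply mul_ne_zero
        · exact_mod_cast p1.ne'
        · exact_mod_cast p1'.ne'
      have z2 : aw (t g) * aw (t g') ≠ 0 := mul_ne_zero (aw_ne _) (aw_ne _)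
      rw [← q1, ← r1, ← q1', ← r1']
      constructor
      · intro h
        have : (v g).1 * (v g').2 = (v g).2 * (v g').1 := by
          apply mul_left_cancel₀ z1
          linear_combination h
        linear_combination (aw (t g) * aw (t g')) * this
      · intro h
        have : (v g).1 * (v g').2 = (v g).2 * (v g').1 := by
          apply mul_left_cancel₀ z2
          linear_combination h
        linear_combination ((gv g : ℤ) * gv g') * this)
  rw [Finset.card_image_of_injOn hinj] at hR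
  exact hR

end Pool.Agent.MP_21c19e_al.Conf
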