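import Pool.Agent.Lib.MP_21c19e_al.GrowU3

set_option autoImplicit false

/-!
MP_21c19e_al, uniform growth gap: the count when the stabiliser of infinity is contained in a torus.
-/

namespace Pool.Agent.MP_21c19e_al.Conf

open Matrix

/-- The data of an off-diagonal pair. -/
theorem tor_pair (H : Subgroup G) (z0 : ℚ)
    (h1 : ∀ s ∈ H, s.1 1 0 = 0 → s.1 0 0 * z0 + s.1 0 1 = s.1 1 1 * z0)
    {X : ℕ} {S : Finset G} {n : G → ℕ} {a : G → Fin 2 → Fin 2 → ℤ}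
    (D : Dat X S n a) (hS : ∀ g ∈ S, ∀ g' ∈ S, g⁻¹ * g' ∈ H)
    {g g' : G} (hg : g ∈ S) (hg' : g' ∈ S) (e0 : a g 0 0 = a g' 0 0) (e1 : a g 1 0 = a g' 1 0) :
    (a g 0 0 * (a g 1 1 - a g' 1 1) - a g 1 0 * (a g 0 1 - a g' 0 1) =
      (n g : ℤ) ^ 2 - (n g' : ℤ) ^ 2) ∧ (n g = n g' → g = g') ∧
    ∃ κ : ℚ, (a g 0 1 : ℚ) - a g' 0 1 = κ * (g.1 0 0 * z0 + g.1 0 1) ∧
      (a g 1 1 : ℚ) - a g' 1 1 = κ * (g.1 1 0 * z0 + g.1 1 1) := by
  obtain ⟨s10, hn⟩ := D.sameV hg hg' e0 e1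
  have hfx := h1 _ (hS g hg g' hg') s10
  have hds := det4 (g⁻¹ * g')
  rw [s10, mul_zero, sub_zero] at hds
  have p1 := D.nq hg
  have p2 := D.nq hg'
  refine ⟨?_, ?_, (n g' : ℚ) * ((g⁻¹ * g').1 0 0 - (g⁻¹ * g').1 1 1), ?_, ?_⟩
  · have d1 := D.det hg
    have d2 := D.det hg'
    rw [← e0, ← e1] at d2
    linear_combination d1 - d2
  · intro hnn
    rw [hnn] at hn
    have s00 : (g⁻¹ * g').1 0 0 = 1 := by
      apply mul_left_cancel₀ p2.ne'
      rw [← hn, mul_one]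
    rw [s00, one_mul] at hds
    have s01 : (g⁻¹ * g').1 0 1 = 0 := by
      rw [s00, hds] at hfx
      linarith
    have hs1 : g⁻¹ * g' = 1 := by
      apply ext4
      · rw [s00]; simp
      · rw [s01]; simp
      · rw [s10]; simp
      · rw [hds]; simp
    exact (inv_mul_eq_one.1 hs1)
  · have hgg : g' = g * (g⁻¹ * g') := by group
    have e : g'.1 0 1 = g.1 0 0 * (g⁻¹ * g').1 0 1 + g.1 0 1 * (g⁻¹ * g').1 1 1 := by
      conv_lhs => rw [hgg]
      rw [mul01]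
    rw [← D.eq g hg 0 1, ← D.eq g' hg' 0 1, e]
    linear_combination (g.1 0 1) * hn - (n g' * g.1 0 0 : ℚ) * hfx
  · have hgg : g' = g * (g⁻¹ * g') := by group
    have e : g'.1 1 1 = g.1 1 0 * (g⁻¹ * g').1 0 1 + g.1 1 1 * (g⁻¹ * g').1 1 1 := by
      conv_lhs => rw [hgg]
      rw [mul11]
    rw [← D.eq g hg 1 1, ← D.eq g' hg' 1 1, e]
    linear_combination (g.1 1 1) * hn - (n g' * g.1 1 0 : ℚ) * hfx

theorem tor_count (H : Subgroup G) (z0 : ℚ)
    (h1 : ∀ s ∈ H, s.1 1 0 = 0 → s.1 0 0 * z0 + s.1 0 1 = s.1 1 1 * z0)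
    (h2 : ∀ s ∈ H, s.1 0 0 * z0 + s.1 0 1 = (s.1 1 0 * z0 + s.1 1 1) * z0 → s.1 1 0 = 0)
    (X : ℕ) (hX : 1 ≤ X) (S : Finset G) (n : G → ℕ) (a : G → Fin 2 → Fin 2 → ℤ)
    (D : Dat X S n a) (hS : ∀ g ∈ S, ∀ g' ∈ S, g⁻¹ * g' ∈ H)
    (M : ℕ) (hM : ∀ m : ℕ, 1 ≤ m → m ≤ X ^ 2 → m.divisors.card ≤ M) :
    (S.card : ℝ) ^ 2 ≤ 9 * (X : ℝ) ^ 2 * (S.card + M * (72 * ((2 : ℕ) : ℝ) ^ 2 *
      (1 + Real.log ((2 : ℕ) : ℝ)) * (X : ℝ) ^ 2 * (1 + Real.log X))) := by
  classical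
  let V : G → ℤ × ℤ := fun g => (a g 0 0, a g 1 0)
  -- the pairs with equal first columns
  let Q : Finset (G × G) := (S ×ˢ S).filter (fun p => V p.1 = V p.2)
  let Qo : Finset (G × G) := (S ×ˢ S).filter (fun p => V p.1 = V p.2 ∧ p.1 ≠ p.2)
  -- Cauchy–Schwarz
  have hCS : S.card ^ 2 ≤ (2 * X + 1) ^ 2 * Q.card := by
    have hmap : ∀ g ∈ S, V g ∈ bxZ X := by
      intro g hg
      rw [mem_bxZ]
      exact ⟨D.abs g hg 0 0, D.abs g hg 1 0⟩
    have e1 : S.card = ∑ v ∈ bxZ X, (S.filter (fun g => V g = v)).card :=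
      Finset.card_eq_sum_card_fiberwise hmap
    have e2 : Q.card = ∑ v ∈ bxZ X, (S.filter (fun g => V g = v)).card ^ 2 := by
      have hmap2 : ∀ p ∈ Q, V p.1 ∈ bxZ X := by
        intro p hp
        simp only [Q, Finset.mem_filter, Finset.mem_product] at hp
        exact hmap _ hp.1.1
      rw [Finset.card_eq_sum_card_fiberwise (f := fun p : G × G => V p.1) (s := Q) (t := bxZ X)
        hmap2]
      apply Finset.sum_congr rfl
      intro v _
      rw [sq, ← Finset.card_product]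
      congr 1
      ext p
      simp only [Q, Finset.mem_filter, Finset.mem_product]
      constructor
      · rintro ⟨⟨⟨q1, q2⟩, q3⟩, q4⟩
        exact ⟨⟨q1, q4⟩, q2, by rw [← q3, q4]⟩
      · rintro ⟨⟨q1, q2⟩, q3, q4⟩
        exact ⟨⟨⟨q1, q3⟩, by rw [q2, q4]⟩, q2⟩
    rw [e1, e2, ← card_bxZ]
    exact sq_sum_le_card_mul_sum_sq
  -- off-diagonal pairs
  have hQ : Q.card ≤ S.card + Qo.card := by
    have hsub : Q ⊆ (S.image (fun g => (g, g))) ∪ Qo := by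
      intro p hp
      simp only [Q, Finset.mem_filter, Finset.mem_product] at hp
      rw [Finset.mem_union]
      by_cases h : p.1 = p.2
      · left
        rw [Finset.mem_image]
        exact ⟨p.1, hp.1.1, Prod.ext rfl h⟩
      · right
        simp only [Qo, Finset.mem_filter, Finset.mem_product]
        exact ⟨hp.1, hp.2, h⟩
    calc Q.card ≤ ((S.image (fun g => (g, g))) ∪ Qo).card := Finset.card_le_card hsub
      _ ≤ (S.image (fun g => (g, g))).card + Qo.card := Finset.card_union_le _ _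
      _ ≤ S.card + Qo.card := Nat.add_le_add_right Finset.card_image_le _
  let rr : G × G → (ℤ × ℤ) × (ℤ × ℤ) := fun p =>
    (V p.1, (a p.1 0 1 - a p.2 0 1, a p.1 1 1 - a p.2 1 1))
  let dt : (ℤ × ℤ) × (ℤ × ℤ) → ℤ := fun r => r.1.1 * r.2.2 - r.1.2 * r.2.1
  let R : Finset ((ℤ × ℤ) × (ℤ × ℤ)) := Qo.image rr
  have hQo : ∀ p ∈ Qo, p.1 ∈ S ∧ p.2 ∈ S ∧ a p.1 0 0 = a p.2 0 0 ∧ a p.1 1 0 = a p.2 1 0 ∧
      p.1 ≠ p.2 := by
    intro p hp
    simp only [Qo, Finset.mem_filter, Finset.mem_product] at hp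
    exact ⟨hp.1.1, hp.1.2, (Prod.ext_iff.1 hp.2.1).1, (Prod.ext_iff.1 hp.2.1).2, hp.2.2⟩
  have hdt : ∀ p ∈ Qo, dt (rr p) = (n p.1 : ℤ) ^ 2 - (n p.2 : ℤ) ^ 2 ∧ n p.1 ≠ n p.2 := by
    intro p hp
    obtain ⟨c1, c2, c3, c4, c5⟩ := hQo p hp
    obtain ⟨d1, d2, -⟩ := tor_pair H z0 h1 D hS c1 c2 c3 c4
    exact ⟨d1, fun h => c5 (d2 h)⟩
  have hdt0 : ∀ p ∈ Qo, dt (rr p) ≠ 0 := by
    intro p hp h0
    obtain ⟨d1, d2⟩ := hdt p hp
    obtain ⟨c1, c2, c3, c4, c5⟩ := hQo p hp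
    rw [h0] at d1
    apply d2
    have h3 : ((n p.1 : ℤ)) ^ 2 = (n p.2 : ℤ) ^ 2 := by linarith
    have h4 := (sq_eq_sq₀ (by positivity) (by positivity)).1 h3
    exact_mod_cast h4
  -- counting the pairs above a point of `R`
  have hcount : Qo.card ≤ R.card * M := by
    let F : G × G → Σ _ : (ℤ × ℤ) × (ℤ × ℤ), ℕ := fun p => ⟨rr p, n p.1 + n p.2⟩
    have hmapF : ∀ p ∈ Qo, F p ∈ R.sigma (fun r => (dt r).natAbs.divisors) := by
      intro p hp
      obtain ⟨d1, d2⟩ := hdt p hp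
      have d0 := hdt0 p hp
      simp only [F, Finset.mem_sigma, R]
      refine ⟨Finset.mem_image_of_mem _ hp, ?_⟩
      rw [Nat.mem_divisors]
      refine ⟨?_, ?_⟩
      · rw [← Int.natCast_dvd]
        rw [d1]
        refine ⟨(n p.1 : ℤ) - n p.2, ?_⟩
        push_cast
        ring
      · rw [Ne, Int.natAbs_eq_zero]; exact d0
    have hinjF : Set.InjOn F (Qo : Set (G × G)) := by
      intro p hp q hq he
      rw [Finset.mem_coe] at hp hq
      obtain ⟨c1, c2, c3, c4, c5⟩ := hQo p hp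
      obtain ⟨c1', c2', c3', c4', c5'⟩ := hQo q hq
      obtain ⟨d1, d2⟩ := hdt p hp
      obtain ⟨d1', d2'⟩ := hdt q hq
      simp only [F, Sigma.mk.injEq, heq_eq_eq] at he
      obtain ⟨er, en⟩ := he
      rw [er, d1'] at d1
      have hen : (n p.1 : ℤ) + n p.2 = n q.1 + n q.2 := by exact_mod_cast en
      have hpos : (0 : ℤ) < n q.1 + n q.2 := by
        have := D.one q.1 c1'
        omega
      have hdiff : (n q.1 : ℤ) - n q.2 = n p.1 - n p.2 := by
        apply mul_left_cancel₀ hpos.ne'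
        have : ((n q.1 : ℤ) + n q.2) * (n p.1 - n p.2) =
            ((n p.1 : ℤ) + n p.2) * (n p.1 - n p.2) := by rw [hen]
        rw [this]
        linear_combination d1
      have en1 : n p.1 = n q.1 := by omega
      have en2 : n p.2 = n q.2 := by omega
      have eV : V p.1 = V q.1 := (Prod.ext_iff.1 er).1
      have eV0 : a p.1 0 0 = a q.1 0 0 := (Prod.ext_iff.1 eV).1
      have eV1 : a p.1 1 0 = a q.1 1 0 := (Prod.ext_iff.1 eV).2
      have f1 := (tor_pair H z0 h1 D hS c1 c1' eV0 eV1).2.1 en1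
      have f2 := (tor_pair H z0 h1 D hS c2 c2' (by rw [← c3, eV0, c3']) (by rw [← c4, eV1, c4'])).2.1
        en2
      exact Prod.ext f1 f2
    have hc := Finset.card_le_card_of_injOn F hmapF hinjF
    rw [Finset.card_sigma] at hc
    refine hc.trans ?_
    rw [← smul_eq_mul]
    apply Finset.sum_le_card_nsmul
    intro r hr
    simp only [R, Finset.mem_image] at hr
    obtain ⟨p, hp, rfl⟩ := hr
    obtain ⟨d1, d2⟩ := hdt p hp
    obtain ⟨c1, c2, c3, c4, c5⟩ := hQo p hp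
    apply hM
    · have := hdt0 p hp
      omega
    · rw [d1]
      have l1 := D.le p.1 c1
      have l2 := D.le p.2 c2
      have m1 : n p.1 ^ 2 ≤ X ^ 2 := Nat.pow_le_pow_left l1 2
      have m2 : n p.2 ^ 2 ≤ X ^ 2 := Nat.pow_le_pow_left l2 2
      have m1' : ((n p.1 : ℤ)) ^ 2 ≤ ((X ^ 2 : ℕ) : ℤ) := by exact_mod_cast m1
      have m2' : ((n p.2 : ℤ)) ^ 2 ≤ ((X ^ 2 : ℕ) : ℤ) := by exact_mod_cast m2
      have m3 : (0 : ℤ) ≤ (n p.1 : ℤ) ^ 2 := by positivity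
      have m4 : (0 : ℤ) ≤ (n p.2 : ℤ) ^ 2 := by positivity
      omega
  have hR := card_R' X 2 hX (by norm_num) R
    (by
      intro r hr
      simp only [R, Finset.mem_image] at hr
      obtain ⟨p, hp, rfl⟩ := hr
      obtain ⟨c1, c2, c3, c4, c5⟩ := hQo p hp
      refine ⟨D.V_ne c1, ?_⟩
      intro h0
      rw [Prod.mk.injEq] at h0
      apply hdt0 p hp
      show a p.1 0 0 * (a p.1 1 1 - a p.2 1 1) - a p.1 1 0 * (a p.1 0 1 - a p.2 0 1) = 0
      rw [h0.1, h0.2]; ring)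
    (by
      intro r hr
      simp only [R, Finset.mem_image] at hr
      obtain ⟨p, hp, rfl⟩ := hr
      obtain ⟨c1, c2, c3, c4, c5⟩ := hQo p hp
      have a00 := D.natAbs c1 0 0
      have a10 := D.natAbs c1 1 0
      have a01 := D.natAbs c1 0 1
      have a11 := D.natAbs c1 1 1
      have b01 := D.natAbs c2 0 1
      have b11 := D.natAbs c2 1 1
      constructor
      · show max (a p.1 0 0).natAbs (a p.1 1 0).natAbs ≤ 2 * X
        omega
      · show max (a p.1 0 1 - a p.2 0 1).natAbs (a p.1 1 1 - a p.2 1 1).natAbs ≤ 2 * X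
        omega)
    (by
      intro r hr r' hr'
      simp only [R, Finset.mem_image] at hr hr'
      obtain ⟨p, hp, rfl⟩ := hr
      obtain ⟨q, hq, rfl⟩ := hr'
      obtain ⟨c1, c2, c3, c4, c5⟩ := hQo p hp
      obtain ⟨c1', c2', c3', c4', c5'⟩ := hQo q hq
      obtain ⟨-, -, κ, k1, k2⟩ := tor_pair H z0 h1 D hS c1 c2 c3 c4
      obtain ⟨-, -, κ', k1', k2'⟩ := tor_pair H z0 h1 D hS c1' c2' c3' c4'
      have hκ : κ ≠ 0 := by
        intro h0
        rw [h0, zero_mul, sub_eq_zero] at k1 k2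
        apply hdt0 p hp
        show a p.1 0 0 * (a p.1 1 1 - a p.2 1 1) - a p.1 1 0 * (a p.1 0 1 - a p.2 0 1) = 0
        have k1z : a p.1 0 1 = a p.2 0 1 := by exact_mod_cast k1
        have k2z : a p.1 1 1 = a p.2 1 1 := by exact_mod_cast k2
        rw [k1z, k2z]; ring
      have hκ' : κ' ≠ 0 := by
        intro h0
        rw [h0, zero_mul, sub_eq_zero] at k1' k2'
        apply hdt0 q hq
        show a q.1 0 0 * (a q.1 1 1 - a q.2 1 1) - a q.1 1 0 * (a q.1 0 1 - a q.2 0 1) = 0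
        have k1z : a q.1 0 1 = a q.2 0 1 := by exact_mod_cast k1'
        have k2z : a q.1 1 1 = a q.2 1 1 := by exact_mod_cast k2'
        rw [k1z, k2z]; ring
      have hsH := hS p.1 c1 q.1 c1'
      have p1 := D.nq c1
      have p2 := D.nq c1'
      -- both sides are equivalent to `s10 = 0`
      have hA : a p.1 0 0 * a q.1 1 0 = a p.1 1 0 * a q.1 0 0 ↔ (p.1⁻¹ * q.1).1 1 0 = 0 := by
        have hc := D.cross c1 c1'
        have hnn : (n p.1 : ℚ) * n q.1 ≠ 0 := (mul_pos p1 p2).ne'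
        constructor
        · intro h
          have : (n p.1 : ℚ) * n q.1 * (p.1⁻¹ * q.1).1 1 0 = 0 := by
            rw [← hc, h]; push_cast; ring
          exact (mul_eq_zero.1 this).resolve_left hnn
        · intro h
          rw [h, mul_zero] at hc
          have : a p.1 0 0 * a q.1 1 0 - a p.1 1 0 * a q.1 0 0 = 0 := by exact_mod_cast hc
          linarith
      have hce := cross_e p.1 q.1 z0
      have hB : (a p.1 0 1 - a p.2 0 1) * (a q.1 1 1 - a q.2 1 1) =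
          (a p.1 1 1 - a p.2 1 1) * (a q.1 0 1 - a q.2 0 1) ↔ (p.1⁻¹ * q.1).1 1 0 = 0 := by
        have hq1 : (((a p.1 0 1 - a p.2 0 1) * (a q.1 1 1 - a q.2 1 1) -
            (a p.1 1 1 - a p.2 1 1) * (a q.1 0 1 - a q.2 0 1) : ℤ) : ℚ) =
            κ * κ' * (((p.1⁻¹ * q.1).1 1 0 * z0 + (p.1⁻¹ * q.1).1 1 1) * z0 -
              ((p.1⁻¹ * q.1).1 0 0 * z0 + (p.1⁻¹ * q.1).1 0 1)) := by
          rw [hce]
          push_cast
          rw [k1, k2, k1', k2']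
          ring
        have hkk : κ * κ' ≠ 0 := mul_ne_zero hκ hκ'
        constructor
        · intro h
          have h0 : κ * κ' * (((p.1⁻¹ * q.1).1 1 0 * z0 + (p.1⁻¹ * q.1).1 1 1) * z0 -
              ((p.1⁻¹ * q.1).1 0 0 * z0 + (p.1⁻¹ * q.1).1 0 1)) = 0 := by
            rw [← hq1, h]; push_cast; ring
          have h00 := (mul_eq_zero.1 h0).resolve_left hkk
          exact h2 _ hsH (by linarith)
        · intro h
          have hf := h1 _ hsH h
          have h0 : κ * κ' * (((p.1⁻¹ * q.1).1 1 0 * z0 + (p.1⁻¹ * q.1).1 1 1) * z0 -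
              ((p.1⁻¹ * q.1).1 0 0 * z0 + (p.1⁻¹ * q.1).1 0 1)) = 0 := by
            rw [h, hf]; ring
          rw [h0] at hq1
          have : (a p.1 0 1 - a p.2 0 1) * (a q.1 1 1 - a q.2 1 1) -
            (a p.1 1 1 - a p.2 1 1) * (a q.1 0 1 - a q.2 0 1) = 0 := by exact_mod_cast hq1
          linarith
      show a p.1 0 0 * a q.1 1 0 = a p.1 1 0 * a q.1 0 0 ↔
        (a p.1 0 1 - a p.2 0 1) * (a q.1 1 1 - a q.2 1 1) =
          (a p.1 1 1 - a p.2 1 1) * (a q.1 0 1 - a q.2 0 1)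
      rw [hA, hB])
  -- conclusion
  have hCSr : (S.card : ℝ) ^ 2 ≤ (2 * X + 1) ^ 2 * Q.card := by exact_mod_cast hCS
  have hQr : (Q.card : ℝ) ≤ S.card + Qo.card := by exact_mod_cast hQ
  have hcr : (Qo.card : ℝ) ≤ R.card * M := by exact_mod_cast hcount
  have hX' : (1 : ℝ) ≤ X := by exact_mod_cast hX
  have hM0 : (0 : ℝ) ≤ M := Nat.cast_nonneg M
  calc (S.card : ℝ) ^ 2 ≤ (2 * X + 1) ^ 2 * Q.card := hCSr
    _ ≤ 9 * (X : ℝ) ^ 2 * Q.card := by
        apply mul_le_mul_of_nonneg_right _ (Nat.cast_nonneg _)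
        nlinarith
    _ ≤ 9 * (X : ℝ) ^ 2 * (S.card + M * (72 * ((2 : ℕ) : ℝ) ^ 2 *
      (1 + Real.log ((2 : ℕ) : ℝ)) * (X : ℝ) ^ 2 * (1 + Real.log X))) := by
        apply mul_le_mul_of_nonneg_left _ (by positivity)
        refine hQr.trans ?_
        have h5 := mul_le_mul_of_nonneg_left hR hM0
        have h6 : (R.card : ℝ) * M = M * R.card := mul_comm _ _
        linarith

end Pool.Agent.MP_21c19e_al.Conf
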