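import Mathlib

set_option autoImplicit false

/-!
The divisor bound (the first part is the argument of the file MP_6179b0_nt/Wigert.lean of this
repository).
-/

namespace Pool.Agent.MP_21c19e_al.Conf

open Finset

theorem div_core (n : ℕ) (hn : 3 ≤ n) (z : ℝ) (hz : 1 < z) :
    Real.log (n.divisors.card : ℝ) ≤
      z * Real.log (3 * Real.log n) + Real.log 2 * (Real.log n / Real.log z) := by
  have hn0 : n ≠ 0 := by omega
  have hnr : (3 : ℝ) ≤ n := by exact_mod_cast hn
  have hL : 1 ≤ Real.log n := by
    rw [Real.le_log_iff_exp_le (by linarith)]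
    have := Real.exp_one_lt_d9
    linarith
  have hlz : 0 < Real.log z := Real.log_pos hz
  have hl2 := Real.log_two_gt_d9
  have h1 : Real.log (n.divisors.card : ℝ) =
      ∑ p ∈ n.primeFactors, Real.log ((n.factorization p : ℝ) + 1) := by
    rw [Nat.card_divisors hn0, Nat.cast_prod, Real.log_prod]
    · refine Finset.sum_congr rfl fun p _ => ?_
      push_cast
      rfl
    · intro p _
      positivity
  have h2 : Real.log n = ∑ p ∈ n.primeFactors, (n.factorization p : ℝ) * Real.log p := by
    conv_lhs => rw [← Nat.prod_factorization_pow_eq_self hn0]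
    rw [Finsupp.prod, Nat.cast_prod, Real.log_prod]
    · rw [Nat.support_factorization]
      refine Finset.sum_congr rfl fun p _ => ?_
      rw [Nat.cast_pow, Real.log_pow]
    · intro p hp
      have : p.Prime := Nat.prime_of_mem_primeFactors (by rwa [Nat.support_factorization] at hp)
      have := this.pos
      positivity
  rw [h1, ← Finset.sum_filter_add_sum_filter_not n.primeFactors (fun p : ℕ => (p : ℝ) < z)]
  refine add_le_add ?_ ?_
  · have h3 : ∀ p ∈ n.primeFactors.filter (fun p : ℕ => (p : ℝ) < z),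
        Real.log ((n.factorization p : ℝ) + 1) ≤ Real.log (3 * Real.log n) := by
      intro p hp
      have hpp : p.Prime := Nat.prime_of_mem_primeFactors (Finset.mem_filter.1 hp).1
      refine Real.log_le_log (by positivity) ?_
      have h4 : 2 ^ n.factorization p ≤ n :=
        le_trans (Nat.pow_le_pow_left hpp.two_le _)
          (Nat.le_of_dvd (by omega) (Nat.ordProj_dvd n p))
      have h5 : Real.log ((2 : ℝ) ^ n.factorization p) ≤ Real.log n :=
        Real.log_le_log (by positivity) (by exact_mod_cast h4)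
      rw [Real.log_pow] at h5
      nlinarith [Nat.cast_nonneg (α := ℝ) (n.factorization p)]
    refine le_trans (Finset.sum_le_card_nsmul _ _ _ h3) ?_
    rw [nsmul_eq_mul]
    refine mul_le_mul_of_nonneg_right ?_ (Real.log_nonneg (by linarith))
    have h6 : n.primeFactors.filter (fun p : ℕ => (p : ℝ) < z) ⊆ Finset.Icc 1 ⌊z⌋₊ := by
      intro p hp
      rw [Finset.mem_filter] at hp
      have hpp : p.Prime := Nat.prime_of_mem_primeFactors hp.1
      rw [Finset.mem_Icc]
      exact ⟨hpp.one_lt.le, Nat.le_floor hp.2.le⟩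
    have h7 := Finset.card_le_card h6
    rw [Nat.card_Icc] at h7
    have h8 : ((n.primeFactors.filter (fun p : ℕ => (p : ℝ) < z)).card : ℝ) ≤ (⌊z⌋₊ : ℝ) := by
      exact_mod_cast (by omega : (n.primeFactors.filter (fun p : ℕ => (p : ℝ) < z)).card ≤ ⌊z⌋₊)
    exact le_trans h8 (Nat.floor_le (by linarith))
  · obtain ⟨T, hT⟩ : ∃ T, T = n.primeFactors.filter (fun p : ℕ => ¬ (p : ℝ) < z) := ⟨_, rfl⟩
    rw [← hT]
    have hTsub : T ⊆ n.primeFactors := by rw [hT]; exact Finset.filter_subset _ _
    have h3 : ∀ p ∈ T, Real.log ((n.factorization p : ℝ) + 1) ≤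
        Real.log 2 * (n.factorization p : ℝ) := by
      intro p _
      have h4 : (n.factorization p : ℝ) + 1 ≤ (2 : ℝ) ^ n.factorization p := by
        have : n.factorization p + 1 ≤ 2 ^ n.factorization p := Nat.lt_two_pow_self
        exact_mod_cast this
      have h5 := Real.log_le_log (by positivity) h4
      rw [Real.log_pow] at h5
      linarith
    refine le_trans (Finset.sum_le_sum h3) ?_
    rw [← Finset.mul_sum]
    refine mul_le_mul_of_nonneg_left ?_ (by linarith)
    rw [le_div_iff₀ hlz, Finset.sum_mul]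
    calc ∑ p ∈ T, (n.factorization p : ℝ) * Real.log z
        ≤ ∑ p ∈ T, (n.factorization p : ℝ) * Real.log p := by
          refine Finset.sum_le_sum fun p hp => ?_
          rw [hT, Finset.mem_filter, not_lt] at hp
          exact mul_le_mul_of_nonneg_left (Real.log_le_log (by linarith) hp.2) (by positivity)
      _ ≤ ∑ p ∈ n.primeFactors, (n.factorization p : ℝ) * Real.log p := by
          refine Finset.sum_le_sum_of_subset_of_nonneg hTsub fun p hp _ => ?_
          have hpp : p.Prime := Nat.prime_of_mem_primeFactors hp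
          have : (1 : ℝ) ≤ p := by exact_mod_cast hpp.one_lt.le
          exact mul_nonneg (by positivity) (Real.log_nonneg this)
      _ = Real.log n := h2.symm

/-- The divisor bound. -/
theorem div_bound (ε : ℝ) (hε : 0 < ε) : ∃ C : ℝ, 1 ≤ C ∧ ∀ n : ℕ, 1 ≤ n →
    (n.divisors.card : ℝ) ≤ C * (n : ℝ) ^ ε := by
  obtain ⟨z, hz⟩ : ∃ z : ℝ, z = Real.exp (2 * Real.log 2 / ε) := ⟨_, rfl⟩
  have hl2 := Real.log_two_gt_d9
  have hz1 : 1 < z := by
    rw [hz]
    apply Real.one_lt_exp_iff.2
    positivity
  have hlz : Real.log z = 2 * Real.log 2 / ε := by rw [hz, Real.log_exp]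
  obtain ⟨c, hc⟩ : ∃ c : ℝ, c = ε / (6 * z) := ⟨_, rfl⟩
  have hc0 : 0 < c := by rw [hc]; positivity
  obtain ⟨K, hK⟩ : ∃ K : ℝ, K = z * |Real.log c| := ⟨_, rfl⟩
  have hK0 : 0 ≤ K := by rw [hK]; positivity
  refine ⟨2 * Real.exp K, ?_, ?_⟩
  · have := Real.one_le_exp hK0
    linarith
  intro n hn
  have hn1 : (1 : ℝ) ≤ n := by exact_mod_cast hn
  have hexp := Real.one_le_exp hK0
  by_cases h3 : 3 ≤ n
  · have h4 := div_core n h3 z hz1
    have hnr : (3 : ℝ) ≤ n := by exact_mod_cast h3
    have hL : 1 ≤ Real.log n := by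
      rw [Real.le_log_iff_exp_le (by linarith)]
      have := Real.exp_one_lt_d9
      linarith
    obtain ⟨L, hLdef⟩ : ∃ L, L = Real.log n := ⟨_, rfl⟩
    rw [← hLdef] at h4 hL
    have h5 : Real.log 2 * (L / Real.log z) = ε / 2 * L := by
      rw [hlz]
      have : Real.log 2 ≠ 0 := by linarith
      field_simp
    have h6 : Real.log (3 * L) ≤ c * (3 * L) + |Real.log c| := by
      have h7 : Real.log (c * (3 * L)) ≤ c * (3 * L) - 1 :=
        Real.log_le_sub_one_of_pos (by positivity)
      rw [Real.log_mul hc0.ne' (by positivity)] at h7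
      have := neg_abs_le (Real.log c)
      linarith
    have h7 : z * Real.log (3 * L) ≤ ε / 2 * L + K := by
      have h8 := mul_le_mul_of_nonneg_left h6 (by linarith : (0 : ℝ) ≤ z)
      have h9 : z * (c * (3 * L) + |Real.log c|) = ε / 2 * L + K := by
        rw [hK, hc]
        have : z ≠ 0 := by linarith
        field_simp
        ring
      linarith
    have h8 : Real.log (n.divisors.card : ℝ) ≤ ε * L + K := by
      rw [h5] at h4
      linarith
    have hpos : (0 : ℝ) < n.divisors.card := by
      have : 0 < n.divisors.card := Finset.card_pos.2 ⟨1, Nat.one_mem_divisors.2 (by omega)⟩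
      exact_mod_cast this
    have h9 : (n.divisors.card : ℝ) ≤ Real.exp (ε * L + K) := by
      rw [← Real.log_le_iff_le_exp hpos]
      exact h8
    have h10 : Real.exp (ε * L + K) = Real.exp K * (n : ℝ) ^ ε := by
      rw [Real.exp_add, Real.rpow_def_of_pos (by linarith), hLdef]
      rw [mul_comm ε, mul_comm]
    rw [h10] at h9
    have h11 : 0 ≤ (n : ℝ) ^ ε := Real.rpow_nonneg (by linarith) _
    nlinarith [mul_nonneg (by linarith : (0 : ℝ) ≤ Real.exp K) h11]
  · have h4 : n.divisors.card ≤ 2 := by
      have h5 : n.divisors.card ≤ n := Nat.card_divisors_le_self n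
      omega
    have h5 : (n.divisors.card : ℝ) ≤ 2 := by exact_mod_cast h4
    have h6 : (1 : ℝ) ≤ (n : ℝ) ^ ε := Real.one_le_rpow hn1 hε.le
    nlinarith

end Pool.Agent.MP_21c19e_al.Conf
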