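import Pool.Agent.Lib.MP_21c19e_al.GrowU4
import Pool.Agent.Lib.MP_21c19e_al.GrowU5

set_option autoImplicit false

/-!
MP_21c19e_al, uniform growth gap: the theorem.
-/

namespace Pool.Agent.MP_21c19e_al.Conf

open Matrix

/-- The elements of `K` fixing a given rational line commute. -/
def AbStab (K : Subgroup G) : Prop :=
  ∀ w : Fin 2 → ℚ, w ≠ 0 → ∀ g ∈ K, ∀ k ∈ K,
    (∃ t : ℚ, (g : Matrix (Fin 2) (Fin 2) ℚ).mulVec w = t • w) →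
    (∃ t : ℚ, (k : Matrix (Fin 2) (Fin 2) ℚ).mulVec w = t • w) → g * k = k * g

theorem abStab_conj (K : Subgroup G) (hK : AbStab K) (y : G) :
    AbStab (K.comap (MulAut.conj y).toMonoidHom) := by
  intro w hw g hg k hk hgw hkw
  have hg' : y * g * y⁻¹ ∈ K := hg
  have hk' : y * k * y⁻¹ ∈ K := hk
  have hinv : ∀ u : Fin 2 → ℚ, ((y⁻¹ : G) : Matrix (Fin 2) (Fin 2) ℚ).mulVec
      ((y : Matrix (Fin 2) (Fin 2) ℚ).mulVec u) = u := by
    intro u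
    rw [Matrix.mulVec_mulVec, ← Matrix.SpecialLinearGroup.coe_mul, inv_mul_cancel]
    simp
  have hw' : (y : Matrix (Fin 2) (Fin 2) ℚ).mulVec w ≠ 0 := by
    intro h0
    apply hw
    rw [← hinv w, h0, Matrix.mulVec_zero]
  have hfix : ∀ x : G, (∃ t : ℚ, (x : Matrix (Fin 2) (Fin 2) ℚ).mulVec w = t • w) →
      ∃ t : ℚ, ((y * x * y⁻¹ : G) : Matrix (Fin 2) (Fin 2) ℚ).mulVec
        ((y : Matrix (Fin 2) (Fin 2) ℚ).mulVec w) =
          t • (y : Matrix (Fin 2) (Fin 2) ℚ).mulVec w := by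
    rintro x ⟨t, ht⟩
    refine ⟨t, ?_⟩
    have h1 : ((y * x * y⁻¹ : G) : Matrix (Fin 2) (Fin 2) ℚ).mulVec
        ((y : Matrix (Fin 2) (Fin 2) ℚ).mulVec w) =
        (y : Matrix (Fin 2) (Fin 2) ℚ).mulVec ((x : Matrix (Fin 2) (Fin 2) ℚ).mulVec w) := by
      rw [Matrix.mulVec_mulVec, Matrix.mulVec_mulVec, ← Matrix.SpecialLinearGroup.coe_mul,
        ← Matrix.SpecialLinearGroup.coe_mul]
      congr 2
      group
    rw [h1, ht, Matrix.mulVec_smul]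
  have hc := hK _ hw' _ hg' _ hk' (hfix g hgw) (hfix k hkw)
  have e1 : y * (g * k) * y⁻¹ = y * (k * g) * y⁻¹ := by
    calc y * (g * k) * y⁻¹ = (y * g * y⁻¹) * (y * k * y⁻¹) := by group
      _ = (y * k * y⁻¹) * (y * g * y⁻¹) := hc
      _ = y * (k * g) * y⁻¹ := by group
  exact mul_left_cancel (mul_right_cancel e1)

theorem ab_hyp (K : Subgroup G) (hK : AbStab K)
    (hex : ∃ g ∈ K, g.1 1 0 = 0 ∧ g.1 0 0 ≠ g.1 1 1) :
    ∃ z0 : ℚ, (∀ s ∈ K, s.1 1 0 = 0 → s.1 0 0 * z0 + s.1 0 1 = s.1 1 1 * z0) ∧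
      (∀ s ∈ K, s.1 0 0 * z0 + s.1 0 1 = (s.1 1 0 * z0 + s.1 1 1) * z0 → s.1 1 0 = 0) := by
  obtain ⟨g, hg, g10, gne⟩ := hex
  have hsub : g.1 1 1 - g.1 0 0 ≠ 0 := sub_ne_zero.2 (Ne.symm gne)
  refine ⟨g.1 0 1 / (g.1 1 1 - g.1 0 0), ?_, ?_⟩
  · intro s hs s10
    have hcomm := hK ![1, 0] e1_ne g hg s hs (fix_e1 g g10) (fix_e1 s s10)
    have h01 := comm01 g s hcomm
    field_simp
    linear_combination -h01
  · intro s hs hfix
    have hgf : g.1 0 0 * (g.1 0 1 / (g.1 1 1 - g.1 0 0)) + g.1 0 1 =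
        (g.1 1 0 * (g.1 0 1 / (g.1 1 1 - g.1 0 0)) + g.1 1 1) *
          (g.1 0 1 / (g.1 1 1 - g.1 0 0)) := by
      rw [g10]; field_simp; ring
    have hcomm := hK _ (ez_ne _) g hg s hs (fix_ez g _ hgf) (fix_ez s _ hfix)
    have h10 := comm10 g s hcomm
    rw [g10] at h10
    have : (g.1 1 1 - g.1 0 0) * s.1 1 0 = 0 := by linear_combination h10
    exact (mul_eq_zero.1 this).resolve_left hsub

theorem one_add_log_le (η : ℝ) (hη : 0 < η) (X : ℕ) (hX : 1 ≤ X) :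
    1 + Real.log X ≤ (1 + 1 / η) * (X : ℝ) ^ η := by
  have hX' : (1 : ℝ) ≤ X := by exact_mod_cast hX
  have h1 := Real.log_le_rpow_div (by linarith : (0 : ℝ) ≤ X) hη
  have h2 : (1 : ℝ) ≤ (X : ℝ) ^ η := Real.one_le_rpow hX' hη.le
  have h3 : (X : ℝ) ^ η / η = 1 / η * (X : ℝ) ^ η := by ring
  rw [add_mul, one_mul]
  linarith

/-- The count in a coset of a group with abelian point stabilisers. -/
theorem ab_count (ε : ℝ) (hε : 0 < ε) : ∃ C : ℝ, ∀ K : Subgroup G, AbStab K →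
    ∀ X : ℕ, 1 ≤ X → ∀ S : Finset G, (∀ g ∈ S, g ∈ BX X) →
      (∀ g ∈ S, ∀ g' ∈ S, g⁻¹ * g' ∈ K) → (S.card : ℝ) ≤ C * (X : ℝ) ^ (2 + ε) := by
  obtain ⟨η, hη⟩ : ∃ η : ℝ, η = ε / 3 := ⟨_, rfl⟩
  have hη0 : 0 < η := by rw [hη]; positivity
  obtain ⟨C0, hC0, hdiv⟩ := div_bound (η / 2) (by positivity)
  -- constants
  obtain ⟨C1, hC1⟩ : ∃ C1 : ℝ, C1 = 72 * ((3 : ℕ) : ℝ) ^ 2 * (1 + Real.log ((3 : ℕ) : ℝ)) *
    (1 + 1 / η) := ⟨_, rfl⟩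
  obtain ⟨C2, hC2⟩ : ∃ C2 : ℝ, C2 = 18 * (C0 * (72 * ((2 : ℕ) : ℝ) ^ 2 *
      (1 + Real.log ((2 : ℕ) : ℝ)) * (1 + 1 / η))) := ⟨_, rfl⟩
  have hl3 : 0 ≤ Real.log ((3 : ℕ) : ℝ) := Real.log_natCast_nonneg 3
  have hl2 : 0 ≤ Real.log ((2 : ℕ) : ℝ) := Real.log_natCast_nonneg 2
  have hinv : 0 < 1 / η := by positivity
  have hC1p : 0 ≤ C1 := by rw [hC1]; positivity
  have hC2p : 0 ≤ C2 := by rw [hC2]; positivity
  refine ⟨C1 + 18 + Real.sqrt C2, ?_⟩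
  intro K hK X hX S hSB hS
  have hX' : (1 : ℝ) ≤ X := by exact_mod_cast hX
  have hX0 : (0 : ℝ) < X := by linarith
  obtain ⟨n, a, hna⟩ := BX_data X
  have D : Dat X S n a := ⟨fun g hg => (hna g (hSB g hg)).1, fun g hg => (hna g (hSB g hg)).2.1,
    fun g hg => (hna g (hSB g hg)).2.2.1, fun g hg => (hna g (hSB g hg)).2.2.2⟩
  have hlog := one_add_log_le η hη0 X hX
  have hlog0 : 0 ≤ 1 + Real.log (X : ℝ) := by linarith [Real.log_natCast_nonneg X]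
  have hXη : (1 : ℝ) ≤ (X : ℝ) ^ η := Real.one_le_rpow hX' hη0.le
  have hXε : (X : ℝ) ^ η ≤ (X : ℝ) ^ ε := Real.rpow_le_rpow_of_exponent_le hX' (by rw [hη]; linarith)
  have hXpow : (X : ℝ) ^ (2 + ε) = (X : ℝ) ^ 2 * (X : ℝ) ^ ε := by
    rw [Real.rpow_add hX0, Real.rpow_two]
  have hXε1 : (1 : ℝ) ≤ (X : ℝ) ^ ε := Real.one_le_rpow hX' hε.le
  have hX2 : (0 : ℝ) ≤ (X : ℝ) ^ 2 := by positivity
  have hP0 : 0 ≤ (X : ℝ) ^ (2 + ε) := Real.rpow_nonneg hX0.le _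
  have hsq0 := Real.sqrt_nonneg C2
  by_cases hex : ∃ g ∈ K, g.1 1 0 = 0 ∧ g.1 0 0 ≠ g.1 1 1
  · obtain ⟨z0, h1, h2⟩ := ab_hyp K hK hex
    -- the number of divisors
    obtain ⟨M, hM⟩ : ∃ M : ℕ, M = ⌊C0 * (X : ℝ) ^ η⌋₊ := ⟨_, rfl⟩
    have hMr : (M : ℝ) ≤ C0 * (X : ℝ) ^ η := by
      rw [hM]; exact Nat.floor_le (by positivity)
    have hMd : ∀ m : ℕ, 1 ≤ m → m ≤ X ^ 2 → m.divisors.card ≤ M := by
      intro m hm1 hm2
      rw [hM]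
      apply Nat.le_floor
      have h3 := hdiv m hm1
      have h4 : (m : ℝ) ≤ (X : ℝ) ^ 2 := by exact_mod_cast hm2
      have h5 : (m : ℝ) ^ (η / 2) ≤ ((X : ℝ) ^ 2) ^ (η / 2) :=
        Real.rpow_le_rpow (by positivity) h4 (by positivity)
      have h6 : ((X : ℝ) ^ 2) ^ (η / 2) = (X : ℝ) ^ η := by
        rw [← Real.rpow_natCast, ← Real.rpow_mul hX0.le]
        congr 1
        push_cast
        ring
      rw [h6] at h5
      calc (m.divisors.card : ℝ) ≤ C0 * (m : ℝ) ^ (η / 2) := h3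
        _ ≤ C0 * (X : ℝ) ^ η := mul_le_mul_of_nonneg_left h5 (by linarith)
    have hcount := tor_count K z0 h1 h2 X hX S n a D hS M hMd
    by_cases hbig : 18 * (X : ℝ) ^ 2 ≤ S.card
    · have hS2 : (S.card : ℝ) ^ 2 ≤ C2 * ((X : ℝ) ^ (2 + ε)) ^ 2 := by
        have h3 : 9 * (X : ℝ) ^ 2 * S.card ≤ (S.card : ℝ) ^ 2 / 2 := by nlinarith
        have h4 : (S.card : ℝ) ^ 2 ≤ 18 * (X : ℝ) ^ 2 * (M * (72 * ((2 : ℕ) : ℝ) ^ 2 *
            (1 + Real.log ((2 : ℕ) : ℝ)) * (X : ℝ) ^ 2 * (1 + Real.log X))) := by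
          rw [mul_add] at hcount
          linarith
        have h5 : 72 * ((2 : ℕ) : ℝ) ^ 2 * (1 + Real.log ((2 : ℕ) : ℝ)) * (X : ℝ) ^ 2 *
            (1 + Real.log X) ≤ 72 * ((2 : ℕ) : ℝ) ^ 2 * (1 + Real.log ((2 : ℕ) : ℝ)) *
              (X : ℝ) ^ 2 * ((1 + 1 / η) * (X : ℝ) ^ η) :=
          mul_le_mul_of_nonneg_left hlog (by positivity)
        have h6 : (M : ℝ) * (72 * ((2 : ℕ) : ℝ) ^ 2 * (1 + Real.log ((2 : ℕ) : ℝ)) * (X : ℝ) ^ 2 *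
            (1 + Real.log X)) ≤ (C0 * (X : ℝ) ^ η) * (72 * ((2 : ℕ) : ℝ) ^ 2 *
              (1 + Real.log ((2 : ℕ) : ℝ)) * (X : ℝ) ^ 2 * ((1 + 1 / η) * (X : ℝ) ^ η)) := by
          apply mul_le_mul hMr h5
          · positivity
          · positivity
        have h7 : (S.card : ℝ) ^ 2 ≤ C2 * (X : ℝ) ^ 4 * ((X : ℝ) ^ η * (X : ℝ) ^ η) := by
          refine h4.trans ?_
          have := mul_le_mul_of_nonneg_left h6 (by positivity : 0 ≤ 18 * (X : ℝ) ^ 2)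
          refine this.trans (le_of_eq ?_)
          rw [hC2]; ring
        have h8 : (X : ℝ) ^ η * (X : ℝ) ^ η ≤ (X : ℝ) ^ ε * (X : ℝ) ^ ε :=
          mul_le_mul hXε hXε (by linarith) (by linarith)
        refine h7.trans ?_
        rw [hXpow]
        have := mul_le_mul_of_nonneg_left h8 (by positivity : 0 ≤ C2 * (X : ℝ) ^ 4)
        refine this.trans (le_of_eq ?_)
        ring
      have h9 : (S.card : ℝ) ≤ Real.sqrt C2 * (X : ℝ) ^ (2 + ε) := by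
        apply le_of_sq_le_sq _ (by positivity)
        rw [mul_pow, Real.sq_sqrt hC2p]
        exact hS2
      nlinarith
    · push Not at hbig
      have h3 : (X : ℝ) ^ 2 ≤ (X : ℝ) ^ (2 + ε) := by
        rw [hXpow]
        nlinarith
      nlinarith
  · have h1 : ∀ s ∈ K, s.1 1 0 = 0 → s.1 0 0 = s.1 1 1 ∧ (s.1 0 0 = 1 ∨ s.1 0 0 = -1) := by
      intro s hs s10
      push Not at hex
      have heq := hex s hs s10
      refine ⟨heq, ?_⟩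
      have hd := det4 s
      rw [s10, ← heq] at hd
      have : (s.1 0 0 - 1) * (s.1 0 0 + 1) = 0 := by linear_combination hd
      rcases mul_eq_zero.1 this with h3 | h3
      · left; linarith
      · right; linarith
    have hcount := par_count K h1 X hX S n a D hS
    have h2 : (S.card : ℝ) ≤ C1 * (X : ℝ) ^ 2 * (X : ℝ) ^ η := by
      refine hcount.trans ?_
      have := mul_le_mul_of_nonneg_left hlog (by positivity :
        0 ≤ 72 * ((3 : ℕ) : ℝ) ^ 2 * (1 + Real.log ((3 : ℕ) : ℝ)) * (X : ℝ) ^ 2)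
      refine this.trans (le_of_eq ?_)
      rw [hC1]; ring
    have h3 : C1 * (X : ℝ) ^ 2 * (X : ℝ) ^ η ≤ C1 * (X : ℝ) ^ (2 + ε) := by
      rw [hXpow, mul_assoc]
      apply mul_le_mul_of_nonneg_left _ hC1p
      exact mul_le_mul_of_nonneg_left hXε hX2
    nlinarith

theorem ugrow_main (ε : ℝ) (hε : 0 < ε) : ∃ C : ℝ, ∀ H : Subgroup G, ZDense H → NoQuot H →
    H ≠ ⊤ → ∀ x y : G, ∀ X : ℕ, 1 ≤ X →
      ((Set.ncard {g : G | (∃ h ∈ H, g = x * h * y) ∧ ∃ n : ℕ, 1 ≤ n ∧ n ≤ X ∧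
        ∀ i j : Fin 2, ∃ a : ℤ, |a| ≤ (X : ℤ) ∧
          (n : ℚ) * (g : Matrix (Fin 2) (Fin 2) ℚ) i j = a} : ℕ) : ℝ) ≤
        C * (X : ℝ) ^ (2 + ε) := by
  obtain ⟨C, hC⟩ := ab_count ε hε
  refine ⟨C, ?_⟩
  intro H hZ hq hne x y X hX
  have hab : AbStab H := fun w hw g hg k hk hgw hkw => comm_stab H hZ hq hne w hw g k hg hk hgw hkw
  have hab' := abStab_conj H hab y
  set T : Set G := {g : G | (∃ h ∈ H, g = x * h * y) ∧ ∃ n : ℕ, 1 ≤ n ∧ n ≤ X ∧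
        ∀ i j : Fin 2, ∃ a : ℤ, |a| ≤ (X : ℤ) ∧
          (n : ℚ) * (g : Matrix (Fin 2) (Fin 2) ℚ) i j = a} with hT
  have hfin : T.Finite := (BX_finite X).subset (fun g hg => hg.2)
  have h1 := hC _ hab' X hX hfin.toFinset (by
      intro g hg
      rw [Set.Finite.mem_toFinset] at hg
      exact hg.2) (by
      intro g hg g' hg'
      rw [Set.Finite.mem_toFinset] at hg hg'
      obtain ⟨⟨h, hh, rfl⟩, -⟩ := hg
      obtain ⟨⟨h', hh', rfl⟩, -⟩ := hg'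
      show y * ((x * h * y)⁻¹ * (x * h' * y)) * y⁻¹ ∈ H
      have : y * ((x * h * y)⁻¹ * (x * h' * y)) * y⁻¹ = h⁻¹ * h' := by group
      rw [this]
      exact H.mul_mem (H.inv_mem hh) hh')
  rwa [← Set.ncard_eq_toFinset_card T hfin] at h1

end Pool.Agent.MP_21c19e_al.Conf
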