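import Mathlib

set_option autoImplicit false

/-!
Z21-Moves (Dirichlet). Mathlib: Nat.forall_exists_prime_gt_and_eq_mod / Nat.setOf_prime_and_eq_mod_infinite.
Proof. Step 1: if p does not divide b take a0 = 0, else a0 = 1: then p does not divide b1 := b + q*a0*a
(as p | b implies p does not divide a, and p does not divide q). gcd(a,b1) = 1.
b1 may be 0 only if p | 0: excluded, so b1 ≠ 0.
Step 2: choose a prime A with A ≡ a mod b1 and A ≡ -1 mod p^2 (CRT, gcd(b1,p)=1; the class is a unit mod b1*p^2),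
A larger than m, q, |b1|, p. Then A is coprime to q, b1, different from m, and p^2 does not divide A-1
(A - 1 ≡ -2 mod p^2, p^2 > 2).
Step 3: g := gcd(b1, q) (natural number). b1 + q*a2*A = g*(b1/g + (q/g)*a2*A); gcd(b1/g, (q/g)*A) = 1.
Choose a prime B with B ≡ b1/g mod (q/g)*A, B ≡ -1 mod p^2, B larger than everything.
-/

namespace Pool.Agent.MP_21c19e_al

/-- Dirichlet: a prime congruent to `c` modulo `M` and to `-1` modulo `p ^ 2`. -/
private theorem moves_dir (M : ℤ) (hM : M ≠ 0) (c : ℤ) (hc : IsCoprime c M) (p : ℕ)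
    (hp : p.Prime) (hpM : IsCoprime M (p : ℤ)) (n : ℕ) :
    ∃ A : ℕ, n < A ∧ A.Prime ∧ M ∣ (A : ℤ) - c ∧ ¬ (p ^ 2 ∣ A - 1) := by
  have hpM2 : IsCoprime M ((p : ℤ) ^ 2) := hpM.pow_right
  obtain ⟨u, v, huv⟩ := hpM2
  set r : ℤ := c * (v * (p : ℤ) ^ 2) - u * M with hr
  have h1 : M ∣ r - c := ⟨-(c * u) - u, by
    rw [hr]; linear_combination c * huv⟩
  have h2 : (p : ℤ) ^ 2 ∣ r + 1 := ⟨c * v + v, by
    rw [hr]; linear_combination -huv⟩
  have c1 : IsCoprime r M := by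
    obtain ⟨z, hz⟩ := h1
    have : r = c + M * z := by linarith
    rw [this]
    exact IsCoprime.add_mul_left_left hc z
  have c2 : IsCoprime r ((p : ℤ) ^ 2) := by
    obtain ⟨z, hz⟩ := h2
    exact ⟨-1, z, by linarith⟩
  have c3 : IsCoprime r (M * (p : ℤ) ^ 2) := c1.mul_right c2
  have hN : M * (p : ℤ) ^ 2 ≠ 0 := mul_ne_zero hM (pow_ne_zero _ (by exact_mod_cast hp.ne_zero))
  set N : ℕ := (M * (p : ℤ) ^ 2).natAbs with hNdef
  have hN0 : N ≠ 0 := Int.natAbs_ne_zero.2 hN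
  have : NeZero N := ⟨hN0⟩
  have hNabs : M * (p : ℤ) ^ 2 ∣ (N : ℤ) := by
    rw [hNdef]
    exact Int.dvd_natAbs.2 dvd_rfl
  have hNabs' : (N : ℤ) ∣ M * (p : ℤ) ^ 2 := by
    rw [hNdef]
    exact Int.natAbs_dvd.2 dvd_rfl
  have hunit : IsUnit ((r : ℤ) : ZMod N) := by
    rw [ZMod.coe_int_isUnit_iff_isCoprime]
    exact (c3.of_isCoprime_of_dvd_right hNabs').symm
  obtain ⟨A, hA, hAp, hAr⟩ := Nat.forall_exists_prime_gt_and_eq_mod hunit (n + 2)
  have hdvd : (N : ℤ) ∣ (A : ℤ) - r := by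
    rw [← ZMod.intCast_zmod_eq_zero_iff_dvd]
    push_cast
    rw [hAr, sub_self]
  refine ⟨A, by omega, hAp, ?_, ?_⟩
  · have h3 : M ∣ (A : ℤ) - r := dvd_trans (dvd_trans ⟨(p : ℤ) ^ 2, rfl⟩ hNabs) hdvd
    have : (A : ℤ) - c = ((A : ℤ) - r) + (r - c) := by ring
    rw [this]
    exact dvd_add h3 h1
  · intro h4
    have h3 : (p : ℤ) ^ 2 ∣ (A : ℤ) - r := dvd_trans (dvd_trans ⟨M, mul_comm _ _⟩ hNabs) hdvd
    have h5 : ((p ^ 2 : ℕ) : ℤ) ∣ ((A - 1 : ℕ) : ℤ) := by exact_mod_cast h4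
    have h6 : ((A - 1 : ℕ) : ℤ) = (A : ℤ) - 1 := by
      have := hAp.one_lt
      omega
    rw [h6] at h5
    push_cast at h5
    have h7 : (p : ℤ) ^ 2 ∣ 2 := by
      have : (2 : ℤ) = (((A : ℤ) - r) + (r + 1)) - ((A : ℤ) - 1) := by ring
      rw [this]
      exact dvd_sub (dvd_add h3 h2) h5
    have h8 := Int.le_of_dvd (by norm_num) h7
    have h9 : (2 : ℤ) ≤ p := by exact_mod_cast hp.two_le
    nlinarith

private theorem moves_coprime {A q : ℕ} (hA : A.Prime) (hq : 0 < q) (h : q < A) :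
    Nat.Coprime A q :=
  (Nat.Prime.coprime_iff_not_dvd hA).2 fun hd => absurd (Nat.le_of_dvd hq hd) (by omega)

theorem moves (p m q : ℕ) (hp : p.Prime) (hm : m.Prime) (hq : 0 < q)
    (hqp : Nat.Coprime q p) (a b : ℤ) (hab : IsCoprime a b) :
    ∃ α₀ α₁ α₂ : ℤ, ∃ A B g : ℕ, A.Prime ∧ B.Prime ∧ g ∣ q ∧ 0 < g ∧
      Nat.Coprime A q ∧ Nat.Coprime B q ∧ A ≠ m ∧ B ≠ m ∧ 2 < A ∧ 2 < B ∧
      ¬ (p ^ 2 ∣ A - 1) ∧ ¬ (p ^ 2 ∣ B - 1) ∧
      a + α₁ * (b + q * α₀ * a) = A ∧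
      (b + q * α₀ * a) + q * α₂ * A = g * B := by
  have hpi : Prime (p : ℤ) := Nat.prime_iff_prime_int.1 hp
  have hqpi : ¬ (p : ℤ) ∣ (q : ℤ) := by
    intro h
    have h1 : p ∣ q := by exact_mod_cast h
    have h2 := (Nat.Prime.coprime_iff_not_dvd hp).1 hqp.symm
    exact h2 h1
  -- step 1
  obtain ⟨α₀, hα₀⟩ : ∃ α₀ : ℤ, ¬ (p : ℤ) ∣ b + q * α₀ * a := by
    by_cases hb : (p : ℤ) ∣ b
    · refine ⟨1, fun h => ?_⟩
      have h1 : (p : ℤ) ∣ q * a := by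
        have : (q : ℤ) * a = (b + q * 1 * a) - b := by ring
        rw [this]
        exact dvd_sub h hb
      rcases hpi.dvd_or_dvd h1 with h2 | h2
      · exact hqpi h2
      · exact hpi.not_isUnit (hab.isUnit_of_dvd' h2 hb)
    · refine ⟨0, fun h => hb ?_⟩
      simpa using h
  obtain ⟨b1, hb1⟩ : ∃ b1 : ℤ, b1 = b + q * α₀ * a := ⟨_, rfl⟩
  rw [← hb1] at hα₀
  have hb10 : b1 ≠ 0 := by
    rintro rfl
    exact hα₀ (dvd_zero _)
  have hab1 : IsCoprime a b1 := by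
    have : b1 = b + a * (q * α₀) := by rw [hb1]; ring
    rw [this]
    exact IsCoprime.add_mul_left_right hab _
  have hb1p : IsCoprime b1 (p : ℤ) := ((Prime.coprime_iff_not_dvd hpi).2 hα₀).symm
  -- step 2
  obtain ⟨A, hA, hAp, hAd, hA1⟩ := moves_dir b1 hb10 a hab1 p hp hb1p (m + q + b1.natAbs + p + 2)
  obtain ⟨α₁, hα₁⟩ := hAd
  -- step 3
  obtain ⟨g, hg⟩ : ∃ g : ℕ, g = Int.gcd b1 q := ⟨_, rfl⟩
  have hgpos : 0 < g := by
    rw [hg]
    exact Int.gcd_pos_of_ne_zero_left _ hb10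
  have hgb : (g : ℤ) ∣ b1 := by rw [hg]; exact Int.gcd_dvd_left ..
  have hgq : (g : ℤ) ∣ (q : ℤ) := by rw [hg]; exact Int.gcd_dvd_right ..
  obtain ⟨b2, hb2⟩ := hgb
  obtain ⟨q2, hq2⟩ := hgq
  have hg0 : (g : ℤ) ≠ 0 := by exact_mod_cast hgpos.ne'
  have hcop : IsCoprime b2 q2 := by
    have h1 := Int.gcd_eq_gcd_ab b1 q
    rw [← hg] at h1
    refine ⟨Int.gcdA b1 q, Int.gcdB b1 q, ?_⟩
    apply mul_left_cancel₀ hg0
    rw [hb2, hq2] at h1
    rw [hb2, hq2]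
    linarith
  have hb20 : b2 ≠ 0 := by
    rintro rfl
    rw [mul_zero] at hb2
    exact hb10 hb2
  have hq20 : q2 ≠ 0 := by
    rintro rfl
    rw [mul_zero] at hq2
    have : q = 0 := by exact_mod_cast hq2
    omega
  have hAi : Prime (A : ℤ) := Nat.prime_iff_prime_int.1 hAp
  have hb2A : IsCoprime b2 (A : ℤ) := by
    refine ((Prime.coprime_iff_not_dvd hAi).2 fun h => ?_).symm
    have h1 : (A : ℤ) ∣ b1 := by rw [hb2]; exact Dvd.dvd.mul_left h _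
    have h2 := Int.natAbs_dvd_natAbs.2 h1
    have h3 := Nat.le_of_dvd (Int.natAbs_pos.2 hb10) h2
    simp at h3
    omega
  have hM0 : q2 * (A : ℤ) ≠ 0 := mul_ne_zero hq20 (by exact_mod_cast hAp.ne_zero)
  have hMp : IsCoprime (q2 * (A : ℤ)) (p : ℤ) := by
    refine IsCoprime.mul_left ?_ ?_
    · refine ((Prime.coprime_iff_not_dvd hpi).2 fun h => hqpi ?_).symm
      rw [hq2]
      exact Dvd.dvd.mul_left h _
    · refine ((Prime.coprime_iff_not_dvd hpi).2 fun h => ?_).symm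
      have h1 : p ∣ A := by exact_mod_cast h
      have h2 := (Nat.prime_dvd_prime_iff_eq hp hAp).1 h1
      omega
  obtain ⟨B, hB, hBp, hBd, hB1⟩ := moves_dir (q2 * A) hM0 b2 (hcop.mul_right hb2A) p hp hMp
    (m + q + 2)
  obtain ⟨α₂, hα₂⟩ := hBd
  refine ⟨α₀, α₁, α₂, A, B, g, hAp, hBp, ?_, hgpos, moves_coprime hAp hq (by omega),
    moves_coprime hBp hq (by omega), by omega, by omega, by omega, by omega, hA1, hB1, ?_, ?_⟩
  · exact Int.natCast_dvd_natCast.1 ⟨q2, hq2⟩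
  · rw [← hb1]
    linarith
  · rw [← hb1, hb2, hq2]
    linear_combination (-(g : ℤ)) * hα₂

end Pool.Agent.MP_21c19e_al
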