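import Mathlib

set_option autoImplicit false

/-!
Z21-Val (lifting the exponent). x := m^(2(p-1)) is 1 mod p (Fermat) and for p = 2 it is m^2 = 1 mod 4.
v_p(m^N - 1) ≤ v_p(m^(N*2(p-1)) - 1) = v_p(x^N - 1) = v_p(x - 1) + v_p(N)  (LTE, Mathlib:
padicValNat.pow_sub_pow for odd p, padicValNat.pow_two_sub_pow or Int.two_pow_sub_pow for p = 2).
C := v_p(x - 1).
-/

namespace Pool.Agent.MP_21c19e_al

theorem val_bound (p m : ℕ) (hp : p.Prime) (hm : 1 < m) (hpm : ¬ p ∣ m) :
    ∃ C : ℕ, ∀ N : ℕ, 0 < N → padicValNat p (m ^ N - 1) ≤ C + padicValNat p N := by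
  haveI : Fact p.Prime := ⟨hp⟩
  have key : ∀ k : ℕ, 0 < k → ∀ N : ℕ, 0 < N →
      padicValNat p (m ^ N - 1) ≤ padicValNat p (m ^ (k * N) - 1) := by
    intro k hk N hN
    have hdvd : m ^ N - 1 ∣ m ^ (k * N) - 1 := by
      have h := Nat.sub_dvd_pow_sub_pow (m ^ N) 1 k
      rwa [one_pow, ← pow_mul, mul_comm N k] at h
    have hne : m ^ (k * N) - 1 ≠ 0 := by
      have h1 : 1 < m ^ (k * N) := Nat.one_lt_pow (by positivity) hm
      omega
    have h2 : p ^ padicValNat p (m ^ N - 1) ∣ m ^ (k * N) - 1 := pow_padicValNat_dvd.trans hdvd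
    exact (padicValNat_dvd_iff_le hne).1 h2
  rcases hp.eq_two_or_odd' with h2 | hodd
  · subst h2
    refine ⟨padicValNat 2 (m + 1) + padicValNat 2 (m - 1), fun N hN => ?_⟩
    refine (key 2 (by norm_num) N hN).trans ?_
    have hxy : 2 ∣ m - 1 := by omega
    have h := padicValNat.pow_two_sub_pow hm hxy hpm (n := 2 * N) (by omega) (even_two_mul N)
    rw [one_pow, padicValNat.mul (by norm_num) (by omega), padicValNat.self (by norm_num)] at h
    omega
  · refine ⟨padicValNat p (m ^ (p - 1) - 1), fun N hN => ?_⟩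
    have hp1 : 0 < p - 1 := by have := hp.two_le; omega
    refine (key (p - 1) hp1 N hN).trans ?_
    have hx1 : 1 < m ^ (p - 1) := Nat.one_lt_pow (by omega) hm
    have hcop : Nat.Coprime m p := ((Nat.Prime.coprime_iff_not_dvd hp).2 hpm).symm
    have hmod : m ^ (p - 1) ≡ 1 [MOD p] := by
      have h := Nat.ModEq.pow_totient hcop
      rwa [Nat.totient_prime hp] at h
    have hxy : p ∣ m ^ (p - 1) - 1 := (Nat.modEq_iff_dvd' hx1.le).1 hmod.symm
    have hx : ¬ p ∣ m ^ (p - 1) := fun h => hpm (hp.dvd_of_dvd_pow h)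
    have h := padicValNat.pow_sub_pow hodd hx1 hxy hx (n := N) (by omega)
    rw [one_pow, ← pow_mul] at h
    exact h.le

end Pool.Agent.MP_21c19e_al
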