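import Pool.Agent.Lib.MP_21c19e_al.GroupPart
import Pool.Agent.Lib.MP_21c19e_al.Moves
import Pool.Agent.Lib.MP_21c19e_al.Val

set_option autoImplicit false

/-!
Z21-KeyProp. Every cusp (a:b) has a unipotent of H whose width has bounded p-adic size from below.
-/

namespace Pool.Agent.MP_21c19e_al

private theorem kp_pow (m n e : ℕ) (h : Nat.Coprime m n) (he : Nat.totient n ∣ e) :
    (n : ℤ) ∣ (m : ℤ) ^ e - 1 := by
  obtain ⟨t, rfl⟩ := he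
  have h1 : 1 ≡ m ^ (Nat.totient n * t) [MOD n] := by
    have h2 := (Nat.ModEq.pow_totient h).pow t
    rw [one_pow, ← pow_mul] at h2
    exact h2.symm
  have h3 := Nat.modEq_iff_dvd.mp h1
  push_cast at h3
  exact h3

private theorem kp_val (p m C0 φq k B : ℕ) (hp : p.Prime) (hm : 1 < m)
    (hC0 : ∀ N : ℕ, 0 < N → padicValNat p (m ^ N - 1) ≤ C0 + padicValNat p N)
    (hφ : 0 < φq) (hk : k = φq * (B - 1)) (hB : 2 < B) (hpB : ¬ (p ^ 2 ∣ B - 1)) :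
    1 ≤ (p : ℚ) ^ (C0 + padicValNat p φq + 2) * padicNorm p ((m : ℚ) ^ (2 * k) - 1) := by
  haveI : Fact p.Prime := ⟨hp⟩
  have hB1 : 0 < B - 1 := by omega
  have hkpos : 0 < k := by rw [hk]; positivity
  have h2k : 0 < 2 * k := by omega
  have hv := hC0 (2 * k) h2k
  have hvk : padicValNat p (2 * k) ≤ padicValNat p φq + 2 := by
    rw [hk, padicValNat.mul (by norm_num) (by positivity), padicValNat.mul hφ.ne' hB1.ne']
    have h2 : padicValNat p 2 ≤ 1 := by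
      by_cases h : p = 2
      · subst h
        simp
      · rw [padicValNat_primes h]
        exact Nat.zero_le _
    have h3 : padicValNat p (B - 1) ≤ 1 := by
      by_contra hcon
      push Not at hcon
      exact hpB ((padicValNat_dvd_iff_le hB1.ne').mpr hcon)
    omega
  have hpow1 : 1 < m ^ (2 * k) := Nat.one_lt_pow h2k.ne' hm
  have hne : m ^ (2 * k) - 1 ≠ 0 := by omega
  have hcast : (m : ℚ) ^ (2 * k) - 1 = ((m ^ (2 * k) - 1 : ℕ) : ℚ) := by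
    rw [Nat.cast_sub hpow1.le]
    push_cast
    ring
  have hp0 : (0 : ℚ) < p := by exact_mod_cast hp.pos
  have hp1 : (1 : ℚ) ≤ p := by exact_mod_cast hp.one_le
  rw [hcast, padicNorm.eq_zpow_of_nonzero (by exact_mod_cast hne), padicValRat.of_nat,
    ← zpow_natCast, ← zpow_add₀ hp0.ne']
  apply one_le_zpow₀ hp1
  push_cast
  have : (padicValNat p (m ^ (2 * k) - 1) : ℤ) ≤ (C0 + padicValNat p φq + 2 : ℕ) := by
    exact_mod_cast (by omega : padicValNat p (m ^ (2 * k) - 1) ≤ C0 + padicValNat p φq + 2)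
  push_cast at this
  linarith

theorem keyprop (p m q : ℕ) (hp : p.Prime) (hm : m.Prime) (hpm : p ≠ m) (hq : 0 < q)
    (hqp : Nat.Coprime q p) (hqm : Nat.Coprime q m) :
    ∃ C : ℕ, ∀ H : Subgroup G,
      (∀ (z : ℤ) (i : ℕ), up ((z : ℚ) / (m : ℚ) ^ i) ∈ H) →
      (∀ (z : ℤ) (i : ℕ), lo ((q : ℚ) * z / (m : ℚ) ^ i) ∈ H) →
      ∀ a b : ℤ, IsCoprime a b → ∃ c : ℚ, T a b c ∈ H ∧ 1 ≤ (p : ℚ) ^ C * padicNorm p c := by
  haveI : Fact p.Prime := ⟨hp⟩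
  have hpm' : ¬ p ∣ m := fun h => hpm ((Nat.prime_dvd_prime_iff_eq hp hm).mp h)
  obtain ⟨C0, hC0⟩ := val_bound p m hp hm.one_lt hpm'
  refine ⟨2 * (C0 + padicValNat p (Nat.totient q) + 2), fun H hU hL a b hab => ?_⟩
  obtain ⟨α₀, α₁, α₂, A, B, g, hA, hB, hgq, hg0, hAq, hBq, hAm, hBm, hA2, hB2, hpA, hpB, hmA, hmB⟩ :=
    moves p m q hp hm hq hqp a b hab
  have hφ : 0 < Nat.totient q := Nat.totient_pos.mpr hq
  have hmq : Nat.Coprime m q := hqm.symm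
  have hmA' : Nat.Coprime m A := (Nat.coprime_primes hm hA).mpr hAm.symm
  have hmB' : Nat.Coprime m B := (Nat.coprime_primes hm hB).mpr hBm.symm
  obtain ⟨k, hkdef⟩ : ∃ k, k = Nat.totient q * (B - 1) := ⟨_, rfl⟩
  obtain ⟨k', hkdef'⟩ : ∃ k', k' = Nat.totient q * (A - 1) := ⟨_, rfl⟩
  have hk : (q : ℤ) ∣ (m : ℤ) ^ k - 1 := kp_pow m q k hmq (by rw [hkdef]; exact dvd_mul_right _ _)
  have hkB : (B : ℤ) ∣ (m : ℤ) ^ k - 1 :=
    kp_pow m B k hmB' (by rw [hkdef, Nat.totient_prime hB]; exact dvd_mul_left _ _)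
  have hk'q : (q : ℤ) ∣ (m : ℤ) ^ k' - 1 :=
    kp_pow m q k' hmq (by rw [hkdef']; exact dvd_mul_right _ _)
  have hk'A : (A : ℤ) ∣ (m : ℤ) ^ k' - 1 :=
    kp_pow m A k' hmA' (by rw [hkdef', Nat.totient_prime hA]; exact dvd_mul_left _ _)
  have hgk : (g : ℤ) ∣ (m : ℤ) ^ k - 1 := (Int.natCast_dvd_natCast.mpr hgq).trans hk
  have hgB : IsCoprime (g : ℤ) (B : ℤ) := by
    rw [Int.isCoprime_iff_gcd_eq_one]
    exact (Nat.Coprime.coprime_dvd_right hgq hBq).symm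
  have hkb : ((g : ℤ) * B) ∣ (m : ℤ) ^ k - 1 := hgB.mul_dvd hgk hkB
  have hqA : IsCoprime (q : ℤ) (A : ℤ) := by
    rw [Int.isCoprime_iff_gcd_eq_one]
    exact hAq.symm
  have hk' : (q : ℤ) * (A : ℤ) ∣ (m : ℤ) ^ k' - 1 := hqA.mul_dvd hk'q hk'A
  have hA0 : (A : ℤ) ≠ 0 := by exact_mod_cast hA.ne_zero
  have hgB0 : ((g : ℤ) * B) ≠ 0 := mul_ne_zero (by exact_mod_cast hg0.ne') (by exact_mod_cast hB.ne_zero)
  have hT := T_mem H m q hm hq hU hL (A : ℤ) ((g : ℤ) * B) hA0 hgB0 k k' hk hkb hk'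
  obtain ⟨c, hc⟩ : ∃ c : ℚ, c = (((m : ℚ) ^ (2 * k) - 1) * ((m : ℚ) ^ (2 * k') - 1) /
      ((m : ℚ) ^ (2 * k) * ((A : ℤ) : ℚ) * (((g : ℤ) * B : ℤ) : ℚ))) := ⟨_, rfl⟩
  rw [← hc] at hT
  refine ⟨c, ?_, ?_⟩
  · -- move the cusp
    have hL0 : ∀ z : ℤ, lo ((q : ℚ) * z) ∈ H := fun z => by simpa using hL z 0
    have hU0 : ∀ z : ℤ, up ((z : ℚ)) ∈ H := fun z => by simpa using hU z 0
    have hγ : (lo ((q : ℚ) * α₂) * up (α₁ : ℚ) * lo ((q : ℚ) * α₀)) ∈ H :=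
      H.mul_mem (H.mul_mem (hL0 _) (hU0 _)) (hL0 _)
    have hconj := conj_T (lo ((q : ℚ) * α₂) * up (α₁ : ℚ) * lo ((q : ℚ) * α₀)) (a : ℚ) (b : ℚ) c
    have hmAq : (a : ℚ) + α₁ * (b + q * α₀ * a) = ((A : ℤ) : ℚ) := by exact_mod_cast hmA
    have hmBq : ((b : ℚ) + q * α₀ * a) + q * α₂ * ((A : ℤ) : ℚ) = (((g : ℤ) * B : ℤ) : ℚ) := by
      exact_mod_cast hmB
    have e1 : (lo ((q : ℚ) * α₂) * up (α₁ : ℚ) * lo ((q : ℚ) * α₀)).1 0 0 * (a : ℚ) +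
        (lo ((q : ℚ) * α₂) * up (α₁ : ℚ) * lo ((q : ℚ) * α₀)).1 0 1 * (b : ℚ) = ((A : ℤ) : ℚ) := by
      rw [← hmAq]
      simp only [mul00, mul01, mul10, mul11, lo00, lo01, lo10, lo11, up00, up01, up10, up11]
      ring
    have e2 : (lo ((q : ℚ) * α₂) * up (α₁ : ℚ) * lo ((q : ℚ) * α₀)).1 1 0 * (a : ℚ) +
        (lo ((q : ℚ) * α₂) * up (α₁ : ℚ) * lo ((q : ℚ) * α₀)).1 1 1 * (b : ℚ) =
        (((g : ℤ) * B : ℤ) : ℚ) := by
      rw [← hmBq, ← hmAq]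
      simp only [mul00, mul01, mul10, mul11, lo00, lo01, lo10, lo11, up00, up01, up10, up11]
      ring
    rw [e1, e2] at hconj
    have hfin : T (a : ℚ) (b : ℚ) c =
        (lo ((q : ℚ) * α₂) * up (α₁ : ℚ) * lo ((q : ℚ) * α₀))⁻¹ *
          T ((A : ℤ) : ℚ) (((g : ℤ) * B : ℤ) : ℚ) c *
          (lo ((q : ℚ) * α₂) * up (α₁ : ℚ) * lo ((q : ℚ) * α₀)) := by
      rw [← hconj]
      group
    rw [hfin]
    exact H.mul_mem (H.mul_mem (H.inv_mem hγ) hT) hγ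
  · have v1 := kp_val p m C0 (Nat.totient q) k B hp hm.one_lt hC0 hφ hkdef hB2 hpB
    have v2 := kp_val p m C0 (Nat.totient q) k' A hp hm.one_lt hC0 hφ hkdef' hA2 hpA
    have hden : padicNorm p ((m : ℚ) ^ (2 * k) * ((A : ℤ) : ℚ) * (((g : ℤ) * B : ℤ) : ℚ)) ≤ 1 := by
      have : (m : ℚ) ^ (2 * k) * ((A : ℤ) : ℚ) * (((g : ℤ) * B : ℤ) : ℚ) =
          (((m : ℤ) ^ (2 * k) * (A : ℤ) * ((g : ℤ) * B) : ℤ) : ℚ) := by push_cast; ring
      rw [this]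
      exact padicNorm.of_int _
    have hden0 : 0 < padicNorm p ((m : ℚ) ^ (2 * k) * ((A : ℤ) : ℚ) * (((g : ℤ) * B : ℤ) : ℚ)) := by
      apply lt_of_le_of_ne (padicNorm.nonneg _)
      refine (padicNorm.nonzero ?_).symm
      refine mul_ne_zero (mul_ne_zero (pow_ne_zero _ ?_) ?_) ?_
      · exact_mod_cast hm.ne_zero
      · exact_mod_cast hA0
      · exact_mod_cast hgB0
    have hnorm : padicNorm p ((m : ℚ) ^ (2 * k) - 1) * padicNorm p ((m : ℚ) ^ (2 * k') - 1) ≤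
        padicNorm p c := by
      rw [hc, padicNorm.div, padicNorm.mul, le_div_iff₀ hden0]
      exact mul_le_of_le_one_right (mul_nonneg (padicNorm.nonneg _) (padicNorm.nonneg _)) hden
    have hp0 : (0 : ℚ) < p := by exact_mod_cast hp.pos
    set C1 : ℕ := C0 + padicValNat p (Nat.totient q) + 2 with hC1
    calc (1 : ℚ) ≤ ((p : ℚ) ^ C1 * padicNorm p ((m : ℚ) ^ (2 * k) - 1)) *
          ((p : ℚ) ^ C1 * padicNorm p ((m : ℚ) ^ (2 * k') - 1)) := by nlinarith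
      _ = (p : ℚ) ^ (2 * C1) *
          (padicNorm p ((m : ℚ) ^ (2 * k) - 1) * padicNorm p ((m : ℚ) ^ (2 * k') - 1)) := by
          rw [two_mul, pow_add]; ring
      _ ≤ (p : ℚ) ^ (2 * C1) * padicNorm p c :=
          mul_le_mul_of_nonneg_left hnorm (pow_nonneg hp0.le _)

end Pool.Agent.MP_21c19e_al
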