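import Pool.Agent.Lib.MP_21c19e_al.ConfDefs
import Pool.Agent.Lib.MP_21c19e_al.ConfUnb

set_option autoImplicit false

/-!
MP_21c19e_al, logarithmic injectivity radius: definitions and sizes of matrices.
-/

namespace Pool.Agent.MP_21c19e_al.Conf

open Matrix

/-- Numerators and denominators at most `R`. -/
def HtLe (g : G) (R : ℕ) : Prop := ∀ i j : Fin 2, |(g.1 i j).num| ≤ (R : ℤ) ∧ (g.1 i j).den ≤ R

/-- The hypothesis: for arbitrarily large `n`, all conjugates of `H` by elements of `SL2(Z)` of size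
at most `2^n` contain a noncentral element of height at most `n^A`. -/
def LogHyp (H : Subgroup G) : Prop := ∃ A : ℕ, ∀ N : ℕ, ∃ n : ℕ, N ≤ n ∧ ∀ δ : D,
  (∀ i j : Fin 2, |δ.1 i j| ≤ (2 : ℤ) ^ n) → ∃ p : G, p ≠ 1 ∧ p ≠ -1 ∧ HtLe p (n ^ A) ∧
    (io δ)⁻¹ * p * io δ ∈ H

/-- The integral form of the hypothesis. -/
def LogPlus (H : Subgroup G) : Prop := ∃ B : ℕ, ∀ N : ℕ, ∃ n : ℕ, N ≤ n ∧ ∀ δ : D,
  (∀ i j : Fin 2, |δ.1 i j| ≤ (2 : ℤ) ^ n) → ∃ x : D, (∀ i j : Fin 2, |x.1 i j| ≤ (n : ℤ) ^ B) ∧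
    (io δ)⁻¹ * io x * io δ ∈ H ∧
    ((2 < x.1 0 0 + x.1 1 1 ∧ x.1 1 0 ≠ 0) ∨ ∃ m : ℤ, m ≠ 0 ∧ x = TR 1 0 m)

/-- Absolute values of entries at most `K`. -/
def Bd (g : G) (K : ℚ) : Prop := ∀ i j : Fin 2, |g.1 i j| ≤ K

theorem Bd_mul {g h : G} {a b : ℚ} (hg : Bd g a) (hh : Bd h b) : Bd (g * h) (2 * a * b) := by
  intro i j
  have e : (g * h).1 i j = g.1 i 0 * h.1 0 j + g.1 i 1 * h.1 1 j := mulR g h i j
  rw [e]
  have ha : 0 ≤ a := (abs_nonneg _).trans (hg 0 0)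
  calc |g.1 i 0 * h.1 0 j + g.1 i 1 * h.1 1 j| ≤ |g.1 i 0 * h.1 0 j| + |g.1 i 1 * h.1 1 j| :=
        abs_add_le _ _
    _ = |g.1 i 0| * |h.1 0 j| + |g.1 i 1| * |h.1 1 j| := by rw [abs_mul, abs_mul]
    _ ≤ a * b + a * b := by
        apply add_le_add
        · exact mul_le_mul (hg i 0) (hh 0 j) (abs_nonneg _) ha
        · exact mul_le_mul (hg i 1) (hh 1 j) (abs_nonneg _) ha
    _ = 2 * a * b := by ring

theorem Bd_mono {g : G} {a b : ℚ} (hg : Bd g a) (h : a ≤ b) : Bd g b := fun i j => (hg i j).trans h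

theorem Bd_inv {g : G} {a : ℚ} (hg : Bd g a) : Bd g⁻¹ a := by
  have h00 : |(g⁻¹).1 0 0| ≤ a := by rw [inv00]; exact hg 1 1
  have h11 : |(g⁻¹).1 1 1| ≤ a := by rw [inv11]; exact hg 0 0
  have h01 : |(g⁻¹).1 0 1| ≤ a := by rw [inv01, abs_neg]; exact hg 0 1
  have h10 : |(g⁻¹).1 1 0| ≤ a := by rw [inv10, abs_neg]; exact hg 1 0
  intro i j
  fin_cases i <;> fin_cases j <;> assumption

theorem Bd_up {x a : ℚ} (h1 : 1 ≤ a) (hx : |x| ≤ a) : Bd (up x) a := by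
  have h00 : |(up x).1 0 0| ≤ a := by rw [up00, abs_one]; exact h1
  have h11 : |(up x).1 1 1| ≤ a := by rw [up11, abs_one]; exact h1
  have h01 : |(up x).1 0 1| ≤ a := by rw [up01]; exact hx
  have h10 : |(up x).1 1 0| ≤ a := by rw [up10, abs_zero]; linarith
  intro i j
  fin_cases i <;> fin_cases j <;> assumption

theorem Bd_io {δ : D} {a : ℤ} (h : ∀ i j : Fin 2, |δ.1 i j| ≤ a) : Bd (io δ) a := by
  intro i j
  rw [io_ij]
  have := h i j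
  exact_mod_cast this

theorem of_Bd_io {δ : D} {a : ℤ} (h : Bd (io δ) a) : ∀ i j : Fin 2, |δ.1 i j| ≤ a := by
  intro i j
  have := h i j
  rw [io_ij] at this
  exact_mod_cast this

theorem Bd_of_HtLe {p : G} {R : ℕ} (h : HtLe p R) : Bd p R := by
  intro i j
  have h1 := (h i j).1
  set q := p.1 i j with hq
  have h2 : |q| = |(q.num : ℚ)| / q.den := by
    rw [← Rat.num_div_den q, abs_div]
    simp [Rat.num_div_den q]
  rw [h2]
  have h3 : (1 : ℚ) ≤ q.den := by exact_mod_cast q.den_pos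
  have h4 : |(q.num : ℚ)| ≤ R := by exact_mod_cast h1
  calc |(q.num : ℚ)| / q.den ≤ |(q.num : ℚ)| / 1 := by
        apply div_le_div_of_nonneg_left (abs_nonneg _) (by norm_num) h3
    _ ≤ R := by simpa using h4

/-- Exponentials beat polynomials. -/
theorem pow_le_two_pow_half (c : ℕ) : ∃ N : ℕ, ∀ n : ℕ, N ≤ n → n ^ c ≤ 2 ^ (n / 2) := by
  have h := isLittleO_pow_const_const_pow_of_one_lt (R := ℝ) (2 * c) (r := 2) (by norm_num)
  have h2 := h.bound (c := 1 / 2) (by norm_num)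
  obtain ⟨N, hN⟩ := Filter.eventually_atTop.1 h2
  refine ⟨N, ?_⟩
  intro n hn
  have h3 := hN n hn
  rw [Real.norm_of_nonneg (by positivity), Real.norm_of_nonneg (by positivity)] at h3
  have h4 : ((n ^ c : ℕ) : ℝ) ^ 2 * 2 ≤ 2 ^ n := by
    push_cast
    have : ((n : ℝ) ^ c) ^ 2 = (n : ℝ) ^ (2 * c) := by rw [← pow_mul, mul_comm]
    rw [this]; linarith
  have h5 : (n ^ c) ^ 2 * 2 ≤ 2 ^ n := by exact_mod_cast h4
  have h6 : 2 ^ n ≤ (2 ^ (n / 2)) ^ 2 * 2 := by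
    rw [← pow_mul, ← pow_succ]
    exact Nat.pow_le_pow_right (by norm_num) (by omega)
  have h7 : (n ^ c) ^ 2 ≤ (2 ^ (n / 2)) ^ 2 := by omega
  exact (Nat.pow_le_pow_iff_left (by norm_num)).1 h7

end Pool.Agent.MP_21c19e_al.Conf
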