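import Pool.Agent.Lib.MP_21c19e_al.LogPair
import Pool.Agent.Lib.MP_21c19e_al.ConfStrong

set_option autoImplicit false

/-!
MP_21c19e_al, logarithmic injectivity radius: infinitely many primes `l` for which `H ∩ SL2(Z)` maps
onto `SL2(Z/l)`.
-/

namespace Pool.Agent.MP_21c19e_al.Conf

open Matrix

/-- `K` and `SL2(Z)` have the same image modulo `N`. -/
def Onto (K : Subgroup D) (N : ℕ) : Prop := ∀ g : D, ∃ γ ∈ K, red N γ = red N g

theorem gen_of_two (l : ℕ) (hl : l.Prime) (n N : ℕ) (hN : N = l ^ (n + 1)) (K0 : Subgroup D)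
    (γ0 γ1 : D) (w0 w1 t : ℤ) (ht : ¬ ((l : ℤ) ∣ t)) (h0 : γ0 ∈ K0)
    (hγ0 : red N γ0 = red N (TR w0 w1 t)) (h1 : γ1 * γ0 * γ1⁻¹ ∈ K0)
    (hγ1 : ¬ ((l : ℤ) ∣ w0 * (γ1.1 1 0 * w0 + γ1.1 1 1 * w1) -
      w1 * (γ1.1 0 0 * w0 + γ1.1 0 1 * w1))) : Onto K0 N := by
  subst hN
  have : NeZero (l ^ (n + 1)) := ⟨pow_ne_zero _ hl.ne_zero⟩
  let K : Subgroup (Matrix.SpecialLinearGroup (Fin 2) (ZMod (l ^ (n + 1)))) :=
    K0.map (red (l ^ (n + 1)))
  obtain ⟨t', ht'⟩ := unit_of_not_dvd l hl n t ht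
  set W0 : ZMod (l ^ (n + 1)) := (w0 : ZMod (l ^ (n + 1))) with hW0
  set W1 : ZMod (l ^ (n + 1)) := (w1 : ZMod (l ^ (n + 1))) with hW1
  set X0 : ZMod (l ^ (n + 1)) := ((γ1.1 0 0 * w0 + γ1.1 0 1 * w1 : ℤ) : ZMod (l ^ (n + 1))) with hX0
  set X1 : ZMod (l ^ (n + 1)) := ((γ1.1 1 0 * w0 + γ1.1 1 1 * w1 : ℤ) : ZMod (l ^ (n + 1))) with hX1
  have hall : ∀ (a b : ZMod (l ^ (n + 1))), TR a b (t : ZMod (l ^ (n + 1))) ∈ K →
      ∀ r, TR a b r ∈ K := by
    intro a b hab r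
    have h2 := K.pow_mem hab ((t' * r).val)
    rw [TR_pow, ZMod.natCast_zmod_val, ← mul_assoc, ht', one_mul] at h2
    exact h2
  have hA : TR W0 W1 (t : ZMod (l ^ (n + 1))) ∈ K := by
    refine ⟨γ0, h0, ?_⟩
    rw [hγ0, red_TR]
  have hB : TR X0 X1 (t : ZMod (l ^ (n + 1))) ∈ K := by
    refine ⟨γ1 * γ0 * γ1⁻¹, h1, ?_⟩
    rw [map_mul, map_mul, hγ0, map_inv, red_TR, conj_TR]
    simp only [red_ij, hX0, hX1]
    push_cast
    rfl
  obtain ⟨d', hd'⟩ := unit_of_not_dvd l hl n _ hγ1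
  have hd'' : (W0 * X1 - W1 * X0) * d' = 1 := by
    rw [← hd', hW0, hW1, hX0, hX1]; push_cast; ring
  -- change of basis
  let g0 : Matrix.SpecialLinearGroup (Fin 2) (ZMod (l ^ (n + 1))) :=
    ⟨!![W0, X0 * d'; W1, X1 * d'], by
      rw [Matrix.det_fin_two_of]; linear_combination hd''⟩
  have hg00 : g0.1 0 0 = W0 := rfl
  have hg01 : g0.1 0 1 = X0 * d' := rfl
  have hg10 : g0.1 1 0 = W1 := rfl
  have hg11 : g0.1 1 1 = X1 * d' := rfl
  have htop : K.comap (MulAut.conj g0).toMonoidHom = ⊤ := by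
    apply top_of_elem l hl n
    · intro r
      rw [Subgroup.mem_comap]
      have e : (MulAut.conj g0).toMonoidHom (TR 1 0 r) = TR W0 W1 r := by
        show g0 * TR 1 0 r * g0⁻¹ = _
        rw [conj_TR, hg00, hg01, hg10, hg11]
        congr 1 <;> ring
      rw [e]
      exact hall _ _ hA _
    · intro r
      rw [Subgroup.mem_comap]
      have e : (MulAut.conj g0).toMonoidHom (TR 0 1 r) = TR X0 X1 (d' ^ 2 * r) := by
        show g0 * TR 0 1 r * g0⁻¹ = _
        rw [conj_TR, hg00, hg01, hg10, hg11, ← TR_smul]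
        congr 1 <;> ring
      rw [e]
      exact hall _ _ hB _
  intro g
  have h2 : g0⁻¹ * red (l ^ (n + 1)) g * g0 ∈ K.comap (MulAut.conj g0).toMonoidHom := by
    rw [htop]; exact Subgroup.mem_top _
  rw [Subgroup.mem_comap] at h2
  have e : (MulAut.conj g0).toMonoidHom (g0⁻¹ * red (l ^ (n + 1)) g * g0) = red (l ^ (n + 1)) g := by
    show g0 * (g0⁻¹ * red (l ^ (n + 1)) g * g0) * g0⁻¹ = _
    group
  rw [e] at h2
  obtain ⟨γ, hγ, hγg⟩ := h2
  exact ⟨γ, hγ, hγg⟩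

/-- Two matrices with a common eigenvector. -/
theorem cdet_zero {F : Type*} [Field F] (x y : Matrix.SpecialLinearGroup (Fin 2) F) (w0 w1 : F)
    (hw : ¬ (w0 = 0 ∧ w1 = 0))
    (hx : w0 * (x.1 1 0 * w0 + x.1 1 1 * w1) - w1 * (x.1 0 0 * w0 + x.1 0 1 * w1) = 0)
    (hy : w0 * (y.1 1 0 * w0 + y.1 1 1 * w1) - w1 * (y.1 0 0 * w0 + y.1 0 1 * w1) = 0) :
    cdet x y = 0 := by
  unfold cdet
  set a := x.1 0 0
  set b := x.1 0 1
  set c := x.1 1 0
  set d := x.1 1 1
  set a' := y.1 0 0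
  set b' := y.1 0 1
  set c' := y.1 1 0
  set d' := y.1 1 1
  have e1 : w1 * ((c * (d' - a') - c' * (d - a)) * w0 + (b * c' - c * b') * w1) = 0 := by
    linear_combination c * hy - c' * hx
  have e2 : w0 * ((b * c' - c * b') * w0 + ((d' - a') * b - (d - a) * b') * w1) = 0 := by
    linear_combination -b' * hx + b * hy
  by_cases h1 : w1 = 0
  · have h0 : w0 ≠ 0 := fun h => hw ⟨h, h1⟩
    rw [h1] at hx hy e2
    have hc : c = 0 := by
      have : w0 * w0 * c = 0 := by linear_combination hx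
      exact (mul_eq_zero.1 this).resolve_left (mul_ne_zero h0 h0)
    have hc' : c' = 0 := by
      have : w0 * w0 * c' = 0 := by linear_combination hy
      exact (mul_eq_zero.1 this).resolve_left (mul_ne_zero h0 h0)
    rw [hc, hc']; ring
  · by_cases h0 : w0 = 0
    · rw [h0] at hx hy
      have hb : b = 0 := by
        have : w1 * w1 * b = 0 := by linear_combination -hx
        exact (mul_eq_zero.1 this).resolve_left (mul_ne_zero h1 h1)
      have hb' : b' = 0 := by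
        have : w1 * w1 * b' = 0 := by linear_combination -hy
        exact (mul_eq_zero.1 this).resolve_left (mul_ne_zero h1 h1)
      rw [hb, hb']; ring
    · have f1 := (mul_eq_zero.1 e1).resolve_left h1
      have f2 := (mul_eq_zero.1 e2).resolve_left h0
      have : w0 * (-(b * c' - c * b') ^ 2 -
          ((a - d) * b' - (a' - d') * b) * ((a' - d') * c - (a - d) * c')) = 0 := by
        linear_combination (-(b * c' - c * b')) * f2 + ((d' - a') * b - (d - a) * b') * f1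
      exact (mul_eq_zero.1 this).resolve_left h0

theorem exists_prime_elem (H : Subgroup G) (α β : D) (hα : io α ∈ H) (hβ : io β ∈ H)
    (htα : 2 < α.1 0 0 + α.1 1 1) (htβ : 2 < β.1 0 0 + β.1 1 1) (hc : cdet α β ≠ 0) (M : ℕ) :
    ∃ l : ℕ, l.Prime ∧ M < l ∧ ¬ ((l : ℤ) ∣ cdet α β) ∧ ∃ x : D, io x ∈ H ∧
      (l : ℤ) ∣ x.1 0 0 + x.1 1 1 + 2 ∧
      ¬ ((l : ℤ) ∣ x.1 0 0 + 1 ∧ (l : ℤ) ∣ x.1 0 1 ∧ (l : ℤ) ∣ x.1 1 0 ∧ (l : ℤ) ∣ x.1 1 1 + 1) := by
  set M' : ℕ := M + (cdet α β).natAbs + 3 with hM'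
  set τ : ℤ := β.1 0 0 + β.1 1 1 with hτ
  set K : ℕ := M'.factorial * (τ + 2).natAbs with hK
  have hτpos : 0 < τ + 2 := by linarith
  have hKpos : 0 < K := Nat.mul_pos (Nat.factorial_pos _) (Int.natAbs_pos.2 hτpos.ne')
  have : NeZero K := ⟨hKpos.ne'⟩
  obtain ⟨s, hs⟩ : ∃ s, Nat.card (Matrix.SpecialLinearGroup (Fin 2) (ZMod K)) = s + 1 :=
    Nat.exists_eq_succ_of_ne_zero Nat.card_pos.ne'
  set a : D := α ^ (s + 1) with ha
  have hra : red K a = 1 := by rw [ha, map_pow, ← hs, pow_card_eq_one']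
  have hta : 2 < a.1 0 0 + a.1 1 1 := tr_pow α htα s
  have haH : io a ∈ H := by rw [ha, map_pow]; exact H.pow_mem hα _
  -- choose the sign
  have hsum : (a * β).1 0 0 + (a * β).1 1 1 + ((a⁻¹ * β).1 0 0 + (a⁻¹ * β).1 1 1) =
      (a.1 0 0 + a.1 1 1) * τ := by
    rw [hτ]
    simp only [mulR, invR00, invR01, invR10, invR11]
    ring
  have hch : ∃ a' : D, io a' ∈ H ∧ red K a' = 1 ∧ α * a' = a' * α ∧
      (a' * β).1 0 0 + (a' * β).1 1 1 ≠ τ := by
    have hcom : α * a = a * α := by rw [ha]; exact (Commute.self_pow α (s + 1)).eq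
    by_cases h1 : (a * β).1 0 0 + (a * β).1 1 1 = τ
    · refine ⟨a⁻¹, ?_, ?_, ?_, ?_⟩
      · rw [map_inv]; exact H.inv_mem haH
      · rw [map_inv, hra, inv_one]
      · exact (Commute.inv_right hcom).eq
      · intro h2
        rw [h1, h2] at hsum
        have h4 : (a.1 0 0 + a.1 1 1 - 2) * τ = 0 := by linarith
        rcases mul_eq_zero.1 h4 with h5 | h5 <;> linarith
    · exact ⟨a, haH, hra, hcom, h1⟩
  obtain ⟨a', ha'H, hra', hcom, hne⟩ := hch
  have hredx : red K (a' * β) = red K β := by rw [map_mul, hra', one_mul]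
  obtain ⟨e00, h00⟩ := red_eq hredx 0 0
  obtain ⟨e11, h11⟩ := red_eq hredx 1 1
  set x : D := a' * β with hx
  set z : ℤ := e00 + e11 with hz
  have hKz : (K : ℤ) = (M'.factorial : ℤ) * (τ + 2) := by
    rw [hK]; push_cast
    rw [abs_of_pos hτpos]
  have htx : x.1 0 0 + x.1 1 1 + 2 = (τ + 2) * (1 + M'.factorial * z) := by
    rw [h00, h11, hKz, hτ, hz]; ring
  have hz0 : z ≠ 0 := by
    intro h0
    rw [h0] at htx
    apply hne
    linarith
  have hfac : (6 : ℤ) ≤ M'.factorial := by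
    have h1 : Nat.factorial 3 ≤ M'.factorial := Nat.factorial_le (by omega)
    have h2 : Nat.factorial 3 = 6 := rfl
    have h3 : 6 ≤ M'.factorial := by omega
    exact_mod_cast h3
  have hne1 : (1 + (M'.factorial : ℤ) * z).natAbs ≠ 1 := by
    intro h1
    rcases Int.natAbs_eq (1 + (M'.factorial : ℤ) * z) with h2 | h2
    · rw [h1] at h2
      push_cast at h2
      have h3 : (M'.factorial : ℤ) * z = 0 := by linarith
      rcases mul_eq_zero.1 h3 with h4 | h4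
      · omega
      · exact hz0 h4
    · rw [h1] at h2
      push_cast at h2
      have h3 : (M'.factorial : ℤ) * z = -2 := by linarith
      rcases lt_or_gt_of_ne hz0 with h4 | h4
      · nlinarith
      · nlinarith
  obtain ⟨l, hl, hld⟩ := Nat.exists_prime_and_dvd hne1
  have hld' : (l : ℤ) ∣ 1 + (M'.factorial : ℤ) * z := Int.natCast_dvd.2 hld
  have hlM : M' < l := by
    by_contra hcon
    push Not at hcon
    have h1 : l ∣ M'.factorial := (hl.dvd_factorial).2 hcon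
    have h2 : (l : ℤ) ∣ (M'.factorial : ℤ) * z :=
      dvd_mul_of_dvd_left (Int.natCast_dvd_natCast.2 h1) _
    have h3 := dvd_sub hld' h2
    rw [add_sub_cancel_right] at h3
    have h4 := Int.natCast_dvd_natCast.1 (by simpa using h3 : (l : ℤ) ∣ ((1 : ℕ) : ℤ))
    exact hl.one_lt.ne' (Nat.dvd_one.1 h4)
  have hlc : ¬ ((l : ℤ) ∣ cdet α β) := by
    intro h1
    have h2 : l ∣ (cdet α β).natAbs := Int.natCast_dvd.1 h1
    have h3 := Nat.le_of_dvd (Int.natAbs_pos.2 hc) h2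
    omega
  refine ⟨l, hl, by omega, hlc, x, ?_, ?_, ?_⟩
  · rw [hx, map_mul]; exact H.mul_mem ha'H hβ
  · rw [htx]; exact dvd_mul_of_dvd_right hld' _
  · rintro ⟨d00, d01, d10, d11⟩
    apply hlc
    have hcast : ∀ z : ℤ, (l : ℤ) ∣ z → ((z : ℤ) : ZMod l) = 0 := by
      intro z hz
      exact (ZMod.intCast_zmod_eq_zero_iff_dvd _ _).2 hz
    have c00 := hcast _ d00
    have c01 := hcast _ d01
    have c10 := hcast _ d10
    have c11 := hcast _ d11
    push_cast at c00 c01 c10 c11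
    have hβx : β = a'⁻¹ * x := by rw [hx]; group
    have b00 : ((β.1 0 0 : ℤ) : ZMod l) = -((a'.1 1 1 : ℤ) : ZMod l) := by
      rw [hβx, mulR, invR00, invR01]; push_cast
      linear_combination ((a'.1 1 1 : ℤ) : ZMod l) * c00 - ((a'.1 0 1 : ℤ) : ZMod l) * c10
    have b01 : ((β.1 0 1 : ℤ) : ZMod l) = ((a'.1 0 1 : ℤ) : ZMod l) := by
      rw [hβx, mulR, invR00, invR01]; push_cast
      linear_combination ((a'.1 1 1 : ℤ) : ZMod l) * c01 - ((a'.1 0 1 : ℤ) : ZMod l) * c11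
    have b10 : ((β.1 1 0 : ℤ) : ZMod l) = ((a'.1 1 0 : ℤ) : ZMod l) := by
      rw [hβx, mulR, invR10, invR11]; push_cast
      linear_combination (-((a'.1 1 0 : ℤ) : ZMod l)) * c00 + ((a'.1 0 0 : ℤ) : ZMod l) * c10
    have b11 : ((β.1 1 1 : ℤ) : ZMod l) = -((a'.1 0 0 : ℤ) : ZMod l) := by
      rw [hβx, mulR, invR10, invR11]; push_cast
      linear_combination (-((a'.1 1 0 : ℤ) : ZMod l)) * c01 + ((a'.1 0 0 : ℤ) : ZMod l) * c11
    have k00 : (α * a').1 0 0 = (a' * α).1 0 0 := by rw [hcom]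
    have k01 : (α * a').1 0 1 = (a' * α).1 0 1 := by rw [hcom]
    have k10 : (α * a').1 1 0 = (a' * α).1 1 0 := by rw [hcom]
    rw [mulR, mulR] at k00 k01 k10
    have f00 : α.1 0 1 * a'.1 1 0 - α.1 1 0 * a'.1 0 1 = 0 := by linear_combination k00
    have f01 : (α.1 0 0 - α.1 1 1) * a'.1 0 1 - (a'.1 0 0 - a'.1 1 1) * α.1 0 1 = 0 := by
      linear_combination k01
    have g00 := congrArg (fun z : ℤ => (z : ZMod l)) f00
    have g01 := congrArg (fun z : ℤ => (z : ZMod l)) f01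
    push_cast at g00 g01
    rw [← ZMod.intCast_zmod_eq_zero_iff_dvd]
    unfold cdet
    push_cast
    rw [b00, b01, b10, b11]
    have e1 : ((α.1 0 1 : ℤ) : ZMod l) * ((a'.1 1 0 : ℤ) : ZMod l) -
        ((α.1 1 0 : ℤ) : ZMod l) * ((a'.1 0 1 : ℤ) : ZMod l) = 0 := g00
    have e2 : (((α.1 0 0 : ℤ) : ZMod l) - ((α.1 1 1 : ℤ) : ZMod l)) * ((a'.1 0 1 : ℤ) : ZMod l) -
        (-((a'.1 1 1 : ℤ) : ZMod l) - -((a'.1 0 0 : ℤ) : ZMod l)) * ((α.1 0 1 : ℤ) : ZMod l) = 0 := by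
      linear_combination g01
    rw [e1, e2]
    ring

/-- `H ∩ SL2(Z)` maps onto `SL2(Z/l)`. -/
theorem onto_prime (H : Subgroup G) (α β : D) (hα : io α ∈ H) (hβ : io β ∈ H) (l : ℕ)
    (hl : l.Prime) (hl2 : 2 < l) (hc : ¬ ((l : ℤ) ∣ cdet α β)) (x : D) (hx : io x ∈ H)
    (htr : (l : ℤ) ∣ x.1 0 0 + x.1 1 1 + 2)
    (hne : ¬ ((l : ℤ) ∣ x.1 0 0 + 1 ∧ (l : ℤ) ∣ x.1 0 1 ∧ (l : ℤ) ∣ x.1 1 0 ∧
      (l : ℤ) ∣ x.1 1 1 + 1)) : Onto (H.comap io) l := by
  have hp : Prime (l : ℤ) := Nat.prime_iff_prime_int.1 hl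
  have : Fact l.Prime := ⟨hl⟩
  have hdet := detR x
  -- the unipotent
  have hw : ∃ w0 w1 t : ℤ, ¬ ((l : ℤ) ∣ t) ∧ ¬ ((l : ℤ) ∣ w0 ∧ (l : ℤ) ∣ w1) ∧
      red l (x ^ 2) = red l (TR w0 w1 (2 * t)) := by
    have hd : (l : ℤ) ∣ (x.1 0 0 + 1) * (x.1 1 1 + 1) - x.1 0 1 * x.1 1 0 := by
      have e : (x.1 0 0 + 1) * (x.1 1 1 + 1) - x.1 0 1 * x.1 1 0 = x.1 0 0 + x.1 1 1 + 2 := by
        linear_combination hdet
      rw [e]; exact htr
    have hcast : ∀ z : ℤ, (l : ℤ) ∣ z → ((z : ℤ) : ZMod l) = 0 := fun z hz =>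
      (ZMod.intCast_zmod_eq_zero_iff_dvd _ _).2 hz
    have hdz := congrArg (fun z : ℤ => (z : ZMod l)) hdet
    push_cast at hdz
    have ct := hcast _ htr
    push_cast at ct
    by_cases h01 : (l : ℤ) ∣ x.1 0 1
    · have h1 : (l : ℤ) ∣ x.1 0 0 + 1 := by
        have e : (x.1 0 0 + 1) ^ 2 = (x.1 0 0 + 1) * (x.1 0 0 + x.1 1 1 + 2) -
            ((x.1 0 0 + 1) * (x.1 1 1 + 1) - x.1 0 1 * x.1 1 0) - x.1 0 1 * x.1 1 0 := by ring
        have h2 : (l : ℤ) ∣ (x.1 0 0 + 1) ^ 2 := by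
          rw [e]
          exact dvd_sub (dvd_sub (dvd_mul_of_dvd_right htr _) hd) (dvd_mul_of_dvd_left h01 _)
        exact hp.dvd_of_dvd_pow h2
      have h2 : (l : ℤ) ∣ x.1 1 1 + 1 := by
        have := dvd_sub htr h1
        have e : x.1 0 0 + x.1 1 1 + 2 - (x.1 0 0 + 1) = x.1 1 1 + 1 := by ring
        rwa [e] at this
      have h3 : ¬ ((l : ℤ) ∣ x.1 1 0) := fun h => hne ⟨h1, h01, h, h2⟩
      refine ⟨0, 1, x.1 1 0, h3, ?_, ?_⟩
      · rintro ⟨-, h4⟩
        exact hp.not_dvd_one h4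
      · have c1 := hcast _ h1
        have c2 := hcast _ h2
        have c3 := hcast _ h01
        push_cast at c1 c2 c3
        apply extR
        · simp only [red_ij, pow_two, mulR, TR00]; push_cast
          linear_combination (((x.1 0 0 : ℤ) : ZMod l) - 1) * c1 + ((x.1 1 0 : ℤ) : ZMod l) * c3
        · simp only [red_ij, pow_two, mulR, TR01]; push_cast
          linear_combination (((x.1 0 0 : ℤ) : ZMod l) + ((x.1 1 1 : ℤ) : ZMod l)) * c3
        · simp only [red_ij, pow_two, mulR, TR10]; push_cast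
          linear_combination ((x.1 1 0 : ℤ) : ZMod l) * (c1 + c2)
        · simp only [red_ij, pow_two, mulR, TR11]; push_cast
          linear_combination (((x.1 1 1 : ℤ) : ZMod l) - 1) * c2 + ((x.1 1 0 : ℤ) : ZMod l) * c3
    · -- inverse of the upper right entry
      have hco : IsCoprime (x.1 0 1) (l : ℤ) := ((Prime.coprime_iff_not_dvd hp).2 h01).symm
      obtain ⟨u, v, huv⟩ := hco
      refine ⟨1, -((x.1 0 0 + 1) * u), -(x.1 0 1), ?_, ?_, ?_⟩
      · rwa [dvd_neg]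
      · rintro ⟨h4, -⟩
        exact hp.not_dvd_one h4
      · have cu := congrArg (fun z : ℤ => (z : ZMod l)) huv
        push_cast at cu
        rw [ZMod.natCast_self, mul_zero, add_zero] at cu
        set A := ((x.1 0 0 : ℤ) : ZMod l)
        set B := ((x.1 0 1 : ℤ) : ZMod l)
        set C := ((x.1 1 0 : ℤ) : ZMod l)
        set E := ((x.1 1 1 : ℤ) : ZMod l)
        set U := ((u : ℤ) : ZMod l)
        have hE : E = -2 - A := by linear_combination ct
        rw [hE] at hdz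
        have hBC : B * C = -(A + 1) ^ 2 := by linear_combination -hdz
        have hC : C = -(A + 1) ^ 2 * U := by linear_combination U * hBC - C * cu
        apply extR
        · simp only [red_ij, pow_two, mulR, TR00]; push_cast
          show A * A + B * C = _
          linear_combination hBC + (2 * (A + 1)) * cu
        · simp only [red_ij, pow_two, mulR, TR01]; push_cast
          show A * B + B * E = _
          rw [hE]; ring
        · simp only [red_ij, pow_two, mulR, TR10]; push_cast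
          show C * A + E * C = _
          rw [hE, hC]
          linear_combination (-2 * (A + 1) ^ 2 * U) * cu
        · simp only [red_ij, pow_two, mulR, TR11]; push_cast
          show C * B + E * E = _
          rw [hE]
          linear_combination hBC + (-2 * (A + 1)) * cu
  obtain ⟨w0, w1, t, ht, hw, hred⟩ := hw
  -- one of the two moves the line
  have hmove : ∃ σ : D, io σ ∈ H ∧ ¬ ((l : ℤ) ∣ w0 * (σ.1 1 0 * w0 + σ.1 1 1 * w1) -
      w1 * (σ.1 0 0 * w0 + σ.1 0 1 * w1)) := by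
    by_contra hcon
    push Not at hcon
    apply hc
    have hxa := (ZMod.intCast_zmod_eq_zero_iff_dvd _ _).2 (hcon α hα)
    have hya := (ZMod.intCast_zmod_eq_zero_iff_dvd _ _).2 (hcon β hβ)
    push_cast at hxa hya
    have h0 := cdet_zero (red l α) (red l β) (w0 : ZMod l) w1 (by
      rintro ⟨h1, h2⟩
      exact hw ⟨(ZMod.intCast_zmod_eq_zero_iff_dvd _ _).1 h1,
        (ZMod.intCast_zmod_eq_zero_iff_dvd _ _).1 h2⟩) (by simpa only [red_ij] using hxa)
      (by simpa only [red_ij] using hya)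
    rw [← ZMod.intCast_zmod_eq_zero_iff_dvd, ← h0]
    unfold cdet
    simp only [red_ij]
    push_cast
    ring
  obtain ⟨σ, hσ, hσ2⟩ := hmove
  have h2 : ¬ ((l : ℤ) ∣ 2 * t) := by
    intro h
    rcases hp.dvd_or_dvd h with h1 | h1
    · have := Int.le_of_dvd (by norm_num) h1
      omega
    · exact ht h1
  have hx2 : x ^ 2 ∈ H.comap io := by
    rw [Subgroup.mem_comap, map_pow]; exact H.pow_mem hx 2
  exact gen_of_two l hl 0 l (by simp) (H.comap io) (x ^ 2) σ w0 w1 (2 * t) h2 hx2 hred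
    ((H.comap io).mul_mem ((H.comap io).mul_mem hσ hx2) ((H.comap io).inv_mem hσ)) hσ2

end Pool.Agent.MP_21c19e_al.Conf
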