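import Pool.Agent.Lib.MP_21c19e_al.LogMain

set_option autoImplicit false

/-!
MP_21c19e_al, logarithmic injectivity radius: from a finite-index subgroup to all of `SL2(Z)`.
-/

namespace Pool.Agent.MP_21c19e_al.Conf

open Matrix

/-- The hypothesis for conjugates by a subgroup of `SL2(Z)`. -/
def LogHypL (H : Subgroup G) (L : Subgroup D) : Prop := ∃ A : ℕ, ∀ N : ℕ, ∃ n : ℕ, N ≤ n ∧
  ∀ δ ∈ L, (∀ i j : Fin 2, |δ.1 i j| ≤ (2 : ℤ) ^ n) → ∃ p : G, p ≠ 1 ∧ p ≠ -1 ∧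
    HtLe p (n ^ A) ∧ (io δ)⁻¹ * p * io δ ∈ H

theorem den_le_of_mul (q : ℚ) (N : ℕ) (hN : 0 < N) (z : ℤ) (h : (N : ℚ) * q = z) : q.den ≤ N := by
  apply Nat.le_of_dvd hN
  have hN0 : (N : ℚ) ≠ 0 := by exact_mod_cast hN.ne'
  have h1 : q = (z : ℚ) / ((N : ℤ) : ℚ) := by
    rw [Int.cast_natCast]; field_simp; linarith
  rw [h1]
  have := Rat.den_dvd z (N : ℤ)
  rw [← Rat.divInt_eq_div]
  exact_mod_cast this

theorem HtLe_of (g : G) (N : ℕ) (hN : 0 < N) (K : ℕ) (hint : ∀ i j : Fin 2, ∃ z : ℤ,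
    (N : ℚ) * g.1 i j = z) (hB : Bd g K) (M : ℕ) (h1 : N ≤ M) (h2 : N * K ≤ M) : HtLe g M := by
  intro i j
  obtain ⟨z, hz⟩ := hint i j
  have hd := den_le_of_mul _ N hN z hz
  refine ⟨?_, hd.trans h1⟩
  set q := g.1 i j with hq
  have h3 : (q.num : ℚ) = q.den * q := (den_mul q).symm
  have h4 : |(q.num : ℚ)| ≤ N * K := by
    rw [h3, abs_mul]
    apply mul_le_mul _ (hB i j) (abs_nonneg _) (Nat.cast_nonneg _)
    rw [abs_of_nonneg (Nat.cast_nonneg _)]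
    exact_mod_cast hd
  have h5 : |(q.num : ℚ)| ≤ M := h4.trans (by exact_mod_cast h2)
  exact_mod_cast h5

theorem common_den_le (g : G) (R : ℕ) (h : HtLe g R) : ∃ N : ℕ, 0 < N ∧ N ≤ R ^ 4 ∧
    ∀ i j : Fin 2, ∃ z : ℤ, (N : ℚ) * g.1 i j = z := by
  refine ⟨(g.1 0 0).den * (g.1 0 1).den * ((g.1 1 0).den * (g.1 1 1).den), ?_, ?_, ?_⟩
  · exact Nat.mul_pos (Nat.mul_pos (Rat.den_pos _) (Rat.den_pos _))
      (Nat.mul_pos (Rat.den_pos _) (Rat.den_pos _))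
  · calc (g.1 0 0).den * (g.1 0 1).den * ((g.1 1 0).den * (g.1 1 1).den) ≤ (R * R) * (R * R) :=
        Nat.mul_le_mul (Nat.mul_le_mul (h 0 0).2 (h 0 1).2) (Nat.mul_le_mul (h 1 0).2 (h 1 1).2)
      _ = R ^ 4 := by ring
  · have key : ∀ (q : ℚ) (N : ℕ), q.den ∣ N → ∃ z : ℤ, (N : ℚ) * q = z := by
      intro q N hq
      obtain ⟨t, ht⟩ := hq
      refine ⟨t * q.num, ?_⟩
      rw [ht]
      push_cast
      linear_combination (t : ℚ) * den_mul q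
    have k00 := key (g.1 0 0) ((g.1 0 0).den * (g.1 0 1).den * ((g.1 1 0).den * (g.1 1 1).den))
      ((dvd_mul_right _ _).mul_right _)
    have k01 := key (g.1 0 1) ((g.1 0 0).den * (g.1 0 1).den * ((g.1 1 0).den * (g.1 1 1).den))
      ((dvd_mul_left _ _).mul_right _)
    have k10 := key (g.1 1 0) ((g.1 0 0).den * (g.1 0 1).den * ((g.1 1 0).den * (g.1 1 1).den))
      ((dvd_mul_right _ _).mul_left _)
    have k11 := key (g.1 1 1) ((g.1 0 0).den * (g.1 0 1).den * ((g.1 1 0).den * (g.1 1 1).den))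
      ((dvd_mul_left _ _).mul_left _)
    intro i j
    fin_cases i <;> fin_cases j <;> assumption

/-- Conjugating by an integral matrix multiplies heights polynomially. -/
theorem HtLe_conj (σ : D) (S R : ℕ) (hS : Bd (io σ) S) (hS1 : 1 ≤ S) (hR1 : 1 ≤ R) (p : G)
    (hp : HtLe p R) : HtLe (io σ * p * (io σ)⁻¹) (4 * S ^ 2 * R ^ 5) := by
  obtain ⟨N, hN, hNR, hint⟩ := common_den_le p R hp
  have hR4 : 1 ≤ R ^ 4 := Nat.one_le_pow _ _ hR1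
  have hS2 : 1 ≤ S ^ 2 := Nat.one_le_pow _ _ hS1
  apply HtLe_of _ N hN (4 * S ^ 2 * R)
  · obtain ⟨a, ha⟩ := hint 0 0
    obtain ⟨b, hb⟩ := hint 0 1
    obtain ⟨c, hc⟩ := hint 1 0
    obtain ⟨d, hd⟩ := hint 1 1
    have k00 : ∃ z : ℤ, (N : ℚ) * (io σ * p * (io σ)⁻¹).1 0 0 = z := by
      refine ⟨(σ.1 0 0 * a + σ.1 0 1 * c) * σ.1 1 1 - (σ.1 0 0 * b + σ.1 0 1 * d) * σ.1 1 0, ?_⟩
      rw [mul00, mul00, mul01, inv00, inv10, io_ij, io_ij, io_ij, io_ij]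
      push_cast
      rw [← ha, ← hb, ← hc, ← hd]; ring
    have k01 : ∃ z : ℤ, (N : ℚ) * (io σ * p * (io σ)⁻¹).1 0 1 = z := by
      refine ⟨-((σ.1 0 0 * a + σ.1 0 1 * c) * σ.1 0 1) + (σ.1 0 0 * b + σ.1 0 1 * d) * σ.1 0 0, ?_⟩
      rw [mul01, mul00, mul01, inv01, inv11, io_ij, io_ij]
      push_cast
      rw [← ha, ← hb, ← hc, ← hd]; ring
    have k10 : ∃ z : ℤ, (N : ℚ) * (io σ * p * (io σ)⁻¹).1 1 0 = z := by
      refine ⟨(σ.1 1 0 * a + σ.1 1 1 * c) * σ.1 1 1 - (σ.1 1 0 * b + σ.1 1 1 * d) * σ.1 1 0, ?_⟩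
      rw [mul10, mul10, mul11, inv00, inv10, io_ij, io_ij]
      push_cast
      rw [← ha, ← hb, ← hc, ← hd]; ring
    have k11 : ∃ z : ℤ, (N : ℚ) * (io σ * p * (io σ)⁻¹).1 1 1 = z := by
      refine ⟨-((σ.1 1 0 * a + σ.1 1 1 * c) * σ.1 0 1) + (σ.1 1 0 * b + σ.1 1 1 * d) * σ.1 0 0, ?_⟩
      rw [mul11, mul10, mul11, inv01, inv11, io_ij, io_ij, io_ij, io_ij]
      push_cast
      rw [← ha, ← hb, ← hc, ← hd]; ring
    intro i j
    fin_cases i <;> fin_cases j <;> assumption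
  · apply Bd_mono (Bd_mul (Bd_mul hS (Bd_of_HtLe hp)) (Bd_inv hS))
    apply le_of_eq
    push_cast
    ring
  · calc N ≤ R ^ 4 := hNR
      _ ≤ R ^ 5 := Nat.pow_le_pow_right hR1 (by norm_num)
      _ = 1 * R ^ 5 := by ring
      _ ≤ 4 * S ^ 2 * R ^ 5 := Nat.mul_le_mul_right _ (by omega)
  · calc N * (4 * S ^ 2 * R) ≤ R ^ 4 * (4 * S ^ 2 * R) := Nat.mul_le_mul_right _ hNR
      _ = 4 * S ^ 2 * R ^ 5 := by ring

theorem loghyp_of_index (H : Subgroup G) (L : Subgroup D) [L.FiniteIndex] (h : LogHypL H L) :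
    LogHyp H := by
  classical
  obtain ⟨A, hA⟩ := h
  have hfin : Finite (D ⧸ L) := inferInstance
  have hft : Fintype (D ⧸ L) := Fintype.ofFinite _
  -- a bound for the representatives
  obtain ⟨S, hS1, hS⟩ : ∃ S : ℕ, 1 ≤ S ∧ ∀ s : D ⧸ L, Bd (io s.out) S := by
    let m : D → ℕ := fun δ => (δ.1 0 0).natAbs + (δ.1 0 1).natAbs + (δ.1 1 0).natAbs +
      (δ.1 1 1).natAbs
    refine ⟨1 + ∑ s : D ⧸ L, m s.out, by omega, ?_⟩
    intro s
    have h1 : m s.out ≤ ∑ s : D ⧸ L, m s.out :=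
      Finset.single_le_sum (f := fun s : D ⧸ L => m s.out) (fun _ _ => Nat.zero_le _)
        (Finset.mem_univ s)
    have h2 : ∀ i j : Fin 2, |s.out.1 i j| ≤ ((1 + ∑ s : D ⧸ L, m s.out : ℕ) : ℤ) := by
      have a00 : |s.out.1 0 0| ≤ ((1 + ∑ s : D ⧸ L, m s.out : ℕ) : ℤ) := by
        rw [Int.abs_eq_natAbs]; simp only [m] at h1 ⊢; omega
      have a01 : |s.out.1 0 1| ≤ ((1 + ∑ s : D ⧸ L, m s.out : ℕ) : ℤ) := by
        rw [Int.abs_eq_natAbs]; simp only [m] at h1 ⊢; omega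
      have a10 : |s.out.1 1 0| ≤ ((1 + ∑ s : D ⧸ L, m s.out : ℕ) : ℤ) := by
        rw [Int.abs_eq_natAbs]; simp only [m] at h1 ⊢; omega
      have a11 : |s.out.1 1 1| ≤ ((1 + ∑ s : D ⧸ L, m s.out : ℕ) : ℤ) := by
        rw [Int.abs_eq_natAbs]; simp only [m] at h1 ⊢; omega
      intro i j
      fin_cases i <;> fin_cases j <;> assumption
    have := Bd_io h2
    exact_mod_cast this
  refine ⟨2 * (5 * A + 1), ?_⟩
  intro N
  obtain ⟨n, hn, hδ⟩ := hA (2 * N + 8 * S ^ 2 + 8)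
  have hn1 : 1 ≤ n := by omega
  refine ⟨n / 2, by omega, ?_⟩
  intro δ hδ2
  set s : D ⧸ L := QuotientGroup.mk δ with hs
  set σ : D := s.out with hσ
  have hm : σ⁻¹ * δ ∈ L := by
    have : (QuotientGroup.mk σ : D ⧸ L) = QuotientGroup.mk δ := by
      rw [hσ, ← hs]; exact Quotient.out_eq' _
    exact QuotientGroup.eq.1 this
  have hSσ : Bd (io σ) S := hS s
  have hpow : 2 * S ≤ 2 ^ (n / 2) := by
    have h1 : n / 2 < 2 ^ (n / 2) := Nat.lt_two_pow_self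
    have h2 : S ≤ S ^ 2 := by nlinarith
    omega
  have hsize : ∀ i j : Fin 2, |(σ⁻¹ * δ).1 i j| ≤ (2 : ℤ) ^ n := by
    apply of_Bd_io
    rw [map_mul, map_inv]
    have h1 : Bd (io δ) (((2 : ℤ) ^ (n / 2) : ℤ) : ℚ) := Bd_io hδ2
    apply Bd_mono (Bd_mul (Bd_inv hSσ) h1)
    have h2 : 2 * S * 2 ^ (n / 2) ≤ 2 ^ n := by
      calc 2 * S * 2 ^ (n / 2) ≤ 2 ^ (n / 2) * 2 ^ (n / 2) := Nat.mul_le_mul_right _ hpow
        _ = 2 ^ (n / 2 + n / 2) := by rw [pow_add]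
        _ ≤ 2 ^ n := Nat.pow_le_pow_right (by norm_num) (by omega)
    push_cast
    exact_mod_cast h2
  obtain ⟨p, hp1, hpm, hht, hpH⟩ := hδ _ hm hsize
  refine ⟨io σ * p * (io σ)⁻¹, ?_, ?_, ?_, ?_⟩
  · intro e
    apply hp1
    have : p = (io σ)⁻¹ * (io σ * p * (io σ)⁻¹) * io σ := by group
    rw [this, e]; group
  · intro e
    apply hpm
    have : p = (io σ)⁻¹ * (io σ * p * (io σ)⁻¹) * io σ := by group
    rw [this, e]
    simp
  · have hR1 : 1 ≤ n ^ A := Nat.one_le_pow _ _ hn1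
    have h1 := HtLe_conj σ S (n ^ A) hSσ hS1 hR1 p hht
    have h2 : 4 * S ^ 2 * (n ^ A) ^ 5 ≤ (n / 2) ^ (2 * (5 * A + 1)) := by
      have h3 : n ≤ (n / 2) ^ 2 := by
        have h5 : 3 ≤ n / 2 := by omega
        have h6 : n ≤ 3 * (n / 2) := by omega
        calc n ≤ 3 * (n / 2) := h6
          _ ≤ (n / 2) * (n / 2) := Nat.mul_le_mul_right _ h5
          _ = (n / 2) ^ 2 := by ring
      calc 4 * S ^ 2 * (n ^ A) ^ 5 ≤ n * (n ^ A) ^ 5 := Nat.mul_le_mul_right _ (by omega)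
        _ = n ^ (5 * A + 1) := by ring
        _ ≤ ((n / 2) ^ 2) ^ (5 * A + 1) := Nat.pow_le_pow_left h3 _
        _ = (n / 2) ^ (2 * (5 * A + 1)) := by rw [← pow_mul]
    intro i j
    obtain ⟨k1, k2⟩ := h1 i j
    exact ⟨k1.trans (by exact_mod_cast h2), k2.trans h2⟩
  · have : (io δ)⁻¹ * (io σ * p * (io σ)⁻¹) * io δ =
        (io (σ⁻¹ * δ))⁻¹ * p * io (σ⁻¹ * δ) := by
      rw [map_mul, map_inv]
      group
    rw [this]
    exact hpH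

theorem top_of_loghypL (H : Subgroup G) (hZ : ZDense H) (hq : NoQuot H) (L : Subgroup D)
    [L.FiniteIndex] (hL : LogHypL H L) : H = ⊤ :=
  top_of_loghyp H hZ hq (loghyp_of_index H L hL)

end Pool.Agent.MP_21c19e_al.Conf
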