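import Pool.Agent.Lib.MP_21c19e_al.LogDefs
import Pool.Agent.Lib.MP_21c19e_al.Final

set_option autoImplicit false

/-!
MP_21c19e_al, logarithmic injectivity radius: reduction to integral matrices.
-/

namespace Pool.Agent.MP_21c19e_al.Conf

open Matrix

/-- The numerators and denominators of a matrix. -/
def code (p : G) : (ℤ × ℕ) × (ℤ × ℕ) × (ℤ × ℕ) × (ℤ × ℕ) :=
  (((p.1 0 0).num, (p.1 0 0).den), ((p.1 0 1).num, (p.1 0 1).den),
    ((p.1 1 0).num, (p.1 1 0).den), ((p.1 1 1).num, (p.1 1 1).den))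

theorem code_inj {p q : G} (h : code p = code q) : p = q := by
  simp only [code, Prod.mk.injEq] at h
  obtain ⟨⟨h1, h2⟩, ⟨h3, h4⟩, ⟨h5, h6⟩, h7, h8⟩ := h
  exact ext4 (Rat.ext h1 h2) (Rat.ext h3 h4) (Rat.ext h5 h6) (Rat.ext h7 h8)

/-- The denominator used for `p`. -/
def dn (p : G) : ℕ := (p.1 0 0).den * (p.1 1 0).den

theorem dn_pos (p : G) : 0 < dn p := Nat.mul_pos (Rat.den_pos _) (Rat.den_pos _)

theorem den_mul (q : ℚ) : (q.den : ℚ) * q = q.num := by
  rw [mul_comm]; exact Rat.mul_den_eq_num q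

theorem dn_mul0 (p : G) : (dn p : ℚ) * p.1 0 0 = (((p.1 0 0).num * (p.1 1 0).den : ℤ) : ℚ) := by
  have := den_mul (p.1 0 0)
  unfold dn
  push_cast
  linear_combination ((p.1 1 0).den : ℚ) * this

theorem dn_mul1 (p : G) : (dn p : ℚ) * p.1 1 0 = (((p.1 1 0).num * (p.1 0 0).den : ℤ) : ℚ) := by
  have := den_mul (p.1 1 0)
  unfold dn
  push_cast
  linear_combination ((p.1 0 0).den : ℚ) * this

/-- One step of the reduction. -/
theorem reduce_step (H : Subgroup G) (δ : D) (R K : ℕ) (hR : 1 ≤ R)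
    (hK : K = ((2 * R + 1) * (R + 1)) ^ 4 * R ^ 4)
    (h : ∀ i : ℕ, i ≤ K → ∃ p : G, p ≠ 1 ∧ p ≠ -1 ∧ HtLe p R ∧
      (io (TR 1 0 (i : ℤ) * δ))⁻¹ * p * io (TR 1 0 (i : ℤ) * δ) ∈ H) :
    ∃ x : D, Bd (io x) (16 * (K + 1) ^ 3 * R ^ 2) ∧ (io δ)⁻¹ * io x * io δ ∈ H ∧
    ((2 < x.1 0 0 + x.1 1 1 ∧ x.1 1 0 ≠ 0) ∨ ∃ m : ℤ, m ≠ 0 ∧ x = TR 1 0 m) := by
  classical
  have hch : ∀ i : ℕ, ∃ p : G, i ≤ K → (p ≠ 1 ∧ p ≠ -1 ∧ HtLe p R ∧
      (io (TR 1 0 (i : ℤ) * δ))⁻¹ * p * io (TR 1 0 (i : ℤ) * δ) ∈ H) := by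
    intro i
    by_cases hi : i ≤ K
    · obtain ⟨p, hp⟩ := h i hi
      exact ⟨p, fun _ => hp⟩
    · exact ⟨1, fun hh => absurd hh hi⟩
  choose f hf using hch
  let S : Finset (ℤ × ℕ) := Finset.Icc (-(R : ℤ)) R ×ˢ Finset.range (R + 1)
  have hS : S.card = (2 * R + 1) * (R + 1) := by
    simp only [S, Finset.card_product, Int.card_Icc, Finset.card_range]
    congr 1
    omega
  let g : ℕ → ((ℤ × ℕ) × (ℤ × ℕ) × (ℤ × ℕ) × (ℤ × ℕ)) × ℕ := fun i =>
    (code (f i), i % (dn (f i)) ^ 2)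
  have hmem : ∀ q : ℚ, |q.num| ≤ (R : ℤ) ∧ q.den ≤ R → (q.num, q.den) ∈ S := by
    intro q hq
    simp only [S, Finset.mem_product, Finset.mem_Icc, Finset.mem_range]
    have := abs_le.1 hq.1
    exact ⟨this, by omega⟩
  have hmaps : ∀ i ∈ Finset.range (K + 1), g i ∈ (S ×ˢ (S ×ˢ (S ×ˢ S))) ×ˢ Finset.range (R ^ 4) := by
    intro i hi
    have hi' : i ≤ K := by
      have := Finset.mem_range.1 hi
      omega
    obtain ⟨-, -, hht, -⟩ := hf i hi'
    simp only [g, Finset.mem_product, code]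
    refine ⟨⟨hmem _ (hht 0 0), hmem _ (hht 0 1), hmem _ (hht 1 0), hmem _ (hht 1 1)⟩, ?_⟩
    rw [Finset.mem_range]
    have h1 : dn (f i) ≤ R ^ 2 := by
      unfold dn
      rw [pow_two]
      exact Nat.mul_le_mul (hht 0 0).2 (hht 1 0).2
    have h2 : (dn (f i)) ^ 2 ≤ R ^ 4 := by
      calc (dn (f i)) ^ 2 ≤ (R ^ 2) ^ 2 := Nat.pow_le_pow_left h1 2
        _ = R ^ 4 := by rw [← pow_mul]
    exact (Nat.mod_lt _ (pow_pos (dn_pos _) 2)).trans_le h2
  have hcard : ((S ×ˢ (S ×ˢ (S ×ˢ S))) ×ˢ Finset.range (R ^ 4)).card < (Finset.range (K + 1)).card := by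
    simp only [Finset.card_product, hS, Finset.card_range]
    rw [hK]
    have : (2 * R + 1) * (R + 1) * ((2 * R + 1) * (R + 1) * ((2 * R + 1) * (R + 1) *
      ((2 * R + 1) * (R + 1)))) * R ^ 4 = ((2 * R + 1) * (R + 1)) ^ 4 * R ^ 4 := by ring
    rw [this]
    exact Nat.lt_succ_self _
  obtain ⟨i, hi, j, hj, hij, hg⟩ := Finset.exists_ne_map_eq_of_card_lt_of_maps_to hcard hmaps
  have hi' : i ≤ K := by
    have := Finset.mem_range.1 hi
    omega
  have hj' : j ≤ K := by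
    have := Finset.mem_range.1 hj
    omega
  simp only [g, Prod.mk.injEq] at hg
  have hfe : f i = f j := code_inj hg.1
  obtain ⟨hp1, hpm, hht, hmi⟩ := hf i hi'
  obtain ⟨-, -, -, hmj⟩ := hf j hj'
  rw [← hfe] at hmj
  have hmod := hg.2
  rw [← hfe] at hmod
  set p := f i with hp
  set d := dn p with hd
  have hdpos : 0 < d := dn_pos p
  have hdQ : (d : ℚ) ≠ 0 := by exact_mod_cast hdpos.ne'
  obtain ⟨t, ht⟩ : ((d ^ 2 : ℕ) : ℤ) ∣ (i : ℤ) - j := by
    have := (Nat.modEq_iff_dvd (n := d ^ 2) (a := j) (b := i)).1 hmod.symm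
    exact this
  push_cast at ht
  have ht0 : t ≠ 0 := by
    rintro rfl
    apply hij
    have : (i : ℤ) = j := by linarith
    exact_mod_cast this
  set α : ℤ := (p.1 0 0).num * (p.1 1 0).den with hα
  set γ : ℤ := (p.1 1 0).num * (p.1 0 0).den with hγ
  have ha : (d : ℚ) * p.1 0 0 = α := dn_mul0 p
  have hc : (d : ℚ) * p.1 1 0 = γ := dn_mul1 p
  have hRQ : (1 : ℚ) ≤ R := by exact_mod_cast hR
  have hKQ : (1 : ℚ) ≤ (K : ℚ) + 1 := by
    have : (0 : ℚ) ≤ K := Nat.cast_nonneg _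
    linarith
  have hiQ : (i : ℚ) ≤ K := by exact_mod_cast hi'
  have hjQ : (j : ℚ) ≤ K := by exact_mod_cast hj'
  have hi0 : (0 : ℚ) ≤ i := Nat.cast_nonneg _
  have hj0 : (0 : ℚ) ≤ j := Nat.cast_nonneg _
  have hbig : (2 * (R : ℚ)) ≤ 16 * ((K : ℚ) + 1) ^ 3 * (R : ℚ) ^ 2 := by
    have h1 : (1 : ℚ) ≤ ((K : ℚ) + 1) ^ 3 := one_le_pow₀ hKQ
    nlinarith
  let X : D := TR 1 0 (-(i : ℤ)) * TR α γ t * TR 1 0 (j : ℤ)
  have hY : io (TR α γ t) = p * up ((i : ℚ) - j) * p⁻¹ := by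
    rw [← T_e1, conj_T, io_TR, ← ha, ← hc, T_smul]
    have ht' : ((i : ℚ) - j) = (d : ℚ) ^ 2 * t := by exact_mod_cast ht
    rw [ht']
    congr 1
    · ring
    · ring
  have hu : ∀ z : ℤ, io (TR 1 0 z) = up (z : ℚ) := by
    intro z; rw [io_TR, ← T_e1]; push_cast; rfl
  have hXio : io X = up (-(i : ℚ)) * p * up ((i : ℚ) - j) * p⁻¹ * up (j : ℚ) := by
    simp only [X, map_mul]
    rw [hu, hu, hY]
    push_cast
    group
  have hXH : (io δ)⁻¹ * io X * io δ ∈ H := by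
    have h3 := H.mul_mem hmi (H.inv_mem hmj)
    have : (io δ)⁻¹ * io X * io δ =
        (io (TR 1 0 (i : ℤ) * δ))⁻¹ * p * io (TR 1 0 (i : ℤ) * δ) *
          ((io (TR 1 0 (j : ℤ) * δ))⁻¹ * p * io (TR 1 0 (j : ℤ) * δ))⁻¹ := by
      rw [hXio, map_mul, map_mul, hu, hu]
      push_cast
      have e1 : up ((i : ℚ) - j) = up (i : ℚ) * (up (j : ℚ))⁻¹ := by
        rw [up_inv, up_mul, sub_eq_add_neg]
      have e2 : up (-(i : ℚ)) = (up (i : ℚ))⁻¹ := by rw [up_inv]
      rw [e1, e2]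
      group
    rw [this]
    exact h3
  have hBdX : Bd (io X) (16 * (K + 1) ^ 3 * R ^ 2) := by
    rw [hXio]
    have hp0 : Bd p R := Bd_of_HtLe hht
    have b1 : Bd (up (-(i : ℚ))) ((K : ℚ) + 1) := by
      apply Bd_up hKQ
      rw [abs_neg, abs_of_nonneg hi0]; linarith
    have b2 : Bd (up ((i : ℚ) - j)) ((K : ℚ) + 1) := by
      apply Bd_up hKQ
      rw [abs_le]; constructor <;> linarith
    have b3 : Bd (up (j : ℚ)) ((K : ℚ) + 1) := by
      apply Bd_up hKQ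
      rw [abs_of_nonneg hj0]; linarith
    have := Bd_mul (Bd_mul (Bd_mul (Bd_mul b1 hp0) b2) (Bd_inv hp0)) b3
    apply Bd_mono this
    apply le_of_eq
    ring
  by_cases hγ0 : γ = 0
  · -- upper triangular case
    have hc0 : p.1 1 0 = 0 := by
      rw [hγ0] at hc
      have : (d : ℚ) * p.1 1 0 = 0 := by rw [hc]; simp
      exact (mul_eq_zero.1 this).resolve_left hdQ
    by_cases hαd : α ^ 2 = (d : ℤ) ^ 2
    · -- `p = ± up`
      have hαd' : (α : ℚ) ^ 2 = (d : ℚ) ^ 2 := by exact_mod_cast hαd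
      have ha2 : p.1 0 0 ^ 2 = 1 := by
        rw [← ha] at hαd'
        have : (d : ℚ) ^ 2 * (p.1 0 0 ^ 2 - 1) = 0 := by linear_combination hαd'
        have := (mul_eq_zero.1 this).resolve_left (pow_ne_zero 2 hdQ)
        linarith
      have hdet := det4 p
      rw [hc0] at hdet
      have had : p.1 0 0 = p.1 1 1 := by
        have : p.1 0 0 * (p.1 1 1 - p.1 0 0) = 0 := by linear_combination hdet - ha2
        rcases mul_eq_zero.1 this with h0 | h0
        · rw [h0] at ha2; norm_num at ha2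
        · linarith
      obtain ⟨s, hs, hs2⟩ : ∃ s : ℤ, p.1 0 0 = s ∧ s ^ 2 = 1 := by
        have : (p.1 0 0 - 1) * (p.1 0 0 + 1) = 0 := by linear_combination ha2
        rcases mul_eq_zero.1 this with h0 | h0
        · exact ⟨1, by push_cast; linarith, by norm_num⟩
        · exact ⟨-1, by push_cast; linarith, by norm_num⟩
      have hb : p.1 0 1 ≠ 0 := by
        intro hb0
        have : (p.1 0 0 - 1) * (p.1 0 0 + 1) = 0 := by linear_combination ha2
        rcases mul_eq_zero.1 this with h0 | h0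
        · apply hp1
          apply ext4
          · simp; linarith
          · simp [hb0]
          · simp [hc0]
          · simp; linarith
        · apply hpm
          have n00 : (-1 : G).1 0 0 = -1 := by simp
          have n01 : (-1 : G).1 0 1 = 0 := by simp
          have n10 : (-1 : G).1 1 0 = 0 := by simp
          have n11 : (-1 : G).1 1 1 = -1 := by simp
          apply ext4
          · rw [n00]; linarith
          · rw [n01, hb0]
          · rw [n10, hc0]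
          · rw [n11]; linarith
      have hbn : (p.1 0 1).num ≠ 0 := Rat.num_ne_zero.2 hb
      have hs0 : s ≠ 0 := by rintro rfl; norm_num at hs2
      refine ⟨TR 1 0 (2 * s * (p.1 0 1).num), ?_, ?_, Or.inr ⟨_, ?_, rfl⟩⟩
      · rw [hu]
        apply Bd_up
        · have : (1 : ℚ) ≤ 2 * R := by linarith
          linarith
        · have h1 : |(((2 * s * (p.1 0 1).num : ℤ)) : ℚ)| = 2 * |((p.1 0 1).num : ℚ)| := by
            push_cast
            rw [abs_mul, abs_mul]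
            have : |(s : ℚ)| = 1 := by
              have h4 : (s : ℚ) ^ 2 = 1 := by exact_mod_cast hs2
              rw [← sq_eq_sq₀ (abs_nonneg _) (by norm_num), sq_abs, h4]; norm_num
            rw [this]; norm_num
          rw [h1]
          have h2 : |((p.1 0 1).num : ℚ)| ≤ R := by exact_mod_cast (hht 0 1).1
          linarith
      · -- membership
        have hsq : p ^ 2 = up (2 * s * p.1 0 1) := by
          rw [pow_two]
          apply ext4
          · rw [mul00, hc0, up00]; linear_combination ha2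
          · rw [mul01, ← had, hs, up01]; ring
          · rw [mul10, hc0, up10]; ring
          · rw [mul11, hc0, ← had, up11]; linear_combination ha2
        have hpow : p ^ (2 * (p.1 0 1).den) = io (TR 1 0 (2 * s * (p.1 0 1).num)) := by
          rw [hu, pow_mul, hsq, ← zpow_natCast, ← up_zsmul]
          congr 1
          rw [zsmul_eq_mul]
          push_cast
          linear_combination (2 * (s : ℚ)) * den_mul (p.1 0 1)
        have hcomm : (up (i : ℚ))⁻¹ * p * up (i : ℚ) = p := by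
          have : p * up (i : ℚ) = up (i : ℚ) * p := by
            apply ext4
            · rw [mul00, mul00]; simp [hc0]
            · rw [mul01, mul01]; simp [had]; ring
            · rw [mul10, mul10]; simp [hc0]
            · rw [mul11, mul11]; simp [hc0]
          rw [mul_assoc, this]; group
        have hmi' : (io δ)⁻¹ * p * io δ ∈ H := by
          have e : (io (TR 1 0 (i : ℤ) * δ))⁻¹ * p * io (TR 1 0 (i : ℤ) * δ) =
              (io δ)⁻¹ * ((up (i : ℚ))⁻¹ * p * up (i : ℚ)) * io δ := by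
            rw [map_mul, hu]; push_cast; group
          rw [e, hcomm] at hmi
          exact hmi
        have h5 := H.pow_mem hmi' (2 * (p.1 0 1).den)
        have e : ((io δ)⁻¹ * p * io δ) ^ (2 * (p.1 0 1).den) =
            (io δ)⁻¹ * p ^ (2 * (p.1 0 1).den) * io δ := by
          have := conj_pow (i := 2 * (p.1 0 1).den) (a := (io δ)⁻¹) (b := p)
          rw [inv_inv] at this
          exact this
        rw [e, hpow] at h5
        exact h5
      · exact mul_ne_zero (mul_ne_zero (by norm_num) hs0) hbn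
    · refine ⟨X, hBdX, hXH, Or.inr ⟨t * (α ^ 2 - (d : ℤ) ^ 2), ?_, ?_⟩⟩
      · exact mul_ne_zero ht0 (sub_ne_zero.2 hαd)
      · simp only [X]
        rw [hγ0]
        have e : TR α 0 t = TR 1 0 (α ^ 2 * t) := by
          have := TR_smul α 1 0 t
          rw [mul_one, mul_zero] at this
          exact this
        rw [e, TR_mul, TR_mul]
        congr 1
        linear_combination -ht
  · refine ⟨X, hBdX, hXH, Or.inl ⟨?_, ?_⟩⟩
    · have e : X.1 0 0 + X.1 1 1 = 2 + (γ * d * t) ^ 2 := by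
        simp only [X, mulR, TR00, TR01, TR10, TR11]
        linear_combination (t * γ ^ 2) * ht
      rw [e]
      have hdZ : (d : ℤ) ≠ 0 := by exact_mod_cast hdpos.ne'
      have : γ * d * t ≠ 0 := mul_ne_zero (mul_ne_zero hγ0 hdZ) ht0
      have := sq_pos_of_ne_zero this
      linarith
    · have e : X.1 1 0 = -(t * γ ^ 2) := by
        simp only [X, mulR, TR00, TR01, TR10, TR11]
        ring
      rw [e]
      exact neg_ne_zero.2 (mul_ne_zero ht0 (pow_ne_zero 2 hγ0))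

theorem logplus_of_loghyp (H : Subgroup G) (h : LogHyp H) : LogPlus H := by
  obtain ⟨A, hA⟩ := h
  refine ⟨2 * (50 * A + 4), ?_⟩
  intro N
  obtain ⟨N1, hN1⟩ := pow_le_two_pow_half (16 * A + 1)
  obtain ⟨n, hn, hδ⟩ := hA (2 * N + N1 + 1300)
  refine ⟨n / 2, by omega, ?_⟩
  intro δ hδ2
  set R := n ^ A with hR
  have hn1 : 1 ≤ n := by omega
  have hR1 : 1 ≤ R := Nat.one_le_pow _ _ hn1
  set K := ((2 * R + 1) * (R + 1)) ^ 4 * R ^ 4 with hK
  have hK1 : K + 1 ≤ n ^ (16 * A + 1) := by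
    have h1 : (2 * R + 1) * (R + 1) ≤ 6 * R ^ 2 := by nlinarith
    have h2 : K ≤ (6 * R ^ 2) ^ 4 * R ^ 4 := Nat.mul_le_mul_right _ (Nat.pow_le_pow_left h1 4)
    have h3 : (6 * R ^ 2) ^ 4 * R ^ 4 = 1296 * R ^ 12 := by ring
    have h4 : R ^ 12 ≤ R ^ 16 := Nat.pow_le_pow_right hR1 (by norm_num)
    have h5 : R ^ 16 = n ^ (16 * A) := by rw [hR, ← pow_mul, mul_comm]
    have h6 : 1 ≤ n ^ (16 * A) := Nat.one_le_pow _ _ hn1
    have h7 : 1297 * n ^ (16 * A) ≤ n ^ (16 * A + 1) := by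
      rw [pow_succ, mul_comm]
      exact Nat.mul_le_mul_left _ (by omega)
    omega
  have hK2 : K + 1 ≤ 2 ^ (n / 2) := hK1.trans (hN1 n (by omega))
  obtain ⟨x, hx1, hx2, hx3⟩ := reduce_step H δ R K hR1 hK (by
    intro i hi
    apply hδ
    intro a b
    have e00 : (TR 1 0 (i : ℤ) * δ).1 0 b = δ.1 0 b + i * δ.1 1 b := by
      rw [mulR, TR00, TR01]; ring
    have e10 : (TR 1 0 (i : ℤ) * δ).1 1 b = δ.1 1 b := by
      rw [mulR, TR10, TR11]; ring
    have h2 : (2 : ℤ) ^ (n / 2) * 2 ^ (n / 2) ≤ 2 ^ n := by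
      rw [← pow_add]
      exact pow_le_pow_right₀ (by norm_num) (by omega)
    have hK3 : ((i : ℤ) + 1) ≤ 2 ^ (n / 2) := by
      have : i + 1 ≤ 2 ^ (n / 2) := by omega
      exact_mod_cast this
    have hpos : (0 : ℤ) < 2 ^ (n / 2) := by positivity
    have hi0 : (0 : ℤ) ≤ i := Int.natCast_nonneg _
    have ha : a = 0 ∨ a = 1 := by fin_cases a <;> simp
    rcases ha with rfl | rfl
    · rw [e00]
      calc |δ.1 0 b + i * δ.1 1 b| ≤ |δ.1 0 b| + |(i : ℤ) * δ.1 1 b| := abs_add_le _ _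
        _ = |δ.1 0 b| + i * |δ.1 1 b| := by rw [abs_mul, abs_of_nonneg hi0]
        _ ≤ 2 ^ (n / 2) + i * 2 ^ (n / 2) := by
            apply add_le_add (hδ2 0 b)
            exact mul_le_mul_of_nonneg_left (hδ2 1 b) hi0
        _ = ((i : ℤ) + 1) * 2 ^ (n / 2) := by ring
        _ ≤ 2 ^ (n / 2) * 2 ^ (n / 2) := mul_le_mul_of_nonneg_right hK3 hpos.le
        _ ≤ 2 ^ n := h2
    · rw [e10]
      calc |δ.1 1 b| ≤ 2 ^ (n / 2) := hδ2 1 b
        _ ≤ 2 ^ n := pow_le_pow_right₀ (by norm_num) (by omega))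
  refine ⟨x, ?_, hx2, hx3⟩
  have hb : 16 * (K + 1) ^ 3 * R ^ 2 ≤ (n / 2) ^ (2 * (50 * A + 4)) := by
    have h1 : (K + 1) ^ 3 ≤ (n ^ (16 * A + 1)) ^ 3 := Nat.pow_le_pow_left hK1 3
    have h2 : 16 * (K + 1) ^ 3 * R ^ 2 ≤ n * (n ^ (16 * A + 1)) ^ 3 * R ^ 2 :=
      Nat.mul_le_mul_right _ (Nat.mul_le_mul (by omega) h1)
    have h3 : n * (n ^ (16 * A + 1)) ^ 3 * R ^ 2 = n ^ (50 * A + 4) := by
      rw [hR]; ring
    have h4 : n ≤ (n / 2) ^ 2 := by
      have h5 : 3 ≤ n / 2 := by omega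
      have h6 : n ≤ 3 * (n / 2) := by omega
      calc n ≤ 3 * (n / 2) := h6
        _ ≤ (n / 2) * (n / 2) := Nat.mul_le_mul_right _ h5
        _ = (n / 2) ^ 2 := by ring
    calc 16 * (K + 1) ^ 3 * R ^ 2 ≤ n ^ (50 * A + 4) := by rw [← h3]; exact h2
      _ ≤ ((n / 2) ^ 2) ^ (50 * A + 4) := Nat.pow_le_pow_left h4 _
      _ = (n / 2) ^ (2 * (50 * A + 4)) := by rw [← pow_mul]
  have hx1' : Bd (io x) (((n / 2 : ℕ) : ℤ) ^ (2 * (50 * A + 4)) : ℤ) := by
    apply Bd_mono hx1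
    push_cast
    have : ((16 * (K + 1) ^ 3 * R ^ 2 : ℕ) : ℚ) ≤ (((n / 2) ^ (2 * (50 * A + 4)) : ℕ) : ℚ) := by
      exact_mod_cast hb
    push_cast at this
    exact this
  exact of_Bd_io hx1'

end Pool.Agent.MP_21c19e_al.Conf
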