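import Pool.Agent.Lib.MP_21c19e_al.LogStep
import Pool.Agent.Lib.MP_21c19e_al.LogReduce
import Pool.Agent.Lib.MP_21c19e_al.ConfCount
import Pool.Agent.Lib.MP_21c19e_al.Bounded

set_option autoImplicit false

/-!
MP_21c19e_al, logarithmic injectivity radius: counting and the main theorem.
-/

namespace Pool.Agent.MP_21c19e_al.Conf

open Matrix

theorem prod_pow_inj (r : ℕ) (p : Fin r → ℕ) (hp : ∀ i, (p i).Prime)
    (hinj : Function.Injective p) (f g : Fin r → ℕ) (h : ∏ i, p i ^ f i = ∏ i, p i ^ g i) :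
    f = g := by
  have key : ∀ (f : Fin r → ℕ) (j : Fin r), (∏ i, p i ^ f i).factorization (p j) = f j := by
    intro f j
    rw [Nat.factorization_prod (fun i _ => pow_ne_zero _ (hp i).ne_zero)]
    rw [Finsupp.finsetSum_apply]
    rw [Finset.sum_eq_single j]
    · rw [(hp j).factorization_pow, Finsupp.single_eq_same]
    · intro i _ hij
      rw [(hp i).factorization_pow, Finsupp.single_eq_of_ne]
      exact fun h => hij (hinj h).symm
    · intro hj
      exact absurd (Finset.mem_univ j) hj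
  funext j
  rw [← key f j, ← key g j, h]

set_option linter.unusedSimpArgs false in
theorem b_entries (σ Lq : ℚ) (hσ : σ ≠ 0) (hL : Lq ≠ 0) (j : ℚ) :
    ((tor σ hσ)⁻¹ * up j * tor Lq hL).1 0 0 = Lq / σ ∧
    ((tor σ hσ)⁻¹ * up j * tor Lq hL).1 0 1 = (Lq / σ) * (j / Lq ^ 2) ∧
    ((tor σ hσ)⁻¹ * up j * tor Lq hL).1 1 0 = 0 ∧
    ((tor σ hσ)⁻¹ * up j * tor Lq hL).1 1 1 = (Lq / σ)⁻¹ := by
  refine ⟨?_, ?_, ?_, ?_⟩
  · simp only [mul00, mul01, mul10, mul11, inv00, inv01, inv10, inv11, tor00, tor01, tor10, tor11,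
      up00, up01, up10, up11]
    field_simp
    ring
  · simp only [mul00, mul01, mul10, mul11, inv00, inv01, inv10, inv11, tor00, tor01, tor10, tor11,
      up00, up01, up10, up11]
    field_simp
    ring
  · simp only [mul00, mul01, mul10, mul11, inv00, inv01, inv10, inv11, tor00, tor01, tor10, tor11,
      up00, up01, up10, up11]
    ring
  · simp only [mul00, mul01, mul10, mul11, inv00, inv01, inv10, inv11, tor00, tor01, tor10, tor11,
      up00, up01, up10, up11]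
    field_simp
    ring

theorem top_of_logplus (H : Subgroup G) (hZ : ZDense H) (hq : NoQuot H) (hL : LogPlus H) :
    H = ⊤ := by
  classical
  by_contra hne
  -- unipotents along infinity
  obtain ⟨c, hc⟩ : ∃ c : ℚ, axisGroup 1 H ≤ AddSubgroup.zmultiples c := by
    by_contra hcon
    push Not at hcon
    exact hne (top_of_axis H hZ hq 1 hcon)
  have hup : ∀ x : ℚ, up x ∈ H → ∃ k : ℤ, x = k * c := by
    intro x hx
    have h1 : x ∈ axisGroup 1 H := by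
      rw [mem_axisGroup]; simpa using hx
    obtain ⟨k, hk⟩ := AddSubgroup.mem_zmultiples_iff.1 (hc h1)
    exact ⟨k, by rw [← hk, zsmul_eq_mul]⟩
  obtain ⟨g0, hg0, hg0t⟩ := exists_hyp H hZ hL
  have hg1 : io g0 ≠ 1 := by
    intro h
    have h2 : (io g0).1 0 0 + (io g0).1 1 1 = 2 := by rw [h]; simp; norm_num
    rw [io_ij, io_ij] at h2
    have h3 : g0.1 0 0 + g0.1 1 1 = 2 := by exact_mod_cast h2
    omega
  have hprimes := strong_primes H hZ hL
  obtain ⟨B, hB⟩ := hL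
  set r := 5 * B + 1 with hr
  -- the primes
  have hinf : {l : ℕ | l.Prime ∧ Strong H l}.Infinite := by
    apply Set.infinite_of_forall_exists_gt
    intro a
    obtain ⟨l, hl, hla, hS⟩ := hprimes a
    exact ⟨l, ⟨hl, hS⟩, hla⟩
  let emb := hinf.natEmbedding
  let p : Fin r → ℕ := fun i => (emb i.1).1
  have hp : ∀ i, (p i).Prime := fun i => (emb i.1).2.1
  have hS : ∀ i, Strong H (p i) := fun i => (emb i.1).2.2
  have hinj : Function.Injective p := by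
    intro i j hij
    have h1 : emb i.1 = emb j.1 := Subtype.ext hij
    exact Fin.ext (emb.injective h1)
  have hunb : ∀ i, PUnb (p i) H := fun i => punb_of_noquot (p i) (hp i) H hq (io g0) hg0 hg1
  obtain ⟨κ, hκ0, hbox⟩ := box_step H r p hp hS hunb
  set L : ℕ := ∏ i, p i with hLdef
  -- thresholds
  obtain ⟨N2, hN2⟩ := pow_le_two_pow_half (2 * B)
  obtain ⟨N3, hN3⟩ : ∃ N3 : ℕ, c ≠ 0 → 1 / |c| < 2 ^ N3 := by
    obtain ⟨N3, h⟩ := pow_unbounded_of_one_lt (1 / |c|) (by norm_num : (1 : ℚ) < 2)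
    exact ⟨N3, fun _ => h⟩
  set E0 : ℕ := N2 + N3 + 2 * κ + 810 * (2 * κ) ^ (5 * B) + 2 with hE0
  obtain ⟨n, hn, hδ⟩ := hB (κ * (E0 + 1) + 1)
  set E : ℕ := (n - 1) / κ with hE
  have hEE : E0 ≤ E := by
    rw [hE, Nat.le_div_iff_mul_le hκ0]
    have : E0 * κ ≤ κ * (E0 + 1) := by rw [mul_comm]; exact Nat.mul_le_mul_left _ (by omega)
    omega
  have hκE : κ * E + 1 ≤ n := by
    have : κ * ((n - 1) / κ) ≤ n - 1 := Nat.mul_div_le _ _
    rw [← hE] at this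
    have : 1 ≤ n := by omega
    omega
  have hnE : n ≤ 2 * κ * E := by
    have h1 : n - 1 < κ * ((n - 1) / κ + 1) := Nat.lt_mul_div_succ _ hκ0
    rw [← hE] at h1
    have h2 : κ * (E + 1) ≤ 2 * κ * E := by
      have : κ * (E + 1) ≤ κ * (2 * E) := Nat.mul_le_mul_left _ (by omega)
      calc κ * (E + 1) ≤ κ * (2 * E) := this
        _ = 2 * κ * E := by ring
    omega
  have hn1 : 1 ≤ n := by omega
  set R : ℕ := n ^ B with hR
  have hR1 : 1 ≤ R := Nat.one_le_pow _ _ hn1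
  have hR2 : R ≤ 2 ^ E := by
    have h1 : n ≤ E ^ 2 := by
      calc n ≤ 2 * κ * E := hnE
        _ ≤ E * E := Nat.mul_le_mul_right _ (by omega)
        _ = E ^ 2 := by ring
    calc R = n ^ B := rfl
      _ ≤ (E ^ 2) ^ B := Nat.pow_le_pow_left h1 _
      _ = E ^ (2 * B) := by rw [← pow_mul]
      _ ≤ 2 ^ (E / 2) := hN2 E (by omega)
      _ ≤ 2 ^ E := Nat.pow_le_pow_right (by norm_num) (by omega)
  have hR3 : 810 * R ^ 5 < E ^ r := by
    have h1 : R ^ 5 ≤ (2 * κ * E) ^ (5 * B) := by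
      calc R ^ 5 = n ^ (5 * B) := by rw [hR, ← pow_mul]; congr 1; ring
        _ ≤ (2 * κ * E) ^ (5 * B) := Nat.pow_le_pow_left hnE _
    have hEpos : 0 < E := by omega
    have hEpow : 0 < E ^ (5 * B) := pow_pos hEpos _
    calc 810 * R ^ 5 ≤ 810 * (2 * κ * E) ^ (5 * B) := Nat.mul_le_mul_left _ h1
      _ = 810 * (2 * κ) ^ (5 * B) * E ^ (5 * B) := by rw [mul_pow]; ring
      _ < E * E ^ (5 * B) := Nat.mul_lt_mul_of_pos_right (by omega) hEpow
      _ = E ^ r := by rw [hr, pow_succ, mul_comm]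
  set J : ℕ := L ^ (2 * E) with hJ
  have hL2 : 2 ≤ L := by
    have h0 : (0 : ℕ) < r := by omega
    have h1 : p ⟨0, h0⟩ ∣ L := Finset.dvd_prod_of_mem _ (Finset.mem_univ _)
    have h2 : 0 < L := Finset.prod_pos (fun i _ => (hp i).pos)
    exact (hp _).two_le.trans (Nat.le_of_dvd h2 h1)
  have hJ4 : 2 ^ E * 2 ^ E ≤ J := by
    rw [hJ, ← pow_add]
    calc 2 ^ (E + E) = 2 ^ (2 * E) := by congr 1; ring
      _ ≤ L ^ (2 * E) := Nat.pow_le_pow_left hL2 _
  have hJ1 : 1 ≤ J := Nat.one_le_pow _ _ (by omega)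
  -- sigma
  let sg : (Fin r → ℕ) → ℕ := fun f => ∏ i, p i ^ f i
  have hsgpos : ∀ f, 0 < sg f := fun f => Finset.prod_pos (fun i _ => pow_pos (hp i).pos _)
  have hsgQ : ∀ f, ((sg f : ℕ) : ℚ) = ∏ i, (p i : ℚ) ^ f i := by
    intro f; simp only [sg]; push_cast; rfl
  have hsgJ : ∀ f, (∀ i, f i ≤ E) → (sg f) ^ 2 ≤ J := by
    intro f hf
    rw [hJ, hLdef, ← Finset.prod_pow, ← Finset.prod_pow]
    apply Finset.prod_le_prod' 
    intro i _
    rw [← pow_mul]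
    exact Nat.pow_le_pow_right (hp i).pos (by have := hf i; omega)
  have hp0 : ∀ i, (p i : ℚ) ≠ 0 := fun i => by exact_mod_cast (hp i).ne_zero
  have hLq : (∏ i, (p i : ℚ) ^ (2 * E)) ≠ 0 :=
    Finset.prod_ne_zero_iff.2 (fun i _ => pow_ne_zero _ (hp0 i))
  have hLqJ : (∏ i, (p i : ℚ) ^ (2 * E)) = (J : ℚ) := by
    rw [hJ, hLdef, Finset.prod_pow]; push_cast; rfl
  have hfq : ∀ f : Fin r → ℕ, (∏ i, (p i : ℚ) ^ f i) ≠ 0 := fun f =>
    Finset.prod_ne_zero_iff.2 (fun i _ => pow_ne_zero _ (hp0 i))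
  let b : (Fin r → ℕ) → ℕ → G := fun f j => (tor (∏ i, (p i : ℚ) ^ f i) (hfq f))⁻¹ * up (j : ℚ) *
        tor (∏ i, (p i : ℚ) ^ (2 * E)) hLq
  -- the elements of `H`
  have hx : ∀ (f : Fin r → ℕ) (j : ℕ), ∃ x : D, ((∀ i, f i < E) ∧ j < J) →
      ((∀ i j : Fin 2, |x.1 i j| ≤ (n : ℤ) ^ B) ∧ (b f j)⁻¹ * io x * b f j ∈ H ∧
        2 < x.1 0 0 + x.1 1 1 ∧ x.1 1 0 ≠ 0) := by
    intro f j
    by_cases hcond : (∀ i, f i < E) ∧ j < J
    · obtain ⟨δ, h, hh, he, hBd⟩ := hbox E f j (fun i => (hcond.1 i).le) hcond.2.le (hfq f) hLq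
      obtain ⟨x, hx1, hx2, hx3⟩ := hδ δ (by
        apply of_Bd_io
        apply Bd_mono hBd
        push_cast
        calc (2 : ℚ) * 2 ^ (κ * E) = 2 ^ (κ * E + 1) := by rw [pow_succ]; ring
          _ ≤ 2 ^ n := pow_le_pow_right₀ (by norm_num) hκE)
      have hmem : (b f j)⁻¹ * io x * b f j ∈ H := by
        have e : (b f j)⁻¹ * io x * b f j = h⁻¹ * ((io δ)⁻¹ * io x * io δ) * h := by
          have hb : b f j = io δ * h := he
          rw [hb]; group
        rw [e]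
        exact H.mul_mem (H.mul_mem (H.inv_mem hh) hx2) hh
      refine ⟨x, fun _ => ⟨hx1, hmem, ?_⟩⟩
      rcases hx3 with hx3 | ⟨m, hm, hxm⟩
      · exact hx3
      · exfalso
        obtain ⟨b00, b01, b10, b11⟩ := b_entries (∏ i, (p i : ℚ) ^ f i) _ (hfq f) hLq (j : ℚ)
        have hbi10 : ((b f j)⁻¹).1 1 0 = 0 := by rw [inv10]; show -(b f j).1 1 0 = 0; rw [b10, neg_zero]
        have hbi00 : ((b f j)⁻¹).1 0 0 = (sg f : ℚ) / J := by
          rw [inv00]; show (b f j).1 1 1 = _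
          rw [b11, hLqJ, ← hsgQ, inv_div]
        have hu : io x = up (m : ℚ) := by
          rw [hxm, io_TR, ← T_e1]; push_cast; rfl
        have e : (b f j)⁻¹ * io x * b f j = up (((sg f : ℚ) / J) ^ 2 * m) := by
          rw [hu, ← hbi00, ← upper_conj _ hbi10, inv_inv]
        rw [e] at hmem
        obtain ⟨k, hk⟩ := hup _ hmem
        have hJQ : (0 : ℚ) < J := by exact_mod_cast hJ1
        have hsQ : (0 : ℚ) < sg f := by exact_mod_cast hsgpos f
        have hmQ : (m : ℚ) ≠ 0 := by exact_mod_cast hm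
        have hk0 : (k : ℚ) * c ≠ 0 := by
          rw [← hk]
          exact mul_ne_zero (pow_ne_zero 2 (div_ne_zero hsQ.ne' hJQ.ne')) hmQ
        have hc0 : c ≠ 0 := right_ne_zero_of_mul hk0
        have hk1 : (k : ℚ) ≠ 0 := left_ne_zero_of_mul hk0
        have hkabs : (1 : ℚ) ≤ |(k : ℚ)| := by
          have h1 : k ≠ 0 := by exact_mod_cast hk1
          have h2 : 1 ≤ |k| := Int.one_le_abs h1
          exact_mod_cast h2
        have hcpos : 0 < |c| := abs_pos.2 hc0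
        have h3 : |c| ≤ |((sg f : ℚ) / J) ^ 2 * m| := by
          rw [hk, abs_mul]
          nlinarith
        have h4 : |(m : ℚ)| ≤ R := by
          have h5 := hx1 0 1
          rw [hxm, TR01] at h5
          have h6 : m * 1 ^ 2 = m := by ring
          rw [h6] at h5
          have h7 : |m| ≤ (R : ℤ) := by rw [hR]; push_cast; exact h5
          exact_mod_cast h7
        have h5 : ((sg f : ℚ) / J) ^ 2 ≤ 1 / J := by
          have h6 : ((sg f : ℚ)) ^ 2 ≤ J := by exact_mod_cast hsgJ f (fun i => (hcond.1 i).le)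
          rw [div_pow, div_le_div_iff₀ (by positivity) hJQ]
          nlinarith
        have h6 : |((sg f : ℚ) / J) ^ 2 * m| ≤ 1 / J * R := by
          rw [abs_mul, abs_of_nonneg (by positivity : (0 : ℚ) ≤ ((sg f : ℚ) / J) ^ 2)]
          exact mul_le_mul h5 h4 (abs_nonneg _) (by positivity)
        have h7 : |c| * J ≤ R := by
          have h8 := h3.trans h6
          have h9 : 1 / (J : ℚ) * R = R / J := by ring
          rw [h9, le_div_iff₀ hJQ] at h8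
          exact h8
        have h8 : (1 : ℚ) < 2 ^ E * |c| := by
          have h9 := hN3 hc0
          rw [div_lt_iff₀ hcpos] at h9
          have h10 : (2 : ℚ) ^ N3 ≤ 2 ^ E := pow_le_pow_right₀ (by norm_num) (by omega)
          nlinarith
        have h9 : (R : ℚ) ≤ 2 ^ E := by exact_mod_cast hR2
        have h10 : (2 : ℚ) ^ E * 2 ^ E ≤ J := by exact_mod_cast hJ4
        have hpos : (0 : ℚ) < 2 ^ E := by positivity
        have h11 : (2 : ℚ) ^ E < |c| * J := by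
          calc (2 : ℚ) ^ E = 2 ^ E * 1 := by ring
            _ < 2 ^ E * (2 ^ E * |c|) := mul_lt_mul_of_pos_left h8 hpos
            _ = |c| * (2 ^ E * 2 ^ E) := by ring
            _ ≤ |c| * J := mul_le_mul_of_nonneg_left h10 hcpos.le
        linarith
    · exact ⟨1, fun h => absurd h hcond⟩
  choose x hx using hx
  -- pigeonhole
  let X : (Fin r → ℕ) → ℕ → ℤ := fun f j =>
    (x f j).1 0 0 * (sg f : ℤ) ^ 2 - (x f j).1 1 0 * j
  let I : Finset ℤ := Finset.Icc (-(R : ℤ)) R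
  let XI : Finset ℤ := Finset.Icc (-((2 * R * J : ℕ) : ℤ)) ((2 * R * J : ℕ) : ℤ)
  let Dm : Finset ((Fin r → ℕ) × ℕ) :=
    (Fintype.piFinset fun _ : Fin r => Finset.range E) ×ˢ Finset.range J
  let gk : (Fin r → ℕ) × ℕ → ((ℤ × ℤ) × (ℤ × ℤ)) × ℤ := fun t =>
    ((((x t.1 t.2).1 0 0, (x t.1 t.2).1 0 1), ((x t.1 t.2).1 1 0, (x t.1 t.2).1 1 1)), X t.1 t.2)
  have hDm : ∀ t ∈ Dm, (∀ i, t.1 i < E) ∧ t.2 < J := by
    rintro ⟨f, j⟩ ht
    simp only [Dm, Finset.mem_product, Fintype.mem_piFinset, Finset.mem_range] at ht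
    exact ht
  have hmaps : ∀ t ∈ Dm, gk t ∈ ((I ×ˢ I) ×ˢ (I ×ˢ I)) ×ˢ XI := by
    rintro ⟨f, j⟩ ht
    have hfj := hDm _ ht
    obtain ⟨h1, -, -, -⟩ := hx f j hfj
    have h1' : ∀ i k : Fin 2, |(x f j).1 i k| ≤ (R : ℤ) := by
      intro i k
      have := h1 i k
      rw [hR]; push_cast; exact this
    have hI : ∀ i k : Fin 2, (x f j).1 i k ∈ I := fun i k => by
      simp only [I, Finset.mem_Icc]; exact abs_le.1 (h1' i k)
    simp only [gk, Finset.mem_product]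
    refine ⟨⟨⟨hI 0 0, hI 0 1⟩, hI 1 0, hI 1 1⟩, ?_⟩
    simp only [XI, X, Finset.mem_Icc]
    rw [← abs_le]
    have hs2 : ((sg f : ℕ) : ℤ) ^ 2 ≤ J := by
      exact_mod_cast hsgJ f (fun i => (hfj.1 i).le)
    have hj : (j : ℤ) ≤ J := by exact_mod_cast hfj.2.le
    have hj0 : (0 : ℤ) ≤ j := Int.natCast_nonneg _
    have hR0 : (0 : ℤ) ≤ R := Int.natCast_nonneg _
    calc |(x f j).1 0 0 * (sg f : ℤ) ^ 2 - (x f j).1 1 0 * j| ≤
          |(x f j).1 0 0 * (sg f : ℤ) ^ 2| + |(x f j).1 1 0 * j| := abs_sub _ _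
      _ = |(x f j).1 0 0| * (sg f : ℤ) ^ 2 + |(x f j).1 1 0| * j := by
          rw [abs_mul, abs_mul, abs_of_nonneg (by positivity : (0 : ℤ) ≤ (sg f : ℤ) ^ 2),
            abs_of_nonneg hj0]
      _ ≤ R * J + R * J := by
          apply add_le_add
          · exact mul_le_mul (h1' 0 0) hs2 (by positivity) hR0
          · exact mul_le_mul (h1' 1 0) hj hj0 hR0
      _ = ((2 * R * J : ℕ) : ℤ) := by push_cast; ring
  have hcard : (((I ×ˢ I) ×ˢ (I ×ˢ I)) ×ˢ XI).card * 2 < Dm.card := by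
    have hI : I.card = 2 * R + 1 := by
      simp only [I, Int.card_Icc]; omega
    have hXI : XI.card = 4 * R * J + 1 := by
      simp only [XI, Int.card_Icc]
      have : (((2 * R * J : ℕ) : ℤ) + 1 - (-((2 * R * J : ℕ) : ℤ))).toNat =
          2 * (2 * R * J) + 1 := by omega
      rw [this]; ring
    have hD : Dm.card = E ^ r * J := by
      simp only [Dm, Finset.card_product, Fintype.card_piFinset, Finset.card_range,
        Finset.prod_const, Finset.card_univ, Fintype.card_fin]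
    simp only [Finset.card_product]
    rw [hI, hXI, hD]
    have h1 : 2 * R + 1 ≤ 3 * R := by omega
    have hRJ : 1 ≤ R * J := Nat.mul_pos hR1 hJ1
    have h2 : 4 * R * J + 1 ≤ 5 * (R * J) := by
      have : 4 * R * J = 4 * (R * J) := by ring
      omega
    have h3 : (2 * R + 1) * (2 * R + 1) * ((2 * R + 1) * (2 * R + 1)) ≤
        (3 * R) * (3 * R) * ((3 * R) * (3 * R)) :=
      Nat.mul_le_mul (Nat.mul_le_mul h1 h1) (Nat.mul_le_mul h1 h1)
    calc (2 * R + 1) * (2 * R + 1) * ((2 * R + 1) * (2 * R + 1)) * (4 * R * J + 1) * 2 ≤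
          (3 * R) * (3 * R) * ((3 * R) * (3 * R)) * (5 * (R * J)) * 2 :=
          Nat.mul_le_mul_right _ (Nat.mul_le_mul h3 h2)
      _ = 810 * R ^ 5 * J := by ring
      _ < E ^ r * J := Nat.mul_lt_mul_of_pos_right hR3 hJ1
  obtain ⟨y, -, hfib⟩ := Finset.exists_lt_card_fiber_of_mul_lt_card_of_maps_to hmaps hcard
  obtain ⟨⟨f1, j1⟩, ⟨f2, j2⟩, ⟨f3, j3⟩, m1, m2, m3, h12, h13, h23⟩ :=
    Finset.two_lt_card_iff.1 hfib
  simp only [Finset.mem_filter] at m1 m2 m3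
  have hxe : ∀ f j f' j', gk (f, j) = gk (f', j') → x f j = x f' j' ∧ X f j = X f' j' := by
    intro f j f' j' h
    simp only [gk, Prod.mk.injEq] at h
    obtain ⟨⟨⟨e00, e01⟩, e10, e11⟩, eX⟩ := h
    exact ⟨extR e00 e01 e10 e11, eX⟩
  obtain ⟨x12, X12⟩ := hxe f1 j1 f2 j2 (m1.2.trans m2.2.symm)
  obtain ⟨x13, X13⟩ := hxe f1 j1 f3 j3 (m1.2.trans m3.2.symm)
  obtain ⟨x23, X23⟩ := hxe f2 j2 f3 j3 (m2.2.trans m3.2.symm)
  obtain ⟨-, g1, ht1, hz1⟩ := hx f1 j1 (hDm _ m1.1)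
  obtain ⟨-, g2, -, -⟩ := hx f2 j2 (hDm _ m2.1)
  obtain ⟨-, g3, -, -⟩ := hx f3 j3 (hDm _ m3.1)
  set z : D := x f1 j1 with hzd
  have hsgne : ∀ f j f' j', (f, j) ≠ (f', j') → x f j = z → x f' j' = z → X f j = X f' j' →
      sg f ≠ sg f' := by
    intro f j f' j' hne' hxz hxz' hXX hss
    have hff : f = f' := prod_pow_inj r p hp hinj f f' hss
    apply hne'
    subst hff
    simp only [X, hxz, hxz'] at hXX
    have h1 : z.1 1 0 * ((j : ℤ) - j') = 0 := by linarith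
    have h2 := (mul_eq_zero.1 h1).resolve_left hz1
    have h3 : (j : ℤ) = j' := by linarith
    have h4 : j = j' := by exact_mod_cast h3
    rw [h4]
  have s12 := hsgne f1 j1 f2 j2 h12 rfl x12.symm X12
  have s13 := hsgne f1 j1 f3 j3 h13 rfl x13.symm X13
  have s23 := hsgne f2 j2 f3 j3 h23 x12.symm x13.symm X23
  rw [← x12] at g2
  rw [← x13] at g3
  -- data
  have hJQ : (0 : ℚ) < J := by exact_mod_cast hJ1
  have hz1Q : ((z.1 1 0 : ℤ) : ℚ) ≠ 0 := by exact_mod_cast hz1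
  have hdata : ∀ f j, X f j = X f1 j1 → x f j = z →
      ((b f j)⁻¹ * io z * b f j).1 0 0 =
        ((X f1 j1 : ℤ) : ℚ) / ((z.1 1 0 : ℤ) * (J : ℚ) ^ 2) * ((z.1 1 0 : ℤ) * ((J : ℚ) / sg f) ^ 2) ∧
      ((b f j)⁻¹ * io z * b f j).1 1 0 = (z.1 1 0 : ℤ) * ((J : ℚ) / sg f) ^ 2 ∧
      ((b f j)⁻¹ * io z * b f j).1 0 0 + ((b f j)⁻¹ * io z * b f j).1 1 1 =
        ((z.1 0 0 + z.1 1 1 : ℤ) : ℚ) := by
    intro f j hX hxz
    obtain ⟨b00, b01, b10, b11⟩ := b_entries (∏ i, (p i : ℚ) ^ f i) _ (hfq f) hLq (j : ℚ)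
    have b00' : (b f j).1 0 0 = (J : ℚ) / sg f := by rw [← hLqJ, hsgQ]; exact b00
    have b01' : (b f j).1 0 1 = ((J : ℚ) / sg f) * ((j : ℚ) / (J : ℚ) ^ 2) := by
      rw [← hLqJ, hsgQ]; exact b01
    have b11' : (b f j).1 1 1 = ((J : ℚ) / sg f)⁻¹ := by rw [← hLqJ, hsgQ]; exact b11
    have hsQ : (0 : ℚ) < sg f := by exact_mod_cast hsgpos f
    have hu : (J : ℚ) / sg f ≠ 0 := div_ne_zero hJQ.ne' hsQ.ne'
    obtain ⟨k1, k2, k3⟩ := conj_entries_aux (io z) (b f j) ((J : ℚ) / sg f) ((j : ℚ) / (J : ℚ) ^ 2) hu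
      b00' b01' b10 b11'
    refine ⟨?_, ?_, ?_⟩
    · rw [k1, ← hX]
      simp only [X, hxz]
      rw [io_ij, io_ij]
      push_cast
      field_simp
    · rw [k2, io_ij]
    · rw [k3, io_ij, io_ij]; push_cast; ring
  obtain ⟨a1, b1, t1⟩ := hdata f1 j1 rfl rfl
  obtain ⟨a2, b2, t2⟩ := hdata f2 j2 X12.symm x12.symm
  obtain ⟨a3, b3, t3⟩ := hdata f3 j3 X13.symm x13.symm
  have hcne : ∀ f f' : Fin r → ℕ, sg f ≠ sg f' →
      ((z.1 1 0 : ℤ) : ℚ) * ((J : ℚ) / sg f) ^ 2 ≠ (z.1 1 0 : ℤ) * ((J : ℚ) / sg f') ^ 2 := by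
    intro f f' hss he
    apply hss
    have hsQ : (0 : ℚ) < sg f := by exact_mod_cast hsgpos f
    have hsQ' : (0 : ℚ) < sg f' := by exact_mod_cast hsgpos f'
    have h1 := mul_left_cancel₀ hz1Q he
    have h2 : (J : ℚ) / sg f = (J : ℚ) / sg f' := by
      have h3 : (0 : ℚ) ≤ (J : ℚ) / sg f := by positivity
      have h4 : (0 : ℚ) ≤ (J : ℚ) / sg f' := by positivity
      exact (sq_eq_sq₀ h3 h4).1 h1
    rw [div_eq_div_iff hsQ.ne' hsQ'.ne'] at h2
    have h3 : (sg f' : ℚ) = sg f := mul_left_cancel₀ hJQ.ne' h2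
    exact_mod_cast h3.symm
  have hcn0 : ∀ f : Fin r → ℕ, ((z.1 1 0 : ℤ) : ℚ) * ((J : ℚ) / sg f) ^ 2 ≠ 0 := by
    intro f
    have hsQ : (0 : ℚ) < sg f := by exact_mod_cast hsgpos f
    exact mul_ne_zero hz1Q (pow_ne_zero 2 (div_ne_zero hJQ.ne' hsQ.ne'))
  have htr : ((z.1 0 0 + z.1 1 1 : ℤ) : ℚ) ≠ 0 := by
    have : z.1 0 0 + z.1 1 1 ≠ 0 := by omega
    exact_mod_cast this
  exact hne (top_of_three H hZ hq _ _ _ g1 g2 g3 _ _ _ _ _ htr (hcn0 f1) (hcn0 f2) (hcn0 f3)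
    (hcne _ _ s12) (hcne _ _ s13) (hcne _ _ s23) a1 b1 t1 a2 b2 t2 a3 b3 t3)

/-- The main theorem. -/
theorem top_of_loghyp (H : Subgroup G) (hZ : ZDense H) (hq : NoQuot H) (hL : LogHyp H) :
    H = ⊤ := top_of_logplus H hZ hq (logplus_of_loghyp H hL)

end Pool.Agent.MP_21c19e_al.Conf
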