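import Pool.Agent.Lib.MP_21c19e_al.LogDefs
import Pool.Agent.Lib.MP_21c19e_al.ConfPigeon
import Pool.Agent.Lib.MP_21c19e_al.Final

set_option autoImplicit false

/-!
MP_21c19e_al, logarithmic injectivity radius: two integral hyperbolic elements of `H` in general
position.
-/

namespace Pool.Agent.MP_21c19e_al.Conf

open Matrix

/-- The determinant of `x * y - y * x`. -/
def cdet {R : Type*} [CommRing R] (x y : Matrix.SpecialLinearGroup (Fin 2) R) : R :=
  -(x.1 0 1 * y.1 1 0 - x.1 1 0 * y.1 0 1) ^ 2 -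
    ((x.1 0 0 - x.1 1 1) * y.1 0 1 - (y.1 0 0 - y.1 1 1) * x.1 0 1) *
    ((y.1 0 0 - y.1 1 1) * x.1 1 0 - (x.1 0 0 - x.1 1 1) * y.1 1 0)

theorem conj_intN (N : ℕ) (h : G) (hm : ∀ i j : Fin 2, ∃ z : ℤ, (N : ℚ) * h.1 i j = z)
    (ε : D) (hε : red (N ^ 2) ε = 1) : ∃ δ : D, io δ = h * io ε * h⁻¹ := by
  have hε' : red (N ^ 2) ε = red (N ^ 2) 1 := by rw [hε, map_one]
  obtain ⟨e00, h00⟩ := red_eq hε' 0 0
  obtain ⟨e01, h01⟩ := red_eq hε' 0 1
  obtain ⟨e10, h10⟩ := red_eq hε' 1 0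
  obtain ⟨e11, h11⟩ := red_eq hε' 1 1
  obtain ⟨A, hA⟩ := hm 0 0
  obtain ⟨B, hB⟩ := hm 0 1
  obtain ⟨C, hC⟩ := hm 1 0
  obtain ⟨E, hE⟩ := hm 1 1
  have hdet := det4 h
  have o00 : (1 : D).1 0 0 = 1 := by simp
  have o01 : (1 : D).1 0 1 = 0 := by simp
  have o10 : (1 : D).1 1 0 = 0 := by simp
  have o11 : (1 : D).1 1 1 = 1 := by simp
  rw [o00] at h00
  rw [o01] at h01
  rw [o10] at h10
  rw [o11] at h11
  have g00 : (io ε).1 0 0 = 1 + (N : ℚ) ^ 2 * e00 := by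
    rw [io_ij, h00]; push_cast; ring
  have g01 : (io ε).1 0 1 = (N : ℚ) ^ 2 * e01 := by
    rw [io_ij, h01]; push_cast; ring
  have g10 : (io ε).1 1 0 = (N : ℚ) ^ 2 * e10 := by
    rw [io_ij, h10]; push_cast; ring
  have g11 : (io ε).1 1 1 = 1 + (N : ℚ) ^ 2 * e11 := by
    rw [io_ij, h11]; push_cast; ring
  apply of_integral
  have k00 : ∃ z : ℤ, (h * io ε * h⁻¹).1 0 0 = z := by
    refine ⟨1 + (e00 * A * E + e10 * B * E - e01 * A * C - e11 * B * C), ?_⟩
    rw [mul00, mul00, mul01, inv00, inv10, g00, g01, g10, g11]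
    push_cast
    rw [← hA, ← hB, ← hC, ← hE]
    linear_combination hdet
  have k01 : ∃ z : ℤ, (h * io ε * h⁻¹).1 0 1 = z := by
    refine ⟨(-(e00 * A * B) - e10 * B * B + e01 * A * A + e11 * B * A), ?_⟩
    rw [mul01, mul00, mul01, inv01, inv11, g00, g01, g10, g11]
    push_cast
    rw [← hA, ← hB]
    ring
  have k10 : ∃ z : ℤ, (h * io ε * h⁻¹).1 1 0 = z := by
    refine ⟨(e00 * C * E + e10 * E * E - e01 * C * C - e11 * E * C), ?_⟩
    rw [mul10, mul10, mul11, inv00, inv10, g00, g01, g10, g11]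
    push_cast
    rw [← hC, ← hE]
    ring
  have k11 : ∃ z : ℤ, (h * io ε * h⁻¹).1 1 1 = z := by
    refine ⟨1 + (-(e00 * C * B) - e10 * E * B + e01 * C * A + e11 * E * A), ?_⟩
    rw [mul11, mul10, mul11, inv01, inv11, g00, g01, g10, g11]
    push_cast
    rw [← hA, ← hB, ← hC, ← hE]
    linear_combination hdet
  intro i j
  fin_cases i <;> fin_cases j <;> assumption

/-- Powers are linear in the matrix. -/
theorem pow_lin (g : D) (htr : 2 < g.1 0 0 + g.1 1 1) (k : ℕ) : ∃ u v : ℤ, 1 ≤ u ∧ 1 - u ≤ v ∧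
    (g ^ (k + 1)).1 0 0 = u * g.1 0 0 + v ∧ (g ^ (k + 1)).1 0 1 = u * g.1 0 1 ∧
    (g ^ (k + 1)).1 1 0 = u * g.1 1 0 ∧ (g ^ (k + 1)).1 1 1 = u * g.1 1 1 + v := by
  have hdet := detR g
  induction k with
  | zero => exact ⟨1, 0, by norm_num, by norm_num, by simp, by simp, by simp, by simp⟩
  | succ k ih =>
    obtain ⟨u, v, hu, hv, h00, h01, h10, h11⟩ := ih
    refine ⟨u * (g.1 0 0 + g.1 1 1) + v, -u, by nlinarith, by nlinarith, ?_, ?_, ?_, ?_⟩
    · rw [pow_succ, mulR, h00, h01]; linear_combination (-u) * hdet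
    · rw [pow_succ, mulR, h00, h01]; ring
    · rw [pow_succ, mulR, h10, h11]; ring
    · rw [pow_succ, mulR, h10, h11]; linear_combination (-u) * hdet

theorem tr_pow (g : D) (htr : 2 < g.1 0 0 + g.1 1 1) (k : ℕ) :
    2 < (g ^ (k + 1)).1 0 0 + (g ^ (k + 1)).1 1 1 := by
  obtain ⟨u, v, hu, hv, h00, h01, h10, h11⟩ := pow_lin g htr k
  rw [h00, h11]
  nlinarith

/-- A hyperbolic integral element. -/
theorem exists_hyp (H : Subgroup G) (hZ : ZDense H) (hL : LogPlus H) :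
    ∃ g : D, io g ∈ H ∧ 2 < g.1 0 0 + g.1 1 1 := by
  obtain ⟨B, hB⟩ := hL
  obtain ⟨n, -, hn⟩ := hB 0
  obtain ⟨x, -, hxH, hx⟩ := hn 1 (by
    intro i j
    have h1 : (1 : ℤ) ≤ 2 ^ n := one_le_pow₀ (by norm_num)
    fin_cases i <;> fin_cases j <;> simp <;> linarith)
  have hxH' : io x ∈ H := by
    rw [map_one] at hxH
    simpa using hxH
  rcases hx with hx | ⟨m, hm, rfl⟩
  · exact ⟨x, hxH', hx.1⟩
  · obtain ⟨h, hh, hh10⟩ := zariski_move H hZ 1 0 (by simp)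
    have hh10' : h.1 1 0 ≠ 0 := by
      intro h0; apply hh10; rw [h0]; ring
    obtain ⟨N, hN, hNh⟩ := common_den4 h
    obtain ⟨α, hα⟩ := hNh 0 0
    obtain ⟨γ, hγ⟩ := hNh 1 0
    have hγ0 : γ ≠ 0 := by
      rintro rfl
      have hNQ : (N : ℚ) ≠ 0 := by exact_mod_cast hN.ne'
      have : (N : ℚ) * h.1 1 0 = 0 := by rw [hγ]; simp
      exact hh10' ((mul_eq_zero.1 this).resolve_left hNQ)
    have hu : ∀ z : ℤ, io (TR 1 0 z) = up (z : ℚ) := by
      intro z; rw [io_TR, ← T_e1]; push_cast; rfl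
    have hup : up ((m : ℚ) * (N : ℚ) ^ 2) ∈ H := by
      have h1 := H.pow_mem hxH' (N ^ 2)
      rw [hu, ← zpow_natCast, ← up_zsmul, zsmul_eq_mul] at h1
      push_cast at h1
      rwa [mul_comm] at h1
    have hy : io (TR α γ m) ∈ H := by
      have : io (TR α γ m) = h * up ((m : ℚ) * (N : ℚ) ^ 2) * h⁻¹ := by
        rw [← T_e1, conj_T, io_TR, ← hα, ← hγ, T_smul]
        congr 1
        · ring
        · ring
        · ring
      rw [this]
      exact H.mul_mem (H.mul_mem hh hup) (H.inv_mem hh)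
    refine ⟨TR 1 0 (-m) * TR α γ m, ?_, ?_⟩
    · rw [map_mul]
      refine H.mul_mem ?_ hy
      rw [hu]
      push_cast
      rw [← up_inv, ← hu]
      exact H.inv_mem hxH'
    · have e : (TR 1 0 (-m) * TR α γ m).1 0 0 + (TR 1 0 (-m) * TR α γ m).1 1 1 =
          2 + (m * γ) ^ 2 := by
        simp only [mulR, TR00, TR01, TR10, TR11]
        ring
      rw [e]
      have := sq_pos_of_ne_zero (mul_ne_zero hm hγ0)
      linarith

theorem exists_move (H : Subgroup G) (hZ : ZDense H) (g : D) (htr : 2 < g.1 0 0 + g.1 1 1) :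
    ∃ h ∈ H, cdet (io g) (h * io g * h⁻¹) ≠ 0 := by
  by_contra hcon
  push Not at hcon
  set a : ℚ := (io g).1 0 0 with ha
  set b : ℚ := (io g).1 0 1 with hb
  set c : ℚ := (io g).1 1 0 with hc
  set d : ℚ := (io g).1 1 1 with hd
  let V : Fin 2 → Fin 2 → MvPolynomial (Fin 2 × Fin 2) ℚ := fun i j => MvPolynomial.X (i, j)
  let A : MvPolynomial (Fin 2 × Fin 2) ℚ := MvPolynomial.C a
  let B : MvPolynomial (Fin 2 × Fin 2) ℚ := MvPolynomial.C b
  let C : MvPolynomial (Fin 2 × Fin 2) ℚ := MvPolynomial.C c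
  let E : MvPolynomial (Fin 2 × Fin 2) ℚ := MvPolynomial.C d
  let k00 := (V 0 0 * A + V 0 1 * C) * V 1 1 - (V 0 0 * B + V 0 1 * E) * V 1 0
  let k01 := -((V 0 0 * A + V 0 1 * C) * V 0 1) + (V 0 0 * B + V 0 1 * E) * V 0 0
  let k10 := (V 1 0 * A + V 1 1 * C) * V 1 1 - (V 1 0 * B + V 1 1 * E) * V 1 0
  let k11 := -((V 1 0 * A + V 1 1 * C) * V 0 1) + (V 1 0 * B + V 1 1 * E) * V 0 0
  let P : MvPolynomial (Fin 2 × Fin 2) ℚ := -(B * k10 - C * k01) ^ 2 -
    ((A - E) * k01 - (k00 - k11) * B) * ((k00 - k11) * C - (A - E) * k10)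
  have hP : ∀ h : G, MvPolynomial.eval (fun ij : Fin 2 × Fin 2 =>
      (h : Matrix (Fin 2) (Fin 2) ℚ) ij.1 ij.2) P = cdet (io g) (h * io g * h⁻¹) := by
    intro h
    simp only [P, k00, k01, k10, k11, A, B, C, E, V, map_sub, map_add, map_mul, map_neg, map_pow,
      MvPolynomial.eval_X, MvPolynomial.eval_C]
    unfold cdet
    simp only [mul00, mul01, mul10, mul11, inv00, inv01, inv10, inv11]
    rw [← ha, ← hb, ← hc, ← hd]
    ring
  have h0 := hZ P (fun h hh => by rw [hP]; exact hcon h hh) (up 1)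
  rw [hP] at h0
  have hdet := det4 (io g)
  rw [← ha, ← hb, ← hc, ← hd] at hdet
  have e : cdet (io g) (up 1 * io g * (up 1)⁻¹) = c ^ 2 * ((a + d) ^ 2 - 4 - c ^ 2) := by
    unfold cdet
    simp only [mul00, mul01, mul10, mul11, inv00, inv01, inv10, inv11, up00, up01, up10, up11]
    rw [← ha, ← hb, ← hc, ← hd]
    linear_combination (-4 * c ^ 2) * hdet
  rw [e] at h0
  have hac : a = ((g.1 0 0 : ℤ) : ℚ) := rfl
  have hcc : c = ((g.1 1 0 : ℤ) : ℚ) := rfl
  have hdc : d = ((g.1 1 1 : ℤ) : ℚ) := rfl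
  rw [hac, hcc, hdc] at h0
  have h1 : g.1 1 0 ^ 2 * ((g.1 0 0 + g.1 1 1) ^ 2 - 4 - g.1 1 0 ^ 2) = 0 := by exact_mod_cast h0
  have hdetz := detR g
  set t := g.1 0 0 + g.1 1 1 with ht
  have key : ∀ z : ℤ, z ^ 2 ≠ t ^ 2 - 4 := by
    intro z hz
    have h3 : |z| ^ 2 = t ^ 2 - 4 := by rw [sq_abs]; exact hz
    have h4 : |z| < t := by
      by_contra h5
      push Not at h5
      nlinarith
    have h5 : t - 1 < |z| := by
      by_contra h6
      push Not at h6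
      have := abs_nonneg z
      nlinarith
    omega
  rcases mul_eq_zero.1 h1 with h2 | h2
  · have h3 : g.1 1 0 = 0 := by
      exact pow_eq_zero_iff (two_ne_zero) |>.1 h2
    rw [h3] at hdetz
    apply key (g.1 0 0 - g.1 1 1)
    rw [ht]
    linear_combination -4 * hdetz
  · exact key (g.1 1 0) (by linarith)

/-- Two hyperbolic integral elements without common eigenvectors. -/
theorem exists_pair (H : Subgroup G) (hZ : ZDense H) (hL : LogPlus H) :
    ∃ α β : D, io α ∈ H ∧ io β ∈ H ∧ 2 < α.1 0 0 + α.1 1 1 ∧ 2 < β.1 0 0 + β.1 1 1 ∧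
      cdet α β ≠ 0 := by
  obtain ⟨g, hg, htr⟩ := exists_hyp H hZ hL
  obtain ⟨h, hh, hne⟩ := exists_move H hZ g htr
  obtain ⟨N, hN, hNh⟩ := common_den4 h
  haveI : NeZero (N ^ 2) := ⟨pow_ne_zero 2 hN.ne'⟩
  obtain ⟨k, hk⟩ : ∃ k, Nat.card (Matrix.SpecialLinearGroup (Fin 2) (ZMod (N ^ 2))) = k + 1 :=
    Nat.exists_eq_succ_of_ne_zero Nat.card_pos.ne'
  have hred : red (N ^ 2) (g ^ (k + 1)) = 1 := by
    rw [map_pow, ← hk, pow_card_eq_one']
  obtain ⟨β, hβ⟩ := conj_intN N h hNh _ hred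
  obtain ⟨u, v, hu, hv, h00, h01, h10, h11⟩ := pow_lin g htr k
  have htrk := tr_pow g htr k
  set α := g ^ (k + 1) with hα
  have hαH : io α ∈ H := by rw [hα, map_pow]; exact H.pow_mem hg _
  have hβH : io β ∈ H := by
    rw [hβ]; exact H.mul_mem (H.mul_mem hh hαH) (H.inv_mem hh)
  have a00 : (io α).1 0 0 = u * (io g).1 0 0 + v := by rw [io_ij, io_ij, h00]; push_cast; ring
  have a01 : (io α).1 0 1 = u * (io g).1 0 1 := by rw [io_ij, io_ij, h01]; push_cast; ring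
  have a10 : (io α).1 1 0 = u * (io g).1 1 0 := by rw [io_ij, io_ij, h10]; push_cast; ring
  have a11 : (io α).1 1 1 = u * (io g).1 1 1 + v := by rw [io_ij, io_ij, h11]; push_cast; ring
  have hdh := det4 h
  have b00 : (io β).1 0 0 = u * (h * io g * h⁻¹).1 0 0 + v := by
    rw [hβ, mul00, mul00, mul01, inv00, inv10, a00, a01, a10, a11, mul00, mul00, mul01, inv00, inv10]
    linear_combination (v : ℚ) * hdh
  have b01 : (io β).1 0 1 = u * (h * io g * h⁻¹).1 0 1 := by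
    rw [hβ, mul01, mul00, mul01, inv01, inv11, a00, a01, a10, a11, mul01, mul00, mul01, inv01, inv11]
    ring
  have b10 : (io β).1 1 0 = u * (h * io g * h⁻¹).1 1 0 := by
    rw [hβ, mul10, mul10, mul11, inv00, inv10, a00, a01, a10, a11, mul10, mul10, mul11, inv00, inv10]
    ring
  have b11 : (io β).1 1 1 = u * (h * io g * h⁻¹).1 1 1 + v := by
    rw [hβ, mul11, mul10, mul11, inv01, inv11, a00, a01, a10, a11, mul11, mul10, mul11, inv01, inv11]
    linear_combination (v : ℚ) * hdh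
  refine ⟨α, β, hαH, hβH, htrk, ?_, ?_⟩
  · have e : (io β).1 0 0 + (io β).1 1 1 = (io α).1 0 0 + (io α).1 1 1 := by
      rw [b00, b11, a00, a11]
      rw [mul00, mul00, mul01, inv00, inv10, mul11, mul10, mul11, inv01, inv11]
      linear_combination (u * ((io g).1 0 0 + (io g).1 1 1)) * hdh
    simp only [io_ij] at e
    have e' : β.1 0 0 + β.1 1 1 = α.1 0 0 + α.1 1 1 := by exact_mod_cast e
    rw [e']; exact htrk
  · intro h0
    apply hne
    have e : ((cdet α β : ℤ) : ℚ) = cdet (io α) (io β) := by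
      unfold cdet
      simp only [io_ij]
      push_cast
      ring
    rw [h0] at e
    have e2 : cdet (io α) (io β) = (u : ℚ) ^ 4 * cdet (io g) (h * io g * h⁻¹) := by
      unfold cdet
      rw [a00, a01, a10, a11, b00, b01, b10, b11]
      ring
    rw [e2] at e
    have hu0 : (u : ℚ) ≠ 0 := by
      have : u ≠ 0 := by omega
      exact_mod_cast this
    have : (u : ℚ) ^ 4 * cdet (io g) (h * io g * h⁻¹) = 0 := by rw [← e]; simp
    exact (mul_eq_zero.1 this).resolve_left (pow_ne_zero 4 hu0)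

end Pool.Agent.MP_21c19e_al.Conf
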