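import Pool.Agent.Lib.MP_21c19e_al.LogSylow
import Pool.Agent.Lib.MP_21c19e_al.ConfBorel

set_option autoImplicit false

/-!
MP_21c19e_al, logarithmic injectivity radius: lifting from `SL2(Z/l)` to `SL2(Z/l^n)` and strong
approximation at `l`.
-/

namespace Pool.Agent.MP_21c19e_al.Conf

open Matrix

theorem pow_bin (l : ℕ) (hl : l.Prime) (h5 : 4 < l) {M : Type*} [Ring M] (u z : M)
    (hz : u * u = (l : M) * z) (m : ℕ) :
    ∃ w : M, (1 + (l : M) ^ m * u) ^ l = 1 + (l : M) ^ (m + 1) * u + (l : M) ^ (m + 2) * w := by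
  set y : M := (l : M) ^ m * u with hy
  have hc : ∀ (k : ℕ) (x : M), x * (l : M) ^ k = (l : M) ^ k * x := fun k x =>
    ((Nat.cast_commute l x).pow_left k).symm.eq
  have hpp : ∀ (a b : ℕ) (x : M), (l : M) ^ a * ((l : M) ^ b * x) = (l : M) ^ (a + b) * x := by
    intro a b x
    rw [← mul_assoc, ← pow_add]
  have hyy : y * y = (l : M) ^ (2 * m + 1) * z := by
    calc y * y = (l : M) ^ m * (u * (l : M) ^ m) * u := by rw [hy]; simp only [mul_assoc]
      _ = (l : M) ^ m * (l : M) ^ m * (u * u) := by rw [hc]; simp only [mul_assoc]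
      _ = (l : M) ^ m * (l : M) ^ m * (l : M) * z := by rw [hz]; simp only [mul_assoc]
      _ = (l : M) ^ (2 * m + 1) * z := by
          rw [← pow_add, ← pow_succ]; congr 2; ring
  have hterm : ∀ k : ℕ, 2 ≤ k → k ≤ l → ∃ w : M, y ^ k * ((l.choose k : ℕ) : M) =
      (l : M) ^ (m + 2) * w := by
    intro k hk2 hkl
    rcases Nat.lt_or_ge k 4 with h4 | h4
    · obtain ⟨c, hc'⟩ := Nat.Prime.dvd_choose_self hl (show k ≠ 0 by omega) (by omega)
      refine ⟨(l : M) ^ m * (z * y ^ (k - 2) * c), ?_⟩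
      have e1 : y ^ k = y * y * y ^ (k - 2) := by
        rw [← pow_two, ← pow_add]; congr 1; omega
      rw [e1, hyy, hc', Nat.cast_mul]
      calc (l : M) ^ (2 * m + 1) * z * y ^ (k - 2) * ((l : M) * (c : M)) =
            (l : M) ^ (2 * m + 1) * ((z * y ^ (k - 2)) * (l : M) ^ 1) * (c : M) := by
              rw [pow_one]; simp only [mul_assoc]
        _ = (l : M) ^ (2 * m + 1) * (l : M) ^ 1 * (z * y ^ (k - 2) * (c : M)) := by
              rw [hc]; simp only [mul_assoc]
        _ = (l : M) ^ (m + 2) * ((l : M) ^ m * (z * y ^ (k - 2) * (c : M))) := by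
              rw [hpp, ← pow_add]
              have : 2 * m + 1 + 1 = m + 2 + m := by ring
              rw [this]
    · refine ⟨(l : M) ^ (3 * m) * (z * z * y ^ (k - 4) * ((l.choose k : ℕ) : M)), ?_⟩
      have e1 : y ^ k = y * y * (y * y) * y ^ (k - 4) := by
        have e0 : y * y * (y * y) = y ^ 4 := by simp only [pow_succ, pow_zero, one_mul, mul_assoc]
        rw [e0, ← pow_add]; congr 1; omega
      rw [e1, hyy]
      calc (l : M) ^ (2 * m + 1) * z * ((l : M) ^ (2 * m + 1) * z) * y ^ (k - 4) *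
            ((l.choose k : ℕ) : M) =
            (l : M) ^ (2 * m + 1) * (z * (l : M) ^ (2 * m + 1)) * (z * y ^ (k - 4) *
            ((l.choose k : ℕ) : M)) := by simp only [mul_assoc]
        _ = (l : M) ^ (2 * m + 1) * (l : M) ^ (2 * m + 1) * (z * z * y ^ (k - 4) *
            ((l.choose k : ℕ) : M)) := by rw [hc]; simp only [mul_assoc]
        _ = (l : M) ^ (m + 2) * ((l : M) ^ (3 * m) * (z * z * y ^ (k - 4) *
            ((l.choose k : ℕ) : M))) := by
              rw [hpp, ← pow_add]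
              have : 2 * m + 1 + (2 * m + 1) = m + 2 + 3 * m := by ring
              rw [this]
  obtain ⟨n, hn⟩ : ∃ n, l = n + 1 := ⟨l - 1, by omega⟩
  have hch : ∀ i : ℕ, ∃ w : M, i < n → y ^ (i + 1 + 1) * ((l.choose (i + 1 + 1) : ℕ) : M) =
      (l : M) ^ (m + 2) * w := by
    intro i
    by_cases hi : i < n
    · obtain ⟨w, hw⟩ := hterm (i + 1 + 1) (by omega) (by omega)
      exact ⟨w, fun _ => hw⟩
    · exact ⟨0, fun h => absurd h hi⟩
  choose w hw using hch
  refine ⟨∑ i ∈ Finset.range n, w i, ?_⟩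
  have hexp := (Commute.one_right y).add_pow l
  rw [add_comm y 1] at hexp
  rw [hexp]
  have hl1 : Finset.range (l + 1) = Finset.range (n + 1 + 1) := by rw [hn]
  rw [hl1, Finset.sum_range_succ', Finset.sum_range_succ']
  have e1 : ∑ i ∈ Finset.range n, y ^ (i + 1 + 1) * 1 ^ (l - (i + 1 + 1)) *
      ((l.choose (i + 1 + 1) : ℕ) : M) = (l : M) ^ (m + 2) * ∑ i ∈ Finset.range n, w i := by
    rw [Finset.mul_sum]
    apply Finset.sum_congr rfl
    intro i hi
    rw [one_pow, mul_one]
    exact hw i (Finset.mem_range.1 hi)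
  rw [e1]
  have e2 : y ^ (0 + 1) * 1 ^ (l - (0 + 1)) * ((l.choose (0 + 1) : ℕ) : M) =
      (l : M) ^ (m + 1) * u := by
    rw [zero_add, pow_one, one_pow, mul_one, Nat.choose_one_right, hy]
    have h1 := hc 1 ((l : M) ^ m * u)
    rw [pow_one] at h1
    rw [h1, ← mul_assoc, ← pow_succ']
  have e3 : y ^ 0 * 1 ^ (l - 0) * ((l.choose 0 : ℕ) : M) = 1 := by simp
  rw [e2, e3]
  abel

/-- Powers of an element congruent to `(1 1; 0 1)` modulo `l`. -/
theorem kappa (l : ℕ) (hl : l.Prime) (h5 : 4 < l) (κ : D) (hκ : red l κ = red l (TR 1 0 1)) (m : ℕ) :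
    ∃ a b c d : ℤ, (κ ^ (l ^ m)).1 0 0 = 1 + (l : ℤ) ^ m * (l * a) ∧
      (κ ^ (l ^ m)).1 0 1 = (l : ℤ) ^ m * (1 + l * b) ∧
      (κ ^ (l ^ m)).1 1 0 = (l : ℤ) ^ m * (l * c) ∧
      (κ ^ (l ^ m)).1 1 1 = 1 + (l : ℤ) ^ m * (l * d) := by
  induction m with
  | zero =>
    obtain ⟨a, ha⟩ := red_eq hκ 0 0
    obtain ⟨b, hb⟩ := red_eq hκ 0 1
    obtain ⟨c, hc⟩ := red_eq hκ 1 0
    obtain ⟨d, hd⟩ := red_eq hκ 1 1
    refine ⟨a, b, c, d, ?_, ?_, ?_, ?_⟩
    · rw [pow_zero, pow_one, ha, TR00]; ring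
    · rw [pow_zero, pow_one, hb, TR01]; ring
    · rw [pow_zero, pow_one, hc, TR10]; ring
    · rw [pow_zero, pow_one, hd, TR11]; ring
  | succ m ih =>
    obtain ⟨a, b, c, d, ha, hb, hc, hd⟩ := ih
    let u : Matrix (Fin 2) (Fin 2) ℤ := !![(l : ℤ) * a, 1 + l * b; l * c, l * d]
    let z : Matrix (Fin 2) (Fin 2) ℤ := !![(l : ℤ) * a ^ 2 + c + l * b * c,
      (a + d) * (1 + l * b); l * c * (a + d), c + l * b * c + l * d ^ 2]
    have hmulc : ∀ (k : ℕ) (x : Matrix (Fin 2) (Fin 2) ℤ) (i j : Fin 2),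
        (((l : Matrix (Fin 2) (Fin 2) ℤ)) ^ k * x) i j = (l : ℤ) ^ k * x i j := by
      intro k x i j
      rw [← Nat.cast_pow, ← nsmul_eq_mul, Matrix.smul_apply, nsmul_eq_mul]
      push_cast
      rfl
    have hmulc1 : ∀ (x : Matrix (Fin 2) (Fin 2) ℤ) (i j : Fin 2),
        (((l : Matrix (Fin 2) (Fin 2) ℤ)) * x) i j = (l : ℤ) * x i j := by
      intro x i j
      have := hmulc 1 x i j
      simpa using this
    have hz : u * u = (l : Matrix (Fin 2) (Fin 2) ℤ) * z := by
      ext i j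
      rw [hmulc1]
      fin_cases i <;> fin_cases j <;>
        simp [u, z, Matrix.mul_apply, Fin.sum_univ_two] <;> ring
    obtain ⟨w, hw⟩ := pow_bin l hl h5 u z hz m
    have hmat : (κ ^ (l ^ m)).1 = 1 + (l : Matrix (Fin 2) (Fin 2) ℤ) ^ m * u := by
      ext i j
      rw [Matrix.add_apply, hmulc]
      fin_cases i <;> fin_cases j
      · simpa [u] using ha
      · simpa [u] using hb
      · simpa [u] using hc
      · simpa [u] using hd
    have hpow : (κ ^ (l ^ (m + 1))).1 = ((κ ^ (l ^ m)).1) ^ l := by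
      rw [pow_succ, pow_mul]; rfl
    rw [hpow, hmat, hw]
    refine ⟨a + w 0 0, b + w 0 1, c + w 1 0, d + w 1 1, ?_, ?_, ?_, ?_⟩
    · rw [Matrix.add_apply, Matrix.add_apply, hmulc, hmulc]
      simp [u]; ring
    · rw [Matrix.add_apply, Matrix.add_apply, hmulc, hmulc]
      simp [u]; ring
    · rw [Matrix.add_apply, Matrix.add_apply, hmulc, hmulc]
      simp [u]; ring
    · rw [Matrix.add_apply, Matrix.add_apply, hmulc, hmulc]
      simp [u]; ring

theorem TR_congr {R : Type*} [CommRing R] {a b a' b' e : R} (ha : e * a = e * a')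
    (hb : e * b = e * b') : TR a b e = TR a' b' e := by
  have h1 : e * a * b = e * a' * b' := by linear_combination b * ha + a' * hb
  have h2 : e * a ^ 2 = e * a' ^ 2 := by linear_combination (a + a') * ha
  have h3 : e * b ^ 2 = e * b' ^ 2 := by linear_combination (b + b') * hb
  apply extR
  · rw [TR00, TR00, h1]
  · rw [TR01, TR01, h2]
  · rw [TR10, TR10, h3]
  · rw [TR11, TR11, h1]

/-- Serre's lemma. -/
theorem serre (l : ℕ) (hl : l.Prime) (h5 : 4 < l) (K0 : Subgroup D) (hon : Onto K0 l) (n : ℕ) :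
    Onto K0 (l ^ (n + 1)) := by
  induction n with
  | zero => rw [zero_add, pow_one]; exact hon
  | succ n ih =>
    set m := n + 1 with hm
    set N := l ^ (m + 1) with hN
    have hNz : NeZero N := ⟨pow_ne_zero _ hl.ne_zero⟩
    set e : ZMod N := (l : ZMod N) ^ m with he
    have hlN : (l : ZMod N) ^ (m + 1) = 0 := by
      have := ZMod.natCast_self N
      rw [hN] at this
      push_cast at this
      exact this
    have hel : e * (l : ZMod N) = 0 := by rw [he, ← pow_succ]; exact hlN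
    have hee : e * e = 0 := by
      rw [he, ← pow_add]
      have : m + m = (m + 1) + (m - 1) := by omega
      rw [this, pow_add, hlN, zero_mul]
    let K : Subgroup (Matrix.SpecialLinearGroup (Fin 2) (ZMod N)) := K0.map (red N)
    obtain ⟨κ, hκK, hκ⟩ := hon (TR 1 0 1)
    obtain ⟨a, b, c, d, ha, hb, hc, hd⟩ := kappa l hl h5 κ hκ m
    have hκm : red N (κ ^ (l ^ m)) = TR 1 0 e := by
      apply extR
      · rw [red_ij, ha, TR00]; push_cast; rw [← he]
        linear_combination (a : ZMod N) * hel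
      · rw [red_ij, hb, TR01]; push_cast; rw [← he]
        linear_combination (b : ZMod N) * hel
      · rw [red_ij, hc, TR10]; push_cast; rw [← he]
        linear_combination (c : ZMod N) * hel
      · rw [red_ij, hd, TR11]; push_cast; rw [← he]
        linear_combination (d : ZMod N) * hel
    have hcast : ∀ x y : D, red l x = red l y → ∀ i j : Fin 2,
        e * (((x.1 i j : ℤ)) : ZMod N) = e * (((y.1 i j : ℤ)) : ZMod N) := by
      intro x y hxy i j
      obtain ⟨t, ht⟩ := red_eq hxy i j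
      rw [ht]; push_cast
      linear_combination (t : ZMod N) * hel
    have hconj : ∀ g : D, TR (((g.1 0 0 : ℤ)) : ZMod N) (((g.1 1 0 : ℤ)) : ZMod N) e ∈ K := by
      intro g
      obtain ⟨γ, hγ, hγg⟩ := hon g
      refine ⟨γ * κ ^ (l ^ m) * γ⁻¹, K0.mul_mem (K0.mul_mem hγ (K0.pow_mem hκK _))
        (K0.inv_mem hγ), ?_⟩
      rw [map_mul, map_mul, map_inv, hκm, conj_TR]
      apply TR_congr
      · rw [mul_one, mul_zero, add_zero, red_ij]
        exact hcast _ _ hγg 0 0
      · rw [mul_one, mul_zero, add_zero, red_ij]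
        exact hcast _ _ hγg 1 0
    have hscale : ∀ (a b : ZMod N), TR a b e ∈ K → ∀ r, TR a b (e * r) ∈ K := by
      intro a b hab r
      have h2 := K.pow_mem hab r.val
      rwa [TR_pow, ZMod.natCast_zmod_val] at h2
    have h10 : TR (1 : ZMod N) 0 e ∈ K := by
      have := hconj 1
      simpa using this
    have h01 : TR (0 : ZMod N) 1 e ∈ K := by
      have := hconj wD
      have e1 : (wD.1 0 0 : ℤ) = 0 := rfl
      have e2 : (wD.1 1 0 : ℤ) = 1 := rfl
      rw [e1, e2] at this
      simpa using this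
    have h11 : TR (1 : ZMod N) 1 e ∈ K := by
      have := hconj (TR 0 1 (-1))
      rw [TR00, TR10] at this
      simpa using this
    intro g
    obtain ⟨γ, hγ, hγg⟩ := ih g
    have hr1 : red (l ^ m) (γ⁻¹ * g) = red (l ^ m) 1 := by
      rw [map_mul, map_inv, ← hγg, map_one]; group
    obtain ⟨e00, h00⟩ := red_eq hr1 0 0
    obtain ⟨e01, h01'⟩ := red_eq hr1 0 1
    obtain ⟨e10, h10'⟩ := red_eq hr1 1 0
    obtain ⟨e11, h11'⟩ := red_eq hr1 1 1
    have o00 : (1 : D).1 0 0 = 1 := by simp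
    have o01 : (1 : D).1 0 1 = 0 := by simp
    have o10 : (1 : D).1 1 0 = 0 := by simp
    have o11 : (1 : D).1 1 1 = 1 := by simp
    rw [o00] at h00
    rw [o01] at h01'
    rw [o10] at h10'
    rw [o11] at h11'
    push_cast at h00 h01' h10' h11'
    have hdet := detR (γ⁻¹ * g)
    rw [h00, h01', h10', h11'] at hdet
    have hlm : ((l : ℤ)) ^ m ≠ 0 := pow_ne_zero _ (by exact_mod_cast hl.ne_zero)
    have hsum : e00 + e11 + (l : ℤ) ^ m * (e00 * e11 - e01 * e10) = 0 := by
      have : (l : ℤ) ^ m * (e00 + e11 + (l : ℤ) ^ m * (e00 * e11 - e01 * e10)) = 0 := by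
        linear_combination hdet
      exact (mul_eq_zero.1 this).resolve_left hlm
    have hsumZ : e * ((e00 : ZMod N) + (e11 : ZMod N)) = 0 := by
      have h2 := congrArg (fun z : ℤ => (z : ZMod N)) hsum
      push_cast at h2
      rw [← he] at h2
      linear_combination e * h2 - ((e00 : ZMod N) * e11 - (e01 : ZMod N) * e10) * hee
    have hmem : red N (γ⁻¹ * g) ∈ K := by
      have hprod : red N (γ⁻¹ * g) = TR 1 1 (e * (-(e00 : ZMod N))) *
          TR 1 0 (e * ((e00 : ZMod N) + e01)) * TR 0 1 (e * ((e00 : ZMod N) - e10)) := by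
        apply extR
        · rw [red_ij, h00]; push_cast; rw [← he]
          simp only [mulR, TR00, TR01, TR10, TR11]
          linear_combination (((e00 : ZMod N) - e10) * e01 +
            e * e00 * (e00 + e01) * (e00 - e10) ) * hee
        · rw [red_ij, h01']; push_cast; rw [← he]
          simp only [mulR, TR00, TR01, TR10, TR11]
          linear_combination (-(e00 : ZMod N) * (e00 + e01)) * hee
        · rw [red_ij, h10']; push_cast; rw [← he]
          simp only [mulR, TR00, TR01, TR10, TR11]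
          linear_combination (-(e00 : ZMod N) * (e00 - e10) + e * e00 * (e00 + e01) * (e00 - e10)) * hee
        · rw [red_ij, h11']; push_cast; rw [← he]
          simp only [mulR, TR00, TR01, TR10, TR11]
          linear_combination hsumZ - ((e00 : ZMod N) * (e00 + e01)) * hee
      rw [hprod]
      exact K.mul_mem (K.mul_mem (hscale _ _ h11 _) (hscale _ _ h10 _)) (hscale _ _ h01 _)
    obtain ⟨k, hk, hkk⟩ := hmem
    refine ⟨γ * k, K0.mul_mem hγ hk, ?_⟩
    rw [map_mul, hkk, ← map_mul]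
    congr 1
    group

end Pool.Agent.MP_21c19e_al.Conf
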