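import Pool.Agent.Lib.MP_21c19e_al.LogStrong

set_option autoImplicit false

/-!
MP_21c19e_al, logarithmic injectivity radius: norm control for decompositions in `SL2(Z) * H`.
-/

namespace Pool.Agent.MP_21c19e_al.Conf

open Matrix

/-- Left multiplication by `b` maps `SL2(Z) * H` to itself and multiplies norms by at most `C`. -/
def StepK (H : Subgroup G) (b : G) (C : ℚ) : Prop := ∀ (δ : D) (M : ℚ), Bd (io δ) M →
  ∃ δ' : D, ∃ h ∈ H, b * io δ = io δ' * h ∧ Bd (io δ') (C * M)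

theorem Bd_nonneg {g : G} {M : ℚ} (h : Bd g M) : 0 ≤ M := (abs_nonneg _).trans (h 0 0)

theorem StepK_one (H : Subgroup G) : StepK H 1 1 := fun δ M hM =>
  ⟨δ, 1, H.one_mem, by simp, by rw [one_mul]; exact hM⟩

theorem StepK_mono {H : Subgroup G} {b : G} {C C' : ℚ} (h : StepK H b C) (hC : C ≤ C') :
    StepK H b C' := by
  intro δ M hM
  obtain ⟨δ', k, hk, he, hB⟩ := h δ M hM
  exact ⟨δ', k, hk, he, Bd_mono hB (mul_le_mul_of_nonneg_right hC (Bd_nonneg hM))⟩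

theorem StepK_mul {H : Subgroup G} {b c : G} {B C : ℚ} (hb : StepK H b B) (hc : StepK H c C) :
    StepK H (b * c) (B * C) := by
  intro δ M hM
  obtain ⟨δ1, h1, hh1, e1, hB1⟩ := hc δ M hM
  obtain ⟨δ2, h2, hh2, e2, hB2⟩ := hb δ1 _ hB1
  refine ⟨δ2, h2 * h1, H.mul_mem hh2 hh1, ?_, ?_⟩
  · rw [mul_assoc, e1, ← mul_assoc, e2, mul_assoc]
  · rw [mul_assoc]; exact hB2

theorem StepK_pow {H : Subgroup G} {b : G} {B : ℚ} (hb : StepK H b B) (k : ℕ) :
    StepK H (b ^ k) (B ^ k) := by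
  induction k with
  | zero => rw [pow_zero, pow_zero]; exact StepK_one H
  | succ k ih => rw [pow_succ, pow_succ]; exact StepK_mul ih hb

theorem StepK_io {H : Subgroup G} (σ : D) {K : ℚ} (hσ : Bd (io σ) K) : StepK H (io σ) (2 * K) := by
  intro δ M hM
  refine ⟨σ * δ, 1, H.one_mem, by rw [map_mul, mul_one], ?_⟩
  rw [map_mul]
  exact Bd_mul hσ hM

theorem exists_Bd (g : G) : ∃ K : ℚ, Bd g K := by
  refine ⟨|g.1 0 0| + |g.1 0 1| + |g.1 1 0| + |g.1 1 1|, ?_⟩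
  have a := abs_nonneg (g.1 0 0)
  have b := abs_nonneg (g.1 0 1)
  have c := abs_nonneg (g.1 1 0)
  have d := abs_nonneg (g.1 1 1)
  have h00 : |g.1 0 0| ≤ |g.1 0 0| + |g.1 0 1| + |g.1 1 0| + |g.1 1 1| := by linarith
  have h01 : |g.1 0 1| ≤ |g.1 0 0| + |g.1 0 1| + |g.1 1 0| + |g.1 1 1| := by linarith
  have h10 : |g.1 1 0| ≤ |g.1 0 0| + |g.1 0 1| + |g.1 1 0| + |g.1 1 1| := by linarith
  have h11 : |g.1 1 1| ≤ |g.1 0 0| + |g.1 0 1| + |g.1 1 0| + |g.1 1 1| := by linarith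
  intro i j
  fin_cases i <;> fin_cases j <;> assumption

theorem StepK_of_In (H : Subgroup G) (l : ℕ) (hl : l.Prime) (hS : Strong H l) (s : G)
    (hs : In H l s) : ∃ C : ℚ, StepK H s C := by
  classical
  obtain ⟨m, hm⟩ := hs.1
  set N := l ^ (2 * m + 1) with hN
  have hNz : NeZero N := ⟨pow_ne_zero _ hl.ne_zero⟩
  have hft : Fintype (Matrix.SpecialLinearGroup (Fin 2) (ZMod N)) := Fintype.ofFinite _
  have hdec : ∀ δ : D, ∃ δ' : D, ∃ h ∈ H, s * io δ = io δ' * h := fun δ =>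
    (In_mul_io hl hS hs δ).2
  have hrep : ∀ c : Matrix.SpecialLinearGroup (Fin 2) (ZMod N), ∃ δ : D, ∃ δ' : D, ∃ h ∈ H,
      s * io δ = io δ' * h ∧ ((∃ x : D, red N x = c) → red N δ = c) := by
    intro c
    by_cases hc : ∃ x : D, red N x = c
    · obtain ⟨x, hx⟩ := hc
      obtain ⟨δ', h, hh, he⟩ := hdec x
      exact ⟨x, δ', h, hh, he, fun _ => hx⟩
    · obtain ⟨δ', h, hh, he⟩ := hdec 1
      exact ⟨1, δ', h, hh, he, fun hx => absurd hx hc⟩
  choose rep rep' hc hcH hce hcr using hrep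
  choose K hK using fun c => exists_Bd (hc c)
  obtain ⟨S, hS'⟩ := exists_Bd s
  have hK0 : ∀ c, 0 ≤ K c := fun c => Bd_nonneg (hK c)
  have hS0 : 0 ≤ S := Bd_nonneg hS'
  refine ⟨4 * S * ∑ c, K c, ?_⟩
  intro δ M hM
  set c := red N δ with hcd
  have hrc : red N (rep c) = c := hcr c ⟨δ, rfl⟩
  obtain ⟨δ'', hδ''⟩ := conj_int l m s hm (δ * (rep c)⁻¹) (by
    rw [map_mul, map_inv]
    show red N δ * (red N (rep c))⁻¹ = 1
    rw [hrc, ← hcd]; group)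
  refine ⟨δ'' * rep' c, hc c, hcH c, ?_, ?_⟩
  · rw [map_mul, hδ'', mul_assoc, ← hce c, map_mul, map_inv]
    group
  · have he : io (δ'' * rep' c) = s * io δ * (hc c)⁻¹ := by
      have : s * io δ = io (δ'' * rep' c) * hc c := by
        rw [map_mul, hδ'', mul_assoc, ← hce c, map_mul, map_inv]
        group
      rw [this]; group
    rw [he]
    apply Bd_mono (Bd_mul (Bd_mul hS' hM) (Bd_inv (hK c)))
    have h1 : K c ≤ ∑ c, K c := Finset.single_le_sum (fun c _ => hK0 c) (Finset.mem_univ c)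
    have hM0 := Bd_nonneg hM
    have h2 : S * M * K c ≤ S * M * ∑ c, K c :=
      mul_le_mul_of_nonneg_left h1 (mul_nonneg hS0 hM0)
    linarith

/-- Steps by the diagonal matrices attached to a good prime. -/
theorem step_tor (H : Subgroup G) (l : ℕ) (hl : l.Prime) (hS : Strong H l) (hunb : PUnb l H)
    (hl0 : (l : ℚ) ≠ 0) :
    ∃ C : ℚ, 1 ≤ C ∧ StepK H (tor (l : ℚ) hl0) C ∧ StepK H (tor (l : ℚ) hl0)⁻¹ C := by
  have h1 := In_tor H l hl hS hunb hl0 1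
  have e : tor ((l : ℚ) ^ 1) (pow_ne_zero 1 hl0) = tor (l : ℚ) hl0 := by
    apply ext4 <;> simp
  rw [e] at h1
  obtain ⟨C1, hC1⟩ := StepK_of_In H l hl hS _ h1
  obtain ⟨C2, hC2⟩ := StepK_of_In H l hl hS _ (In_inv hl hS h1)
  refine ⟨max 1 (max C1 C2), le_max_left _ _, StepK_mono hC1 ?_, StepK_mono hC2 ?_⟩
  · exact (le_max_left _ _).trans (le_max_right _ _)
  · exact (le_max_right _ _).trans (le_max_right _ _)

theorem tor_pow (u : ℚ) (hu : u ≠ 0) (k : ℕ) : tor u hu ^ k = tor (u ^ k) (pow_ne_zero k hu) := by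
  induction k with
  | zero => apply ext4 <;> simp
  | succ k ih => rw [pow_succ, ih, tor_mul]; apply ext4 <;> simp [pow_succ]

/-- Steps by diagonal matrices supported on finitely many good primes. -/
theorem step_prod (H : Subgroup G) (r : ℕ) (p : Fin r → ℕ) (hp : ∀ i, (p i).Prime) (C : ℚ)
    (hp0 : ∀ i, (p i : ℚ) ≠ 0)
    (h1 : ∀ i, StepK H (tor (p i : ℚ) (hp0 i)) C)
    (h2 : ∀ i, StepK H (tor (p i : ℚ) (hp0 i))⁻¹ C) (f : Fin r → ℕ) (S : Finset (Fin r)) :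
    ∀ h : (∏ i ∈ S, (p i : ℚ) ^ f i) ≠ 0,
      StepK H (tor (∏ i ∈ S, (p i : ℚ) ^ f i) h) (C ^ ∑ i ∈ S, f i) ∧
      StepK H (tor (∏ i ∈ S, (p i : ℚ) ^ f i) h)⁻¹ (C ^ ∑ i ∈ S, f i) := by
  classical
  induction S using Finset.induction_on with
  | empty =>
    intro h
    have e : tor (∏ i ∈ (∅ : Finset (Fin r)), (p i : ℚ) ^ f i) h = 1 := by
      apply ext4 <;> simp
    rw [e, inv_one, Finset.sum_empty, pow_zero]
    exact ⟨StepK_one H, StepK_one H⟩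
  | insert a S ha ih =>
    intro h
    have hS : (∏ i ∈ S, (p i : ℚ) ^ f i) ≠ 0 :=
      Finset.prod_ne_zero_iff.2 (fun i _ => pow_ne_zero _ (hp0 i))
    obtain ⟨i1, i2⟩ := ih hS
    have e : tor (∏ i ∈ insert a S, (p i : ℚ) ^ f i) h =
        tor (p a : ℚ) (hp0 a) ^ f a * tor (∏ i ∈ S, (p i : ℚ) ^ f i) hS := by
      rw [tor_pow, tor_mul]
      apply ext4 <;> simp [Finset.prod_insert ha]
    have e' : (tor (∏ i ∈ insert a S, (p i : ℚ) ^ f i) h)⁻¹ =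
        (tor (p a : ℚ) (hp0 a))⁻¹ ^ f a * (tor (∏ i ∈ S, (p i : ℚ) ^ f i) hS)⁻¹ := by
      have e2 : tor (∏ i ∈ insert a S, (p i : ℚ) ^ f i) h =
          tor (∏ i ∈ S, (p i : ℚ) ^ f i) hS * tor (p a : ℚ) (hp0 a) ^ f a := by
        rw [tor_pow, tor_mul]
        apply ext4 <;> simp [Finset.prod_insert ha, mul_comm]
      rw [e2, _root_.mul_inv_rev, inv_pow]
    rw [Finset.sum_insert ha, pow_add]
    constructor
    · rw [e]; exact StepK_mul (StepK_pow (h1 a) _) i1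
    · rw [e']; exact StepK_mul (StepK_pow (h2 a) _) i2

/-- Norm control in the box. -/
theorem box_step (H : Subgroup G) (r : ℕ) (p : Fin r → ℕ) (hp : ∀ i, (p i).Prime)
    (hS : ∀ i, Strong H (p i)) (hunb : ∀ i, PUnb (p i) H) :
    ∃ κ : ℕ, 0 < κ ∧ ∀ (E : ℕ) (f : Fin r → ℕ) (j : ℕ), (∀ i, f i ≤ E) →
      j ≤ (∏ i, p i) ^ (2 * E) →
      ∀ (hf : (∏ i, (p i : ℚ) ^ f i) ≠ 0) (hL : (∏ i, (p i : ℚ) ^ (2 * E)) ≠ 0),
      ∃ δ : D, ∃ h ∈ H, (tor (∏ i, (p i : ℚ) ^ f i) hf)⁻¹ * up (j : ℚ) *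
        tor (∏ i, (p i : ℚ) ^ (2 * E)) hL = io δ * h ∧ Bd (io δ) (2 * 2 ^ (κ * E)) := by
  classical
  have hp0 : ∀ i, (p i : ℚ) ≠ 0 := fun i => by exact_mod_cast (hp i).ne_zero
  choose C0 hC1 hCt hCi using fun i => step_tor H (p i) (hp i) (hS i) (hunb i) (hp0 i)
  set C : ℚ := 1 + ∑ i, C0 i with hC
  have hC00 : ∀ i, 0 ≤ C0 i := fun i => by have := hC1 i; linarith
  have hle : ∀ i, C0 i ≤ C := by
    intro i
    have : C0 i ≤ ∑ i, C0 i := Finset.single_le_sum (fun i _ => hC00 i) (Finset.mem_univ i)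
    rw [hC]; linarith
  have hC1' : 1 ≤ C := by
    have : 0 ≤ ∑ i, C0 i := Finset.sum_nonneg (fun i _ => hC00 i)
    rw [hC]; linarith
  set L : ℕ := ∏ i, p i with hL
  have hL1 : 1 ≤ L := Nat.one_le_iff_ne_zero.2 (Finset.prod_ne_zero_iff.2
    (fun i _ => (hp i).ne_zero))
  -- the constant
  obtain ⟨κ, hκ⟩ : ∃ κ : ℕ, C ^ (3 * r) * (L : ℚ) ^ 2 ≤ 2 ^ κ :=
    (pow_unbounded_of_one_lt _ (by norm_num : (1 : ℚ) < 2)).imp (fun _ h => h.le)
  refine ⟨κ + 1, by omega, ?_⟩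
  intro E f j hf hj hf0 hL0
  obtain ⟨-, s1⟩ := step_prod H r p hp C hp0 (fun i => StepK_mono (hCt i) (hle i))
    (fun i => StepK_mono (hCi i) (hle i)) f Finset.univ hf0
  obtain ⟨s3, -⟩ := step_prod H r p hp C hp0 (fun i => StepK_mono (hCt i) (hle i))
    (fun i => StepK_mono (hCi i) (hle i)) (fun _ => 2 * E) Finset.univ hL0
  have hLE : (1 : ℚ) ≤ (L : ℚ) ^ (2 * E) := by
    apply one_le_pow₀
    exact_mod_cast hL1
  have hu : io (TR 1 0 (j : ℤ)) = up (j : ℚ) := by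
    rw [io_TR, ← T_e1]; push_cast; rfl
  have s2 : StepK H (up (j : ℚ)) (2 * (L : ℚ) ^ (2 * E)) := by
    rw [← hu]
    apply StepK_io
    rw [hu]
    apply Bd_up hLE
    rw [abs_of_nonneg (Nat.cast_nonneg _)]
    exact_mod_cast hj
  obtain ⟨δ, h, hh, he, hB⟩ := StepK_mul (StepK_mul s1 s2) s3 1 1 (by
    intro i j
    rw [map_one]
    fin_cases i <;> fin_cases j <;> simp)
  refine ⟨δ, h, hh, by rw [← he, map_one, mul_one], Bd_mono hB ?_⟩
  have hsum1 : ∑ i, f i ≤ r * E := by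
    calc ∑ i, f i ≤ ∑ _i : Fin r, E := Finset.sum_le_sum (fun i _ => hf i)
      _ = r * E := by simp
  have hsum2 : ∑ _i : Fin r, 2 * E = r * (2 * E) := by simp
  rw [hsum2, mul_one]
  have h3 : C ^ (∑ i, f i) ≤ C ^ (r * E) := pow_le_pow_right₀ hC1' hsum1
  calc C ^ (∑ i, f i) * (2 * (L : ℚ) ^ (2 * E)) * C ^ (r * (2 * E)) ≤
        C ^ (r * E) * (2 * (L : ℚ) ^ (2 * E)) * C ^ (r * (2 * E)) := by
        apply mul_le_mul_of_nonneg_right _ (by positivity)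
        exact mul_le_mul_of_nonneg_right h3 (by positivity)
    _ = 2 * (C ^ (3 * r) * (L : ℚ) ^ 2) ^ E := by
        rw [mul_pow, ← pow_mul, ← pow_mul]
        have : C ^ (3 * r * E) = C ^ (r * E) * C ^ (r * (2 * E)) := by
          rw [← pow_add]; congr 1; ring
        rw [this]; ring
    _ ≤ 2 * (2 ^ κ) ^ E := by
        apply mul_le_mul_of_nonneg_left _ (by norm_num)
        exact pow_le_pow_left₀ (by positivity) hκ E
    _ = 2 * 2 ^ (κ * E) := by rw [← pow_mul]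
    _ ≤ 2 * 2 ^ ((κ + 1) * E) := by
        apply mul_le_mul_of_nonneg_left _ (by norm_num)
        apply pow_le_pow_right₀ (by norm_num)
        exact Nat.mul_le_mul_right _ (by omega)

end Pool.Agent.MP_21c19e_al.Conf
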