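import Pool.Agent.Lib.MP_21c19e_al.LogSerre

set_option autoImplicit false

/-!
MP_21c19e_al, logarithmic injectivity radius: strong approximation at infinitely many primes.
-/

namespace Pool.Agent.MP_21c19e_al.Conf

open Matrix

/-- Raising to the power `r` improves the congruence. -/
theorem pow_triv (r N : ℕ) (γ : D) (hr : r ∣ N) (h : red N γ = 1) : red (r * N) (γ ^ r) = 1 := by
  have h' : red N γ = red N 1 := by rw [h, map_one]
  obtain ⟨e00, h00⟩ := red_eq h' 0 0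
  obtain ⟨e01, h01⟩ := red_eq h' 0 1
  obtain ⟨e10, h10⟩ := red_eq h' 1 0
  obtain ⟨e11, h11⟩ := red_eq h' 1 1
  have o00 : (1 : D).1 0 0 = 1 := by simp
  have o01 : (1 : D).1 0 1 = 0 := by simp
  have o10 : (1 : D).1 1 0 = 0 := by simp
  have o11 : (1 : D).1 1 1 = 1 := by simp
  rw [o00] at h00
  rw [o01] at h01
  rw [o10] at h10
  rw [o11] at h11
  set ν : ZMod (r * N) := (N : ZMod (r * N)) with hν
  have hνν : ν * ν = 0 := by
    obtain ⟨s, hs⟩ := hr
    have h1 : ((r * N : ℕ) : ZMod (r * N)) = 0 := ZMod.natCast_self _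
    have h2 : ((N : ℕ) : ZMod (r * N)) = ((r * s : ℕ) : ZMod (r * N)) := by rw [← hs]
    push_cast at h1 h2
    rw [hν]
    linear_combination (s : ZMod (r * N)) * h1 + (N : ZMod (r * N)) * h2
  have hrν : (r : ZMod (r * N)) * ν = 0 := by
    have h1 : ((r * N : ℕ) : ZMod (r * N)) = 0 := ZMod.natCast_self _
    push_cast at h1
    exact h1
  have key : ∀ k : ℕ, (red (r * N) (γ ^ k)).1 0 0 = 1 + k * ν * e00 ∧
      (red (r * N) (γ ^ k)).1 0 1 = k * ν * e01 ∧ (red (r * N) (γ ^ k)).1 1 0 = k * ν * e10 ∧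
      (red (r * N) (γ ^ k)).1 1 1 = 1 + k * ν * e11 := by
    have g00 : (red (r * N) γ).1 0 0 = 1 + ν * e00 := by rw [red_ij, h00]; push_cast; rfl
    have g01 : (red (r * N) γ).1 0 1 = ν * e01 := by rw [red_ij, h01]; push_cast; ring
    have g10 : (red (r * N) γ).1 1 0 = ν * e10 := by rw [red_ij, h10]; push_cast; ring
    have g11 : (red (r * N) γ).1 1 1 = 1 + ν * e11 := by rw [red_ij, h11]; push_cast; rfl
    intro k
    induction k with
    | zero => simp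
    | succ k ih =>
      obtain ⟨i00, i01, i10, i11⟩ := ih
      rw [pow_succ, map_mul]
      refine ⟨?_, ?_, ?_, ?_⟩
      · rw [mulR, i00, i01, g00, g10]; push_cast
        linear_combination ((k : ZMod (r * N)) * e00 * e00 + k * e01 * e10) * hνν
      · rw [mulR, i00, i01, g01, g11]; push_cast
        linear_combination ((k : ZMod (r * N)) * e00 * e01 + k * e01 * e11) * hνν
      · rw [mulR, i10, i11, g00, g10]; push_cast
        linear_combination ((k : ZMod (r * N)) * e10 * e00 + k * e11 * e10) * hνν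
      · rw [mulR, i10, i11, g01, g11]; push_cast
        linear_combination ((k : ZMod (r * N)) * e10 * e01 + k * e11 * e11) * hνν
  obtain ⟨k00, k01, k10, k11⟩ := key r
  apply extR
  · rw [k00, hrν]; simp
  · rw [k01, hrν]; simp
  · rw [k10, hrν]; simp
  · rw [k11, hrν]; simp

theorem pow_triv_iter (r : ℕ) (γ : D) (h : red r γ = 1) (k : ℕ) :
    red (r ^ (k + 1)) (γ ^ (r ^ k)) = 1 := by
  induction k with
  | zero =>
    rw [pow_zero, pow_one, pow_one]
    exact h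
  | succ k ih =>
    have := pow_triv r (r ^ (k + 1)) (γ ^ (r ^ k)) (dvd_pow_self r (by omega)) ih
    rw [← pow_mul, ← pow_succ, ← pow_succ'] at this
    exact this

theorem red_of_dvd {Q N : ℕ} (h : Q ∣ N) (γ : D) (hγ : red N γ = 1) : red Q γ = 1 := by
  have h' : red N γ = red N 1 := by rw [hγ, map_one]
  obtain ⟨e00, h00⟩ := red_eq h' 0 0
  obtain ⟨e01, h01⟩ := red_eq h' 0 1
  obtain ⟨e10, h10⟩ := red_eq h' 1 0
  obtain ⟨e11, h11⟩ := red_eq h' 1 1
  have o00 : (1 : D).1 0 0 = 1 := by simp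
  have o01 : (1 : D).1 0 1 = 0 := by simp
  have o10 : (1 : D).1 1 0 = 0 := by simp
  have o11 : (1 : D).1 1 1 = 1 := by simp
  rw [o00] at h00
  rw [o01] at h01
  rw [o10] at h10
  rw [o11] at h11
  have hN : ((N : ℤ) : ZMod Q) = 0 := by
    rw [Int.cast_natCast]
    exact (ZMod.natCast_eq_zero_iff N Q).2 h
  push_cast at hN
  apply extR
  · rw [red_ij, h00]; push_cast; rw [hN]; simp
  · rw [red_ij, h01]; push_cast; rw [hN]; simp
  · rw [red_ij, h10]; push_cast; rw [hN]; simp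
  · rw [red_ij, h11]; push_cast; rw [hN]; simp

theorem red_one_of_dvd {N : ℕ} (γ : D) (h00 : (N : ℤ) ∣ γ.1 0 0 - 1) (h01 : (N : ℤ) ∣ γ.1 0 1)
    (h10 : (N : ℤ) ∣ γ.1 1 0) (h11 : (N : ℤ) ∣ γ.1 1 1 - 1) : red N γ = 1 := by
  have hc : ∀ z : ℤ, (N : ℤ) ∣ z → ((z : ℤ) : ZMod N) = 0 := fun z hz =>
    (ZMod.intCast_zmod_eq_zero_iff_dvd _ _).2 hz
  have c00 := hc _ h00
  have c01 := hc _ h01
  have c10 := hc _ h10
  have c11 := hc _ h11
  push_cast at c00 c01 c10 c11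
  apply extR
  · rw [red_ij]; simp; linear_combination c00
  · rw [red_ij]; simp; linear_combination c01
  · rw [red_ij]; simp; linear_combination c10
  · rw [red_ij]; simp; linear_combination c11

theorem dvd_of_red_one {N : ℕ} (γ : D) (h : red N γ = 1) : (N : ℤ) ∣ γ.1 0 0 - 1 ∧
    (N : ℤ) ∣ γ.1 0 1 ∧ (N : ℤ) ∣ γ.1 1 0 ∧ (N : ℤ) ∣ γ.1 1 1 - 1 := by
  have h' : red N γ = red N 1 := by rw [h, map_one]
  obtain ⟨e00, h00⟩ := red_eq h' 0 0
  obtain ⟨e01, h01⟩ := red_eq h' 0 1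
  obtain ⟨e10, h10⟩ := red_eq h' 1 0
  obtain ⟨e11, h11⟩ := red_eq h' 1 1
  have o00 : (1 : D).1 0 0 = 1 := by simp
  have o01 : (1 : D).1 0 1 = 0 := by simp
  have o10 : (1 : D).1 1 0 = 0 := by simp
  have o11 : (1 : D).1 1 1 = 1 := by simp
  rw [o00] at h00
  rw [o01] at h01
  rw [o10] at h10
  rw [o11] at h11
  exact ⟨⟨e00, by linarith⟩, ⟨e01, by linarith⟩, ⟨e10, by linarith⟩, ⟨e11, by linarith⟩⟩

theorem dvd_radical_pow (Q : ℕ) (hQ : Q ≠ 0) : Q ∣ (∏ q ∈ Q.primeFactors, q) ^ Q := by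
  set r := ∏ q ∈ Q.primeFactors, q with hr
  have hr0 : r ≠ 0 := by
    rw [hr]
    apply Finset.prod_ne_zero_iff.2
    intro q hq
    exact (Nat.prime_of_mem_primeFactors hq).ne_zero
  rw [← Nat.factorization_le_iff_dvd hQ (pow_ne_zero _ hr0)]
  intro p
  rw [Nat.factorization_pow]
  by_cases hp : p ∈ Q.primeFactors
  · have h1 : p ∣ r := Finset.dvd_prod_of_mem _ hp
    have hpp := Nat.prime_of_mem_primeFactors hp
    have h2 : 1 ≤ r.factorization p := (hpp.dvd_iff_one_le_factorization hr0).1 h1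
    have h3 : Q.factorization p ≤ Q := (Nat.factorization_lt p hQ).le
    have h4 : Q * 1 ≤ Q * r.factorization p := Nat.mul_le_mul_left _ h2
    simp only [Finsupp.smul_apply, smul_eq_mul]
    omega
  · have : Q.factorization p = 0 := by
      rw [← Nat.support_factorization] at hp
      exact Finsupp.notMem_support_iff.1 hp
    rw [this]
    exact Nat.zero_le _

theorem strong_of_onto (H : Subgroup G) (l : ℕ) (hl : l.Prime) (h5 : 5 < l)
    (hon : Onto (H.comap io) l) : Strong H l := by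
  intro Q hQ n g
  have hp : Prime (l : ℤ) := Nat.prime_iff_prime_int.1 hl
  have hQ0 : Q ≠ 0 := by rintro rfl; exact hQ (dvd_zero l)
  obtain ⟨γ0, hγ0, hγl, hγq⟩ := exists_gamma (H.comap io) l hl (by omega) hon Q hQ
  set r := ∏ q ∈ Q.primeFactors, q with hr
  have hrQ : r ∣ Q := Nat.prod_primeFactors_dvd Q
  have hlr : ¬ (l ∣ r) := fun h => hQ (h.trans hrQ)
  -- trivial modulo the radical
  have hr1 : red r γ0 = 1 := by
    have hdiv : ∀ z : ℤ, (∀ q ∈ Q.primeFactors, (q : ℤ) ∣ z) → (r : ℤ) ∣ z := by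
      intro z hz
      have h1 : ∀ q ∈ Q.primeFactors, q ∣ z.natAbs := fun q hq => Int.natCast_dvd.1 (hz q hq)
      have h2 : r ∣ z.natAbs := by
        rw [hr]
        apply Finset.prod_primes_dvd
        · intro q hq; exact (Nat.prime_of_mem_primeFactors hq).prime
        · exact h1
      exact Int.natCast_dvd.2 h2
    have hq := fun q hq => dvd_of_red_one γ0 (hγq q (Nat.prime_of_mem_primeFactors hq)
      (Nat.dvd_of_mem_primeFactors hq))
    apply red_one_of_dvd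
    · exact hdiv _ (fun q h => (hq q h).1)
    · exact hdiv _ (fun q h => (hq q h).2.1)
    · exact hdiv _ (fun q h => (hq q h).2.2.1)
    · exact hdiv _ (fun q h => (hq q h).2.2.2)
  -- an element of `H` moving the line
  obtain ⟨σ, hσ, hσw⟩ := hon wD
  have hσ10 : ¬ ((l : ℤ) ∣ 1 * (σ.1 1 0 * 1 + σ.1 1 1 * 0) - 0 * (σ.1 0 0 * 1 + σ.1 0 1 * 0)) := by
    obtain ⟨e, he⟩ := red_eq hσw 1 0
    have e2 : (wD.1 1 0 : ℤ) = 1 := rfl
    rw [e2] at he
    rw [he]
    intro h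
    have h1 : (l : ℤ) ∣ (l : ℤ) * e := dvd_mul_right _ _
    have h2 := dvd_sub h h1
    have e3 : 1 * ((1 + (l : ℤ) * e) * 1 + σ.1 1 1 * 0) - 0 * (σ.1 0 0 * 1 + σ.1 0 1 * 0) -
        (l : ℤ) * e = 1 := by ring
    rw [e3] at h2
    exact hp.not_dvd_one h2
  have h15 : ¬ ((l : ℤ) ∣ 15) := by
    intro h
    have h1 : l ∣ 15 := by exact_mod_cast h
    have h2 : l ∣ 3 * 5 := h1
    rcases (hl.dvd_mul).1 h2 with h3 | h3
    · have := Nat.le_of_dvd (by norm_num) h3; omega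
    · have := Nat.le_of_dvd (by norm_num) h3; omega
  have hK1 : Onto ((H.comap io) ⊓ (red r).ker) l := by
    have m1 : γ0 ∈ (H.comap io) ⊓ (red r).ker := ⟨hγ0, hr1⟩
    have m2 : σ * γ0 * σ⁻¹ ∈ (H.comap io) ⊓ (red r).ker := by
      refine ⟨(H.comap io).mul_mem ((H.comap io).mul_mem hσ hγ0) ((H.comap io).inv_mem hσ), ?_⟩
      show red r (σ * γ0 * σ⁻¹) = 1
      rw [map_mul, map_mul, hr1, map_inv]; group
    exact gen_of_two l hl 0 l (by simp) _ γ0 σ 1 0 15 h15 m1 hγl m2 hσ10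
  have hK2 := serre l hl (by omega) _ hK1 n
  obtain ⟨γ2, ⟨hγ2H, hγ2r⟩, hγ2⟩ := hK2 (TR 1 0 1)
  set γ3 := γ2 ^ (r ^ Q) with hγ3
  have hγ3Q : red Q γ3 = 1 := by
    apply red_of_dvd (N := r ^ (Q + 1))
    · exact (dvd_radical_pow Q hQ0).trans (pow_dvd_pow _ (by omega))
    · exact pow_triv_iter r γ2 hγ2r Q
  have hγ3H : γ3 ∈ H.comap io := (H.comap io).pow_mem hγ2H _
  have hγ3l : red (l ^ (n + 1)) γ3 = red (l ^ (n + 1)) (TR 1 0 ((r : ℤ) ^ Q)) := by
    rw [hγ3, map_pow, hγ2, red_TR, red_TR, TR_pow]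
    push_cast
    congr 1
    ring
  have ht : ¬ ((l : ℤ) ∣ (r : ℤ) ^ Q) := by
    intro h
    have h1 := hp.dvd_of_dvd_pow h
    exact hlr (Int.natCast_dvd_natCast.1 h1)
  have hK3 : Onto ((H.comap io) ⊓ (red Q).ker) (l ^ (n + 1)) := by
    have m1 : γ3 ∈ (H.comap io) ⊓ (red Q).ker := ⟨hγ3H, hγ3Q⟩
    have m2 : σ * γ3 * σ⁻¹ ∈ (H.comap io) ⊓ (red Q).ker := by
      refine ⟨(H.comap io).mul_mem ((H.comap io).mul_mem hσ hγ3H) ((H.comap io).inv_mem hσ), ?_⟩
      show red Q (σ * γ3 * σ⁻¹) = 1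
      rw [map_mul, map_mul, hγ3Q, map_inv]; group
    exact gen_of_two l hl n (l ^ (n + 1)) rfl _ γ3 σ 1 0 ((r : ℤ) ^ Q) ht m1 hγ3l m2 hσ10
  obtain ⟨γ, ⟨hγH, hγQ⟩, hγg⟩ := hK3 g
  exact ⟨γ, hγH, hγQ, hγg⟩

/-- Strong approximation at infinitely many primes. -/
theorem strong_primes (H : Subgroup G) (hZ : ZDense H) (hL : LogPlus H) (M : ℕ) :
    ∃ l : ℕ, l.Prime ∧ M < l ∧ Strong H l := by
  obtain ⟨α, β, hα, hβ, htα, htβ, hc⟩ := exists_pair H hZ hL
  obtain ⟨l, hl, hlM, hlc, x, hx, htr, hne⟩ := exists_prime_elem H α β hα hβ htα htβ hc (M + 5)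
  exact ⟨l, hl, by omega, strong_of_onto H l hl (by omega)
    (onto_prime H α β hα hβ l hl (by omega) hlc x hx htr hne)⟩

end Pool.Agent.MP_21c19e_al.Conf
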