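import Pool.Agent.Lib.MP_21c19e_al.ConfDefs
import Pool.Agent.Lib.MP_21c19e_al.ConfPigeon
import Pool.Agent.Lib.MP_21c19e_al.LogGen

set_option autoImplicit false

/-!
MP_21c19e_al, logarithmic injectivity radius: a Frattini argument, and `l`-subgroups of `SL2(F)` for
finite fields `F` of characteristic different from `l`.
-/

namespace Pool.Agent.MP_21c19e_al.Conf

open Matrix

/-- A Frattini argument in a finite group with a surjection onto `A`. -/
theorem frattini_elt {W A : Type*} [Group W] [Group A] [Finite W] (l : ℕ) [Fact l.Prime]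
    (f : W →* A) (hs : Function.Surjective f) (U B : Subgroup A) (hUB : U ≤ B)
    (hnorm : ∀ b ∈ B, ∀ u ∈ U, b * u * b⁻¹ ∈ U) (hUp : IsPGroup l U) (a0 : A) (ha0 : a0 ∈ U)
    (b0 : A) (hb0 : b0 ∈ B) :
    ∃ P : Subgroup W, IsPGroup l P ∧ (∃ a ∈ P, f a = a0) ∧
      ∃ c : W, (∀ x ∈ P, c * x * c⁻¹ ∈ P) ∧ ∃ u ∈ U, f c = b0 * u := by
  classical
  set WB : Subgroup W := B.comap f with hWB
  set N : Subgroup WB := (U.comap f).subgroupOf WB with hN
  have hNn : N.Normal := by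
    constructor
    intro n hn g
    rw [hN, Subgroup.mem_subgroupOf, Subgroup.mem_comap] at hn ⊢
    have hg : f g.1 ∈ B := g.2
    have := hnorm _ hg _ hn
    simpa [map_mul, map_inv] using this
  obtain ⟨P0⟩ : Nonempty (Sylow l N) := inferInstance
  have hfr := Sylow.normalizer_sup_eq_top P0
  -- the Sylow subgroup maps onto `U`
  let g : N →* U :=
    { toFun := fun x => ⟨f x.1.1, x.2⟩
      map_one' := by apply Subtype.ext; simp
      map_mul' := fun x y => by apply Subtype.ext; simp }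
  have hg : Function.Surjective g := by
    rintro ⟨u, hu⟩
    obtain ⟨w, hw⟩ := hs u
    have hwB : w ∈ WB := by
      rw [hWB, Subgroup.mem_comap, hw]; exact hUB hu
    refine ⟨⟨⟨w, hwB⟩, ?_⟩, ?_⟩
    · rw [hN, Subgroup.mem_subgroupOf, Subgroup.mem_comap]
      show f w ∈ U
      rw [hw]; exact hu
    · apply Subtype.ext
      exact hw
  have hUfin : Finite U := Finite.of_surjective g hg
  have htop : (P0.1.map g) = ⊤ := by
    rw [← Subgroup.index_eq_one]
    have h1 : (P0.1.map g).index ∣ P0.1.index := Subgroup.index_map_dvd _ hg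
    obtain ⟨n, hn⟩ := IsPGroup.index hUp (P0.1.map g)
    rcases Nat.eq_zero_or_pos n with h0 | h0
    · rw [hn, h0, pow_zero]
    · exfalso
      have h2 : ¬ l ∣ P0.1.index := P0.not_dvd_index
      apply h2
      apply dvd_trans _ h1
      rw [hn]
      exact dvd_pow_self l (by omega)
  set P : Subgroup W := (P0.1.map N.subtype).map WB.subtype with hP
  refine ⟨P, (P0.2.map _).map _, ?_, ?_⟩
  · have h1 : (⟨a0, ha0⟩ : U) ∈ P0.1.map g := by rw [htop]; exact Subgroup.mem_top _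
    obtain ⟨x, hx, hxa⟩ := h1
    refine ⟨x.1.1, ⟨x.1, ⟨x, hx, rfl⟩, rfl⟩, ?_⟩
    exact congrArg Subtype.val hxa
  · obtain ⟨w, hw⟩ := hs b0
    have hwB : w ∈ WB := by
      rw [hWB, Subgroup.mem_comap, hw]; exact hb0
    have h1 : (⟨w, hwB⟩ : WB) ∈ Subgroup.normalizer (P0.1.map N.subtype : Set WB) ⊔ N := by
      have : (⟨w, hwB⟩ : WB) ∈ (⊤ : Subgroup WB) := Subgroup.mem_top _
      rw [← hfr] at this
      exact this
    rw [Subgroup.mem_sup_of_normal_right] at h1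
    obtain ⟨y, hy, z, hz, hyz⟩ := h1
    refine ⟨y.1, ?_, f z.1⁻¹, ?_, ?_⟩
    · rintro x ⟨x', hx', rfl⟩
      have := (Subgroup.mem_normalizer_iff.1 hy x').1 hx'
      exact ⟨_, this, by simp⟩
    · rw [map_inv]
      exact U.inv_mem hz
    · have h2 : y = ⟨w, hwB⟩ * z⁻¹ := by rw [← hyz]; group
      have h3 : y.1 = w * z.1⁻¹ := by rw [h2]; rfl
      rw [h3, map_mul, hw]

section field

variable {F : Type*} [Field F]

/-- Matrices commuting with a nonscalar matrix. -/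
theorem comm_lin (z x : Matrix.SpecialLinearGroup (Fin 2) F) (h : z * x = x * z)
    (hz : ¬ (z.1 0 1 = 0 ∧ z.1 1 0 = 0 ∧ z.1 0 0 = z.1 1 1)) : ∃ r s : F,
    x.1 0 0 = r + s * z.1 0 0 ∧ x.1 0 1 = s * z.1 0 1 ∧ x.1 1 0 = s * z.1 1 0 ∧
      x.1 1 1 = r + s * z.1 1 1 := by
  have k00 : (z * x).1 0 0 = (x * z).1 0 0 := by rw [h]
  have k01 : (z * x).1 0 1 = (x * z).1 0 1 := by rw [h]
  have k10 : (z * x).1 1 0 = (x * z).1 1 0 := by rw [h]
  rw [mulR, mulR] at k00 k01 k10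
  by_cases hb : z.1 0 1 = 0
  · by_cases hc : z.1 1 0 = 0
    · have had : z.1 0 0 - z.1 1 1 ≠ 0 := fun h0 => hz ⟨hb, hc, sub_eq_zero.1 h0⟩
      refine ⟨x.1 0 0 - (x.1 0 0 - x.1 1 1) / (z.1 0 0 - z.1 1 1) * z.1 0 0,
        (x.1 0 0 - x.1 1 1) / (z.1 0 0 - z.1 1 1), by ring, ?_, ?_, ?_⟩
      · rw [hb, mul_zero]
        rw [hb] at k01
        have : (z.1 0 0 - z.1 1 1) * x.1 0 1 = 0 := by linear_combination k01
        exact (mul_eq_zero.1 this).resolve_left had
      · rw [hc, mul_zero]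
        rw [hc] at k10
        have : (z.1 0 0 - z.1 1 1) * x.1 1 0 = 0 := by linear_combination -k10
        exact (mul_eq_zero.1 this).resolve_left had
      · field_simp
        ring
    · refine ⟨x.1 0 0 - x.1 1 0 / z.1 1 0 * z.1 0 0, x.1 1 0 / z.1 1 0, by ring, ?_, ?_, ?_⟩
      · field_simp
        linear_combination -k00
      · field_simp
      · field_simp
        linear_combination -k10
  · refine ⟨x.1 0 0 - x.1 0 1 / z.1 0 1 * z.1 0 0, x.1 0 1 / z.1 0 1, by ring, ?_, ?_, ?_⟩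
    · field_simp
    · field_simp
      linear_combination k00
    · field_simp
      linear_combination k01

theorem comm_of_comm (z x y : Matrix.SpecialLinearGroup (Fin 2) F) (hx : z * x = x * z)
    (hy : z * y = y * z) (hz : ¬ (z.1 0 1 = 0 ∧ z.1 1 0 = 0 ∧ z.1 0 0 = z.1 1 1)) :
    x * y = y * x := by
  obtain ⟨r, s, x00, x01, x10, x11⟩ := comm_lin z x hx hz
  obtain ⟨r', s', y00, y01, y10, y11⟩ := comm_lin z y hy hz
  apply extR <;> simp only [mulR, x00, x01, x10, x11, y00, y01, y10, y11] <;> ring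

/-- Commuting matrices with the same trace `t`, `t ^ 2 ≠ 4`. -/
theorem eq_or_inv (z x : Matrix.SpecialLinearGroup (Fin 2) F) (h : z * x = x * z)
    (htr : x.1 0 0 + x.1 1 1 = z.1 0 0 + z.1 1 1) (ht : (z.1 0 0 + z.1 1 1) ^ 2 ≠ 4) :
    x = z ∨ x = z⁻¹ := by
  have hdz := detR z
  have hdx := detR x
  have hz : ¬ (z.1 0 1 = 0 ∧ z.1 1 0 = 0 ∧ z.1 0 0 = z.1 1 1) := by
    rintro ⟨h1, h2, h3⟩
    rw [h1, ← h3] at hdz
    apply ht
    rw [← h3]
    linear_combination 4 * hdz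
  obtain ⟨r, s, x00, x01, x10, x11⟩ := comm_lin z x h hz
  set t := z.1 0 0 + z.1 1 1 with htd
  have e1 : 2 * r + s * t = t := by
    rw [x00, x11] at htr
    rw [htd] at htr ⊢
    linear_combination htr
  have e2 : r ^ 2 + r * s * t + s ^ 2 = 1 := by
    rw [x00, x01, x10, x11] at hdx
    rw [htd]
    linear_combination hdx - s ^ 2 * hdz
  have e3 : (1 - s ^ 2) * (t ^ 2 - 4) = 0 := by
    linear_combination 4 * e2 + (-(2 * r + s * t) - t - 0) * e1 + 0 * e1
  have e4 : s ^ 2 = 1 := by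
    have := (mul_eq_zero.1 e3).resolve_right (sub_ne_zero.2 ht)
    linear_combination -this
  have e5 : r * (r + s * t) = 0 := by linear_combination e2 - e4
  have hid : r = 0 → s = 1 → x = z := by
    intro h1 h2
    apply extR
    · rw [x00, h1, h2]; ring
    · rw [x01, h2]; ring
    · rw [x10, h2]; ring
    · rw [x11, h1, h2]; ring
  have hinv : r = t → s = -1 → x = z⁻¹ := by
    intro h1 h2
    apply extR
    · rw [x00, h1, h2, invR00, htd]; ring
    · rw [x01, h2, invR01]; ring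
    · rw [x10, h2, invR10]; ring
    · rw [x11, h1, h2, invR11, htd]; ring
  rcases mul_eq_zero.1 e5 with h1 | h1
  · -- r = 0
    have h2 : t * (1 - s) = 0 := by rw [h1] at e1; linear_combination -e1
    rcases mul_eq_zero.1 h2 with h3 | h3
    · have h4 : (s - 1) * (s + 1) = 0 := by linear_combination e4
      rcases mul_eq_zero.1 h4 with h5 | h5
      · left; exact hid h1 (sub_eq_zero.1 h5)
      · right; exact hinv (by rw [h1, h3]) (eq_neg_of_add_eq_zero_left h5)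
    · left; exact hid h1 (sub_eq_zero.1 h3).symm
  · have h2 : r = -(s * t) := eq_neg_of_add_eq_zero_left h1
    have h3 : t * (1 + s) = 0 := by rw [h2] at e1; linear_combination -e1
    rcases mul_eq_zero.1 h3 with h4 | h4
    · have h6 : r = 0 := by rw [h2, h4]; ring
      have h5 : (s - 1) * (s + 1) = 0 := by linear_combination e4
      rcases mul_eq_zero.1 h5 with h7 | h7
      · left; exact hid h6 (sub_eq_zero.1 h7)
      · right; exact hinv (by rw [h6, h4]) (eq_neg_of_add_eq_zero_left h7)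
    · have h5 : s = -1 := by linear_combination h4
      right; exact hinv (by rw [h2, h5]; ring) h5

theorem tr_conjR (c x : Matrix.SpecialLinearGroup (Fin 2) F) :
    (c * x * c⁻¹).1 0 0 + (c * x * c⁻¹).1 1 1 = x.1 0 0 + x.1 1 1 := by
  have hd := detR c
  simp only [mulR, invR00, invR01, invR10, invR11]
  linear_combination (x.1 0 0 + x.1 1 1) * hd

theorem unip_pow (y : Matrix.SpecialLinearGroup (Fin 2) F) (h : y.1 0 0 + y.1 1 1 = 2) (k : ℕ) :
    (y ^ k).1 0 0 = 1 + k * (y.1 0 0 - 1) ∧ (y ^ k).1 0 1 = k * y.1 0 1 ∧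
    (y ^ k).1 1 0 = k * y.1 1 0 ∧ (y ^ k).1 1 1 = 1 + k * (y.1 1 1 - 1) := by
  have hd := detR y
  have h11 : y.1 1 1 = 2 - y.1 0 0 := by linear_combination h
  rw [h11] at hd ⊢
  induction k with
  | zero => simp
  | succ k ih =>
    obtain ⟨e00, e01, e10, e11⟩ := ih
    rw [pow_succ]
    refine ⟨?_, ?_, ?_, ?_⟩
    · rw [mulR, e00, e01]; push_cast; linear_combination (-(k : F)) * hd
    · rw [mulR, e00, e01, h11]; push_cast; ring
    · rw [mulR, e10, e11]; push_cast; ring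
    · rw [mulR, e10, e11, h11]; push_cast; linear_combination (-(k : F)) * hd

end field

/-- Squares of elements normalising an `l`-subgroup of `SL2(F_q)` centralise it. -/
theorem norm_ell (q : ℕ) [Fact q.Prime] (l : ℕ) [Fact l.Prime] (hlq : l ≠ q) (hl2 : 2 < l)
    (P : Subgroup (Matrix.SpecialLinearGroup (Fin 2) (ZMod q))) (hP : IsPGroup l P)
    (c : Matrix.SpecialLinearGroup (Fin 2) (ZMod q)) (hc : ∀ x ∈ P, c * x * c⁻¹ ∈ P)
    (a : Matrix.SpecialLinearGroup (Fin 2) (ZMod q)) (ha : a ∈ P) :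
    c * c * a * c⁻¹ * c⁻¹ * a⁻¹ = 1 := by
  have hl : l.Prime := Fact.out
  have hq : q.Prime := Fact.out
  -- traces
  have htr : ∀ x ∈ P, x ≠ 1 → (x.1 0 0 + x.1 1 1) ^ 2 ≠ 4 := by
    intro x hx hx1 h4
    apply hx1
    have hd := detR x
    have h2 : (x ^ 2).1 0 0 + (x ^ 2).1 1 1 = 2 := by
      rw [pow_two, mulR, mulR]
      linear_combination h4 - 2 * hd
    have h3 : (x ^ 2) ^ q = 1 := by
      obtain ⟨e00, e01, e10, e11⟩ := unip_pow (x ^ 2) h2 q
      rw [ZMod.natCast_self] at e00 e01 e10 e11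
      apply extR
      · rw [e00]; simp
      · rw [e01]; simp
      · rw [e10]; simp
      · rw [e11]; simp
    rw [← pow_mul] at h3
    obtain ⟨k, hk⟩ := hP ⟨x, hx⟩
    have hk' : x ^ l ^ k = 1 := congrArg Subtype.val hk
    have d1 : orderOf x ∣ 2 * q := orderOf_dvd_of_pow_eq_one h3
    have d2 : orderOf x ∣ l ^ k := orderOf_dvd_of_pow_eq_one hk'
    have hcop : Nat.Coprime (2 * q) (l ^ k) := by
      apply Nat.Coprime.pow_right
      apply Nat.Coprime.mul_left
      · exact (Nat.coprime_primes Nat.prime_two hl).2 (by omega)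
      · exact (Nat.coprime_primes hq hl).2 (Ne.symm hlq)
    have d3 : orderOf x ∣ 1 := by
      have := Nat.dvd_gcd d1 d2
      rwa [hcop] at this
    exact orderOf_eq_one_iff.1 (Nat.dvd_one.1 d3)
  by_cases ha1 : a = 1
  · rw [ha1]; group
  -- the centre
  have hnt : Nontrivial P := ⟨⟨⟨a, ha⟩, 1, fun h => ha1 (congrArg Subtype.val h)⟩⟩
  have hcn : Nontrivial (Subgroup.center P) := IsPGroup.center_nontrivial hP
  obtain ⟨z, hz⟩ := exists_ne (1 : Subgroup.center P)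
  have hz1 : z.1.1 ≠ 1 := by
    intro h
    apply hz
    apply Subtype.ext
    apply Subtype.ext
    exact h
  have hzt := htr z.1.1 z.1.2 hz1
  have hzns : ¬ (z.1.1.1 0 1 = 0 ∧ z.1.1.1 1 0 = 0 ∧ z.1.1.1 0 0 = z.1.1.1 1 1) := by
    rintro ⟨h1, h2, h3⟩
    have hd := detR z.1.1
    rw [h1, ← h3] at hd
    apply hzt
    rw [← h3]
    linear_combination 4 * hd
  have hzc : ∀ x ∈ P, z.1.1 * x = x * z.1.1 := by
    intro x hx
    have := (Subgroup.mem_center_iff.1 z.2 ⟨x, hx⟩).symm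
    exact congrArg Subtype.val this
  have hx := hc a ha
  have hcomm : a * (c * a * c⁻¹) = (c * a * c⁻¹) * a :=
    comm_of_comm z.1.1 a (c * a * c⁻¹) (hzc a ha) (hzc _ hx) hzns
  rcases eq_or_inv a (c * a * c⁻¹) hcomm (tr_conjR c a) (htr a ha ha1) with h | h
  · have : c * c * a * c⁻¹ * c⁻¹ * a⁻¹ = c * (c * a * c⁻¹) * c⁻¹ * a⁻¹ := by group
    rw [this, h, h]; group
  · have : c * c * a * c⁻¹ * c⁻¹ * a⁻¹ = c * (c * a * c⁻¹) * c⁻¹ * a⁻¹ := by group
    rw [this, h]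
    have h2 : c * a⁻¹ * c⁻¹ = (c * a * c⁻¹)⁻¹ := by group
    rw [h2, h]; group

section UB

variable {R : Type*} [CommRing R]

/-- Upper unitriangular matrices. -/
def Ug : Subgroup (Matrix.SpecialLinearGroup (Fin 2) R) where
  carrier := {g | g.1 1 0 = 0 ∧ g.1 0 0 = 1 ∧ g.1 1 1 = 1}
  one_mem' := by simp
  mul_mem' := by
    rintro x y ⟨h1, h2, h3⟩ ⟨k1, k2, k3⟩
    refine ⟨?_, ?_, ?_⟩ <;> rw [mulR] <;> simp [h1, h2, h3, k1, k2, k3]
  inv_mem' := by
    rintro x ⟨h1, h2, h3⟩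
    refine ⟨?_, ?_, ?_⟩
    · rw [invR10, h1, neg_zero]
    · rw [invR00, h3]
    · rw [invR11, h2]

/-- Upper triangular matrices. -/
def Bg : Subgroup (Matrix.SpecialLinearGroup (Fin 2) R) where
  carrier := {g | g.1 1 0 = 0}
  one_mem' := by simp
  mul_mem' := by
    rintro x y h1 k1
    simp only [Set.mem_ofPred_eq] at h1 k1 ⊢
    rw [mulR, h1, k1]; ring
  inv_mem' := by
    rintro x h1
    simp only [Set.mem_ofPred_eq] at h1 ⊢
    rw [invR10, h1, neg_zero]

theorem mem_Ug (g : Matrix.SpecialLinearGroup (Fin 2) R) :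
    g ∈ Ug ↔ g.1 1 0 = 0 ∧ g.1 0 0 = 1 ∧ g.1 1 1 = 1 := Iff.rfl

theorem mem_Bg (g : Matrix.SpecialLinearGroup (Fin 2) R) : g ∈ Bg ↔ g.1 1 0 = 0 := Iff.rfl

theorem eq_TR_of_mem (g : Matrix.SpecialLinearGroup (Fin 2) R) (hg : g ∈ Ug) :
    g = TR 1 0 (g.1 0 1) := by
  obtain ⟨h1, h2, h3⟩ := hg
  apply extR
  · rw [TR00, h2]; ring
  · rw [TR01]; ring
  · rw [TR10, h1]; ring
  · rw [TR11, h3]; ring

theorem TR_mem (r : R) : TR 1 0 r ∈ Ug := by
  refine ⟨?_, ?_, ?_⟩
  · rw [TR10]; ring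
  · rw [TR00]; ring
  · rw [TR11]; ring

end UB

theorem red_surj (l n N : ℕ) (hl : l.Prime) (hN : N = l ^ (n + 1)) :
    Function.Surjective (red N) := by
  subst hN
  have : NeZero (l ^ (n + 1)) := ⟨pow_ne_zero _ hl.ne_zero⟩
  have h := top_of_elem l hl n (red (l ^ (n + 1))).range (by
    intro r
    refine ⟨TR 1 0 (r.val : ℤ), ?_⟩
    rw [red_TR]; push_cast; rw [ZMod.natCast_zmod_val]) (by
    intro r
    refine ⟨TR 0 1 (r.val : ℤ), ?_⟩
    rw [red_TR]; push_cast; rw [ZMod.natCast_zmod_val])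
  exact MonoidHom.range_eq_top.1 h

/-- An element of `K0`, trivial modulo all primes dividing `Q`, nontrivial unipotent modulo `l`. -/
theorem exists_gamma (K0 : Subgroup D) (l : ℕ) (hl : l.Prime) (hl2 : 2 < l) (hon : Onto K0 l)
    (Q : ℕ) (hQ : ¬ (l ∣ Q)) :
    ∃ γ ∈ K0, red l γ = red l (TR 1 0 15) ∧ ∀ q : ℕ, q.Prime → q ∣ Q → red q γ = 1 := by
  classical
  have hQ0 : Q ≠ 0 := by rintro rfl; exact hQ (dvd_zero l)
  have hlf : Fact l.Prime := ⟨hl⟩
  have hlz : NeZero l := ⟨hl.ne_zero⟩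
  have hqz : ∀ q : Q.primeFactors, NeZero q.1 := fun q =>
    ⟨(Nat.prime_of_mem_primeFactors q.2).ne_zero⟩
  let C : Type := (q : Q.primeFactors) → Matrix.SpecialLinearGroup (Fin 2) (ZMod q.1)
  let A : Type := Matrix.SpecialLinearGroup (Fin 2) (ZMod l)
  let F2 : D →* C := MonoidHom.pi (fun q : Q.primeFactors => red q.1)
  let F : K0 →* A × C := ((red l).prod F2).comp K0.subtype
  have hfC : Finite C := Pi.finite
  have hfA : Finite A := finSL l
  have hfW : Finite F.range := inferInstance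
  let f : F.range →* A := (MonoidHom.fst A C).comp F.range.subtype
  have hfs : Function.Surjective f := by
    intro x
    obtain ⟨g, hg⟩ := red_surj l 0 l hl (by simp) x
    obtain ⟨γ, hγ, hγg⟩ := hon g
    refine ⟨⟨F ⟨γ, hγ⟩, ⟨γ, hγ⟩, rfl⟩, ?_⟩
    show red l γ = x
    rw [hγg, hg]
  have h2 : (2 : ZMod l) ≠ 0 := by
    intro h
    have : ((2 : ℕ) : ZMod l) = 0 := by exact_mod_cast h
    rw [ZMod.natCast_eq_zero_iff] at this
    have := Nat.le_of_dvd (by norm_num) this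
    omega
  let b0 : A := ⟨!![2, 0; 0, 2⁻¹], by rw [Matrix.det_fin_two_of]; field_simp; ring⟩
  have b00 : b0.1 0 0 = 2 := rfl
  have b01 : b0.1 0 1 = 0 := rfl
  have b10 : b0.1 1 0 = 0 := rfl
  obtain ⟨P, hP, ⟨a, ha, hfa⟩, c, hcP, u, hu, hfc⟩ := frattini_elt l f hfs
    (Ug : Subgroup A) (Bg : Subgroup A) (fun x hx => hx.1) (by
      intro b hb u hu
      rw [mem_Bg] at hb
      rw [eq_TR_of_mem u hu, conj_TR, hb]
      have e : TR (b.1 0 0 * 1 + b.1 0 1 * 0) (0 * 1 + b.1 1 1 * 0) (u.1 0 1) =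
          TR 1 0 (b.1 0 0 ^ 2 * u.1 0 1) := by
        rw [← TR_smul]; congr 1 <;> ring
      rw [e]
      exact TR_mem _) (by
      rintro ⟨g, hg⟩
      refine ⟨1, ?_⟩
      apply Subtype.ext
      show g ^ (l ^ 1) = 1
      rw [pow_one, eq_TR_of_mem g hg, TR_pow, ZMod.natCast_self, mul_zero, TR_zero])
    (TR 1 0 1) (TR_mem _) b0 b10
  set w : F.range := c * c * a * c⁻¹ * c⁻¹ * a⁻¹ with hw
  have hfw : f w = TR 1 0 15 := by
    have c00 : (f c).1 0 0 = 2 := by
      rw [hfc, mulR, b00, b01, hu.2.1]; ring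
    have c10 : (f c).1 1 0 = 0 := by
      rw [hfc, mulR, b10, hu.1]; ring
    have e1 : f w = f c * (f c * TR 1 0 1 * (f c)⁻¹) * (f c)⁻¹ * (TR 1 0 1)⁻¹ := by
      rw [hw]; simp only [map_mul, map_inv, hfa, mul_assoc]
    have e2 : f c * TR 1 0 1 * (f c)⁻¹ = TR 2 0 1 := by
      rw [conj_TR, c00, c10]; congr 1 <;> ring
    have e3 : f c * TR 2 0 1 * (f c)⁻¹ = TR 4 0 1 := by
      rw [conj_TR, c00, c10]; congr 1 <;> ring
    rw [e1, e2, e3, TR_inv]
    have e4 : (TR 4 0 1 : A) = TR 1 0 16 := by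
      have := TR_smul (4 : ZMod l) 1 0 1
      rw [mul_one, mul_zero, mul_one] at this
      rw [this]; congr 1; norm_num
    rw [e4, TR_mul]; congr 1; norm_num
  obtain ⟨γ, hγ⟩ := w.2
  refine ⟨γ.1, γ.2, ?_, ?_⟩
  · have h1 : red l γ.1 = f w := by
      show (F γ).1 = w.1.1
      rw [hγ]
    rw [h1, hfw, red_TR]; push_cast; rfl
  · intro q hq hqQ
    have hqm : q ∈ Q.primeFactors := Nat.mem_primeFactors.2 ⟨hq, hqQ, hQ0⟩
    have hqf : Fact q.Prime := ⟨hq⟩
    let gq : F.range →* Matrix.SpecialLinearGroup (Fin 2) (ZMod q) :=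
      ((Pi.evalMonoidHom (fun q : Q.primeFactors =>
        Matrix.SpecialLinearGroup (Fin 2) (ZMod q.1)) ⟨q, hqm⟩).comp (MonoidHom.snd A C)).comp
        F.range.subtype
    have hlq : l ≠ q := by rintro rfl; exact hQ hqQ
    have h1 : gq w = 1 := by
      rw [hw]
      simp only [map_mul, map_inv]
      apply norm_ell q l hlq hl2 (P.map gq) (hP.map gq)
      · rintro x ⟨y, hy, rfl⟩
        exact ⟨c * y * c⁻¹, hcP y hy, by simp⟩
      · exact ⟨a, ha, rfl⟩
    have h3 : red q γ.1 = gq w := by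
      show (F γ).2 ⟨q, hqm⟩ = w.1.2 ⟨q, hqm⟩
      rw [hγ]
    rw [h3, h1]

end Pool.Agent.MP_21c19e_al.Conf
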