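import Pool.Agent.Lib.MP_21c19e_al.Defs

set_option autoImplicit false

/-!
Z21-NonCyclic. A non-cyclic additive subgroup A of Q containing 1 has, for each q > 0, an n with 1/n ∈ A and two
distinct positive divisors d1, d2 of n with d1 ≡ d2 mod q.
-/

namespace Pool.Agent.MP_21c19e_al

private theorem nc_zsmul (A : AddSubgroup ℚ) {x : ℚ} (hx : x ∈ A) (u : ℤ) : (u : ℚ) * x ∈ A := by
  have := A.zsmul_mem hx u
  rwa [zsmul_eq_mul] at this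

private theorem nc_den (A : AddSubgroup ℚ) (h1 : (1 : ℚ) ∈ A) {a : ℚ} (ha : a ∈ A) :
    (1 / (a.den : ℚ)) ∈ A := by
  have hc : IsCoprime a.num (a.den : ℤ) := by
    rw [Int.isCoprime_iff_nat_coprime]
    simpa using a.reduced
  obtain ⟨u, v, huv⟩ := hc
  have hd : (a.den : ℚ) ≠ 0 := by exact_mod_cast a.den_ne_zero
  have h2 : 1 / (a.den : ℚ) = (u : ℚ) * a + (v : ℚ) * 1 := by
    have h3 : a = (a.num : ℚ) / (a.den : ℚ) := (Rat.num_div_den a).symm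
    have h4 : (u : ℚ) * (a.num : ℚ) + (v : ℚ) * (a.den : ℚ) = 1 := by exact_mod_cast huv
    rw [div_eq_iff hd]
    calc (1 : ℚ) = (u : ℚ) * (a.num : ℚ) + (v : ℚ) * (a.den : ℚ) := h4.symm
      _ = (u : ℚ) * (a * (a.den : ℚ)) + (v : ℚ) * (a.den : ℚ) := by rw [Rat.mul_den_eq_num]
      _ = _ := by ring
  rw [h2]
  exact A.add_mem (nc_zsmul A ha u) (nc_zsmul A h1 v)

private theorem nc_lcm (A : AddSubgroup ℚ) {n k : ℕ} (hn : 0 < n) (hk : 0 < k)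
    (hnA : (1 / (n : ℚ)) ∈ A) (hkA : (1 / (k : ℚ)) ∈ A) : (1 / ((Nat.lcm n k : ℕ) : ℚ)) ∈ A := by
  have hb := Nat.gcd_eq_gcd_ab n k
  have hg : 0 < Nat.gcd n k := Nat.gcd_pos_of_pos_left _ hn
  have hn0 : (n : ℚ) ≠ 0 := by exact_mod_cast hn.ne'
  have hk0 : (k : ℚ) ≠ 0 := by exact_mod_cast hk.ne'
  have hg0 : ((Nat.gcd n k : ℕ) : ℚ) ≠ 0 := by exact_mod_cast hg.ne'
  have hl : 0 < Nat.lcm n k := Nat.lcm_pos hn hk
  have hl0 : ((Nat.lcm n k : ℕ) : ℚ) ≠ 0 := by exact_mod_cast hl.ne'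
  have hgl : ((Nat.gcd n k : ℕ) : ℚ) * ((Nat.lcm n k : ℕ) : ℚ) = (n : ℚ) * (k : ℚ) := by
    exact_mod_cast Nat.gcd_mul_lcm n k
  have hbq : ((Nat.gcd n k : ℕ) : ℚ) = (n : ℚ) * (Nat.gcdA n k : ℚ) + (k : ℚ) * (Nat.gcdB n k : ℚ) := by
    exact_mod_cast hb
  have h2 : 1 / ((Nat.lcm n k : ℕ) : ℚ) = (Nat.gcdA n k : ℚ) * (1 / (k : ℚ)) +
      (Nat.gcdB n k : ℚ) * (1 / (n : ℚ)) := by
    have h3 : 1 / ((Nat.lcm n k : ℕ) : ℚ) = ((Nat.gcd n k : ℕ) : ℚ) / ((n : ℚ) * (k : ℚ)) := by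
      rw [← hgl, div_mul_eq_div_div, div_self hg0]
    rw [h3, hbq]
    field_simp
  rw [h2]
  exact A.add_mem (nc_zsmul A hkA _) (nc_zsmul A hnA _)

theorem noncyclic_div (A : AddSubgroup ℚ) (hA : ∀ c : ℚ, ¬ A ≤ AddSubgroup.zmultiples c)
    (h1 : (1 : ℚ) ∈ A) (q : ℕ) (hq : 0 < q) :
    ∃ n d₁ d₂ : ℕ, 0 < n ∧ (1 / n : ℚ) ∈ A ∧ d₁ ∣ n ∧ d₂ ∣ n ∧ d₁ < d₂ ∧ 0 < d₁ ∧
      (q : ℤ) ∣ (d₂ : ℤ) - d₁ := by
  classical
  have hstep : ∀ n : ℕ, 0 < n → (1 / (n : ℚ)) ∈ A →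
      ∃ n' : ℕ, 0 < n' ∧ (1 / (n' : ℚ)) ∈ A ∧ n ∣ n' ∧ n < n' := by
    intro n hn hnA
    by_contra hcon
    push Not at hcon
    refine hA (1 / (n : ℚ)) fun a ha => ?_
    have hdA := nc_den A h1 ha
    have hlA := nc_lcm A hn a.den_pos hnA hdA
    have hle : Nat.lcm n a.den ≤ n :=
      hcon _ (Nat.lcm_pos hn a.den_pos) hlA (Nat.dvd_lcm_left _ _)
    have heq : Nat.lcm n a.den = n :=
      le_antisymm hle (Nat.le_of_dvd (Nat.lcm_pos hn a.den_pos) (Nat.dvd_lcm_left _ _))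
    have hdvd : a.den ∣ n := by
      have := Nat.dvd_lcm_right n a.den
      rwa [heq] at this
    obtain ⟨t, ht⟩ := hdvd
    rw [AddSubgroup.mem_zmultiples_iff]
    refine ⟨a.num * (t : ℤ), ?_⟩
    rw [zsmul_eq_mul]
    have hn0 : (n : ℚ) ≠ 0 := by exact_mod_cast hn.ne'
    have hd0 : (a.den : ℚ) ≠ 0 := by exact_mod_cast a.den_ne_zero
    have htq : (n : ℚ) = (a.den : ℚ) * (t : ℚ) := by exact_mod_cast ht
    rw [mul_one_div, div_eq_iff hn0]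
    push_cast
    calc (a.num : ℚ) * (t : ℚ) = (a * (a.den : ℚ)) * (t : ℚ) := by rw [Rat.mul_den_eq_num]
      _ = a * (n : ℚ) := by rw [htq]; ring
  have hmany : ∀ t : ℕ, ∃ n : ℕ, 0 < n ∧ (1 / (n : ℚ)) ∈ A ∧ t < n.divisors.card := by
    intro t
    induction t with
    | zero =>
      refine ⟨1, one_pos, by simpa using h1, ?_⟩
      simp
    | succ t ih =>
      obtain ⟨n, hn, hnA, hcard⟩ := ih
      obtain ⟨n', hn', hnA', hdvd, hlt⟩ := hstep n hn hnA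
      refine ⟨n', hn', hnA', ?_⟩
      have hss : n.divisors ⊂ n'.divisors := by
        rw [Finset.ssubset_iff_of_subset (Nat.divisors_subset_of_dvd hn'.ne' hdvd)]
        refine ⟨n', Nat.mem_divisors_self _ hn'.ne', fun h => ?_⟩
        have := Nat.divisor_le h
        omega
      have := Finset.card_lt_card hss
      omega
  obtain ⟨n, hn, hnA, hcard⟩ := hmany q
  have hpig : ∃ x ∈ n.divisors, ∃ y ∈ n.divisors, x ≠ y ∧ x % q = y % q := by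
    refine Finset.exists_ne_map_eq_of_card_lt_of_maps_to (t := Finset.range q) ?_ ?_
    · rw [Finset.card_range]
      exact hcard
    · intro x _
      exact Finset.mem_coe.mpr (Finset.mem_range.mpr (Nat.mod_lt _ hq))
  obtain ⟨x, hx, y, hy, hxy, hmod⟩ := hpig
  have hx1 := (Nat.mem_divisors.mp hx).1
  have hy1 := (Nat.mem_divisors.mp hy).1
  have hx0 : 0 < x := Nat.pos_of_mem_divisors hx
  have hy0 : 0 < y := Nat.pos_of_mem_divisors hy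
  rcases lt_or_gt_of_ne hxy with h | h
  · exact ⟨n, x, y, hn, hnA, hx1, hy1, h, hx0, (Nat.modEq_iff_dvd.mp hmod)⟩
  · exact ⟨n, y, x, hn, hnA, hy1, hx1, h, hy0, (Nat.modEq_iff_dvd.mp hmod.symm)⟩

end Pool.Agent.MP_21c19e_al
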