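import Pool.Agent.Lib.MP_21c19e_al.ConfCount

set_option autoImplicit false

/-!
MP_21c19e_al, polynomial injectivity radius: rationals of bounded height, the common fixed point of
the hyperbolic elements of the stabiliser of infinity.
-/

namespace Pool.Agent.MP_21c19e_al.Conf

open Matrix

/-- Rationals with numerator and denominator at most `T`. -/
noncomputable def QT (T : ℕ) : Finset ℚ :=
  ((Finset.Icc (-(T : ℤ)) T) ×ˢ (Finset.Icc 1 T)).image (fun t => (t.1 : ℚ) / (t.2 : ℕ))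

theorem mem_QT (T : ℕ) (q : ℚ) (h1 : |q.num| ≤ (T : ℤ)) (h2 : q.den ≤ T) : q ∈ QT T := by
  rw [QT, Finset.mem_image]
  refine ⟨(q.num, q.den), ?_, ?_⟩
  · rw [Finset.mem_product, Finset.mem_Icc, Finset.mem_Icc]
    exact ⟨abs_le.1 h1, q.den_pos, h2⟩
  · exact Rat.num_div_den q

theorem card_QT (T : ℕ) (hT : 1 ≤ T) : (QT T).card ≤ 3 * T ^ 2 := by
  calc (QT T).card ≤ ((Finset.Icc (-(T : ℤ)) T) ×ˢ (Finset.Icc 1 T)).card := Finset.card_image_le
    _ = (2 * T + 1) * T := by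
      rw [Finset.card_product, Int.card_Icc, Nat.card_Icc]
      have h1 : ((T : ℤ) + 1 - (-(T : ℤ))).toNat = 2 * T + 1 := by omega
      have h2 : T + 1 - 1 = T := by omega
      rw [h1, h2]
    _ ≤ (3 * T) * T := Nat.mul_le_mul_right _ (by omega)
    _ = 3 * T ^ 2 := by ring

/-- All hyperbolic upper triangular elements of a proper `H` fix the same point. -/
theorem exists_fix (H : Subgroup G) (hZ : ZDense H) (hq : NoQuot H) (hne : H ≠ ⊤) :
    ∃ z0 : ℚ, ∀ h ∈ H, h.1 1 0 = 0 → h.1 0 0 ≠ h.1 1 1 →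
      h.1 0 0 * z0 + h.1 0 1 = h.1 1 1 * z0 := by
  by_cases hex : ∃ g ∈ H, g.1 1 0 = 0 ∧ g.1 0 0 ≠ g.1 1 1
  · obtain ⟨g, hg, g10, gne⟩ := hex
    have hv : (![1, 0] : Fin 2 → ℚ) ≠ 0 := by
      intro h0
      have := congrFun h0 0
      simp at this
    have hfix : ∀ x : G, x.1 1 0 = 0 → ∃ t : ℚ,
        (x : Matrix (Fin 2) (Fin 2) ℚ).mulVec (![1, 0] : Fin 2 → ℚ) =
          t • (![1, 0] : Fin 2 → ℚ) := by
      intro x hx
      refine ⟨x.1 0 0, ?_⟩
      ext i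
      fin_cases i
      · simp [Matrix.mulVec, dotProduct, Fin.sum_univ_two]
      · simp [Matrix.mulVec, dotProduct, Fin.sum_univ_two, hx]
    have hsub : g.1 1 1 - g.1 0 0 ≠ 0 := sub_ne_zero.2 (Ne.symm gne)
    refine ⟨g.1 0 1 / (g.1 1 1 - g.1 0 0), ?_⟩
    intro h hh h10 hne'
    have hcomm := comm_stab H hZ hq hne ![1, 0] hv g h hg hh (hfix g g10) (hfix h h10)
    have h01 := comm01 g h hcomm
    field_simp
    linear_combination -h01
  · push Not at hex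
    exact ⟨0, fun h hh h10 hne' => absurd (hex h hh h10) hne'⟩

/-- Upper triangular conjugation of an upper triangular matrix. -/
theorem conj_upper_aux (x b : G) (u r : ℚ) (hu : u ≠ 0) (b00 : b.1 0 0 = u)
    (b01 : b.1 0 1 = u * r) (b10 : b.1 1 0 = 0) (b11 : b.1 1 1 = u⁻¹) (hx : x.1 1 0 = 0) :
    (b⁻¹ * x * b).1 0 0 = x.1 0 0 ∧ (b⁻¹ * x * b).1 1 0 = 0 ∧ (b⁻¹ * x * b).1 1 1 = x.1 1 1 ∧
    (b⁻¹ * x * b).1 0 1 = (x.1 0 0 - x.1 1 1) * r + x.1 0 1 / u ^ 2 := by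
  refine ⟨?_, ?_, ?_, ?_⟩
  · rw [mul00, mul00, mul01, inv00, inv01, b00, b01, b10, b11, hx]
    field_simp
    ring
  · rw [mul10, mul10, mul11, inv10, inv11, b00, b10, hx]
    ring
  · rw [mul11, mul10, mul11, inv10, inv11, b00, b01, b10, b11, hx]
    field_simp
    ring
  · rw [mul01, mul00, mul01, inv00, inv01, b01, b11, hx]
    field_simp
    ring

end Pool.Agent.MP_21c19e_al.Conf
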