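import Pool.Agent.Lib.MP_21c19e_al.RadDefs
import Pool.Agent.Lib.MP_21c19e_al.LogMain

set_option autoImplicit false

/-!
MP_21c19e_al, polynomial injectivity radius: the main counting argument.
-/

namespace Pool.Agent.MP_21c19e_al.Conf

open Matrix

/-- Entries have numerators and denominators at most `N`. -/
def Ht (g : G) (N : ℕ) : Prop := ∀ i j : Fin 2, |(g.1 i j).num| ≤ (N : ℤ) ∧ (g.1 i j).den ≤ N

theorem num_div_le (a b N : ℕ) (hb : 0 < b) (ha : a ≤ N) (hbN : b ≤ N) :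
    |((a : ℚ) / b).num| ≤ (N : ℤ) ∧ ((a : ℚ) / b).den ≤ N := by
  have hb0 : ((b : ℕ) : ℤ) ≠ 0 := by exact_mod_cast hb.ne'
  have hden : ((((a : ℚ) / b).den : ℕ) : ℤ) ∣ (b : ℤ) := by
    have := Rat.den_dvd (a : ℤ) (b : ℤ)
    rw [Rat.divInt_eq_div, Int.cast_natCast, Int.cast_natCast] at this
    exact this
  have hnum : ((a : ℚ) / b).num ∣ (a : ℤ) := by
    have := Rat.num_dvd (a : ℤ) hb0
    rw [Rat.divInt_eq_div, Int.cast_natCast, Int.cast_natCast] at this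
    exact this
  constructor
  · rcases Nat.eq_zero_or_pos a with h0 | h0
    · subst h0; simp
    · have h1 := Int.le_of_dvd (by exact_mod_cast h0) ((abs_dvd _ _).2 hnum)
      have : (a : ℤ) ≤ N := by exact_mod_cast ha
      omega
  · have h1 := Int.le_of_dvd (by exact_mod_cast hb) hden
    have : (((a : ℚ) / b).den : ℤ) ≤ (N : ℤ) := by
      have : (b : ℤ) ≤ N := by exact_mod_cast hbN
      omega
    exact_mod_cast this

/-- Elements of the box. -/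
noncomputable def bx (T : ℕ) (hT : 0 < T) (s j : ℕ) : G :=
  (tor ((s + 1 : ℕ) : ℚ) (by positivity))⁻¹ * up (j : ℚ) *
    tor (((T ^ 10 : ℕ) : ℚ)) (by positivity)

theorem bx_entries (T : ℕ) (hT : 0 < T) (s j : ℕ) :
    (bx T hT s j).1 0 0 = ((T ^ 10 : ℕ) : ℚ) / ((s + 1 : ℕ) : ℚ) ∧
    (bx T hT s j).1 0 1 = (((T ^ 10 : ℕ) : ℚ) / ((s + 1 : ℕ) : ℚ)) *
      ((j : ℚ) / ((T ^ 10 : ℕ) : ℚ) ^ 2) ∧
    (bx T hT s j).1 1 0 = 0 ∧
    (bx T hT s j).1 1 1 = (((T ^ 10 : ℕ) : ℚ) / ((s + 1 : ℕ) : ℚ))⁻¹ :=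
  b_entries _ _ (by positivity) (by positivity) _

theorem bx_ht (T : ℕ) (hT : 0 < T) (s j : ℕ) (hs : s < T ^ 9) (hj : j < T ^ 20) :
    Ht (bx T hT s j) (T ^ 20) := by
  obtain ⟨b00, b01, b10, b11⟩ := bx_entries T hT s j
  have h1 : T ^ 10 ≤ T ^ 20 := Nat.pow_le_pow_right hT (by norm_num)
  have h2 : T ^ 9 ≤ T ^ 20 := Nat.pow_le_pow_right hT (by norm_num)
  have h3 : 0 < T ^ 10 := by positivity
  have h4 : 1 ≤ T ^ 20 := Nat.one_le_pow _ _ hT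
  have e01 : (bx T hT s j).1 0 1 = (j : ℚ) / (((s + 1) * T ^ 10 : ℕ) : ℚ) := by
    rw [b01]; push_cast; field_simp
  have e11 : (bx T hT s j).1 1 1 = ((s + 1 : ℕ) : ℚ) / ((T ^ 10 : ℕ) : ℚ) := by
    rw [b11, inv_div]
  intro i k
  fin_cases i <;> fin_cases k
  · show |((bx T hT s j).1 0 0).num| ≤ _ ∧ ((bx T hT s j).1 0 0).den ≤ _
    rw [b00]; exact num_div_le _ _ _ (by omega) h1 (by omega)
  · show |((bx T hT s j).1 0 1).num| ≤ _ ∧ ((bx T hT s j).1 0 1).den ≤ _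
    rw [e01]
    refine num_div_le _ _ _ (by positivity) hj.le ?_
    calc (s + 1) * T ^ 10 ≤ T ^ 9 * T ^ 10 := Nat.mul_le_mul_right _ (by omega)
      _ = T ^ 19 := by ring
      _ ≤ T ^ 20 := Nat.pow_le_pow_right hT (by norm_num)
  · show |((bx T hT s j).1 1 0).num| ≤ _ ∧ ((bx T hT s j).1 1 0).den ≤ _
    rw [b10]; simp; exact h4
  · show |((bx T hT s j).1 1 1).num| ≤ _ ∧ ((bx T hT s j).1 1 1).den ≤ _
    rw [e11]; exact num_div_le _ _ _ h3 (by omega) h1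

theorem abs_le_of_ht (q : ℚ) (T : ℕ) (h : |q.num| ≤ (T : ℤ)) : |q| ≤ T := by
  have h1 : |q| = |(q.num : ℚ)| / q.den := by
    conv_lhs => rw [← Rat.num_div_den q]
    rw [abs_div, abs_of_nonneg (by positivity : (0 : ℚ) ≤ q.den)]
  have h2 : (1 : ℚ) ≤ q.den := by exact_mod_cast q.den_pos
  have h3 : |(q.num : ℚ)| ≤ T := by exact_mod_cast h
  rw [h1, div_le_iff₀ (by linarith)]
  have h4 : (0 : ℚ) ≤ T := by positivity
  nlinarith

/-- Upper triangular elements. -/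
theorem upper_case (H : Subgroup G) (c z0 : ℚ) (hup : ∀ x : ℚ, up x ∈ H → ∃ k : ℤ, x = k * c)
    (hz0 : ∀ h ∈ H, h.1 1 0 = 0 → h.1 0 0 ≠ h.1 1 1 → h.1 0 0 * z0 + h.1 0 1 = h.1 1 1 * z0)
    (T : ℕ) (hT : 0 < T) (hcT : c ≠ 0 → 2 / |c| < T) (s j : ℕ) (hs : s < T ^ 9)
    (x : G) (hx : Ht x T) (hm : (bx T hT s j)⁻¹ * x * bx T hT s j ∈ H) (h1 : x ≠ 1) (h2 : x ≠ -1)
    (h10 : x.1 1 0 = 0) : x.1 0 0 ≠ x.1 1 1 ∧
      (x.1 0 0 - x.1 1 1) * (z0 * ((T ^ 10 : ℕ) : ℚ) ^ 2 + j) +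
        x.1 0 1 * ((s + 1 : ℕ) : ℚ) ^ 2 = 0 := by
  obtain ⟨b00, b01, b10, b11⟩ := bx_entries T hT s j
  have hM : (0 : ℚ) < ((T ^ 10 : ℕ) : ℚ) := by positivity
  have hσ : (0 : ℚ) < ((s + 1 : ℕ) : ℚ) := by positivity
  have hu : ((T ^ 10 : ℕ) : ℚ) / ((s + 1 : ℕ) : ℚ) ≠ 0 := (div_pos hM hσ).ne'
  obtain ⟨y00, y10, y11, y01⟩ := conj_upper_aux x _ _ _ hu b00 b01 b10 b11 h10
  have hdet := det4 x
  rw [h10] at hdet
  have hne' : x.1 0 0 ≠ x.1 1 1 := by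
    intro he
    rw [← he] at hdet
    have hsq : x.1 0 0 ^ 2 = 1 := by linear_combination hdet
    have hx01 : x.1 0 1 ≠ 0 := by
      intro h0
      have h3 : (x.1 0 0 - 1) * (x.1 0 0 + 1) = 0 := by linear_combination hsq
      rcases mul_eq_zero.1 h3 with h4 | h4
      · apply h1
        apply ext4
        · show x.1 0 0 = 1; linarith
        · show x.1 0 1 = 0; exact h0
        · show x.1 1 0 = 0; exact h10
        · show x.1 1 1 = 1; linarith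
      · apply h2
        apply ext4
        · show x.1 0 0 = -1; linarith
        · show x.1 0 1 = -0; rw [h0, neg_zero]
        · show x.1 1 0 = -0; rw [h10, neg_zero]
        · show x.1 1 1 = -1; linarith
    set y := (bx T hT s j)⁻¹ * x * bx T hT s j with hy
    rw [← he, sub_self, zero_mul, zero_add] at y01
    have hyy : y * y = up (2 * x.1 0 0 * y.1 0 1) := by
      apply ext4
      · rw [mul00, y10, y00, up00]; linear_combination hsq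
      · rw [mul01, y00, y11, ← he, up01]; ring
      · rw [mul10, y10, up10]; ring
      · rw [mul11, y10, y11, ← he, up11]; linear_combination hsq
    have hmem : up (2 * x.1 0 0 * y.1 0 1) ∈ H := by rw [← hyy]; exact H.mul_mem hm hm
    obtain ⟨k, hk⟩ := hup _ hmem
    have hx00 : x.1 0 0 ≠ 0 := by
      intro h0; rw [h0] at hsq; norm_num at hsq
    have hy01 : y.1 0 1 ≠ 0 := by
      rw [y01]; exact div_ne_zero hx01 (pow_ne_zero 2 hu)
    have hne0 : (k : ℚ) * c ≠ 0 := by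
      rw [← hk]; exact mul_ne_zero (mul_ne_zero two_ne_zero hx00) hy01
    have hc0 : c ≠ 0 := right_ne_zero_of_mul hne0
    have hk1 : (k : ℚ) ≠ 0 := left_ne_zero_of_mul hne0
    have hkabs : (1 : ℚ) ≤ |(k : ℚ)| := by
      have h1 : k ≠ 0 := by exact_mod_cast hk1
      have h2 : 1 ≤ |k| := Int.one_le_abs h1
      exact_mod_cast h2
    have hcpos : 0 < |c| := abs_pos.2 hc0
    have h3 : |c| ≤ |2 * x.1 0 0 * y.1 0 1| := by
      rw [hk, abs_mul]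
      nlinarith
    have hx00a : |x.1 0 0| = 1 := by
      have h5 : |x.1 0 0| ^ 2 = 1 := by rw [sq_abs]; exact hsq
      have h6 := abs_nonneg (x.1 0 0)
      nlinarith
    have hx01a : |x.1 0 1| ≤ T := abs_le_of_ht _ _ (hx 0 1).1
    have hTq : (0 : ℚ) < T := by exact_mod_cast hT
    have hσT : ((s + 1 : ℕ) : ℚ) ≤ (T : ℚ) ^ 9 := by exact_mod_cast hs
    have h5 : |2 * x.1 0 0 * y.1 0 1| ≤ 2 / T := by
      rw [abs_mul, abs_mul, hx00a, y01, abs_div, abs_two, mul_one,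
        abs_of_nonneg (by positivity :
          (0 : ℚ) ≤ (((T ^ 10 : ℕ) : ℚ) / ((s + 1 : ℕ) : ℚ)) ^ 2)]
      rw [div_pow, div_div_eq_mul_div, mul_div_assoc', div_le_div_iff₀ (by positivity) hTq]
      have h6 : ((s + 1 : ℕ) : ℚ) ^ 2 ≤ ((T : ℚ) ^ 9) ^ 2 :=
        pow_le_pow_left₀ (by positivity) hσT 2
      calc 2 * (|x.1 0 1| * ((s + 1 : ℕ) : ℚ) ^ 2) * T
          ≤ 2 * ((T : ℚ) * ((T : ℚ) ^ 9) ^ 2) * T := by
            apply mul_le_mul_of_nonneg_right _ hTq.le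
            apply mul_le_mul_of_nonneg_left _ (by norm_num)
            exact mul_le_mul hx01a h6 (by positivity) hTq.le
        _ = 2 * ((T ^ 10 : ℕ) : ℚ) ^ 2 := by push_cast; ring
    have h7 : |c| ≤ 2 / T := h3.trans h5
    have h8 := hcT hc0
    rw [div_lt_iff₀ hcpos] at h8
    rw [le_div_iff₀ hTq] at h7
    linarith
  refine ⟨hne', ?_⟩
  have h3 := hz0 _ hm y10 (by rw [y00, y11]; exact hne')
  rw [y00, y01, y11] at h3
  field_simp at h3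
  linear_combination h3

/-- Elements which do not fix infinity. -/
theorem lower_case (T : ℕ) (hT : 0 < T) (s j : ℕ) (x : G) (ρ : ℚ)
    (hρ : x.1 0 0 * ((s + 1 : ℕ) : ℚ) ^ 2 - j * x.1 1 0 =
      ρ * (((T ^ 10 : ℕ) : ℚ) ^ 2 * x.1 1 0)) :
    ((bx T hT s j)⁻¹ * x * bx T hT s j).1 0 0 =
      ρ * (x.1 1 0 * (((T ^ 10 : ℕ) : ℚ) / ((s + 1 : ℕ) : ℚ)) ^ 2) ∧
    ((bx T hT s j)⁻¹ * x * bx T hT s j).1 1 0 =
      x.1 1 0 * (((T ^ 10 : ℕ) : ℚ) / ((s + 1 : ℕ) : ℚ)) ^ 2 ∧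
    ((bx T hT s j)⁻¹ * x * bx T hT s j).1 0 0 + ((bx T hT s j)⁻¹ * x * bx T hT s j).1 1 1 =
      x.1 0 0 + x.1 1 1 := by
  obtain ⟨b00, b01, b10, b11⟩ := bx_entries T hT s j
  have hM : (0 : ℚ) < ((T ^ 10 : ℕ) : ℚ) := by positivity
  have hσ : (0 : ℚ) < ((s + 1 : ℕ) : ℚ) := by positivity
  have hu : ((T ^ 10 : ℕ) : ℚ) / ((s + 1 : ℕ) : ℚ) ≠ 0 := (div_pos hM hσ).ne'
  obtain ⟨k1, k2, k3⟩ := conj_entries_aux x _ _ _ hu b00 b01 b10 b11
  refine ⟨?_, k2, k3⟩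
  rw [k1]
  field_simp
  linear_combination hρ

/-- The counting theorem: for a proper `H` and large `T`, at most `300 * T ^ 28` of the `T ^ 29`
conjugates of `H` by the elements of the box contain a noncentral element of height at most `T`. -/
theorem rad_core (H : Subgroup G) (hZ : ZDense H) (hq : NoQuot H) (hne : H ≠ ⊤) :
    ∃ T₀ : ℕ, ∀ T : ℕ, T₀ ≤ T → ∀ hT : 0 < T, ∀ F : Finset (ℕ × ℕ),
      (∀ t ∈ F, t.1 < T ^ 9 ∧ t.2 < T ^ 20 ∧
        ∃ x : G, Ht x T ∧ (bx T hT t.1 t.2)⁻¹ * x * bx T hT t.1 t.2 ∈ H ∧ x ≠ 1 ∧ x ≠ -1) →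
      F.card ≤ 300 * T ^ 28 := by
  classical
  -- unipotents along infinity
  obtain ⟨c, hc⟩ : ∃ c : ℚ, axisGroup 1 H ≤ AddSubgroup.zmultiples c := by
    by_contra hcon
    push Not at hcon
    exact hne (top_of_axis H hZ hq 1 hcon)
  have hup : ∀ x : ℚ, up x ∈ H → ∃ k : ℤ, x = k * c := by
    intro x hx
    have h1 : x ∈ axisGroup 1 H := by
      rw [mem_axisGroup]; simpa using hx
    obtain ⟨k, hk⟩ := AddSubgroup.mem_zmultiples_iff.1 (hc h1)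
    exact ⟨k, by rw [← hk, zsmul_eq_mul]⟩
  obtain ⟨z0, hz0⟩ := exists_fix H hZ hq hne
  obtain ⟨N3, hN3⟩ : ∃ N3 : ℕ, c ≠ 0 → 2 / |c| < N3 := by
    obtain ⟨N3, h⟩ := exists_nat_gt (2 / |c|)
    exact ⟨N3, fun _ => h⟩
  refine ⟨N3 + 300, ?_⟩
  intro T hTT hT F hF
  by_contra hcon
  push Not at hcon
  -- choose the elements
  have hx : ∀ s j : ℕ, ∃ x : G, (s, j) ∈ F →
      (Ht x T ∧ (bx T hT s j)⁻¹ * x * bx T hT s j ∈ H ∧ x ≠ 1 ∧ x ≠ -1) := by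
    intro s j
    by_cases hcond : (s, j) ∈ F
    · obtain ⟨-, -, x, h1, h2, h3⟩ := hF (s, j) hcond
      exact ⟨x, fun _ => ⟨h1, h2, h3⟩⟩
    · exact ⟨1, fun h => absurd h hcond⟩
  choose x hx using hx
  have hcT : c ≠ 0 → 2 / |c| < T := by
    intro h0
    have h1 := hN3 h0
    have h2 : (N3 : ℚ) ≤ T := by exact_mod_cast (by omega : N3 ≤ T)
    linarith
  -- the bad set
  let Q := QT T
  let Bd' : Finset (ℕ × ℕ) := F.filter
    (fun t => (x t.1 t.2).1 1 0 = 0 ∨ (x t.1 t.2).1 0 0 * ((t.1 + 1 : ℕ) : ℚ) ^ 2 =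
      (z0 * ((T ^ 10 : ℕ) : ℚ) ^ 2 + (t.2 : ℚ)) * (x t.1 t.2).1 1 0)
  have hQ : ∀ s j : ℕ, (s, j) ∈ F → ∀ i k : Fin 2, (x s j).1 i k ∈ Q := by
    intro s j hs i k
    have := (hx s j hs).1 i k
    exact mem_QT _ _ this.1 this.2
  have hBcard : Bd'.card ≤ T ^ 9 * (3 * T ^ 2) ^ 3 := by
    have hmaps : ∀ t ∈ Bd', (fun t : ℕ × ℕ => (t.1, ((x t.1 t.2).1 0 0, ((x t.1 t.2).1 0 1,
        (x t.1 t.2).1 1 0)))) t ∈ Finset.range (T ^ 9) ×ˢ (Q ×ˢ (Q ×ˢ Q)) := by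
      rintro ⟨s, j⟩ ht
      simp only [Bd', Finset.mem_filter] at ht
      simp only [Finset.mem_product, Finset.mem_range]
      exact ⟨(hF _ ht.1).1, hQ s j ht.1 0 0, hQ s j ht.1 0 1, hQ s j ht.1 1 0⟩
    have hinj : Set.InjOn (fun t : ℕ × ℕ => (t.1, ((x t.1 t.2).1 0 0, ((x t.1 t.2).1 0 1,
        (x t.1 t.2).1 1 0)))) (Bd' : Set (ℕ × ℕ)) := by
      rintro ⟨s, j⟩ ht ⟨s', j'⟩ ht' he
      simp only [Bd', Finset.coe_filter, Set.mem_ofPred_eq] at ht ht'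
      simp only [Prod.mk.injEq] at he
      obtain ⟨rfl, e00, e01, e10⟩ := he
      obtain ⟨hsF, hb⟩ := ht
      obtain ⟨hsF', hb'⟩ := ht'
      have hs : s < T ^ 9 := (hF _ hsF).1
      obtain ⟨g1, g2, g3, g4⟩ := hx s j hsF
      obtain ⟨g1', g2', g3', g4'⟩ := hx s j' hsF'
      have hjj : (j : ℚ) = j' := by
        by_cases h10 : (x s j).1 1 0 = 0
        · obtain ⟨n1, n2⟩ := upper_case H c z0 hup hz0 T hT hcT s j hs _ g1 g2 g3 g4 h10
          have h10' : (x s j').1 1 0 = 0 := by rw [← e10]; exact h10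
          obtain ⟨n1', n2'⟩ := upper_case H c z0 hup hz0 T hT hcT s j' hs _ g1' g2' g3' g4' h10'
          have d := det4 (x s j)
          have d' := det4 (x s j')
          rw [h10, mul_zero, sub_zero] at d
          rw [h10', mul_zero, sub_zero, ← e00] at d'
          have h00 : (x s j).1 0 0 ≠ 0 := by
            intro h0; rw [h0] at d; norm_num at d
          have e11 : (x s j).1 1 1 = (x s j').1 1 1 := by
            apply mul_left_cancel₀ h00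
            rw [d, d']
          rw [← e00, ← e11, ← e01] at n2'
          have h5 : ((x s j).1 0 0 - (x s j).1 1 1) * ((j : ℚ) - j') = 0 := by
            linear_combination n2 - n2'
          have h6 := (mul_eq_zero.1 h5).resolve_left (sub_ne_zero.2 n1)
          linarith
        · have h10' : (x s j').1 1 0 ≠ 0 := by rw [← e10]; exact h10
          have k1 := hb.resolve_left h10
          have k2 := hb'.resolve_left h10'
          rw [← e00, ← e10] at k2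
          have h5 : (x s j).1 1 0 * ((j : ℚ) - j') = 0 := by
            linear_combination k2 - k1
          have h6 := (mul_eq_zero.1 h5).resolve_left h10
          linarith
      have hjn : j = j' := by exact_mod_cast hjj
      rw [hjn]
    have h1 := Finset.card_le_card_of_injOn _ hmaps hinj
    refine h1.trans ?_
    rw [Finset.card_product, Finset.card_product, Finset.card_product, Finset.card_range]
    have hQc : Q.card ≤ 3 * T ^ 2 := card_QT T hT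
    calc T ^ 9 * (Q.card * (Q.card * Q.card)) ≤
        T ^ 9 * ((3 * T ^ 2) * ((3 * T ^ 2) * (3 * T ^ 2))) :=
        Nat.mul_le_mul_left _ (Nat.mul_le_mul hQc (Nat.mul_le_mul hQc hQc))
      _ = T ^ 9 * (3 * T ^ 2) ^ 3 := by ring
  -- the good set
  have hBsub : Bd' ⊆ F := Finset.filter_subset _ _
  let Gd : Finset (ℕ × ℕ) := F \ Bd'
  have hGcard : F.card - T ^ 9 * (3 * T ^ 2) ^ 3 ≤ Gd.card := by
    have := Finset.card_sdiff_of_subset hBsub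
    simp only [Gd]
    rw [this]
    omega
  have hGd : ∀ t ∈ Gd, t ∈ F ∧ (x t.1 t.2).1 1 0 ≠ 0 ∧
      (x t.1 t.2).1 0 0 * ((t.1 + 1 : ℕ) : ℚ) ^ 2 ≠
      (z0 * ((T ^ 10 : ℕ) : ℚ) ^ 2 + (t.2 : ℚ)) * (x t.1 t.2).1 1 0 := by
    intro t ht
    simp only [Gd, Bd', Finset.mem_sdiff, Finset.mem_filter, not_and, not_or] at ht
    exact ⟨ht.1, ht.2 ht.1⟩
  -- colours
  let X : ℕ → ℕ → ℤ := fun s j =>
    ((x s j).1 0 0).num * ((x s j).1 1 0).den * ((s + 1 : ℕ) : ℤ) ^ 2 -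
      ((x s j).1 0 0).den * ((x s j).1 1 0).num * j
  let XI : Finset ℤ := Finset.Icc (-((2 * T ^ 22 : ℕ) : ℤ)) ((2 * T ^ 22 : ℕ) : ℤ)
  let gk : ℕ × ℕ → (ℚ × (ℚ × ℚ)) × ℤ := fun t =>
    (((x t.1 t.2).1 0 0, ((x t.1 t.2).1 1 0, (x t.1 t.2).1 1 1)), X t.1 t.2)
  have hmaps : ∀ t ∈ Gd, gk t ∈ (Q ×ˢ (Q ×ˢ Q)) ×ˢ XI := by
    rintro ⟨s, j⟩ ht
    obtain ⟨hsF, -, -⟩ := hGd _ ht
    simp only [gk, Finset.mem_product]
    refine ⟨⟨hQ s j hsF 0 0, hQ s j hsF 1 0, hQ s j hsF 1 1⟩, ?_⟩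
    simp only [XI, X, Finset.mem_Icc]
    rw [← abs_le]
    obtain ⟨hH, -, -, -⟩ := hx s j hsF
    obtain ⟨hs, hj, -⟩ := hF _ hsF
    dsimp only at hs hj
    obtain ⟨a1, a2⟩ := hH 0 0
    obtain ⟨c1, c2⟩ := hH 1 0
    have a2' : (((x s j).1 0 0).den : ℤ) ≤ T := by exact_mod_cast a2
    have c2' : (((x s j).1 1 0).den : ℤ) ≤ T := by exact_mod_cast c2
    have a3 : (0 : ℤ) ≤ (((x s j).1 0 0).den : ℤ) := Int.natCast_nonneg _
    have c3 : (0 : ℤ) ≤ (((x s j).1 1 0).den : ℤ) := Int.natCast_nonneg _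
    have hs' : ((s + 1 : ℕ) : ℤ) ^ 2 ≤ ((T : ℤ) ^ 9) ^ 2 := by
      apply pow_le_pow_left₀ (by positivity)
      exact_mod_cast hs
    have hj' : (j : ℤ) ≤ (T : ℤ) ^ 20 := by exact_mod_cast hj.le
    have hj0 : (0 : ℤ) ≤ j := Int.natCast_nonneg _
    have hT0 : (0 : ℤ) ≤ T := Int.natCast_nonneg _
    calc |((x s j).1 0 0).num * ((x s j).1 1 0).den * ((s + 1 : ℕ) : ℤ) ^ 2 -
          ((x s j).1 0 0).den * ((x s j).1 1 0).num * j| ≤
          |((x s j).1 0 0).num * ((x s j).1 1 0).den * ((s + 1 : ℕ) : ℤ) ^ 2| +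
          |((x s j).1 0 0).den * ((x s j).1 1 0).num * j| := abs_sub _ _
      _ = |((x s j).1 0 0).num| * ((x s j).1 1 0).den * ((s + 1 : ℕ) : ℤ) ^ 2 +
          ((x s j).1 0 0).den * |((x s j).1 1 0).num| * j := by
          rw [abs_mul, abs_mul, abs_mul, abs_mul, abs_of_nonneg a3, abs_of_nonneg c3,
            abs_of_nonneg hj0, abs_of_nonneg (by positivity : (0 : ℤ) ≤ ((s + 1 : ℕ) : ℤ) ^ 2)]
      _ ≤ T * T * ((T : ℤ) ^ 9) ^ 2 + T * T * (T : ℤ) ^ 20 := by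
          apply add_le_add
          · exact mul_le_mul (mul_le_mul a1 c2' c3 hT0) hs' (by positivity) (by positivity)
          · exact mul_le_mul (mul_le_mul a2' c1 (abs_nonneg _) hT0) hj' hj0 (by positivity)
      _ ≤ ((2 * T ^ 22 : ℕ) : ℤ) := by
          push_cast
          have h1 : (T : ℤ) * T * ((T : ℤ) ^ 9) ^ 2 = (T : ℤ) ^ 20 := by ring
          have h2 : (T : ℤ) * T * (T : ℤ) ^ 20 = (T : ℤ) ^ 22 := by ring
          rw [h1, h2]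
          have h3 : (T : ℤ) ^ 20 ≤ (T : ℤ) ^ 22 :=
            pow_le_pow_right₀ (by exact_mod_cast hT) (by norm_num)
          linarith
  have hcard : ((Q ×ˢ (Q ×ˢ Q)) ×ˢ XI).card * 2 < Gd.card := by
    have hXI : XI.card = 4 * T ^ 22 + 1 := by
      simp only [XI, Int.card_Icc]
      have : (((2 * T ^ 22 : ℕ) : ℤ) + 1 - (-((2 * T ^ 22 : ℕ) : ℤ))).toNat =
          2 * (2 * T ^ 22) + 1 := by omega
      rw [this]; ring
    have hQc : Q.card ≤ 3 * T ^ 2 := card_QT T hT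
    refine lt_of_lt_of_le ?_ hGcard
    simp only [Finset.card_product]
    rw [hXI]
    have h1 : 4 * T ^ 22 + 1 ≤ 5 * T ^ 22 := by
      have := Nat.one_le_pow 22 T hT
      omega
    have h2 : Q.card * (Q.card * Q.card) * (4 * T ^ 22 + 1) * 2 ≤ 270 * T ^ 28 := by
      calc Q.card * (Q.card * Q.card) * (4 * T ^ 22 + 1) * 2 ≤
          (3 * T ^ 2) * ((3 * T ^ 2) * (3 * T ^ 2)) * (5 * T ^ 22) * 2 :=
          Nat.mul_le_mul_right _ (Nat.mul_le_mul (Nat.mul_le_mul hQc (Nat.mul_le_mul hQc hQc)) h1)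
        _ = 270 * T ^ 28 := by ring
    have h3 : T ^ 9 * (3 * T ^ 2) ^ 3 ≤ 27 * T ^ 28 := by
      calc T ^ 9 * (3 * T ^ 2) ^ 3 = 27 * T ^ 15 := by ring
        _ ≤ 27 * T ^ 28 := Nat.mul_le_mul_left _ (Nat.pow_le_pow_right hT (by norm_num))
    have h5 : 0 < T ^ 28 := by positivity
    omega
  obtain ⟨y, -, hfib⟩ := Finset.exists_lt_card_fiber_of_mul_lt_card_of_maps_to hmaps hcard
  obtain ⟨⟨s1, j1⟩, ⟨s2, j2⟩, ⟨s3, j3⟩, m1, m2, m3, h12, h13, h23⟩ :=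
    Finset.two_lt_card_iff.1 hfib
  simp only [Finset.mem_filter] at m1 m2 m3
  have hxe : ∀ s j s' j', gk (s, j) = gk (s', j') → (x s j).1 0 0 = (x s' j').1 0 0 ∧
      (x s j).1 1 0 = (x s' j').1 1 0 ∧ (x s j).1 1 1 = (x s' j').1 1 1 ∧ X s j = X s' j' := by
    intro s j s' j' h
    simp only [gk, Prod.mk.injEq] at h
    obtain ⟨⟨e00, e10, e11⟩, eX⟩ := h
    exact ⟨e00, e10, e11, eX⟩
  obtain ⟨a12, c12, d12, X12⟩ := hxe s2 j2 s1 j1 (m2.2.trans m1.2.symm)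
  obtain ⟨a13, c13, d13, X13⟩ := hxe s3 j3 s1 j1 (m3.2.trans m1.2.symm)
  obtain ⟨hf1, n1, nb1⟩ := hGd _ m1.1
  obtain ⟨hf2, n2, nb2⟩ := hGd _ m2.1
  obtain ⟨hf3, n3, nb3⟩ := hGd _ m3.1
  obtain ⟨-, g1, -, -⟩ := hx s1 j1 hf1
  obtain ⟨-, g2, -, -⟩ := hx s2 j2 hf2
  obtain ⟨-, g3, -, -⟩ := hx s3 j3 hf3
  have hMQ : (0 : ℚ) < ((T ^ 10 : ℕ) : ℚ) := by positivity
  -- the value of the colour
  have hXQ : ∀ s j : ℕ, ((X s j : ℤ) : ℚ) = ((x s j).1 0 0).den * ((x s j).1 1 0).den *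
      ((x s j).1 0 0 * ((s + 1 : ℕ) : ℚ) ^ 2 - j * (x s j).1 1 0) := by
    intro s j
    have e1 : (((x s j).1 0 0).num : ℚ) = (x s j).1 0 0 * ((x s j).1 0 0).den :=
      (Rat.mul_den_eq_num _).symm
    have e2 : (((x s j).1 1 0).num : ℚ) = (x s j).1 1 0 * ((x s j).1 1 0).den :=
      (Rat.mul_den_eq_num _).symm
    simp only [X]
    push_cast
    rw [e1, e2]
    ring
  set a := (x s1 j1).1 0 0 with ha
  set c' := (x s1 j1).1 1 0 with hc'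
  set d := (x s1 j1).1 1 1 with hd
  set ρ : ℚ := ((X s1 j1 : ℤ) : ℚ) / ((a.den : ℚ) * c'.den * (((T ^ 10 : ℕ) : ℚ) ^ 2 * c')) with hρ
  have hadQ : (a.den : ℚ) ≠ 0 := by exact_mod_cast a.den_pos.ne'
  have hcdQ : (c'.den : ℚ) ≠ 0 := by exact_mod_cast c'.den_pos.ne'
  have hρe : ∀ s j, (x s j).1 0 0 = a → (x s j).1 1 0 = c' → X s j = X s1 j1 →
      (x s j).1 0 0 * ((s + 1 : ℕ) : ℚ) ^ 2 - j * (x s j).1 1 0 =
        ρ * (((T ^ 10 : ℕ) : ℚ) ^ 2 * (x s j).1 1 0) := by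
    intro s j h0 h1 hX
    have h2 := hXQ s j
    rw [hX, h0, h1] at h2
    rw [h0, h1, hρ, h2]
    field_simp
  have hsne : ∀ s j s' j', (s, j) ≠ (s', j') → (x s j).1 0 0 = a → (x s j).1 1 0 = c' →
      (x s' j').1 0 0 = a → (x s' j').1 1 0 = c' → X s j = X s1 j1 → X s' j' = X s1 j1 →
      s ≠ s' := by
    intro s j s' j' hne' h0 h1 h0' h1' hX hX' hss
    apply hne'
    subst hss
    have k1 := hρe s j h0 h1 hX
    have k2 := hρe s j' h0' h1' hX'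
    rw [h0, h1] at k1
    rw [h0', h1'] at k2
    have h3 : c' * ((j : ℚ) - j') = 0 := by linear_combination k2 - k1
    have h4 := (mul_eq_zero.1 h3).resolve_left n1
    have h5 : (j : ℚ) = j' := by linarith
    have h6 : j = j' := by exact_mod_cast h5
    rw [h6]
  have s12 := hsne s1 j1 s2 j2 h12 rfl rfl a12 c12 rfl X12
  have s13 := hsne s1 j1 s3 j3 h13 rfl rfl a13 c13 rfl X13
  have s23 := hsne s2 j2 s3 j3 h23 a12 c12 a13 c13 X12 X13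
  obtain ⟨p1, q1, t1⟩ := lower_case T hT s1 j1 (x s1 j1) ρ (hρe s1 j1 rfl rfl rfl)
  obtain ⟨p2, q2, t2⟩ := lower_case T hT s2 j2 (x s2 j2) ρ (hρe s2 j2 a12 c12 X12)
  obtain ⟨p3, q3, t3⟩ := lower_case T hT s3 j3 (x s3 j3) ρ (hρe s3 j3 a13 c13 X13)
  rw [c12] at p2 q2
  rw [a12, d12] at t2
  rw [c13] at p3 q3
  rw [a13, d13] at t3
  have hcn0 : ∀ s : ℕ, c' * (((T ^ 10 : ℕ) : ℚ) / ((s + 1 : ℕ) : ℚ)) ^ 2 ≠ 0 := by
    intro s
    have hσ : (0 : ℚ) < ((s + 1 : ℕ) : ℚ) := by positivity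
    exact mul_ne_zero n1 (pow_ne_zero 2 (div_pos hMQ hσ).ne')
  have hcne : ∀ s s' : ℕ, s ≠ s' → c' * (((T ^ 10 : ℕ) : ℚ) / ((s + 1 : ℕ) : ℚ)) ^ 2 ≠
      c' * (((T ^ 10 : ℕ) : ℚ) / ((s' + 1 : ℕ) : ℚ)) ^ 2 := by
    intro s s' hss he
    apply hss
    have hσ : (0 : ℚ) < ((s + 1 : ℕ) : ℚ) := by positivity
    have hσ' : (0 : ℚ) < ((s' + 1 : ℕ) : ℚ) := by positivity
    have h1 := mul_left_cancel₀ n1 he
    have h2 : ((T ^ 10 : ℕ) : ℚ) / ((s + 1 : ℕ) : ℚ) = ((T ^ 10 : ℕ) : ℚ) / ((s' + 1 : ℕ) : ℚ) :=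
      (sq_eq_sq₀ (div_pos hMQ hσ).le (div_pos hMQ hσ').le).1 h1
    rw [div_eq_div_iff hσ.ne' hσ'.ne'] at h2
    have h3 := mul_left_cancel₀ hMQ.ne' h2
    have h4 : s' + 1 = s + 1 := by exact_mod_cast h3
    omega
  by_cases hτ : a + d = 0
  · -- trace zero
    obtain ⟨w00, w11, w10, w01⟩ := inv_mul_entries _ _ ρ (a + d) _ _ (hcn0 s1) (hcn0 s2)
      p1 q1 t1 p2 q2 t2
    have hwm := H.mul_mem (H.inv_mem g1) g2
    set c1 := c' * (((T ^ 10 : ℕ) : ℚ) / ((s1 + 1 : ℕ) : ℚ)) ^ 2 with hc1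
    set c2 := c' * (((T ^ 10 : ℕ) : ℚ) / ((s2 + 1 : ℕ) : ℚ)) ^ 2 with hc2
    have e1 : c1 ≠ 0 := hcn0 s1
    have e2 : c2 ≠ 0 := hcn0 s2
    have e12 : c1 ≠ c2 := hcne _ _ s12
    have hsum : c1 + c2 ≠ 0 := by
      have h1 : (0 : ℚ) < (((T ^ 10 : ℕ) : ℚ) / ((s1 + 1 : ℕ) : ℚ)) ^ 2 := by positivity
      have h2 : (0 : ℚ) < (((T ^ 10 : ℕ) : ℚ) / ((s2 + 1 : ℕ) : ℚ)) ^ 2 := by positivity
      rw [hc1, hc2, ← mul_add]
      exact mul_ne_zero n1 (by linarith)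
    have hdiff : c2 - c1 ≠ 0 := sub_ne_zero.2 (Ne.symm e12)
    have hne3 : c2 / c1 ≠ c1 / c2 := by
      intro h
      rw [div_eq_div_iff e1 e2] at h
      have : (c2 - c1) * (c1 + c2) = 0 := by linear_combination h
      exact (mul_ne_zero hdiff hsum) this
    have hfx := hz0 _ hwm w10 (by rw [w00, w11]; exact hne3)
    rw [w00, w01, w11, hτ] at hfx
    have hzρ : z0 = ρ := by
      have h1 : (c2 - c1) * (c1 + c2) * (z0 - ρ) = 0 := by
        field_simp at hfx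
        linear_combination hfx
      have h2 := (mul_eq_zero.1 h1).resolve_left (mul_ne_zero hdiff hsum)
      linarith
    apply nb1
    have := hρe s1 j1 rfl rfl rfl
    rw [hzρ]
    linear_combination this
  · exact hne (top_of_three H hZ hq _ _ _ g1 g2 g3 _ _ _ _ _ hτ (hcn0 s1) (hcn0 s2) (hcn0 s3)
      (hcne _ _ s12) (hcne _ _ s13) (hcne _ _ s23) p1 q1 t1 p2 q2 t2 p3 q3 t3)

/-- The main theorem on the injectivity radius. -/
theorem rad_main (H : Subgroup G) (hZ : ZDense H) (hq : NoQuot H) (hne : H ≠ ⊤) :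
    ∃ T₀ : ℕ, ∀ T : ℕ, T₀ ≤ T →
      Set.ncard {t : ℕ × ℕ | 1 ≤ t.1 ∧ t.1 ≤ T ^ 9 ∧ t.2 < T ^ 20 ∧
        ∃ b : G, (b : Matrix (Fin 2) (Fin 2) ℚ) =
          !![(T : ℚ) ^ 10 / t.1, (t.2 : ℚ) / ((T : ℚ) ^ 10 * t.1); 0, (t.1 : ℚ) / (T : ℚ) ^ 10] ∧
        ∃ h ∈ H, h ≠ 1 ∧ h ≠ -1 ∧ Ht (b * h * b⁻¹) T} ≤ 300 * T ^ 28 := by
  classical
  obtain ⟨T₀, h0⟩ := rad_core H hZ hq hne
  refine ⟨T₀ + 1, fun T hT => ?_⟩
  have hT0 : 0 < T := by omega
  set S := {t : ℕ × ℕ | 1 ≤ t.1 ∧ t.1 ≤ T ^ 9 ∧ t.2 < T ^ 20 ∧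
        ∃ b : G, (b : Matrix (Fin 2) (Fin 2) ℚ) =
          !![(T : ℚ) ^ 10 / t.1, (t.2 : ℚ) / ((T : ℚ) ^ 10 * t.1); 0, (t.1 : ℚ) / (T : ℚ) ^ 10] ∧
        ∃ h ∈ H, h ≠ 1 ∧ h ≠ -1 ∧ Ht (b * h * b⁻¹) T} with hS
  have hfin : S.Finite := by
    apply Set.Finite.subset ((Finset.range (T ^ 9 + 1) ×ˢ Finset.range (T ^ 20)).finite_toSet)
    rintro ⟨s, j⟩ ⟨-, h1, h2, -⟩
    simp only [Finset.coe_product, Set.mem_prod, Finset.mem_coe, Finset.mem_range]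
    dsimp only at h1 h2
    omega
  have key := h0 T (by omega) hT0 (hfin.toFinset.image (fun t => (t.1 - 1, t.2))) (by
    intro t ht
    rw [Finset.mem_image] at ht
    obtain ⟨⟨s, j⟩, hm, rfl⟩ := ht
    rw [Set.Finite.mem_toFinset] at hm
    obtain ⟨h1, h2, h3, b, hb, h, hh, hn1, hn2, hht⟩ := hm
    dsimp only at h1 h2 h3 hb ⊢
    refine ⟨by omega, h3, b * h * b⁻¹, hht, ?_, ?_, ?_⟩
    · have hbx : bx T hT0 (s - 1) j = b := by
        obtain ⟨b00, b01, b10, b11⟩ := bx_entries T hT0 (s - 1) j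
        have hs1 : s - 1 + 1 = s := by omega
        rw [hs1] at b00 b01 b11
        have hsq : (s : ℚ) ≠ 0 := by exact_mod_cast (by omega : s ≠ 0)
        have hTq : (T : ℚ) ≠ 0 := by exact_mod_cast hT0.ne'
        apply ext4
        · rw [b00]
          show _ = (b : Matrix (Fin 2) (Fin 2) ℚ) 0 0
          rw [hb]; simp
        · rw [b01]
          show _ = (b : Matrix (Fin 2) (Fin 2) ℚ) 0 1
          rw [hb]; simp; field_simp
        · rw [b10]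
          show _ = (b : Matrix (Fin 2) (Fin 2) ℚ) 1 0
          rw [hb]; simp
        · rw [b11]
          show _ = (b : Matrix (Fin 2) (Fin 2) ℚ) 1 1
          rw [hb]; simp
      rw [hbx]
      have : b⁻¹ * (b * h * b⁻¹) * b = h := by group
      rw [this]; exact hh
    · intro h1; apply hn1
      have : h = b⁻¹ * (b * h * b⁻¹) * b := by group
      rw [this, h1]; group
    · intro h1; apply hn2
      have : h = b⁻¹ * (b * h * b⁻¹) * b := by group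
      rw [this, h1]; simp)
  rw [Finset.card_image_of_injOn] at key
  · rw [Set.ncard_eq_toFinset_card S hfin]
    exact key
  · rintro ⟨s, j⟩ h1 ⟨s', j'⟩ h2 he
    simp only [Set.Finite.coe_toFinset] at h1 h2
    have a1 : 1 ≤ s := h1.1
    have a2 : 1 ≤ s' := h2.1
    simp only [Prod.mk.injEq] at he ⊢
    omega

end Pool.Agent.MP_21c19e_al.Conf
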